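import Pool.Agent.H53.JM.Dens

/-!
# Fullness for laws of pairs of bounded density

`dens_snd`: a variable of the second sample; `dens_fst`: a variable of the first sample, given the
second one.
-/

set_option autoImplicit false

namespace Pool.GEO

open Finset Real
open Pool.Agent.H49.Ent Pool.Agent.H32.Dense Pool.STK Pool.KA Pool.KSAT Pool.K2S Pool.PB
  Pool.GEN Pool.KM7 Pool.S6C Pool.M3F Pool.JPR

variable {Ω GT S T : Type} [Fintype Ω]

open Classical in
/-- The variable, put into the set `s`. -/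
noncomputable def clp (s : Finset S) (x₀ : S) (x : S) : S := if x ∈ s then x else x₀

theorem clp_mem {s : Finset S} {x₀ : S} (h : x₀ ∈ s) (x : S) : clp s x₀ x ∈ s := by
  unfold clp
  split_ifs with h1
  · exact h1
  · exact h

theorem clp_eq {s : Finset S} {x₀ : S} {x : S} (h : x ∈ s) : clp s x₀ x = x := by
  unfold clp
  rw [if_pos h]

/-- The case of one law. -/
theorem dens_one {q Q : Ω → ℝ} (hq : IsLaw q) (hQ : IsLaw Q) {C : ℝ} (hC : 1 ≤ C)
    (h : ∀ ω, Q ω ≤ C * q ω) (X : Ω → S) (W : Ω → T) (s : Finset S)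
    (hX : ∀ ω, 0 < q ω → X ω ∈ s) {θ : ℝ} (hf : Real.log s.card - CH q X W ≤ θ) :
    Real.log s.card - CH Q X W ≤ C * (θ + Real.log 2) := by
  classical
  obtain ⟨ω₀, hω₀⟩ : ∃ ω, 0 < q ω := by
    by_contra hcon
    push Not at hcon
    have h1 := hq.sum_one
    have h2 : ∑ ω, q ω ≤ 0 := Finset.sum_nonpos fun ω _ => hcon ω
    linarith
  have hx₀ := hX ω₀ hω₀
  obtain ⟨X', hX'⟩ : ∃ X' : Ω → S, X' = fun ω => clp s (X ω₀) (X ω) := ⟨_, rfl⟩
  have h1 : CH q X W ≤ CH q X' W := by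
    refine CH_mono_left hq.nonneg fun v v' hv hv' e => ?_
    have h2 := (Prod.ext_iff.1 e).1
    simp only [hX'] at h2
    rw [clp_eq (hX v hv), clp_eq (hX v' hv')] at h2
    exact h2
  have h2 : CH Q X' W ≤ CH Q X W := by
    refine CH_mono_left hQ.nonneg fun v v' hv hv' e => ?_
    have h2 := (Prod.ext_iff.1 e).1
    simp only [hX']
    simp only at h2
    rw [h2]
  have h3 := dens_full hq hQ hC h X' W (M := Real.log s.card) (θ := θ) (fun r hr => by
    have h5 := CH_le_card hr.nonneg hr.sum_one X' W (fun _ => s) (fun v _ => by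
      rw [hX']
      exact clp_mem hx₀ _)
    rw [Ex_const hr.sum_one] at h5
    exact h5) (by linarith)
  linarith

/-- **A variable of the second sample.** -/
theorem dens_snd {p : Ω → ℝ} (hp : IsLaw p) {g : Ω → GT} {R : Ω × Ω → ℝ} (hR : IsLaw R) {C : ℝ}
    (hC : 1 ≤ C) (h : ∀ e, R e ≤ C * P2 p g e) (X : Ω → S) (W : Ω → T) (s : Finset S)
    (hX : ∀ ω, 0 < p ω → X ω ∈ s) {θ : ℝ} (hf : Real.log s.card - CH p X W ≤ θ) :
    Real.log s.card - CH R (fun e => X e.2) (fun e => W e.2) ≤ C * (θ + Real.log 2) := by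
  classical
  obtain ⟨r, hr⟩ : ∃ r : Ω → ℝ, r = fun ω => law R Prod.snd ω := ⟨_, rfl⟩
  have hpsh : Psh R Prod.snd r := fun ω => by rw [hr]
  have hrl : IsLaw r := by
    refine ⟨fun ω => ?_, ?_⟩
    · rw [hr]
      exact law_nonneg hR.nonneg _ _
    · have h5 := hpsh.Ex_eq (fun _ => (1 : ℝ))
      unfold Ex at h5
      simp only [mul_one] at h5
      rw [← h5, hR.sum_one]
  have hrd : ∀ ω, r ω ≤ C * p ω := by
    intro ω
    have h5 := P2_snd hp g ω
    rw [hr, ← h5]
    simp only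
    unfold law
    rw [Finset.mul_sum]
    refine Finset.sum_le_sum fun e _ => ?_
    split_ifs
    · exact h e
    · rw [mul_zero]
  rw [hpsh.CH_eq X W]
  exact dens_one hp hrl hC hrd X W s hX hf

/-- **A variable of the first sample, given the second one.** -/
theorem dens_fst {p : Ω → ℝ} (hp : IsLaw p) {g : Ω → GT} {R : Ω × Ω → ℝ} (hR : IsLaw R) {C : ℝ}
    (hC : 1 ≤ C) (h : ∀ e, R e ≤ C * P2 p g e) (X : Ω → S) (s : Finset S)
    (hX : ∀ ω, 0 < p ω → X ω ∈ s) {θ : ℝ} (hf : Real.log s.card - CH p X g ≤ θ) :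
    Real.log s.card - CH R (fun e => X e.1) (fun e => e.2) ≤ C * (θ + Real.log 2) := by
  refine dens_one (P2_isLaw hp g) hR hC h (fun e => X e.1) (fun e => e.2) s
    (fun e he => hX _ ((P2_pos hp e).1 he).1) ?_
  rw [pair_CH hp g X]
  exact hf

end Pool.GEO
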