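import Pool.Agent.H5.GEO.ToO
import Pool.Agent.H37.CLO.Mxw
import Pool.Agent.H5.GEO.Dmg
import Pool.Agent.H53.JM.Exn

/-!
# The equation of the label of the second sample along the line of the first one

`line_law`: for one law of pairs of samples on one line. `line_w`: in a class, for all laws of
bounded density with respect to the law of pairs.
-/

set_option autoImplicit false

namespace Pool.GEO

open Finset Real MvPolynomial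
open Pool.Agent.H49.Ent Pool.Agent.H32.Dense Pool.STK Pool.KAF Pool.KAL Pool.KS3 Pool.M3F
open Pool.KJA Pool.KA Pool.K2S Pool.KSAT Pool.PB Pool.STAT Pool.GEN Pool.IEN Pool.CLO37
open Pool.KM7 Pool.S6C Pool.JPN

variable {m J : ℕ} {F : Fam m J}

/-- The chart of the leaf. -/
theorem tri_chw {c : ℕ → Fin m} {r W sg : ℕ} {g : ℕ → ℕ} {K : ℕ} {L : ℝ} {B : F.Ω → Prop}
    {V : Type} {z : PtT F → V} {z' : LnT F → V} {P : V → ℕ → PN} {P₀ kap : ℕ}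
    (hN : NLabW F c r W sg g K L B z z' P) (hL : 0 ≤ L) (hWP : W ≤ P₀)
    (hw : ∀ i < r + 1, W ≤ wid W g i + kap ∧ wid W g i ≤ P₀) {ω : F.Ω} (hω : B ω) :
    Tri ((K + 1) ^ (r + 1 + 1)) (2 ^ (kap + 2) * (1 + ((r + 1 : ℕ) : ℝ) * L) ^ (r + 1 + 1))
      (2 ^ (P₀ - W)) (ngw W P₀ g (r + 1))
      (fun i => bind₁ (nchi (2 ^ (P₀ - W)) (ngw W P₀ g (r + 1))
          (gsh (r + 1) W P₀ g (P (z (ptr F J ω)))) 0) (gsh (r + 1) W P₀ g (P (z (ptr F J ω))) i) +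
        C (ncor (2 ^ (P₀ - W)) (ngw W P₀ g (r + 1)) 0 i))
      (nwid (2 ^ (P₀ - W)) (ngw W P₀ g (r + 1)))
      (bind₁ (nchi (2 ^ (P₀ - W)) (ngw W P₀ g (r + 1)) (gsh (r + 1) W P₀ g (P (z (ptr F J ω)))) 0)
        (toF (r + 1) W (P (z (ptr F J ω)) (r + 1)))) := by
  classical
  obtain ⟨v, hv⟩ : ∃ v, v = z (ptr F J ω) := ⟨_, rfl⟩
  rw [← hv]
  have htri := hN.tri v
  have hgr : ∀ y ∈ ncell (2 ^ (P₀ - W)) (ngw W P₀ g (r + 1)) (gsh (r + 1) W P₀ g (P v)) 0,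
      ∀ i ≤ r + 1, ∀ l : Fin (r + 1), |eval y (pderiv l (toF (r + 1) W (P v i)))| ≤ L := by
    intro y hy i hi l
    rw [eval_pderiv_toF]
    by_cases hl : l.val < i
    · -- the box
      have hyu : ∀ i : Fin (r + 1), |y i - 2 ^ W * eval (unF (r + 1) W y) (P v i)| ≤
          (ngw W P₀ g (r + 1) i : ℝ) / (2 * ((2 ^ (P₀ - W) : ℕ) : ℝ)) := by
        intro i
        obtain ⟨h3, h4⟩ := hy i
        rw [eval_gsh] at h3 h4
        simp only [Pi.zero_apply, Int.cast_zero, zero_add, zero_mul, zero_div] at h3 h4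
        have e1 : (ngw W P₀ g (r + 1) i : ℝ) / ((2 ^ (P₀ - W) : ℕ) : ℝ) =
            2 * ((ngw W P₀ g (r + 1) i : ℝ) / (2 * ((2 ^ (P₀ - W) : ℕ) : ℝ))) := by
          field_simp
        rw [e1] at h4
        rw [abs_le]
        constructor <;> linarith
      obtain ⟨u, hu, h1, -⟩ := cbw_onto htri hyu
      have h2 := cbw_bxr htri hWP (fun i hi => (hw i hi).2) hu
      rw [h1] at h2
      have h3 := hN.grad ω hω (unF (r + 1) W y) (by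
        rw [← hv]
        exact h2.mono (by norm_num) le_rfl) i hi l hl
      rw [← hv] at h3
      exact h3
    · have h1 : pderiv l.val (P v i) = 0 :=
        pderiv_eq_zero_of_notMem_vars fun h => hl (Finset.mem_range.1 (htri i h))
      rw [h1, map_zero, abs_zero]
      exact hL
  refine tri_nchiK Nat.one_le_two_pow (ngw_pos W P₀ g (r + 1)) ?_ ?_ (triP_gsh htri) hL ?_ ?_
    ?_ ?_
  · have : (1 : ℝ) ≤ 2 ^ kap := one_le_pow₀ one_le_two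
    rw [pow_add]
    linarith
  · intro i
    have h1 := (hw i i.2).1
    have h2 := (hw i i.2).2
    unfold ngw
    push_cast
    have e1 : (2 : ℝ) ^ (P₀ - wid W g i + 1) ≤ 2 ^ (kap + 1) * 2 ^ (P₀ - W) := by
      rw [← pow_add]
      exact pow_le_pow_right₀ one_le_two (by omega)
    have e2 : (1 : ℝ) ≤ 2 ^ kap * 2 ^ (P₀ - W) := by
      rw [← pow_add]
      exact one_le_pow₀ one_le_two
    have e3 : (2 : ℝ) ^ (kap + 2) * 2 ^ (P₀ - W) = 2 ^ (kap + 1) * 2 ^ (P₀ - W) +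
        2 * (2 ^ kap * 2 ^ (P₀ - W)) := by ring
    rw [e3]
    linarith
  · intro i
    unfold gsh
    refine (totalDegree_sub _ _).trans (max_le ((deg_toF _).trans (hN.deg v _)) ?_)
    rw [totalDegree_C]
    exact Nat.zero_le _
  · exact (deg_toF _).trans (hN.deg v _)
  · intro y hy i l
    unfold gsh
    rw [map_sub, pderiv_C, sub_zero]
    exact hgr y hy i (by have := i.2; omega) l
  · intro y hy l
    exact hgr y hy (r + 1) le_rfl l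

/-- The constant of the chart. -/
noncomputable def ctC (r kap : ℕ) (L : ℝ) : ℝ :=
  2 ^ (kap + 2) * (1 + ((r + 1 : ℕ) : ℝ) * L) ^ (r + 1 + 1)

theorem ctC_ge {r kap : ℕ} {L : ℝ} (hL : 0 ≤ L) : 1 ≤ ctC r kap L := by
  unfold ctC
  refine one_le_mul_of_one_le_of_one_le (one_le_pow₀ one_le_two) (one_le_pow₀ ?_)
  have : 0 ≤ ((r + 1 : ℕ) : ℝ) * L := by positivity
  linarith

theorem clC_eq {r kap : ℕ} {L : ℝ} :
    clC r kap L = (2 * ((r + 1 : ℕ) : ℝ) + 1) * ctC r kap L ^ 2 + 2 := rfl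

/-- The lines at the beginning of the window `W0`, in the scale of `W1`. -/
noncomputable def avp (c : ℕ → Fin m) (r W0 W1 sg : ℕ) (l : LnT F) (o : Option (Fin (r + 1))) :
    ℝ := 2 ^ (W1 - W0) * avw c r W0 sg l o

/-- The point is near the line, with the weight of the last coordinate. -/
theorem near_w (c : ℕ → Fin m) (r W P₀ sg : ℕ) (hWP : W ≤ P₀) (hPJ : P₀ ≤ J) (ω : F.Ω)
    (o : Option (Fin (r + 1))) :
    |zsw c r W sg (ptr F J ω) o - (avw c r W sg (slam F W ω) o +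
      (tdg W P₀ (ptr F J ω) : ℝ) / ((2 ^ (P₀ - W) : ℕ) : ℝ) * bvw c r sg (slam F W ω) o)| ≤
      2 / ((2 ^ (P₀ - W) : ℕ) : ℝ) := by
  have hM0 : (0 : ℝ) < ((2 ^ (P₀ - W) : ℕ) : ℝ) := by positivity
  cases o with
  | some i => exact near_fam (F := F) c W P₀ hWP hPJ ω i.val
  | none =>
    have h1 := near_fam (F := F) c W P₀ hWP hPJ ω (r + 1)
    have hs : (1 : ℝ) ≤ 2 ^ sg := one_le_pow₀ one_le_two
    have hs0 : (0 : ℝ) < 2 ^ sg := by positivity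
    change |2 ^ W * (px c (K2S.Fam.pt F ω) (r + 1) / 2 ^ sg) -
      (aval c W (KSAT.slam F W ω) (r + 1) / 2 ^ sg +
        (tdg W P₀ (K2S.Fam.pt F ω) : ℝ) / ((2 ^ (P₀ - W) : ℕ) : ℝ) *
          (bval c (KSAT.slam F W ω) (r + 1) / 2 ^ sg))| ≤ _
    have e1 : 2 ^ W * (px c (K2S.Fam.pt F ω) (r + 1) / 2 ^ sg) -
      (aval c W (KSAT.slam F W ω) (r + 1) / 2 ^ sg +
        (tdg W P₀ (K2S.Fam.pt F ω) : ℝ) / ((2 ^ (P₀ - W) : ℕ) : ℝ) *
          (bval c (KSAT.slam F W ω) (r + 1) / 2 ^ sg)) =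
        (2 ^ W * px c (K2S.Fam.pt F ω) (r + 1) - (aval c W (KSAT.slam F W ω) (r + 1) +
          (tdg W P₀ (K2S.Fam.pt F ω) : ℝ) / ((2 ^ (P₀ - W) : ℕ) : ℝ) *
            bval c (KSAT.slam F W ω) (r + 1))) / 2 ^ sg := by ring
    rw [e1, abs_div, abs_of_pos hs0]
    exact (div_le_self (abs_nonneg _) hs).trans h1

/-- The same in the scale of the later window. -/
theorem near_p (c : ℕ → Fin m) (r W0 W1 P₀ sg : ℕ) (hW : W0 ≤ W1) (hWP : W1 ≤ P₀) (hPJ : P₀ ≤ J)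
    (ω : F.Ω) (o : Option (Fin (r + 1))) :
    |zsw c r W1 sg (ptr F J ω) o - (avp c r W0 W1 sg (slam F W0 ω) o +
      (tdg W0 P₀ (ptr F J ω) : ℝ) / ((2 ^ (P₀ - W1) : ℕ) : ℝ) * bvw c r sg (slam F W0 ω) o)| ≤
      2 / ((2 ^ (P₀ - W1) : ℕ) : ℝ) := by
  have h1 := near_w (F := F) c r W0 P₀ sg (hW.trans hWP) hPJ ω o
  have h2 : (0 : ℝ) < 2 ^ (W1 - W0) := by positivity
  have h3 := mul_le_mul_of_nonneg_left h1 h2.le
  rw [← abs_of_pos h2, ← abs_mul, abs_of_pos h2] at h3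
  have e1 : ((2 ^ (P₀ - W0) : ℕ) : ℝ) = 2 ^ (W1 - W0) * ((2 ^ (P₀ - W1) : ℕ) : ℝ) := by
    push_cast
    rw [← pow_add]
    congr 1
    omega
  have hM0 : (0 : ℝ) < ((2 ^ (P₀ - W1) : ℕ) : ℝ) := by positivity
  have e2 : zsw c r W1 sg (ptr F J ω) o = 2 ^ (W1 - W0) * zsw c r W0 sg (ptr F J ω) o := by
    have e3 : (2 : ℝ) ^ W1 = 2 ^ (W1 - W0) * 2 ^ W0 := by
      rw [← pow_add]
      congr 1
      omega
    cases o with
    | some i =>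
      change 2 ^ W1 * px c (ptr F J ω) i.val = _ * (2 ^ W0 * px c (ptr F J ω) i.val)
      rw [e3, mul_assoc]
    | none =>
      change 2 ^ W1 * (px c (ptr F J ω) (r + 1) / 2 ^ sg) =
        _ * (2 ^ W0 * (px c (ptr F J ω) (r + 1) / 2 ^ sg))
      rw [e3, mul_assoc]
  rw [e2]
  unfold avp
  rw [e1] at h3
  have e4 : (2 : ℝ) ^ (W1 - W0) * (zsw c r W0 sg (ptr F J ω) o - (avw c r W0 sg (slam F W0 ω) o +
      (tdg W0 P₀ (ptr F J ω) : ℝ) / (2 ^ (W1 - W0) * ((2 ^ (P₀ - W1) : ℕ) : ℝ)) *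
        bvw c r sg (slam F W0 ω) o)) =
      2 ^ (W1 - W0) * zsw c r W0 sg (ptr F J ω) o -
        (2 ^ (W1 - W0) * avw c r W0 sg (slam F W0 ω) o +
      (tdg W0 P₀ (ptr F J ω) : ℝ) / ((2 ^ (P₀ - W1) : ℕ) : ℝ) *
        bvw c r sg (slam F W0 ω) o) := by
    field_simp
  rw [e4] at h3
  refine h3.trans (le_of_eq ?_)
  field_simp

/-- The point of the line at the time of the sample is the exact point. -/
theorem ltW_xpt (c : ℕ → Fin m) (r W0 W1 P₀ sg : ℕ) (hW : W0 ≤ W1) (hWP : W1 ≤ P₀) (hPJ : P₀ ≤ J)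
    (ω : F.Ω) :
    ltW (2 ^ (W1 - W0)) (avp c r W0 W1 sg (slam F W0 ω)) (bvw c r sg (slam F W0 ω))
      ((tdg W0 P₀ (ptr F J ω) : ℝ) / ((2 ^ (P₀ - W0) : ℕ) : ℝ)) = xpt F c r W1 sg P₀ ω := by
  have hM0 : (0 : ℝ) < ((2 ^ (P₀ - W0) : ℕ) : ℝ) := by positivity
  have e0 : (2 : ℝ) ^ W1 = 2 ^ (W1 - W0) * 2 ^ W0 := by
    rw [← pow_add]
    congr 1
    omega
  have eP : (2 : ℝ) ^ P₀ = ((2 ^ (P₀ - W0) : ℕ) : ℝ) * 2 ^ W0 := by
    push_cast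
    rw [← pow_add]
    congr 1
    omega
  -- the time
  obtain ⟨n, hn⟩ : ∃ n, n = F.T ω / 2 ^ (J - P₀) := ⟨_, rfl⟩
  have h1 : n / 2 ^ (P₀ - W0) = F.T1 W0 ω := by
    rw [hn, Nat.div_div_eq_div_mul, ← pow_add]
    have : J - P₀ + (P₀ - W0) = J - W0 := by omega
    rw [this]
    rfl
  have h2 : tdg W0 P₀ (ptr F J ω) = n % 2 ^ (P₀ - W0) := by
    rw [hn]
    rfl
  have h3 : (n : ℝ) = ((2 ^ (P₀ - W0) : ℕ) : ℝ) * (F.T1 W0 ω : ℝ) +
      (tdg W0 P₀ (ptr F J ω) : ℝ) := by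
    rw [h2, ← h1]
    exact_mod_cast (Nat.div_add_mod n (2 ^ (P₀ - W0))).symm
  have ht : 2 ^ W0 * tP F P₀ ω = (F.T1 W0 ω : ℝ) +
      (tdg W0 P₀ (ptr F J ω) : ℝ) / ((2 ^ (P₀ - W0) : ℕ) : ℝ) := by
    unfold tP
    rw [← hn, h3, eP]
    field_simp
  obtain ⟨s, hs⟩ : ∃ s, s = (tdg W0 P₀ (ptr F J ω) : ℝ) / ((2 ^ (P₀ - W0) : ℕ) : ℝ) := ⟨_, rfl⟩
  rw [← hs] at ht ⊢
  have hx : ∀ i : ℕ, 2 ^ W0 * exn F c P₀ ω i = aval c W0 (slam F W0 ω) i +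
      s * bval c (slam F W0 ω) i := by
    intro i
    by_cases hi : i = 0
    · subst hi
      change 2 ^ W0 * tP F P₀ ω = (F.T1 W0 ω : ℝ) + s * 1
      rw [ht, mul_one]
    · have e1 : exn F c P₀ ω i = F.u ω (c (i - 1)) + tP F P₀ ω * F.d ω (c (i - 1)) := if_neg hi
      have e2 : aval c W0 (slam F W0 ω) i = 2 ^ W0 * F.u ω (c (i - 1)) +
          (F.T1 W0 ω : ℝ) * F.d ω (c (i - 1)) := by
        unfold aval
        rw [if_neg hi]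
        rfl
      have e3 : bval c (slam F W0 ω) i = F.d ω (c (i - 1)) := by
        unfold bval
        rw [if_neg hi]
        rfl
      rw [e1, e2, e3, mul_add, ← mul_assoc, ht]
      ring
  funext o
  cases o with
  | some i =>
    change 2 ^ (W1 - W0) * aval c W0 (slam F W0 ω) i.val +
      s * (((2 ^ (W1 - W0) : ℕ) : ℝ) * bval c (slam F W0 ω) i.val) = 2 ^ W1 * exn F c P₀ ω i.val
    rw [e0, mul_assoc, hx]
    push_cast
    ring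
  | none =>
    change 2 ^ (W1 - W0) * (aval c W0 (slam F W0 ω) (r + 1) / 2 ^ sg) +
      s * (((2 ^ (W1 - W0) : ℕ) : ℝ) * (bval c (slam F W0 ω) (r + 1) / 2 ^ sg)) =
        2 ^ W1 * (exn F c P₀ ω (r + 1) / 2 ^ sg)
    rw [e0, mul_assoc, ← mul_div_assoc ((2 : ℝ) ^ W0), hx]
    push_cast
    ring

/-- **The equation along the line, for a law of pairs.** -/
theorem line_law (r D K : ℕ) : ∃ C : ℝ, 1 ≤ C ∧ ∀ {m J : ℕ} {F : Fam m J} {c : ℕ → Fin m}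
    {W0 W1 sg : ℕ} {g : ℕ → ℕ} {L : ℝ} {A : F.Ω → Prop} {V : Type} {z : PtT F → V}
    {z' : LnT F → V} {P : V → ℕ → PN} {P₀ kap : ℕ}
    (Qh : V → MvPolynomial (Option (Fin (r + 1))) ℝ) (ρ : V → ℝ) (R : F.Ω × F.Ω → ℝ)
    (h E H KK L' Λ μ δ₁ δ₂ : ℝ),
    NLabW F c r W1 sg g K L A z z' P → 0 ≤ L → 0 < law F.p A True → W0 ≤ W1 → W1 ≤ P₀ →
    P₀ ≤ J → P₀ ≤ g r → (∀ i < r + 1, W1 ≤ wid W1 g i + kap ∧ wid W1 g i ≤ P₀) →
    (∀ ω, A ω → CsQ r D W1 P₀ g (P (z (ptr F J ω))) (Qh (z (ptr F J ω))) (ρ (z (ptr F J ω)))) →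
    (∀ ω, A ω → 1 ≤ ((2 ^ (P₀ - W1) : ℕ) : ℝ) * ρ (z (ptr F J ω))) →
    (∀ i, E ≤ ngw W1 P₀ g (r + 1) i) → 1 ≤ E → 1 ≤ L' → 1 ≤ Λ → IsLaw R →
    (∀ e, 0 < R e → 0 < Pool.Agent.H49.Ent.cond F.p A True e.2 ∧
      slam F W0 e.1 = slam F W0 e.2) →
    ∑ i, Real.log (ngw W1 P₀ g (r + 1) i) -
      CH R (fun e => ybw c r W1 P₀ g (P (z (ptr F J e.2))) (ptr F J e.2))
        (fun e => z (ptr F J e.2)) ≤ μ → 0 ≤ μ →
    Real.log ((2 ^ (P₀ - W0) : ℕ) : ℝ) - CH R (fun e => tdg W0 P₀ (ptr F J e.2))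
      (fun e => (slam F W0 e.1, z (ptr F J e.2))) ≤ δ₁ →
    Real.log ((2 ^ (P₀ - W0) : ℕ) : ℝ) - CH R (fun e => tdg W0 P₀ (ptr F J e.1))
      (fun e => (slam F W0 e.1, z (ptr F J e.2))) ≤ δ₂ →
    0 < h → C * Real.exp h ≤ ((2 ^ (P₀ - W1) : ℕ) : ℝ) → C * Real.exp h ≤ H →
    (C * (clC r kap L + 2) * ctC r kap L ^ (2 * (r + 1))) ^ (D + 1) ≤ KK →
    4 * KK * (1 / E + D / L') * H ≤ 1 →
    ms R (fun e => ¬ ∃ k, Gap D (aL (2 ^ (W1 - W0)) (avp c r W0 W1 sg (slam F W0 e.1))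
          (bvw c r sg (slam F W0 e.1)) (Qh (z (ptr F J e.2))))
        (bth D KK H L' Λ (ρ (z (ptr F J e.2)))) k ∧
      LnR D (Qh (z (ptr F J e.2))) H (bth D KK H L' Λ (ρ (z (ptr F J e.2))))
        (xpt F c r W1 sg P₀ e.1) k) ≤ C * (1 + μ + δ₁ + δ₂) / h := by
  classical
  obtain ⟨C, hC, hev⟩ := line_ev (r + 1) D ((K + 1) ^ (r + 1 + 1))
  refine ⟨C, hC, ?_⟩
  intro m J F c W0 W1 sg g L A V z z' P P₀ kap Qh ρ R h E H KK L' Λ μ δ₁ δ₂ hN hL hA hW hWP hPJ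
    hgP hw hQ hρM hE hE1 hL'1 hΛ hR hsup hμ hμ0 hδ₁ hδ₂ hh hhM hhH hKK hKL
  obtain ⟨M, hM⟩ : ∃ M : ℕ, M = 2 ^ (P₀ - W1) := ⟨_, rfl⟩
  have hWM : 2 ^ (P₀ - W0) = 2 ^ (W1 - W0) * M := by
    rw [hM, ← pow_add]
    congr 1
    omega
  have hcl := cleaf_w (kap := kap) hN hL hA hPJ hWP hgP hw
  have hMpos : (0 : ℝ) < M := by
    rw [hM]
    positivity
  have hsp : ∀ ω, 0 < Pool.Agent.H49.Ent.cond F.p A True ω → A ω := fun ω hω => cond_supp hω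
  have hct := ctC_ge (r := r) (kap := kap) hL
  have hcl2 := clC_ge (r := r) (kap := kap) hL
  rw [← hM] at hcl hρM hhM
  have hkey := hev (ctC r kap L) (clC r kap L + 2) (F.Ω × F.Ω) V (LnT F) R
    (fun e => z (ptr F J e.2)) (fun e => slam F W0 e.1)
    (fun e => ybw c r W1 P₀ g (P (z (ptr F J e.2))) (ptr F J e.2))
    (fun _ => ngw W1 P₀ g (r + 1))
    (fun v i => bind₁ (nchi M (ngw W1 P₀ g (r + 1)) (gsh (r + 1) W1 P₀ g (P v)) 0)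
      (gsh (r + 1) W1 P₀ g (P v) i) + MvPolynomial.C (ncor M (ngw W1 P₀ g (r + 1)) 0 i))
    (fun _ => nwid M (ngw W1 P₀ g (r + 1)))
    (fun v => bind₁ (nchi M (ngw W1 P₀ g (r + 1)) (gsh (r + 1) W1 P₀ g (P v)) 0)
      (toF (r + 1) W1 (P v (r + 1))))
    M (2 ^ (W1 - W0)) (avp c r W0 W1 sg) (bvw c r sg)
    (fun e => tdg W0 P₀ (ptr F J e.2)) (fun e => tdg W0 P₀ (ptr F J e.1)) Qh ρ h E H KK L' Λ μ
    hct (by linarith) (by rw [hM]; exact Nat.one_le_two_pow) Nat.one_le_two_pow hE1 hL'1 hΛ hR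
    ?_ ?_ ?_ ?_ ?_ hμ0 ?_ ?_ ?_ ?_ ?_ ?_ hh hhM hhH hKK hKL
  · rw [← hWM] at hkey
    simp only [fun e : F.Ω × F.Ω => ltW_xpt (F := F) c r W0 W1 P₀ sg hW hWP hPJ e.1] at hkey
    refine hkey.trans ?_
    refine div_le_div_of_nonneg_right (mul_le_mul_of_nonneg_left ?_ (by linarith)) hh.le
    linarith
  · intro e he
    have h1 := tri_chw hN hL hWP hw (hsp _ (hsup e he).1)
    rw [← hM] at h1
    exact h1
  · intro e he
    have h1 := tri_chw hN hL hWP hw (hsp _ (hsup e he).1)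
    rw [← hM] at h1
    have h2 := h1.chartOK hct (by rw [hM]; exact Nat.one_le_two_pow)
    refine chartOK_mono h2 ?_
    rw [clC_eq]
    have : (2 * ((r + 1 : ℕ) : ℝ) + 1) *
        (2 ^ (kap + 2) * (1 + ((r + 1 : ℕ) : ℝ) * L) ^ (r + 1 + 1)) ^ 2 =
      (2 * ((r + 1 : ℕ) : ℝ) + 1) * ctC r kap L ^ 2 := rfl
    linarith
  · intro e _ i
    exact hE i
  · intro e he i
    exact hcl.lt e.2 (hsup e he).1 i
  · rw [Ex_const hR.sum_one]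
    exact hμ
  · intro e _
    rw [← hWM]
    exact Nat.mod_lt _ (by positivity)
  · intro e _
    rw [← hWM]
    exact Nat.mod_lt _ (by positivity)
  · intro e he o
    obtain ⟨h1, h2⟩ := hsup e he
    have h3 := near_p (F := F) c r W0 W1 P₀ sg hW hWP hPJ e.2 o
    have h4 := hcl.near e.2 h1 o
    rw [← hM] at h3
    rw [h2]
    have h5 : |(avp c r W0 W1 sg (slam F W0 e.2) o + (tdg W0 P₀ (ptr F J e.2) : ℝ) / M *
        bvw c r sg (slam F W0 e.2) o) - zsw c r W1 sg (ptr F J e.2) o| ≤ 2 / M := by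
      rw [abs_sub_comm]
      exact h3
    have h6 := abs_sub_le (avp c r W0 W1 sg (slam F W0 e.2) o +
      (tdg W0 P₀ (ptr F J e.2) : ℝ) / M * bvw c r sg (slam F W0 e.2) o)
      (zsw c r W1 sg (ptr F J e.2) o) (cpt (chw (r + 1) W1 P₀ g (P (z (ptr F J e.2))))
        (gpos (ngw W1 P₀ g (r + 1)) (ybw c r W1 P₀ g (P (z (ptr F J e.2))) (ptr F J e.2))) o)
    have h7 : (clC r kap L + 2) / (M : ℝ) = 2 / M + clC r kap L / M := by ring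
    rw [h7]
    have h8 : triC (fun i => bind₁ (nchi M (ngw W1 P₀ g (r + 1))
        (gsh (r + 1) W1 P₀ g (P (z (ptr F J e.2)))) 0)
        (gsh (r + 1) W1 P₀ g (P (z (ptr F J e.2))) i) +
          MvPolynomial.C (ncor M (ngw W1 P₀ g (r + 1)) 0 i))
        (nwid M (ngw W1 P₀ g (r + 1)))
        (bind₁ (nchi M (ngw W1 P₀ g (r + 1)) (gsh (r + 1) W1 P₀ g (P (z (ptr F J e.2)))) 0)
          (toF (r + 1) W1 (P (z (ptr F J e.2)) (r + 1)))) =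
        chw (r + 1) W1 P₀ g (P (z (ptr F J e.2))) := by
      rw [hM]
      rfl
    rw [h8]
    exact h6.trans (add_le_add h5 h4)
  · intro e he
    exact (hQ _ (hsp _ (hsup e he).1)).deg
  · intro e he
    have h1 := hρM _ (hsp _ (hsup e he).1)
    refine ⟨?_, h1⟩
    by_contra h2
    have h3 : (M : ℝ) * ρ (z (ptr F J e.2)) ≤ 0 :=
      mul_nonpos_of_nonneg_of_nonpos hMpos.le (not_lt.1 h2)
    linarith
  · intro e he Φ hΦ
    have h1 := hQ _ (hsp _ (hsup e he).1)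
    have h8 : Φ = chw (r + 1) W1 P₀ g (P (z (ptr F J e.2))) := by
      rw [hΦ, hM]
      rfl
    rw [h8]
    exact ⟨h1.pos, h1.low, h1.high⟩

/-- **The equations of the labels**, from the jets of `m3f_clsw`. -/
theorem jetQ (r D K : ℕ) : ∃ C : ℝ, 1 ≤ C ∧ ∀ {m J : ℕ} {F : Fam m J} {c : ℕ → Fin m}
    {W sg : ℕ} {g : ℕ → ℕ} {L : ℝ} {B : F.Ω → Prop} {V : Type} {z : PtT F → V}
    {z' : LnT F → V} {P : V → ℕ → PN} {P₀ : ℕ} (Q : V → PN) (T : V → ℝ) (k : V → ℕ),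
    NLabW F c r W sg g K L B z z' P → W ≤ P₀ → P₀ ≤ g r → (∀ i < r + 1, wid W g i ≤ P₀) →
    (∀ ω, B ω → Jet r D (wid W g) (P (z (ptr F J ω))) (Q (z (ptr F J ω)))
      (2 ^ k (z (ptr F J ω)) / 2 ^ g r) (T (z (ptr F J ω)))) →
    ∃ (Qh : V → MvPolynomial (Option (Fin (r + 1))) ℝ) (ρ : V → ℝ),
      (∀ v, ρ v = C * 2 ^ k v / ((2 ^ (P₀ - W) : ℕ) : ℝ)) ∧
      (∀ ω, B ω → CsQ r D W P₀ g (P (z (ptr F J ω))) (Qh (z (ptr F J ω)))
        (ρ (z (ptr F J ω)))) ∧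
      ∀ ω, B ω → 1 ≤ ((2 ^ (P₀ - W) : ℕ) : ℝ) * ρ (z (ptr F J ω)) := by
  classical
  obtain ⟨C, hC, hj⟩ := jet_csC r D K
  refine ⟨C, hC, ?_⟩
  intro m J F c W sg g L B V z z' P P₀ Q T k hN hWP hgP hw hJ
  have hM0 : (0 : ℝ) < ((2 ^ (P₀ - W) : ℕ) : ℝ) := by positivity
  have h1 : ∀ v, ∃ R : MvPolynomial (Option (Fin (r + 1))) ℝ, (∃ ω, B ω ∧ z (ptr F J ω) = v) →
      CsQ r D W P₀ g (P v) R (C * 2 ^ k v / ((2 ^ (P₀ - W) : ℕ) : ℝ)) := by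
    intro v
    by_cases hv : ∃ ω, B ω ∧ z (ptr F J ω) = v
    · obtain ⟨ω, hω, rfl⟩ := hv
      obtain ⟨j, h2⟩ := hj W P₀ g (P (z (ptr F J ω))) (Q (z (ptr F J ω)))
        (2 ^ k (z (ptr F J ω)) / 2 ^ g r) (T (z (ptr F J ω)))
        (C * 2 ^ k (z (ptr F J ω)) / ((2 ^ (P₀ - W) : ℕ) : ℝ)) (hN.tri _)
        (fun i _ => hN.deg _ i) hWP hw (by positivity) (hJ ω hω) (by
          have e1 : ((2 ^ (P₀ - W) : ℕ) : ℝ) = 2 ^ P₀ / 2 ^ W := by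
            push_cast
            exact two_pow_sub hWP
          rw [e1, mul_div_assoc]
          refine mul_le_mul_of_nonneg_left ?_ (by linarith)
          have e2 : (2 : ℝ) ^ k (z (ptr F J ω)) / (2 ^ P₀ / 2 ^ W) =
              2 ^ W * (2 ^ k (z (ptr F J ω)) / 2 ^ P₀) := by
            field_simp
          rw [e2]
          refine mul_le_mul_of_nonneg_left ?_ (by positivity)
          exact div_le_div_of_nonneg_left (by positivity) (by positivity)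
            (pow_le_pow_right₀ one_le_two hgP))
      exact ⟨_, fun _ => h2⟩
    · exact ⟨0, fun h => absurd h hv⟩
  choose Qh hQh using h1
  refine ⟨Qh, fun v => C * 2 ^ k v / ((2 ^ (P₀ - W) : ℕ) : ℝ), fun v => rfl,
    fun ω hω => hQh _ ⟨ω, hω, rfl⟩, fun ω _ => ?_⟩
  have h2 : ((2 ^ (P₀ - W) : ℕ) : ℝ) * (C * 2 ^ k (z (ptr F J ω)) /
      ((2 ^ (P₀ - W) : ℕ) : ℝ)) = C * 2 ^ k (z (ptr F J ω)) := by
    field_simp
  simp only
  rw [h2]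
  have h3 : (1 : ℝ) ≤ 2 ^ k (z (ptr F J ω)) := one_le_pow₀ one_le_two
  nlinarith

/-- The digits of the time at the later window. -/
theorem tdg_mod (W0 W1 P₀ : ℕ) (hW : W0 ≤ W1) (hWP : W1 ≤ P₀) (ξ : PtT F) :
    tdg W1 P₀ ξ = tdg W0 P₀ ξ % 2 ^ (P₀ - W1) := by
  unfold tdg
  rw [Nat.mod_mod_of_dvd]
  exact pow_dvd_pow 2 (by omega)

/-- The line with the earlier window. -/
theorem slam_of {W0 W1 : ℕ} (hW : W0 ≤ W1) (hWJ : W1 ≤ J) {ω ω' : F.Ω}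
    (h : slam F W1 ω = slam F W1 ω') : slam F W0 ω = slam F W0 ω' := by
  have h2 := Prod.ext_iff.1 h
  have h3 := Prod.ext_iff.1 h2.2
  refine Prod.ext h2.1 (Prod.ext h3.1 ?_)
  change F.T1 W0 ω = F.T1 W0 ω'
  have h4 : F.T1 W1 ω = F.T1 W1 ω' := h3.2
  have h5 : ∀ ω : F.Ω, F.T1 W0 ω = F.T1 W1 ω / 2 ^ (W1 - W0) := by
    intro ω
    unfold Fam.T1
    rw [Nat.div_div_eq_div_mul, ← pow_add]
    congr 2
    omega
  rw [h5, h5, h4]

/-- **The equation along the line, in a class.** `A`: the event of the label at the window `w₁`;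
`R`: a law of pairs of bounded density. -/
theorem line_w (r D K : ℕ) : ∃ C : ℝ, 1 ≤ C ∧ ∀ {m : ℕ} {S : PCl m},
    (∀ (τ : ℝ) (J : ℕ) (F : Fam m J) (A : F.Ω → Prop), S.St τ J F A →
      F.Tr ∧ F.Tm (τ * J) ∧ F.Rb (τ * J) ∧ Real.exp (-(τ * J)) ≤ Pe F.p A) →
    ∀ {c : ℕ → Fin m} {w₀ w₁ : ℝ} {g : ℕ → ℝ}, 0 ≤ w₀ → w₀ ≤ w₁ → w₁ ≤ 1 →
    (∀ ρ : ℝ, 0 < ρ → ExvY S w₁ (fun J F ω (i : Fin r) => F.X J ω (c i))
      ((∑ l ∈ range r, (1 - g l)) - ρ)) →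
    ∀ {C₀ : ℝ}, 1 ≤ C₀ → ∀ {δ : ℝ}, 0 < δ → ∃ φ : ℝ, 0 < φ ∧ Bas S (fun J F A =>
      ∀ (P₀ : ℕ) (g' : ℕ → ℕ) (sg kap : ℕ) (L : ℝ) (V : Type) (z : PtT F → V) (z' : LnT F → V)
        (P : V → ℕ → PN) (Qh : V → MvPolynomial (Option (Fin (r + 1))) ℝ) (ρ : V → ℝ)
        (R : F.Ω × F.Ω → ℝ) (h E H KK L' Λ : ℝ),
        (∀ l < r, (g l - φ) * J ≤ g' l) → ⌊w₁ * J⌋₊ ≤ P₀ → P₀ ≤ J → P₀ ≤ g' r →
        (∀ i < r + 1, ⌊w₁ * J⌋₊ ≤ wid ⌊w₁ * J⌋₊ g' i + kap ∧ wid ⌊w₁ * J⌋₊ g' i ≤ P₀) →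
        NLabW F c r ⌊w₁ * J⌋₊ sg g' K L A z z' P → 0 ≤ L →
        (∀ ω, A ω → CsQ r D ⌊w₁ * J⌋₊ P₀ g' (P (z (ptr F J ω))) (Qh (z (ptr F J ω)))
          (ρ (z (ptr F J ω)))) →
        (∀ ω, A ω → 1 ≤ ((2 ^ (P₀ - ⌊w₁ * J⌋₊) : ℕ) : ℝ) * ρ (z (ptr F J ω))) →
        IsLaw R →
        (∀ e, R e ≤ C₀ * P2 (Pool.Agent.H49.Ent.cond F.p A True) (slam F ⌊w₀ * J⌋₊) e) →
        (∀ i, E ≤ ngw ⌊w₁ * J⌋₊ P₀ g' (r + 1) i) → 1 ≤ E → 1 ≤ L' → 1 ≤ Λ →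
        0 < h → C * Real.exp h ≤ ((2 ^ (P₀ - ⌊w₁ * J⌋₊) : ℕ) : ℝ) → C * Real.exp h ≤ H →
        (C * (clC r kap L + 2) * ctC r kap L ^ (2 * (r + 1))) ^ (D + 1) ≤ KK →
        4 * KK * (1 / E + D / L') * H ≤ 1 →
        ms R (fun e => ¬ ∃ k, Gap D (aL (2 ^ (⌊w₁ * J⌋₊ - ⌊w₀ * J⌋₊))
              (avp c r ⌊w₀ * J⌋₊ ⌊w₁ * J⌋₊ sg (slam F ⌊w₀ * J⌋₊ e.1))
              (bvw c r sg (slam F ⌊w₀ * J⌋₊ e.1)) (Qh (z (ptr F J e.2))))
            (bth D KK H L' Λ (ρ (z (ptr F J e.2)))) k ∧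
          LnR D (Qh (z (ptr F J e.2))) H (bth D KK H L' Λ (ρ (z (ptr F J e.2))))
            (xpt F c r ⌊w₁ * J⌋₊ sg P₀ e.1) k) ≤
          C * (1 + ((⌊w₁ * J⌋₊ - ⌊w₀ * J⌋₊ : ℕ) : ℝ) * Real.log 2 + δ * J) / h) := by
  classical
  obtain ⟨C, hC, hlaw⟩ := line_law r D K
  refine ⟨C, hC, ?_⟩
  intro m S hmem c w₀ w₁ g hw0 hw01 hw1 hex C₀ hC₀ δ hδ
  have hl2 : 0 < Real.log 2 := Real.log_pos one_lt_two
  obtain ⟨δ', hδ'⟩ : ∃ δ' : ℝ, δ' = δ / (6 * C₀) := ⟨_, rfl⟩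
  have hδ'0 : 0 < δ' := by
    rw [hδ']
    positivity
  have hδC : C₀ * δ' = δ / 6 := by
    rw [hδ']
    field_simp
  obtain ⟨N₀, φ, hφ, hmx⟩ := mxc_w r hmem (c := c) (g := g) (hw0.trans hw01) hw1 hex hδ'0
  refine ⟨φ, hφ, ?_⟩
  obtain ⟨J₁, hJ₁⟩ := exists_nat_gt (6 * C₀ * Real.log 2 / δ)
  have hpos : Bas S (fun J F A => 0 < Pe F.p A) :=
    ⟨1, one_pos, 0, fun J _ F A h => lt_of_lt_of_le (Real.exp_pos _) (hmem _ J F A h).2.2.2⟩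
  refine (((tdg_w hmem w₀ hδ'0).and (tdg_w hmem w₁ hδ'0)).and (hmx.and hpos)).mono J₁ ?_
  rintro J hJ F A ⟨⟨ht0, ht1⟩, hm, hA⟩
  intro P₀ g' sg kap L V z z' P Qh ρ R h E H KK L' Λ hg hWP hPJ hgP hwd hN hL hQ hρ hR hd hE hE1
    hL'1 hΛ hh hhM hhH hKK hKL
  obtain ⟨W0, hW0⟩ : ∃ W, W = ⌊w₀ * J⌋₊ := ⟨_, rfl⟩
  obtain ⟨W1, hW1⟩ : ∃ W, W = ⌊w₁ * J⌋₊ := ⟨_, rfl⟩
  have hJ0 : (0 : ℝ) ≤ J := Nat.cast_nonneg J
  have hW : W0 ≤ W1 := by
    rw [hW0, hW1]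
    exact Nat.floor_le_floor (mul_le_mul_of_nonneg_right hw01 hJ0)
  have hl := isLaw_cond F.isLaw hA
  rw [← hW1] at hWP hwd hN hQ hρ hE hhM ⊢
  rw [← hW0] at hd ⊢
  have hJδ : 6 * C₀ * Real.log 2 ≤ δ * J := by
    have h1 : (J₁ : ℝ) ≤ J := by exact_mod_cast hJ
    have h2 := hJ₁.trans_le h1
    rw [div_lt_iff₀ hδ] at h2
    linarith
  -- the natural digits
  obtain ⟨N, -, hMx⟩ := hm P₀ g' sg K L V z z' P hg (by rw [← hW1]; exact fun i hi => (hwd i hi).2)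
    hPJ (by rw [← hW1]; exact hN)
  rw [← hW1] at hMx
  have hful := hMx.ful (zx := z) (zl := z') (fun ω hω => hN.cls ω (cond_supp hω))
  rw [Ex_const hl.sum_one] at hful
  have hcl := cleaf_w (kap := kap) hN hL hA hPJ hWP hgP hwd
  have hlog : Real.log (((Fintype.piFinset fun i : Fin (r + 1) =>
      Finset.range (ngw W1 P₀ g' (r + 1) i)).card : ℕ) : ℝ) =
      ∑ i, Real.log (ngw W1 P₀ g' (r + 1) i) := by
    rw [Fintype.card_piFinset]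
    push_cast
    rw [Real.log_prod (fun i _ => by
      have := ngw_pos W1 P₀ g' (r + 1) i
      rw [Finset.card_range]
      exact_mod_cast (by omega : ngw W1 P₀ g' (r + 1) i ≠ 0))]
    simp
  have hμ := dens_snd hl hR hC₀ hd
    (fun ω => ybw c r W1 P₀ g' (P (z (ptr F J ω))) (ptr F J ω)) (fun ω => z (ptr F J ω))
    (Fintype.piFinset fun i : Fin (r + 1) => Finset.range (ngw W1 P₀ g' (r + 1) i))
    (fun ω hω => by
      rw [Fintype.mem_piFinset]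
      intro i
      rw [Finset.mem_range]
      exact hcl.lt ω hω i) (θ := δ' * J) (by
      rw [hlog]
      exact hful)
  rw [hlog] at hμ
  -- the times
  have hT0 := ht0 P₀ (by rw [← hW0]; exact hW.trans hWP) hPJ
  have hT1 := ht1 P₀ (by rw [← hW1]; exact hWP) hPJ
  rw [← hW0] at hT0
  rw [← hW1] at hT1
  have hδ₂ := dens_fst hl hR hC₀ hd (fun ω => tdg W0 P₀ (ptr F J ω))
    (Finset.range (2 ^ (P₀ - W0))) (fun ω _ => Finset.mem_range.2 (Nat.mod_lt _ (by positivity)))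
    (θ := δ' * J) (by
      rw [Finset.card_range]
      exact hT0)
  have hδ₁ := dens_snd hl hR hC₀ hd (fun ω => tdg W1 P₀ (ptr F J ω)) (fun ω => slam F W1 ω)
    (Finset.range (2 ^ (P₀ - W1))) (fun ω _ => Finset.mem_range.2 (Nat.mod_lt _ (by positivity)))
    (θ := δ' * J) (by
      rw [Finset.card_range]
      exact hT1)
  rw [Finset.card_range] at hδ₁ hδ₂
  have hsup : ∀ e, 0 < R e → 0 < Pool.Agent.H49.Ent.cond F.p A True e.2 ∧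
      slam F W0 e.1 = slam F W0 e.2 := by
    intro e he
    have h1 : 0 < P2 (Pool.Agent.H49.Ent.cond F.p A True) (slam F W0) e := by
      have h2 := he.trans_le (hd e)
      exact pos_of_mul_pos_right h2 (by linarith)
    have h3 := (P2_pos hl e).1 h1
    exact ⟨h3.2.1, h3.2.2⟩
  have hδ₂' : CH R (fun e => tdg W0 P₀ (ptr F J e.1)) (fun e => e.2) ≤
      CH R (fun e => tdg W0 P₀ (ptr F J e.1)) (fun e => (slam F W0 e.1, z (ptr F J e.2))) := by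
    refine CH_mono_cond hR.nonneg ?_
    intro e e' he he' h1
    have h2 : e.2 = e'.2 := h1
    refine Prod.ext ?_ ?_
    · change slam F W0 e.1 = slam F W0 e'.1
      rw [(hsup e he).2, (hsup e' he').2, h2]
    · change z (ptr F J e.2) = z (ptr F J e'.2)
      rw [h2]
  have hδ₁' : CH R (fun e => tdg W1 P₀ (ptr F J e.2)) (fun e => slam F W1 e.2) ≤
      CH R (fun e => tdg W0 P₀ (ptr F J e.2)) (fun e => (slam F W0 e.1, z (ptr F J e.2))) := by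
    refine le_trans (b := CH R (fun e => tdg W1 P₀ (ptr F J e.2))
      (fun e => (slam F W0 e.1, z (ptr F J e.2)))) ?_ ?_
    · refine CH_mono_cond hR.nonneg ?_
      intro e e' he he' h1
      have h2 : slam F W1 e.2 = slam F W1 e'.2 := h1
      refine Prod.ext ?_ ?_
      · change slam F W0 e.1 = slam F W0 e'.1
        rw [(hsup e he).2, (hsup e' he').2]
        exact slam_of hW (hWP.trans hPJ) h2
      · change z (ptr F J e.2) = z (ptr F J e'.2)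
        rw [hN.cls _ (cond_supp (hsup e he).1), hN.cls _ (cond_supp (hsup e' he').1), h2]
    · refine CH_mono_left hR.nonneg fun e e' _ _ h1 => ?_
      have h2 : tdg W0 P₀ (ptr F J e.2) = tdg W0 P₀ (ptr F J e'.2) := (Prod.ext_iff.1 h1).1
      change tdg W1 P₀ (ptr F J e.2) = tdg W1 P₀ (ptr F J e'.2)
      rw [tdg_mod W0 W1 P₀ hW hWP, tdg_mod W0 W1 P₀ hW hWP, h2]
  have hlogW : Real.log ((2 ^ (P₀ - W0) : ℕ) : ℝ) =
      Real.log ((2 ^ (P₀ - W1) : ℕ) : ℝ) + ((W1 - W0 : ℕ) : ℝ) * Real.log 2 := by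
    push_cast
    rw [Real.log_pow, Real.log_pow, ← add_mul]
    congr 1
    have : P₀ - W0 = P₀ - W1 + (W1 - W0) := by omega
    rw [this]
    push_cast
    ring
  have hkey := hlaw (kap := kap) Qh ρ R h E H KK L' Λ (C₀ * (δ' * J + Real.log 2))
    (((W1 - W0 : ℕ) : ℝ) * Real.log 2 + C₀ * (δ' * J + Real.log 2))
    (C₀ * (δ' * J + Real.log 2)) hN hL hA hW hWP hPJ hgP hwd hQ hρ hE hE1 hL'1 hΛ hR hsup hμ
    (by positivity) (by rw [hlogW]; linarith) (by linarith) hh hhM hhH hKK hKL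
  refine hkey.trans (div_le_div_of_nonneg_right (mul_le_mul_of_nonneg_left ?_ (by linarith))
    hh.le)
  have e1 : C₀ * (δ' * J + Real.log 2) = C₀ * δ' * J + C₀ * Real.log 2 := by ring
  rw [e1, hδC]
  have e2 : 6 * (C₀ * Real.log 2) ≤ δ * J := by linarith
  linarith

end Pool.GEO
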