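import Pool.Agent.H5.GEO.Inc
import Pool.Agent.H86.EXT.Evn

/-!
# Events: the systems of two labels are close; the point is not near the boundary of the box

`bad_gen`: an almost full variable is rarely in a small set. `margin_ev`: the point is not near the
boundary of its box. `rb_ev`: the difference of two systems of polynomials which is bounded at the
point is bounded on the whole box.
-/

set_option autoImplicit false

namespace Pool.GEO

open Finset Real MvPolynomial
open Pool.Agent.H49.Ent Pool.Agent.H32.Dense Pool.STK Pool.KAF Pool.KAL Pool.KS3 Pool.M3F Pool.KJA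
open Pool.IEN Pool.EXS

/-- An almost full variable is rarely in a small set. -/
theorem bad_gen {V Γ α : Type} [Fintype V] {r : V → ℝ} (hr : IsLaw r) (c : V → Γ)
    (Y : V → α) (S B : Γ → Finset α) {h : ℝ} (hh : 0 < h) (hY : ∀ v, 0 < r v → Y v ∈ S (c v))
    (hB : ∀ v, 0 < r v → ((B (c v)).card : ℝ) ≤ Real.exp (-h) * (S (c v)).card) :
    ms r (fun v => Y v ∈ B (c v)) ≤
      (Ex r (fun v => Real.log (S (c v)).card) - CH r Y c + Real.log 2) / h := by
  classical
  have hr0 := hr.nonneg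
  obtain ⟨b, hb⟩ : ∃ b : V → Bool, b = fun v => decide (Y v ∈ B (c v)) := ⟨_, rfl⟩
  have h1 := CH_le_add hr0 Y b c
  have h2 : CH r b c ≤ Real.log 2 := by
    have h3 := CH_le_card hr0 hr.sum_one b c (fun _ => (univ : Finset Bool))
      (fun v _ => mem_univ _)
    rw [Ex_const hr.sum_one] at h3
    simpa using h3
  have h3 := CH_le_card hr0 hr.sum_one Y (fun v => (b v, c v))
    (fun z => if z.1 = true then B z.2 else S z.2) (by
      intro v hv
      by_cases h4 : Y v ∈ B (c v)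
      · have h5 : b v = true := by
          rw [hb]
          exact decide_eq_true h4
        simp only [h5, if_true]
        exact h4
      · have h5 : b v = false := by
          rw [hb]
          exact decide_eq_false h4
        simp only [h5, Bool.false_eq_true, if_false]
        exact hY v hv)
  have h4 : Ex r (fun v => Real.log
      (((if b v = true then B (c v) else S (c v)) : Finset α).card : ℝ)) ≤
      Ex r (fun v => Real.log (S (c v)).card) - h * ms r (fun v => Y v ∈ B (c v)) := by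
    have h5 : Ex r (fun v => Real.log (S (c v)).card) - h * ms r (fun v => Y v ∈ B (c v)) =
        ∑ v, r v * (Real.log (S (c v)).card - if Y v ∈ B (c v) then h else 0) := by
      rw [ms_eq r _ (fun v => inferInstance)]
      unfold Ex
      rw [Finset.mul_sum, ← Finset.sum_sub_distrib]
      refine Finset.sum_congr rfl fun v _ => ?_
      split_ifs <;> ring
    rw [h5]
    unfold Ex
    refine Finset.sum_le_sum fun v _ => ?_
    rcases (hr0 v).eq_or_lt with h6 | h6
    · rw [← h6]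
      simp
    refine mul_le_mul_of_nonneg_left ?_ h6.le
    by_cases h7 : Y v ∈ B (c v)
    · have h8 : b v = true := by
        rw [hb]
        exact decide_eq_true h7
      simp only [h8, if_true, if_pos h7]
      have h9 : (0 : ℝ) < (B (c v)).card := by exact_mod_cast Finset.card_pos.mpr ⟨_, h7⟩
      have h10 := hB v h6
      have h11 : (0 : ℝ) < (S (c v)).card := by exact_mod_cast Finset.card_pos.mpr ⟨_, hY v h6⟩
      refine (Real.log_le_log h9 h10).trans (le_of_eq ?_)
      rw [Real.log_mul (Real.exp_pos _).ne' h11.ne', Real.log_exp]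
      ring
    · have h8 : b v = false := by
        rw [hb]
        exact decide_eq_false h7
      simp only [h8, Bool.false_eq_true, if_false, if_neg h7, sub_zero]
      exact le_rfl
  rw [le_div_iff₀ hh]
  linarith

/-- **The point is not near the boundary of the box.** -/
theorem margin_ev {d : ℕ} {V Γ : Type} [Fintype V] {r : V → ℝ} (hr : IsLaw r) (c : V → Γ)
    (Y : V → Fin d → ℕ) (Ng : Γ → Fin d → ℕ) {ε h : ℝ} (hh : 0 < h) (hε : 0 ≤ ε)
    (hY : ∀ v, 0 < r v → ∀ i, Y v i < Ng (c v) i)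
    (hs : ∀ v, 0 < r v → ∑ i, (2 * ε + 2 / (Ng (c v) i : ℝ)) ≤ Real.exp (-h)) :
    ms r (fun v => ¬ ∀ i, ε ≤ (Y v i : ℝ) / Ng (c v) i ∧
      ((Y v i : ℝ) + 1) / Ng (c v) i ≤ 1 - ε) ≤
      (Ex r (fun v => ∑ i, Real.log (Ng (c v) i)) - CH r Y c + Real.log 2) / h := by
  classical
  have hr0 := hr.nonneg
  obtain ⟨Sx, hSx⟩ : ∃ Sx : Γ → Finset (Fin d → ℕ), Sx = fun γ =>
      Fintype.piFinset (fun i => range (Ng γ i)) := ⟨_, rfl⟩
  obtain ⟨Bd, hBd⟩ : ∃ Bd : Γ → Fin d → Finset ℕ, Bd = fun γ i =>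
      (range (Ng γ i)).filter (fun y : ℕ => ¬ (ε ≤ (y : ℝ) / Ng γ i ∧
        ((y : ℝ) + 1) / Ng γ i ≤ 1 - ε)) := ⟨_, rfl⟩
  obtain ⟨Bx, hBx⟩ : ∃ Bx : Γ → Finset (Fin d → ℕ), Bx = fun γ =>
      (Sx γ).filter (fun y => ¬ ∀ i, ε ≤ (y i : ℝ) / Ng γ i ∧
        ((y i : ℝ) + 1) / Ng γ i ≤ 1 - ε) := ⟨_, rfl⟩
  -- one coordinate
  have hone : ∀ n : ℕ, 0 < n → (((range n).filter (fun y : ℕ => ¬ (ε ≤ (y : ℝ) / n ∧
      ((y : ℝ) + 1) / n ≤ 1 - ε))).card : ℝ) ≤ (2 * ε + 2 / (n : ℝ)) * n := by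
    intro n hn
    have hn0 : (0 : ℝ) < n := by exact_mod_cast hn
    have h1 : (range n).filter (fun y : ℕ => ¬ (ε ≤ (y : ℝ) / n ∧
        ((y : ℝ) + 1) / n ≤ 1 - ε)) ⊆ range (⌊ε * n⌋₊ + 1) ∪ Ico (n - (⌊ε * n⌋₊ + 1)) n := by
      intro y hy
      rw [mem_filter, mem_range] at hy
      obtain ⟨hyn, hy⟩ := hy
      rw [mem_union, mem_range, mem_Ico]
      by_cases h2 : ε ≤ (y : ℝ) / n
      · right
        have h3 : ¬ ((y : ℝ) + 1) / n ≤ 1 - ε := fun h4 => hy ⟨h2, h4⟩
        rw [div_le_iff₀ hn0] at h3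
        push Not at h3
        refine ⟨?_, hyn⟩
        have h4 : (n : ℝ) - (y + 1) < ε * n := by linarith
        have h5 : ((n - (y + 1) : ℕ) : ℝ) < ε * n := by
          rw [Nat.cast_sub (by omega)]
          push_cast
          exact h4
        have h6 : n - (y + 1) ≤ ⌊ε * n⌋₊ := Nat.le_floor h5.le
        omega
      · left
        rw [le_div_iff₀ hn0] at h2
        push Not at h2
        have h6 : y ≤ ⌊ε * n⌋₊ := Nat.le_floor h2.le
        omega
    have h2 := (Finset.card_le_card h1).trans (Finset.card_union_le _ _)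
    rw [Finset.card_range, Nat.card_Ico] at h2
    have h3 : (⌊ε * (n : ℝ)⌋₊ : ℝ) ≤ ε * n := Nat.floor_le (by positivity)
    have h4 : ((⌊ε * (n : ℝ)⌋₊ + 1 + (n - (n - (⌊ε * (n : ℝ)⌋₊ + 1))) : ℕ) : ℝ) ≤
        (⌊ε * (n : ℝ)⌋₊ + 1) + (⌊ε * (n : ℝ)⌋₊ + 1) := by
      have : ⌊ε * (n : ℝ)⌋₊ + 1 + (n - (n - (⌊ε * (n : ℝ)⌋₊ + 1))) ≤
          (⌊ε * (n : ℝ)⌋₊ + 1) + (⌊ε * (n : ℝ)⌋₊ + 1) := by omega
      exact_mod_cast this
    calc (((range n).filter (fun y : ℕ => ¬ (ε ≤ (y : ℝ) / n ∧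
          ((y : ℝ) + 1) / n ≤ 1 - ε))).card : ℝ) ≤
          ((⌊ε * (n : ℝ)⌋₊ + 1 + (n - (n - (⌊ε * (n : ℝ)⌋₊ + 1))) : ℕ) : ℝ) := by
            exact_mod_cast h2
      _ ≤ (⌊ε * (n : ℝ)⌋₊ + 1) + (⌊ε * (n : ℝ)⌋₊ + 1) := h4
      _ ≤ (ε * n + 1) + (ε * n + 1) := by linarith
      _ = _ := by
        field_simp
        ring
  have hN0 : ∀ v, 0 < r v → ∀ i, 0 < Ng (c v) i := fun v hv i =>
    lt_of_le_of_lt (Nat.zero_le _) (hY v hv i)
  have hcard : ∀ v, 0 < r v → ((Bx (c v)).card : ℝ) ≤ Real.exp (-h) * (Sx (c v)).card := by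
    intro v hv
    have h1 : Bx (c v) ⊆ (univ : Finset (Fin d)).biUnion (fun i =>
        Fintype.piFinset (fun l => if l = i then Bd (c v) i else range (Ng (c v) l))) := by
      intro y hy
      rw [hBx] at hy
      simp only [mem_filter] at hy
      obtain ⟨hy1, hy2⟩ := hy
      push Not at hy2
      obtain ⟨i, hi⟩ := hy2
      rw [hSx, Fintype.mem_piFinset] at hy1
      rw [mem_biUnion]
      refine ⟨i, mem_univ _, ?_⟩
      rw [Fintype.mem_piFinset]
      intro l
      by_cases hl : l = i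
      · subst hl
        rw [if_pos rfl, hBd]
        simp only [mem_filter]
        refine ⟨hy1 l, fun h2 => ?_⟩
        exact absurd h2.2 (not_le.mpr (hi h2.1))
      · rw [if_neg hl]
        exact hy1 l
    have h2 : ((Bx (c v)).card : ℝ) ≤ ∑ i, ((Fintype.piFinset (fun l : Fin d =>
        if l = i then Bd (c v) i else range (Ng (c v) l))).card : ℝ) := by
      exact_mod_cast (Finset.card_le_card h1).trans Finset.card_biUnion_le
    have h3 : ((Sx (c v)).card : ℝ) = ∏ l, (Ng (c v) l : ℝ) := by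
      rw [hSx]
      simp only [Fintype.card_piFinset, card_range]
      push_cast
      rfl
    refine h2.trans ?_
    have h4 : ∀ i ∈ (univ : Finset (Fin d)), ((Fintype.piFinset (fun l : Fin d =>
        if l = i then Bd (c v) i else range (Ng (c v) l))).card : ℝ) ≤
        (2 * ε + 2 / (Ng (c v) i : ℝ)) * ∏ l, (Ng (c v) l : ℝ) := by
      intro i _
      rw [Fintype.card_piFinset]
      push_cast
      have e1 : ∀ l, ((if l = i then Bd (c v) i else range (Ng (c v) l) : Finset ℕ).card : ℝ) =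
          if l = i then ((Bd (c v) i).card : ℝ) else (Ng (c v) l : ℝ) := by
        intro l
        split_ifs
        · rfl
        · rw [card_range]
      simp only [e1]
      rw [← Finset.mul_prod_erase univ _ (mem_univ i),
        ← Finset.mul_prod_erase univ (fun l => (Ng (c v) l : ℝ)) (mem_univ i), if_pos rfl]
      have e2 : ∏ x ∈ univ.erase i, (if x = i then ((Bd (c v) i).card : ℝ)
          else (Ng (c v) x : ℝ)) = ∏ x ∈ univ.erase i, (Ng (c v) x : ℝ) := by
        refine Finset.prod_congr rfl fun x hx => ?_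
        rw [if_neg (Finset.ne_of_mem_erase hx)]
      rw [e2, ← mul_assoc]
      refine mul_le_mul_of_nonneg_right ?_ (Finset.prod_nonneg fun _ _ => Nat.cast_nonneg _)
      rw [hBd]
      exact hone _ (hN0 v hv i)
    refine (Finset.sum_le_sum h4).trans ?_
    rw [← Finset.sum_mul, h3]
    exact mul_le_mul_of_nonneg_right (hs v hv) (Finset.prod_nonneg fun _ _ => Nat.cast_nonneg _)
  have h1 := bad_gen hr c Y Sx Bx hh (fun v hv => by
    rw [hSx, Fintype.mem_piFinset]
    intro i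
    rw [mem_range]
    exact hY v hv i) hcard
  have h2 : ms r (fun v => ¬ ∀ i, ε ≤ (Y v i : ℝ) / Ng (c v) i ∧
      ((Y v i : ℝ) + 1) / Ng (c v) i ≤ 1 - ε) ≤ ms r (fun v => Y v ∈ Bx (c v)) := by
    refine ms_le hr0 fun v hv h3 => ?_
    rw [hBx]
    simp only [mem_filter]
    refine ⟨?_, h3⟩
    rw [hSx, Fintype.mem_piFinset]
    intro i
    rw [mem_range]
    exact hY v hv i
  refine h2.trans (h1.trans ?_)
  refine div_le_div_of_nonneg_right ?_ hh.le
  have h3 : Ex r (fun v => Real.log ((Sx (c v)).card : ℝ)) =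
      Ex r (fun v => ∑ i, Real.log (Ng (c v) i)) := by
    unfold Ex
    refine Finset.sum_congr rfl fun v _ => ?_
    rcases (hr0 v).eq_or_lt with h6 | h6
    · rw [← h6]
      simp
    congr 1
    rw [hSx]
    simp only [Fintype.card_piFinset, card_range]
    push_cast
    rw [Real.log_prod]
    intro i _
    have := hN0 v h6 i
    positivity
  rw [h3]

/-- **The systems are close on the whole box.** -/
theorem rb_ev (d K₀ : ℕ) : ∃ C : ℝ, 1 ≤ C ∧
    ∀ (V Γ : Type) [Fintype V] (r : V → ℝ) (c : V → Γ) (Y : V → Fin d → ℕ)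
      (Ng : Γ → Fin d → ℕ) (g0 gB : Γ → Fin d → MvPolynomial (Fin d) ℝ)
      (cB wB : Γ → Fin d → ℝ) (T : Γ → Fin d → ℝ) (κ h : ℝ),
      IsLaw r → 1 ≤ κ → 0 < h → (∀ v, 0 < r v → ∀ i, Y v i < Ng (c v) i) →
      (∀ v, 0 < r v → ∀ i, C * κ * Real.exp h ≤ Ng (c v) i) →
      (∀ v, 0 < r v → ∀ i, (g0 (c v) i).totalDegree ≤ K₀) →
      (∀ v, 0 < r v → ∀ i, (gB (c v) i).totalDegree ≤ K₀) →
      (∀ v, 0 < r v → ∀ i, ∃ u ∈ ucube d,
        (∀ l, |u l - (Y v l : ℝ) / Ng (c v) l| ≤ κ / Ng (c v) l) ∧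
        |eval (cpt (chi (gB (c v)) (cB (c v)) (wB (c v))) u) (g0 (c v) i - gB (c v) i)| ≤
          T (c v) i) →
      ms r (fun v => ¬ ∀ u ∈ ucube d, ∀ i,
        |eval (cpt (chi (gB (c v)) (cB (c v)) (wB (c v))) u) (g0 (c v) i - gB (c v) i)| ≤
          2 * Real.exp h * T (c v) i) ≤
        C * ((Ex r (fun v => ∑ i, Real.log (Ng (c v) i)) - CH r Y c) + C) / h := by
  classical
  obtain ⟨C₁, hC₁, hrev⟩ := rev d ((K₀ + 1) ^ d * K₀)
  obtain ⟨C₂, hC₂, hm⟩ := mark d ((K₀ + 1) ^ d * K₀)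
  obtain ⟨E, hE⟩ : ∃ E : ℕ, E = (K₀ + 1) ^ d * K₀ := ⟨_, rfl⟩
  rw [← hE] at hrev hm
  have hd0 : (0 : ℝ) ≤ d := Nat.cast_nonneg d
  have hE0 : (0 : ℝ) ≤ E := Nat.cast_nonneg E
  obtain ⟨C, hC⟩ : ∃ C : ℝ, C = 2 * d * (E + 1) + C₁ + 4 * d * C₂ + 1 := ⟨_, rfl⟩
  have hC1 : 1 ≤ C := by
    rw [hC]
    have : 0 ≤ 2 * d * ((E : ℝ) + 1) := by positivity
    have : 0 ≤ 4 * d * C₂ := by positivity
    linarith
  refine ⟨C, hC1, ?_⟩
  intro V Γ _ r c Y Ng g0 gB cB wB T κ h hr hκ hh hY hNg hd0' hdB hpt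
  have hr0 := hr.nonneg
  obtain ⟨P, hP⟩ : ∃ P : Γ → Fin d → MvPolynomial (Fin d) ℝ, P = fun γ i =>
    bind₁ (chi (gB γ) (cB γ) (wB γ)) (g0 γ i - gB γ i) := ⟨_, rfl⟩
  have hPe : ∀ γ i v, eval v (P γ i) =
      eval (cpt (chi (gB γ) (cB γ) (wB γ)) v) (g0 γ i - gB γ i) := fun γ i v => by
    rw [hP, eval_bind]
  have hPd : ∀ v, 0 < r v → ∀ i, (P (c v) i).totalDegree ≤ E := by
    intro v hv i
    rw [hP, hE]
    refine (SML.totalDegree_bind_le _ ((K₀ + 1) ^ d) (fun l =>
      deg_chiN (gB (c v)) (cB (c v)) (wB (c v)) K₀ (hdB v hv) d l) _).trans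
      (Nat.mul_le_mul_left _ ?_)
    exact (totalDegree_sub _ _).trans (max_le (hd0' v hv i) (hdB v hv i))
  have hexh := Real.exp_pos h
  -- the union bound
  have h1 := ms_ex hr0 (fun (i : Fin d) v => 0 < cs (fun _ => 0) 1 (P (c v) i) ∧
    ∀ u ∈ gcell (Ng (c v)) (Y v), |eval u (P (c v) i)| ≤
      Real.exp (-h) * cs (fun _ => 0) 1 (P (c v) i))
    (fun i => (ms_eq r _ _).le.trans (hrev V Γ r c Y Ng (fun γ => P γ i) h hr hY
      (fun v hv => hPd v hv i) hh))
  have h2 : ms r (fun v => ¬ ∀ u ∈ ucube d, ∀ i,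
        |eval (cpt (chi (gB (c v)) (cB (c v)) (wB (c v))) u) (g0 (c v) i - gB (c v) i)| ≤
          2 * Real.exp h * T (c v) i) ≤
      ms r (fun v => ∃ i : Fin d, 0 < cs (fun _ => 0) 1 (P (c v) i) ∧
    ∀ u ∈ gcell (Ng (c v)) (Y v), |eval u (P (c v) i)| ≤
      Real.exp (-h) * cs (fun _ => 0) 1 (P (c v) i)) := by
    refine ms_le hr0 fun v hv h3 => ?_
    by_contra hcon
    push Not at hcon
    apply h3
    intro u hu i
    obtain ⟨w, hw, hwY, hwT⟩ := hpt v hv i
    rw [← hPe] at hwT ⊢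
    have hT0 : 0 ≤ T (c v) i := (abs_nonneg _).trans hwT
    have hcs0 : 0 ≤ cs (fun _ => (0 : ℝ)) 1 (P (c v) i) := SML.cs_nonneg _ _ _
    have hle : ∀ u ∈ ucube d, |eval u (P (c v) i)| ≤ cs (fun _ => 0) 1 (P (c v) i) :=
      fun u hu => SML.le_cs zero_le_one _ (fun l => by
        have := hu l
        constructor <;> linarith [this.1, this.2])
    rcases hcs0.eq_or_lt with h4 | h4
    · refine (hle u hu).trans ?_
      rw [← h4]
      positivity
    · obtain ⟨u', hu', h5⟩ := hcon i h4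
      have hu'c := gcell_sub (hY v hv) hu'
      have h6 := hm (P (c v) i) _ (hPd v hv i) hle w hw u' hu'c
      have h7 : ∑ l, |u' l - w l| ≤ d * (2 * κ / (C * κ * Real.exp h)) := by
        have h8 : ∀ l ∈ (univ : Finset (Fin d)), |u' l - w l| ≤ 2 * κ / (C * κ * Real.exp h) := by
          intro l _
          have hNl := hNg v hv l
          have hCκ : 0 < C * κ * Real.exp h := by positivity
          have hN0 : (0 : ℝ) < Ng (c v) l := lt_of_lt_of_le hCκ hNl
          have h9 := hu' l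
          have h10 := abs_le.1 (hwY l)
          have h11 : 1 / (Ng (c v) l : ℝ) ≤ κ / Ng (c v) l :=
            div_le_div_of_nonneg_right hκ hN0.le
          have h12 : ((Y v l : ℝ) + 1) / Ng (c v) l =
              (Y v l : ℝ) / Ng (c v) l + 1 / Ng (c v) l := by ring
          have h13 : |u' l - w l| ≤ 2 * κ / Ng (c v) l := by
            have e1 : 2 * κ / (Ng (c v) l : ℝ) = κ / Ng (c v) l + κ / Ng (c v) l := by ring
            rw [e1, abs_le]
            have hκ0 : 0 ≤ κ / (Ng (c v) l : ℝ) := by positivity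
            constructor <;> linarith [h9.1, h9.2, h10.1, h10.2]
          exact h13.trans (div_le_div_of_nonneg_left (by linarith) hCκ hNl)
        refine (Finset.sum_le_sum h8).trans (le_of_eq ?_)
        rw [Finset.sum_const, card_univ, Fintype.card_fin, nsmul_eq_mul]
      have h8 : C₂ * cs (fun _ => 0) 1 (P (c v) i) * ∑ l, |u' l - w l| ≤
          1 / 2 * (Real.exp (-h) * cs (fun _ => 0) 1 (P (c v) i)) := by
        have h9 : C₂ * (d * (2 * κ / (C * κ * Real.exp h))) ≤ 1 / 2 * Real.exp (-h) := by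
          have e1 : C₂ * (d * (2 * κ / (C * κ * Real.exp h))) =
              (4 * d * C₂) / C * (1 / 2 * Real.exp (-h)) := by
            rw [Real.exp_neg]
            field_simp
            ring
          rw [e1]
          have h10 : (4 * d * C₂) / C ≤ 1 := by
            rw [div_le_one (by linarith)]
            rw [hC]
            have : 0 ≤ 2 * d * ((E : ℝ) + 1) := by positivity
            linarith
          have h11 : 0 ≤ 1 / 2 * Real.exp (-h) := by positivity
          nlinarith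
        calc C₂ * cs (fun _ => 0) 1 (P (c v) i) * ∑ l, |u' l - w l| ≤
              C₂ * cs (fun _ => 0) 1 (P (c v) i) * (d * (2 * κ / (C * κ * Real.exp h))) :=
              mul_le_mul_of_nonneg_left h7 (by positivity)
          _ = C₂ * (d * (2 * κ / (C * κ * Real.exp h))) * cs (fun _ => 0) 1 (P (c v) i) := by ring
          _ ≤ 1 / 2 * Real.exp (-h) * cs (fun _ => 0) 1 (P (c v) i) :=
              mul_le_mul_of_nonneg_right h9 hcs0
          _ = _ := by ring
      have h9 : Real.exp (-h) * cs (fun _ => 0) 1 (P (c v) i) ≤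
          T (c v) i + 1 / 2 * (Real.exp (-h) * cs (fun _ => 0) 1 (P (c v) i)) := by
        have h10 : |eval u' (P (c v) i)| ≤
            |eval w (P (c v) i)| + |eval u' (P (c v) i) - eval w (P (c v) i)| := by
          have := abs_add_le (eval w (P (c v) i)) (eval u' (P (c v) i) - eval w (P (c v) i))
          rwa [add_sub_cancel] at this
        linarith [h5.le]
      have h10 : cs (fun _ => 0) 1 (P (c v) i) ≤ 2 * Real.exp h * T (c v) i := by
        have h11 : Real.exp (-h) * cs (fun _ => 0) 1 (P (c v) i) ≤ 2 * T (c v) i := by linarith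
        have h12 := mul_le_mul_of_nonneg_left h11 hexh.le
        rw [← mul_assoc, ← Real.exp_add, add_neg_cancel, Real.exp_zero, one_mul] at h12
        linarith
      exact (hle u hu).trans h10
  refine h2.trans (h1.trans ?_)
  rw [Fintype.card_fin, ← mul_div_assoc]
  refine div_le_div_of_nonneg_right ?_ hh.le
  have hμ : 0 ≤ Ex r (fun v => ∑ i, Real.log (Ng (c v) i)) - CH r Y c := by
    have h3 := CH_le_card hr0 hr.sum_one Y c (fun γ => Fintype.piFinset (fun i => range (Ng γ i)))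
      (fun v hv => by
        rw [Fintype.mem_piFinset]
        intro i
        rw [mem_range]
        exact hY v hv i)
    have h4 : Ex r (fun v => Real.log
        ((Fintype.piFinset (fun i => range (Ng (c v) i))).card : ℝ)) =
        Ex r (fun v => ∑ i, Real.log (Ng (c v) i)) := by
      unfold Ex
      refine Finset.sum_congr rfl fun v _ => ?_
      rcases (hr0 v).eq_or_lt with h6 | h6
      · rw [← h6]
        simp
      congr 1
      simp only [Fintype.card_piFinset, card_range]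
      push_cast
      rw [Real.log_prod]
      intro i _
      have : 0 < Ng (c v) i := lt_of_le_of_lt (Nat.zero_le _) (hY v h6 i)
      positivity
    linarith
  obtain ⟨μ, hμe⟩ : ∃ μ, μ = Ex r (fun v => ∑ i, Real.log (Ng (c v) i)) - CH r Y c := ⟨_, rfl⟩
  rw [← hμe] at hμ ⊢
  have h3 : 2 * d * ((E : ℝ) + 1) ≤ C := by
    rw [hC]
    have : 0 ≤ 4 * d * C₂ := by positivity
    linarith
  have h4 : C₁ ≤ C := by
    rw [hC]
    have : 0 ≤ 2 * d * ((E : ℝ) + 1) := by positivity
    have : 0 ≤ 4 * d * C₂ := by positivity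
    linarith
  calc (d : ℝ) * (2 * (E + 1) * (μ + C₁)) = 2 * d * (E + 1) * (μ + C₁) := by ring
    _ ≤ C * (μ + C) := mul_le_mul h3 (by linarith) (by linarith) (by linarith)

end Pool.GEO
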