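import Pool.Agent.H37.CLO.Clf
import Pool.Agent.H86.EXT.Lev

/-!
# The equation of a label on the chart of its leaf

`toO`: a polynomial in the variables of the label, in the scaled variables of the chart.
`jet_csC`: the jets of the equation on the natural box give the hypotheses of `line_ev` for one of
the derivatives of the equation.
-/

set_option autoImplicit false

namespace Pool.GEO

open Finset Real MvPolynomial
open Pool.Agent.H49.Ent Pool.Agent.H32.Dense Pool.STK Pool.KAF Pool.KAL Pool.KS3 Pool.M3F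
open Pool.KJA Pool.KA Pool.K2S Pool.KSAT Pool.PB Pool.STAT Pool.GEN Pool.IEN Pool.CLO37

lemma vars_pd {σ : Type} (i : σ) (Q : MvPolynomial σ ℝ) : (pderiv i Q).vars ⊆ Q.vars := by
  classical
  intro j hj
  rw [mem_vars_iff_mem_support] at hj ⊢
  obtain ⟨m, hm, hjm⟩ := hj
  rw [mem_support_iff, coeff_pderiv] at hm
  refine ⟨m + Finsupp.single i 1, mem_support_iff.2 fun h => hm (by rw [h, zero_mul]), ?_⟩
  rw [Finsupp.mem_support_iff] at hjm ⊢
  rw [Finsupp.add_apply]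
  omega

section conv

variable {d W : ℕ}

/-- The substitution of the scaled variables; the variable `d` is the passive one. -/
noncomputable def tov (d W : ℕ) (n : ℕ) : MvPolynomial (Option (Fin d)) ℝ :=
  if h : n < d then C (1 / 2 ^ W : ℝ) * MvPolynomial.X (some ⟨n, h⟩)
  else if n = d then C (1 / 2 ^ W : ℝ) * MvPolynomial.X none else 0

/-- The polynomial in the scaled variables. -/
noncomputable def toO (d W : ℕ) (Q : PN) : MvPolynomial (Option (Fin d)) ℝ := bind₁ (tov d W) Q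

/-- The point in the variables of the label. -/
noncomputable def uno (d W : ℕ) (x : Option (Fin d) → ℝ) (n : ℕ) : ℝ :=
  if h : n < d then x (some ⟨n, h⟩) / 2 ^ W else if n = d then x none / 2 ^ W else 0

lemma eval_tov (x : Option (Fin d) → ℝ) (n : ℕ) : eval x (tov d W n) = uno d W x n := by
  unfold tov uno
  split_ifs
  · rw [map_mul, eval_C, eval_X]
    ring
  · rw [map_mul, eval_C, eval_X]
    ring
  · rw [map_zero]

theorem eval_toO (x : Option (Fin d) → ℝ) (Q : PN) :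
    eval x (toO d W Q) = eval (uno d W x) Q := by
  unfold toO
  unfold MvPolynomial.eval
  rw [MvPolynomial.eval₂Hom_bind₁]
  congr 2
  funext n
  exact eval_tov x n

theorem deg_toO (Q : PN) : (toO d W Q).totalDegree ≤ Q.totalDegree := by
  have h1 : ∀ n, (tov d W n).totalDegree ≤ 1 := by
    intro n
    unfold tov
    split_ifs
    · refine (totalDegree_mul _ _).trans ?_
      rw [totalDegree_C, totalDegree_X]
    · refine (totalDegree_mul _ _).trans ?_
      rw [totalDegree_C, totalDegree_X]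
    · rw [totalDegree_zero]
      exact zero_le_one
  have h2 := SML.totalDegree_bind_le (tov d W) 1 h1 Q
  rwa [one_mul] at h2

theorem pd_toO (Q : PN) :
    pderiv none (toO d W Q) = C (1 / 2 ^ W : ℝ) * toO d W (pderiv d Q) := by
  classical
  unfold toO
  induction Q using MvPolynomial.induction_on with
  | C a => simp
  | add p q hp hq => simp only [map_add, hp, hq, mul_add]
  | mul_X p n hp =>
    have hn : pderiv none (tov d W n) = C (1 / 2 ^ W : ℝ) * bind₁ (tov d W) (pderiv d (MvPolynomial.X n)) := by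
      unfold tov
      by_cases h1 : n < d
      · rw [dif_pos h1, pderiv_C_mul, pderiv_X, pderiv_X,
          Pi.single_eq_of_ne (by simp), Pi.single_eq_of_ne (by omega), map_zero, mul_zero]
      · rw [dif_neg h1]
        by_cases h2 : n = d
        · subst h2
          rw [if_pos rfl, pderiv_C_mul, pderiv_X, pderiv_X, Pi.single_eq_same, Pi.single_eq_same,
            map_one, mul_one]
        · rw [if_neg h2, map_zero, pderiv_X, Pi.single_eq_of_ne (fun h => h2 h), map_zero,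
            mul_zero]
    rw [map_mul, bind₁_X_right, Derivation.leibniz, hp, hn, Derivation.leibniz]
    simp only [smul_eq_mul, map_add, map_mul, bind₁_X_right]
    ring

theorem pN_toO (k : ℕ) (Q : PN) : pN k (toO d W Q) =
    C ((1 / 2 ^ W : ℝ) ^ k) * toO d W ((fun R : PN => pderiv d R)^[k] Q) := by
  induction k with
  | zero => rw [pN_zero, pow_zero, map_one, one_mul, Function.iterate_zero, id_eq]
  | succ k ih =>
    rw [pN_succ, ih, pderiv_C_mul, pd_toO, Function.iterate_succ_apply', ← mul_assoc, ← map_mul,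
      pow_succ]

end conv

/-! ### The chart -/

section chart

variable {r W P₀ : ℕ} {g : ℕ → ℕ} {P : ℕ → PN}

theorem uno_chw (hP : TriN P) (u : Fin (r + 1) → ℝ) :
    uno (r + 1) W (cpt (chw (r + 1) W P₀ g P) u) =
      lfpt r P (unF (r + 1) W (cbw (r + 1) W P₀ g P u)) := by
  rw [cpt_chw hP u]
  obtain ⟨y, hy⟩ : ∃ y, y = cbw (r + 1) W P₀ g P u := ⟨_, rfl⟩
  rw [← hy]
  have hW : (0 : ℝ) < 2 ^ W := by positivity
  funext n
  unfold lfpt
  by_cases h1 : n < r + 1
  · rw [Function.update_of_ne (by omega)]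
    unfold uno unF
    rw [dif_pos h1, dif_pos h1]
    rfl
  · by_cases h2 : n = r + 1
    · subst h2
      rw [Function.update_self]
      unfold uno
      rw [dif_neg h1, if_pos rfl]
      change eval y (toF (r + 1) W (P (r + 1))) / 2 ^ W = _
      rw [eval_toF]
      field_simp
    · rw [Function.update_of_ne h2]
      unfold uno unF
      rw [dif_neg h1, if_neg h2, dif_neg h1]

theorem eval_chw (hP : TriN P) (u : Fin (r + 1) → ℝ) (R : PN) :
    eval (cpt (chw (r + 1) W P₀ g P) u) (toO (r + 1) W R) =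
      eval (lfpt r P (unF (r + 1) W (cbw (r + 1) W P₀ g P u))) R := by
  rw [eval_toO, uno_chw hP]

theorem deg_chw {K : ℕ} (hK : ∀ i ≤ r + 1, (P i).totalDegree ≤ K) (o : Option (Fin (r + 1))) :
    (chw (r + 1) W P₀ g P o).totalDegree ≤ (K + 1) ^ (r + 2) := by
  have hg : ∀ i : Fin (r + 1), (gsh (r + 1) W P₀ g P i).totalDegree ≤ K := by
    intro i
    unfold gsh
    refine (totalDegree_sub _ _).trans (max_le ((deg_toF _).trans (hK i (by omega))) ?_)
    rw [totalDegree_C]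
    exact Nat.zero_le _
  have hn : ∀ i : Fin (r + 1), (nchi (2 ^ (P₀ - W)) (ngw W P₀ g (r + 1)) (gsh (r + 1) W P₀ g P) 0
      i).totalDegree ≤ (K + 1) ^ (r + 1) := fun i => deg_chiN _ _ _ K hg (r + 1) i
  have hb : ∀ R : MvPolynomial (Fin (r + 1)) ℝ, R.totalDegree ≤ K →
      (bind₁ (nchi (2 ^ (P₀ - W)) (ngw W P₀ g (r + 1)) (gsh (r + 1) W P₀ g P) 0) R).totalDegree ≤
        (K + 1) ^ (r + 2) := by
    intro R hR
    refine (SML.totalDegree_bind_le _ ((K + 1) ^ (r + 1)) hn R).trans ?_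
    rw [pow_succ (K + 1) (r + 1)]
    exact Nat.mul_le_mul_left _ (hR.trans (Nat.le_succ _))
  cases o with
  | none => exact hb _ ((deg_toF _).trans (hK (r + 1) le_rfl))
  | some i =>
    change (bind₁ _ (gsh (r + 1) W P₀ g P i) + C _ + C _ * MvPolynomial.X i).totalDegree ≤ _
    refine (totalDegree_add _ _).trans (max_le ((totalDegree_add _ _).trans
      (max_le (hb _ (hg i)) ?_)) ?_)
    · rw [totalDegree_C]
      exact Nat.zero_le _
    · refine (totalDegree_mul _ _).trans ?_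
      rw [totalDegree_C, zero_add, totalDegree_X]
      exact Nat.one_le_pow _ _ (Nat.succ_pos K)

/-- The chart of the leaf at the points of the larger box. -/
theorem cbw_big (hP : TriN P) (hWP : W ≤ P₀) (hw : ∀ i < r + 1, wid W g i ≤ P₀) {b : ℕ → ℝ}
    (hb : CLO.Bxr 2 (wid W g) P (r + 1) b) :
    ∃ u : Fin (r + 1) → ℝ, (∀ i, |u i| ≤ 2) ∧ ∀ R : PN, R.vars ⊆ range (r + 2) →
      eval (cpt (chw (r + 1) W P₀ g P) u) (toO (r + 1) W R) = eval (lfpt r P b) R := by
  obtain ⟨y, hy⟩ : ∃ y : Fin (r + 1) → ℝ, y = fun i : Fin (r + 1) => 2 ^ W * b i.val := ⟨_, rfl⟩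
  have hyi : ∀ i : Fin (r + 1), y i = 2 ^ W * b i := fun i => by rw [hy]
  have hM : 1 ≤ 2 ^ (P₀ - W) := Nat.one_le_two_pow
  have hM0 : (0 : ℝ) < ((2 ^ (P₀ - W) : ℕ) : ℝ) := by positivity
  have hW0 : (0 : ℝ) < 2 ^ W := by positivity
  obtain ⟨u, hu⟩ : ∃ u, u = rpos (2 ^ (P₀ - W)) (ngw W P₀ g (r + 1)) (gsh (r + 1) W P₀ g P) 0 y :=
    ⟨_, rfl⟩
  have hcb : cbw (r + 1) W P₀ g P u = y := by
    rw [hu]
    exact nchi_rpos hM (ngw_pos W P₀ g (r + 1)) (triP_gsh hP) y
  have hev : ∀ i ≤ r + 1, eval b (P i) = eval (unF (r + 1) W y) (P i) := fun i hi =>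
    eval_eq_unF ((hP i).trans (Finset.range_mono hi)) hyi
  refine ⟨u, fun i => ?_, fun R hR => ?_⟩
  · have hN0 : (0 : ℝ) < ngw W P₀ g (r + 1) i := by exact_mod_cast ngw_pos W P₀ g (r + 1) i
    have h1 := hb i i.2
    have e1 : u i = (y i - 2 ^ W * eval (unF (r + 1) W y) (P i)) *
        ((2 ^ (P₀ - W) : ℕ) : ℝ) / ngw W P₀ g (r + 1) i + 1 / 2 := by
      rw [hu]
      unfold rpos
      rw [eval_gsh]
      simp only [Pi.zero_apply, Int.cast_zero, zero_mul, zero_div, sub_zero]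
      field_simp
      ring
    have h2 := ngw_half (g := g) i hWP (hw i i.2)
    have h3 : |(y i - 2 ^ W * eval (unF (r + 1) W y) (P i))| ≤
        2 * ((ngw W P₀ g (r + 1) i : ℝ) / (2 * ((2 ^ (P₀ - W) : ℕ) : ℝ))) := by
      rw [hyi i, ← hev i (by omega), ← mul_sub, abs_mul, abs_of_pos hW0, h2]
      have h4 : 2 ^ W * |b i - eval b (P i)| ≤ 2 ^ W * (2 / 2 ^ wid W g i) :=
        mul_le_mul_of_nonneg_left h1 hW0.le
      have h5 : (0 : ℝ) < 1 / ((2 ^ (P₀ - W) : ℕ) : ℝ) := by positivity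
      calc 2 ^ W * |b i - eval b (P i)| ≤ 2 ^ W * (2 / 2 ^ wid W g i) := h4
        _ = 2 * (2 ^ W / 2 ^ wid W g i) := by ring
        _ ≤ _ := by linarith
    have h4 : |(y i - 2 ^ W * eval (unF (r + 1) W y) (P i)) *
        ((2 ^ (P₀ - W) : ℕ) : ℝ) / ngw W P₀ g (r + 1) i| ≤ 1 := by
      rw [abs_div, abs_mul, abs_of_pos hM0, abs_of_pos hN0, div_le_one hN0]
      calc |(y i - 2 ^ W * eval (unF (r + 1) W y) (P i))| * ((2 ^ (P₀ - W) : ℕ) : ℝ) ≤
            2 * ((ngw W P₀ g (r + 1) i : ℝ) / (2 * ((2 ^ (P₀ - W) : ℕ) : ℝ))) *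
              ((2 ^ (P₀ - W) : ℕ) : ℝ) := mul_le_mul_of_nonneg_right h3 hM0.le
        _ = ngw W P₀ g (r + 1) i := by field_simp
    rw [e1]
    have h5 := abs_le.1 h4
    rw [abs_le]
    constructor <;> linarith [h5.1, h5.2]
  · rw [eval_chw hP, hcb]
    refine eval₂Hom_congr' rfl ?_ rfl
    intro l hl _
    have hl' := Finset.mem_range.1 (hR hl)
    unfold lfpt
    by_cases h1 : l = r + 1
    · subst h1
      rw [Function.update_self, Function.update_self, hev (r + 1) le_rfl]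
    · rw [Function.update_of_ne h1, Function.update_of_ne h1]
      have h2 : l < r + 1 := by omega
      unfold unF
      rw [dif_pos h2, hyi ⟨l, h2⟩]
      field_simp

end chart

/-! ### The degenerate case -/

/-- If the first two numbers are good, then one of the tails satisfies all the inequalities. -/
theorem deg_seq {D : ℕ} {α : ℕ → ℝ} (hα : ∀ k, 0 ≤ α k) (hD : ∀ k, D < k → α k = 0) {ρ : ℝ}
    (hρ : 0 < ρ) (h1 : 0 < α 1) (h0 : α 0 ≤ ρ * α 1) :
    ∃ j, 0 < α (j + 1) ∧ α j ≤ ρ * α (j + 1) ∧ ∀ i, α (j + 1 + i) * ρ ^ i ≤ α (j + 1) := by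
  classical
  have hD1 : 1 ≤ D := by
    by_contra h
    have := hD 1 (by omega)
    linarith
  obtain ⟨j, hj, hmax⟩ := Finset.exists_max_image (Icc 1 D) (fun j => α j * ρ ^ j)
    ⟨1, by rw [mem_Icc]; omega⟩
  rw [mem_Icc] at hj
  have hmax' : ∀ i, 1 ≤ i → α i * ρ ^ i ≤ α j * ρ ^ j := by
    intro i hi
    rcases Nat.lt_or_ge D i with h | h
    · rw [hD i h, zero_mul]
      have := hα j
      positivity
    · exact hmax i (by rw [mem_Icc]; omega)
  have hjpos : 0 < α j := by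
    have h2 := hmax' 1 le_rfl
    rw [pow_one] at h2
    have h3 : 0 < α j * ρ ^ j := lt_of_lt_of_le (by positivity) h2
    exact pos_of_mul_pos_left h3 (by positivity)
  obtain ⟨i, rfl⟩ : ∃ i, j = i + 1 := ⟨j - 1, by omega⟩
  refine ⟨i, hjpos, ?_, fun s => ?_⟩
  · rcases Nat.eq_zero_or_pos i with h | h
    · subst h
      exact h0
    · have h2 := hmax' i h
      rw [pow_succ] at h2
      have h3 : α i * ρ ^ i ≤ ρ * α (i + 1) * ρ ^ i := by
        calc α i * ρ ^ i ≤ α (i + 1) * (ρ ^ i * ρ) := h2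
          _ = _ := by ring
      exact le_of_mul_le_mul_right h3 (by positivity)
  · have h2 := hmax' (i + 1 + s) (by omega)
    rw [pow_add] at h2
    have h3 : α (i + 1 + s) * ρ ^ s * ρ ^ (i + 1) ≤ α (i + 1) * ρ ^ (i + 1) := by
      calc α (i + 1 + s) * ρ ^ s * ρ ^ (i + 1) = α (i + 1 + s) * (ρ ^ (i + 1) * ρ ^ s) := by ring
        _ ≤ _ := h2
    exact le_of_mul_le_mul_right h3 (by positivity)

/-- The equation `Q` on the chart of the leaf: the hypotheses of `line_ev`. -/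
structure CsQ (r D W P₀ : ℕ) (g : ℕ → ℕ) (P : ℕ → PN) (Q : MvPolynomial (Option (Fin (r + 1))) ℝ)
    (ρ : ℝ) : Prop where
  deg : Q.totalDegree ≤ D
  pos : 0 < csC (chw (r + 1) W P₀ g P) (pN 1 Q)
  low : csC (chw (r + 1) W P₀ g P) Q ≤ ρ * csC (chw (r + 1) W P₀ g P) (pN 1 Q)
  high : ∀ i, csC (chw (r + 1) W P₀ g P) (pN (i + 1) Q) * ρ ^ i ≤
    csC (chw (r + 1) W P₀ g P) (pN 1 Q)

/-- **The equation of a label on the chart of its leaf.** -/
theorem jet_csC (r D K : ℕ) : ∃ C : ℝ, 1 ≤ C ∧ ∀ (W P₀ : ℕ) (g : ℕ → ℕ) (P : ℕ → PN) (Q : PN)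
    (ρ S ρ' : ℝ), TriN P → (∀ i ≤ r + 1, (P i).totalDegree ≤ K) → W ≤ P₀ →
    (∀ i < r + 1, wid W g i ≤ P₀) → 0 < ρ → Jet r D (wid W g) P Q ρ S →
    C * (2 ^ W * ρ) ≤ ρ' → ∃ j, CsQ r D W P₀ g P (pN j (toO (r + 1) W Q)) ρ' := by
  obtain ⟨K₁, hK₁, hgr⟩ := Pool.M3F.grow (r + 1) ((K + 1) ^ (r + 2) * D)
  refine ⟨K₁ * (3 * 2) ^ ((K + 1) ^ (r + 2) * D), ?_, ?_⟩
  · have : (1 : ℝ) ≤ (3 * 2) ^ ((K + 1) ^ (r + 2) * D) := one_le_pow₀ (by norm_num)
    nlinarith
  intro W P₀ g P Q ρ S ρ' hP hK hWP hw hρ hJ hρ'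
  obtain ⟨C₁, hC₁⟩ : ∃ C₁ : ℝ, C₁ = K₁ * (3 * 2) ^ ((K + 1) ^ (r + 2) * D) := ⟨_, rfl⟩
  have hC1 : 1 ≤ C₁ := by
    have : (1 : ℝ) ≤ (3 * 2) ^ ((K + 1) ^ (r + 2) * D) := one_le_pow₀ (by norm_num)
    rw [hC₁]
    nlinarith
  rw [← hC₁] at hρ'
  obtain ⟨Φ, hΦ⟩ : ∃ Φ, Φ = chw (r + 1) W P₀ g P := ⟨_, rfl⟩
  have hW0 : (0 : ℝ) < 2 ^ W := by positivity
  have ha : 0 < 2 ^ W * ρ := by positivity
  have hρ0 : 0 < ρ' := lt_of_lt_of_le (by positivity) hρ'
  have hQd : (toO (r + 1) W Q).totalDegree ≤ D := (deg_toO Q).trans hJ.deg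
  -- upper bound
  have hup : csC Φ (toO (r + 1) W Q) ≤ ρ * S := by
    refine csC_le _ _ (mul_nonneg hρ.le hJ.pos.le) fun u hu => ?_
    rw [hΦ, eval_chw hP]
    have h2 := hJ.jet _ (cbw_bxr hP hWP hw hu) 0
    rw [pow_zero, one_mul] at h2
    exact h2
  -- the lower bound
  have hlow : S ≤ C₁ * (2 ^ W * csC Φ (pN 1 (toO (r + 1) W Q))) := by
    obtain ⟨b, hb, hbS⟩ := hJ.att
    obtain ⟨u, hu, hu'⟩ := cbw_big hP hWP hw hb
    have hvars : (pderiv (r + 1) Q).vars ⊆ range (r + 2) :=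
      (vars_pd (r + 1) Q).trans hJ.vars
    have h1 := hu' _ hvars
    have h2 := hgr (bind₁ Φ (toO (r + 1) W (pderiv (r + 1) Q))) 2 u ?_ (by norm_num) hu
    · rw [← hC₁, Pool.M3F.eval_bind, hΦ, h1, hbS] at h2
      have h3 : csC (chw (r + 1) W P₀ g P) (toO (r + 1) W (pderiv (r + 1) Q)) ≤
          2 ^ W * csC Φ (pN 1 (toO (r + 1) W Q)) := by
        refine csC_le _ _ (mul_nonneg hW0.le (csC_nonneg _ _)) fun v hv => ?_
        have h4 := le_csC Φ (pN 1 (toO (r + 1) W Q)) hv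
        rw [pN_toO, map_mul, eval_C, abs_mul, abs_of_pos (by positivity), pow_one, hΦ] at h4
        have h5 := mul_le_mul_of_nonneg_left h4 hW0.le
        rw [← mul_assoc, mul_one_div_cancel hW0.ne', one_mul] at h5
        rw [hΦ]
        rw [pN_toO, pow_one]
        exact h5
      exact h2.trans (mul_le_mul_of_nonneg_left h3 (by linarith))
    · refine (SML.totalDegree_bind_le _ ((K + 1) ^ (r + 2)) (fun o => by
        rw [hΦ]
        exact deg_chw hK o) _).trans (Nat.mul_le_mul_left _ ?_)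
      refine (deg_toO _).trans ?_
      exact SML.totalDegree_pderiv_le _ _ D (hJ.deg.trans (Nat.le_succ _))
  have h1pos : 0 < csC Φ (pN 1 (toO (r + 1) W Q)) := by
    by_contra hcon
    have h2 : csC Φ (pN 1 (toO (r + 1) W Q)) = 0 := le_antisymm (not_lt.1 hcon) (csC_nonneg _ _)
    rw [h2, mul_zero, mul_zero] at hlow
    linarith [hJ.pos]
  obtain ⟨j, j1, j2, j3⟩ := deg_seq (D := D) (α := fun k => csC Φ (pN k (toO (r + 1) W Q)))
    (ρ := ρ') (fun k => csC_nonneg _ _) (fun k hk => by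
      rw [pN_eq_zero k D hQd hk]
      refine le_antisymm (csC_le Φ _ le_rfl fun u _ => by simp) (csC_nonneg _ _))
    hρ0 h1pos (by
      refine hup.trans ((mul_le_mul_of_nonneg_left hlow hρ.le).trans ?_)
      have e1 : ρ * (C₁ * (2 ^ W * csC Φ (pN 1 (toO (r + 1) W Q)))) =
          C₁ * (2 ^ W * ρ) * csC Φ (pN 1 (toO (r + 1) W Q)) := by ring
      rw [e1]
      exact mul_le_mul_of_nonneg_right hρ' h1pos.le)
  rw [hΦ] at j1 j2 j3
  refine ⟨j, pN_deg j D hQd, ?_, ?_, fun i => ?_⟩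
  · rw [pN_pN, add_comm 1 j]
    exact j1
  · rw [pN_pN, add_comm 1 j]
    exact j2
  · rw [pN_pN, pN_pN, add_comm 1 j, show i + 1 + j = j + 1 + i by ring]
    exact j3 i

end Pool.GEO
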