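import Pool.Agent.H86.GEO.Gdt

/-!
# The event of the equation along the line, in a class

`evln_w`: outside an event of small mass the equation of the label of the second sample has a level
at the first point, with explicit numbers.
-/

set_option autoImplicit false

namespace Pool.GEO

open Finset Real
open Pool.Agent.H49.Ent Pool.Agent.H32.Dense Pool.STK Pool.KAF Pool.KAL Pool.KS3 Pool.M3F
open Pool.KJA Pool.KA Pool.K2S Pool.KSAT Pool.PB Pool.STAT Pool.GEN Pool.CLO37 Pool.IEN Pool.EXS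
open Pool.JPN Pool.JMS Pool.KM7 Pool.S6C

/-- Constants are small exponentials. -/
lemma const_exp (x : ℝ) {μ : ℝ} (hμ : 0 < μ) : ∃ J₀ : ℕ, ∀ J : ℕ, J₀ ≤ J →
    x ≤ Real.exp (μ * J) := by
  obtain ⟨J₀, hJ₀⟩ := exists_nat_gt (x / μ)
  refine ⟨J₀, fun J hJ => ?_⟩
  have h1 : (J₀ : ℝ) ≤ J := by exact_mod_cast hJ
  rw [div_lt_iff₀ hμ] at hJ₀
  have h2 : x ≤ μ * J := by
    have h4 : (J₀ : ℝ) * μ ≤ J * μ := mul_le_mul_of_nonneg_right h1 hμ.le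
    linarith
  have h3 := Real.add_one_le_exp (μ * J)
  linarith

/-- The constants of the natural boxes are small. -/
lemma kk_small (k Dq : ℕ) {C μ : ℝ} (hC : 1 ≤ C) (hμ : 0 < μ) : ∃ φ : ℝ, 0 < φ ∧ ∃ J₀ : ℕ,
    ∀ J : ℕ, J₀ ≤ J → ∀ (kap : ℕ) (L : ℝ), 0 ≤ L → (kap : ℝ) ≤ φ * J →
      Real.log (1 + L) ≤ φ * J →
      (C * (clC k kap L + 2) * ctC k kap L ^ (2 * (k + 1))) ^ (Dq + 1) ≤ Real.exp (μ * J) := by
  obtain ⟨n, hn⟩ : ∃ n : ℕ, n = (k + 3) * (2 * k + 4) * (Dq + 1) := ⟨_, rfl⟩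
  have hn0 : 0 < n := by
    rw [hn]
    positivity
  have hnr : (0 : ℝ) < n := by exact_mod_cast hn0
  obtain ⟨c₁, hc₁⟩ : ∃ c₁ : ℝ, c₁ = (C * (2 * k + 7)) ^ (Dq + 1) *
    (4 * ((k : ℝ) + 1) ^ (k + 2)) ^ ((2 * k + 4) * (Dq + 1)) := ⟨_, rfl⟩
  obtain ⟨J₀, hJ₀⟩ := const_exp c₁ (show 0 < μ / 2 by positivity)
  refine ⟨μ / (4 * n), by positivity, J₀, ?_⟩
  intro J hJ kap L hL hkap hlog
  have h0 : (0 : ℝ) ≤ J := Nat.cast_nonneg J
  obtain ⟨x, hx⟩ : ∃ x : ℝ, x = Real.exp (μ / (2 * n) * J) := ⟨_, rfl⟩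
  have hx1 : 1 ≤ x := by
    rw [hx]
    exact Real.one_le_exp (by positivity)
  have hkk : (2 : ℝ) ^ kap * (1 + L) ≤ x := by
    have h1 : (2 : ℝ) ^ kap ≤ Real.exp (μ / (4 * n) * J) := by
      have h2 : (2 : ℝ) ^ kap = Real.exp (Real.log 2 * kap) := by
        rw [Real.exp_mul, Real.exp_log (by norm_num), Real.rpow_natCast]
      rw [h2]
      refine Real.exp_le_exp.2 (le_trans ?_ hkap)
      have h3 : Real.log 2 ≤ 1 := by
        have := Real.log_two_lt_d9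
        linarith
      have h4 : (0 : ℝ) ≤ kap := Nat.cast_nonneg _
      exact mul_le_of_le_one_left h4 h3
    have h2 : 1 + L ≤ Real.exp (μ / (4 * n) * J) := by
      rw [← Real.log_le_iff_le_exp (by linarith)]
      exact hlog
    have h3 : x = Real.exp (μ / (4 * n) * J) * Real.exp (μ / (4 * n) * J) := by
      rw [hx, ← Real.exp_add]
      congr 1
      field_simp
      ring
    rw [h3]
    exact mul_le_mul h1 h2 (by linarith) (Real.exp_pos _).le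
  have hct : ctC k kap L ≤ 4 * ((k : ℝ) + 1) ^ (k + 2) * x ^ (k + 3) := by
    unfold ctC
    have h1 : (1 : ℝ) ≤ 2 ^ kap := one_le_pow₀ one_le_two
    have h2 : 1 + (((k + 1 : ℕ)) : ℝ) * L ≤ ((k : ℝ) + 1) * (1 + L) := by
      push_cast
      have h3 : (0 : ℝ) ≤ k := Nat.cast_nonneg k
      linarith
    have h3 : (1 : ℝ) + L ≤ x :=
      (le_mul_of_one_le_left (by linarith) h1).trans hkk
    have h4 : (2 : ℝ) ^ kap ≤ x :=
      (le_mul_of_one_le_right (by linarith) (by linarith)).trans hkk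
    calc (2 : ℝ) ^ (kap + 2) * (1 + ((k + 1 : ℕ) : ℝ) * L) ^ (k + 1 + 1) ≤
          (2 ^ kap * 4) * (((k : ℝ) + 1) * (1 + L)) ^ (k + 2) := by
          rw [pow_add]
          refine mul_le_mul (by norm_num) (pow_le_pow_left₀ (by positivity) h2 _) (by positivity)
            (by positivity)
      _ ≤ (x * 4) * (((k : ℝ) + 1) * x) ^ (k + 2) := by
          refine mul_le_mul (by linarith) (pow_le_pow_left₀ (by positivity) ?_ _) (by positivity)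
            (by positivity)
          exact mul_le_mul_of_nonneg_left h3 (by positivity)
      _ = _ := by
          rw [mul_pow]
          ring
  have hct1 := ctC_ge (r := k) (kap := kap) hL
  have hcl : clC k kap L + 2 ≤ (2 * k + 7) * ctC k kap L ^ 2 := by
    have h1 : clC k kap L = (2 * ((k + 1 : ℕ) : ℝ) + 1) * ctC k kap L ^ 2 + 2 := rfl
    have h2 : 1 ≤ ctC k kap L ^ 2 := one_le_pow₀ hct1
    rw [h1]
    push_cast
    linarith
  have hy0 : (0 : ℝ) ≤ 4 * ((k : ℝ) + 1) ^ (k + 2) * x ^ (k + 3) := by positivity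
  have hmain : C * (clC k kap L + 2) * ctC k kap L ^ (2 * (k + 1)) ≤
      C * (2 * k + 7) * (4 * ((k : ℝ) + 1) ^ (k + 2) * x ^ (k + 3)) ^ (2 * k + 4) := by
    calc C * (clC k kap L + 2) * ctC k kap L ^ (2 * (k + 1)) ≤
          C * ((2 * k + 7) * ctC k kap L ^ 2) * ctC k kap L ^ (2 * (k + 1)) := by
          refine mul_le_mul_of_nonneg_right (mul_le_mul_of_nonneg_left hcl (by linarith)) ?_
          positivity
      _ = C * (2 * k + 7) * ctC k kap L ^ (2 * k + 4) := by ring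
      _ ≤ _ := mul_le_mul_of_nonneg_left (pow_le_pow_left₀ (by linarith) hct _) (by positivity)
  have hcl0 := clC_ge (r := k) (kap := kap) hL
  calc (C * (clC k kap L + 2) * ctC k kap L ^ (2 * (k + 1))) ^ (Dq + 1) ≤
        (C * (2 * k + 7) * (4 * ((k : ℝ) + 1) ^ (k + 2) * x ^ (k + 3)) ^ (2 * k + 4)) ^
          (Dq + 1) := by
        refine pow_le_pow_left₀ ?_ hmain _
        have : 0 ≤ ctC k kap L := by linarith
        positivity
    _ = c₁ * x ^ n := by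
        rw [hc₁, hn, mul_pow (C * (2 * (k : ℝ) + 7)) _ (Dq + 1), ← pow_mul,
          mul_pow (4 * ((k : ℝ) + 1) ^ (k + 2)) (x ^ (k + 3)), ← pow_mul x, mul_assoc (k + 3),
          mul_assoc ((C * (2 * (k : ℝ) + 7)) ^ (Dq + 1))]
    _ ≤ Real.exp (μ / 2 * J) * x ^ n := mul_le_mul_of_nonneg_right (hJ₀ J hJ) (by positivity)
    _ = Real.exp (μ * J) := by
        rw [hx, ← Real.exp_nat_mul, ← Real.exp_add]
        congr 1
        field_simp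
        ring

/-- The numbers of the levels. -/
lemma ev1_num (Dq : ℕ) {B H KK CB L' Λ e : ℝ} (hB : 1 ≤ B) (h360 : 360 ≤ B)
    (hD : 16 * ((Dq : ℝ) + 1) ^ 2 ≤ B) (hH1 : 1 ≤ H) (hK1 : 1 ≤ KK) (hCB1 : 1 ≤ CB) (he : 0 ≤ e)
    (hH : H ≤ B) (hKK : KK ≤ B) (hCB : CB ≤ B) (heB : e ≤ B)
    (hL' : L' = 16 * ((Dq : ℝ) + 1) * KK * H) (hΛ : Λ = 360 * (CB * H ^ 3)) :
    e * (bE₀ Dq KK H L' * Λ ^ Dq) ≤ B ^ (8 * Dq + 6) ∧
      bgr Dq KK H L' ≤ B ^ (3 * Dq + 7) := by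
  have hD0 : (0 : ℝ) ≤ Dq := Nat.cast_nonneg Dq
  have hB0 : 0 ≤ B := by linarith
  have hD1 : (1 : ℝ) ≤ (Dq : ℝ) + 1 := by linarith
  have hD2 : (Dq : ℝ) + 1 ≤ ((Dq : ℝ) + 1) ^ 2 := le_self_pow₀ hD1 two_ne_zero
  have hL0 : 0 ≤ L' := by
    rw [hL']
    positivity
  have hLB : L' ≤ B ^ 3 := by
    rw [hL']
    calc 16 * ((Dq : ℝ) + 1) * KK * H ≤ B * B * B := by
          refine mul_le_mul (mul_le_mul (by linarith) hKK (by linarith) hB0) hH (by linarith)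
            (by positivity)
      _ = B ^ 3 := by ring
  have hbEb : bEb Dq H L' ≤ B ^ (3 * Dq + 2) := by
    unfold bEb
    calc 2 * ((Dq : ℝ) + 1) * L' ^ Dq * H ≤ B * (B ^ 3) ^ Dq * B := by
          refine mul_le_mul (mul_le_mul (by linarith) (pow_le_pow_left₀ hL0 hLB _)
            (by positivity) hB0) hH (by linarith) (by positivity)
      _ = B ^ (3 * Dq + 2) := by
          rw [← pow_mul]
          ring
  have hbEb0 : 0 ≤ bEb Dq H L' := by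
    unfold bEb
    positivity
  have hbE0 : bE₀ Dq KK H L' ≤ B ^ (3 * Dq + 5) := by
    unfold bE₀
    calc 2 * (2 * H * KK * ((Dq : ℝ) + 1)) * bEb Dq H L' * ((Dq : ℝ) + 1) =
          (4 * ((Dq : ℝ) + 1) ^ 2) * (H * KK) * bEb Dq H L' := by ring
      _ ≤ B * (B * B) * B ^ (3 * Dq + 2) := by
          refine mul_le_mul (mul_le_mul (by linarith) (mul_le_mul hH hKK (by linarith) hB0)
            (by positivity) hB0) hbEb hbEb0 (by positivity)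
      _ = B ^ (3 * Dq + 5) := by ring
  have hbE00 : 0 ≤ bE₀ Dq KK H L' := by
    unfold bE₀
    positivity
  have hΛB : Λ ≤ B ^ 5 := by
    rw [hΛ]
    calc 360 * (CB * H ^ 3) ≤ B * (B * B ^ 3) := by
          refine mul_le_mul h360 (mul_le_mul hCB (pow_le_pow_left₀ (by linarith) hH _)
            (by positivity) hB0) (by positivity) hB0
      _ = B ^ 5 := by ring
  have hΛ0 : 0 ≤ Λ := by
    rw [hΛ]
    positivity
  constructor
  · calc e * (bE₀ Dq KK H L' * Λ ^ Dq) ≤ B * (B ^ (3 * Dq + 5) * (B ^ 5) ^ Dq) := by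
          refine mul_le_mul heB (mul_le_mul hbE0 (pow_le_pow_left₀ hΛ0 hΛB _) (by positivity)
            (by positivity)) (by positivity) hB0
      _ = B ^ (8 * Dq + 6) := by
          rw [← pow_mul]
          ring
  · unfold bgr
    calc ((Dq : ℝ) + 1) ^ 2 * KK ^ 2 * bEb Dq H L' * H ^ 2 ≤
          B * B ^ 2 * B ^ (3 * Dq + 2) * B ^ 2 := by
          refine mul_le_mul (mul_le_mul (mul_le_mul (by linarith) (pow_le_pow_left₀ (by linarith)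
            hKK _) (by positivity) hB0) hbEb hbEb0 (by positivity))
            (pow_le_pow_left₀ (by linarith) hH _) (by positivity) (by positivity)
      _ = B ^ (3 * Dq + 7) := by ring

variable {m : ℕ}

/-- **(E1) The equation along the line, in a class.** -/
theorem evln_w (k Dq : ℕ) : ∃ Cl : ℝ, 1 ≤ Cl ∧ ∀ (K : ℕ) {m : ℕ} {S : PCl m},
    (∀ (τ : ℝ) (J : ℕ) (F : Fam m J) (A : F.Ω → Prop), S.St τ J F A →
      F.Tr ∧ F.Tm (τ * J) ∧ F.Rb (τ * J) ∧ Real.exp (-(τ * J)) ≤ Pe F.p A) →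
    ∀ {c₁ : ℕ → Fin m} {w₀ w₁ pr : ℝ} {β₁ : ℕ → ℝ}, 0 ≤ w₀ → w₀ ≤ w₁ → w₁ ≤ 1 →
    (∀ ρ : ℝ, 0 < ρ → ExvY S w₁ (fun J F ω (i : Fin k) => F.X J ω (c₁ i))
      ((∑ l ∈ range k, (1 - β₁ l)) - ρ)) →
    ∀ {η c : ℝ}, 0 < η → 0 < c → c ≤ 1 → w₁ + (Cl * (w₁ - w₀) + η) / c + η ≤ pr →
    (∀ l < k, β₁ l + (Cl * (w₁ - w₀) + η) / c + η ≤ pr) →
    ∃ φ : ℝ, 0 < φ ∧ Bas S (fun J F A => 0 < Pe F.p A ∧
      ∀ (c₀ : ℕ → Fin m) (q X φ' : ℝ) (β₀ : ℕ → ℝ) (ρ : Equiv.Perm (Fin (k + 1)))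
        (Pr sg₀ sg kap : ℕ) (g₀ g₁ : ℕ → ℕ) (L : ℝ) (V₀ V₁ : Type) (z₀ : PtT F → V₀)
        (z₀' : LnT F → V₀) (P₀ : V₀ → ℕ → PN) (z₁ : PtT F → V₁) (z₁' : LnT F → V₁)
        (P₁ : V₁ → ℕ → PN) (Qh : V₁ → MvPolynomial (Option (Fin (k + 1))) ℝ) (ρz : V₁ → ℝ),
        φ' ≤ φ → GD F A c₀ c₁ k K Dq w₀ w₁ pr q X φ' β₀ β₁ ρ Pr sg₀ sg kap g₀ g₁ L z₀ z₀' P₀ z₁
          z₁' P₁ Qh ρz →
        ∀ CB : ℝ, 1 ≤ CB → Real.log CB ≤ φ * J → ∃ KK H L' Λ Gb E θm : ℝ,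
          1 ≤ KK ∧ 1 ≤ H ∧ 1 ≤ L' ∧ 1 ≤ Λ ∧ 0 ≤ Gb ∧ 0 < E ∧ 360 * (CB * H ^ 3) ≤ Λ ∧
          (∀ ω, A ω → ∀ j ≤ Dq, bth Dq KK H L' Λ (ρz (z₁ (ptr F J ω))) j ≤ θm) ∧
          2 * θm * ((2 ^ (Pr - ⌊w₁ * J⌋₊) : ℕ) : ℝ) ≤ E ∧
          H ≤ 2 ^ ((Cl * (w₁ - w₀) + η) / c * J) ∧ Gb ≤ 2 ^ ((Cl * (w₁ - w₀) + η) / c * J) ∧
          ((2 ^ (Pr - ⌊w₁ * J⌋₊) : ℕ) : ℝ) * θm ≤ 2 ^ ((Cl * (w₁ - w₀) + η) / c * J) ∧
          ms (P2 (Pool.Agent.H49.Ent.cond F.p A True) (slam F ⌊w₀ * J⌋₊))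
            (fun e => ¬ EvLn F c₁ k ⌊w₁ * J⌋₊ Pr sg z₁ Qh ρz Dq KK H L' Λ Gb E e) ≤ c) := by
  classical
  obtain ⟨Cu, hCu, hline0⟩ := line_w2 k Dq
  obtain ⟨N, hN⟩ : ∃ N : ℕ, N = 8 * Dq + 8 := ⟨_, rfl⟩
  have hN1 : (1 : ℝ) ≤ N := by
    have : 1 ≤ N := by omega
    exact_mod_cast this
  have hN0 : (0 : ℝ) < N := by linarith
  have hCu0 : 0 < Cu := by linarith
  refine ⟨N * Cu, one_le_mul_of_one_le_of_one_le hN1 hCu, ?_⟩
  intro K m S hmem c₁ w₀ w₁ pr β₁ hw0 hw01 hw1 hex η c hη hc hc1 hmar0 hmar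
  obtain ⟨C, hC, hline⟩ := hline0 K
  have hl2 : 0 < Real.log 2 := Real.log_pos one_lt_two
  obtain ⟨μ, hμ⟩ : ∃ μ : ℝ, μ = η * Real.log 2 / (4 * N) := ⟨_, rfl⟩
  have hμ0 : 0 < μ := by
    rw [hμ]
    positivity
  have hμN : N * μ = η * Real.log 2 / 4 := by
    rw [hμ]
    field_simp
  obtain ⟨φ₁, hφ₁, hB⟩ := hline hmem hw0 hw01 hw1 hex (C₀ := 1) le_rfl (δ := μ) hμ0
  obtain ⟨φ₂, hφ₂, J₂, hkk⟩ := kk_small k Dq hC hμ0
  obtain ⟨φ, hφ⟩ : ∃ φ : ℝ, φ = min φ₁ (min φ₂ (min μ (η / 2))) := ⟨_, rfl⟩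
  have hφ0 : 0 < φ := by
    rw [hφ]
    exact lt_min hφ₁ (lt_min hφ₂ (lt_min hμ0 (by positivity)))
  have f1 : φ ≤ φ₁ := by
    rw [hφ]
    exact min_le_left _ _
  have f2 : φ ≤ φ₂ := by
    rw [hφ]
    exact (min_le_right _ _).trans (min_le_left _ _)
  have f3 : φ ≤ μ := by
    rw [hφ]
    exact (min_le_right _ _).trans ((min_le_right _ _).trans (min_le_left _ _))
  have f4 : φ ≤ η / 2 := by
    rw [hφ]
    exact (min_le_right _ _).trans ((min_le_right _ _).trans (min_le_right _ _))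
  obtain ⟨J₃, hJ₃⟩ := const_exp (max C (max 360 (16 * ((Dq : ℝ) + 1) ^ 2))) hμ0
  obtain ⟨J₄, hJ₄⟩ := exists_nat_gt (2 * N * Cu / (η * Real.log 2 / 4))
  have hpos : Bas S (fun J F A => 0 < Pe F.p A) :=
    ⟨1, one_pos, 0, fun J _ F A h => lt_of_lt_of_le (Real.exp_pos _) (hmem _ J F A h).2.2.2⟩
  refine ⟨φ, hφ0, (hB.and hpos).mono (max J₂ (max J₃ J₄)) ?_⟩
  rintro J hJ F A ⟨hm, hA⟩
  refine ⟨hA, ?_⟩
  intro c₀ q X φ' β₀ ρ Pr sg₀ sg kap g₀ g₁ L V₀ V₁ z₀ z₀' P₀ z₁ z₁' P₁ Qh ρz hφ' G CB hCB hlCB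
  have hJr : (0 : ℝ) ≤ J := Nat.cast_nonneg J
  have j2 : J₂ ≤ J := (le_max_left _ _).trans hJ
  have j3 : J₃ ≤ J := ((le_max_left _ _).trans (le_max_right _ _)).trans hJ
  have j4 : J₄ ≤ J := ((le_max_right _ _).trans (le_max_right _ _)).trans hJ
  have hφJ : φ' * J ≤ φ * J := mul_le_mul_of_nonneg_right hφ' hJr
  have hcon := hJ₃ J j3
  have k1 : C ≤ Real.exp (μ * J) := (le_max_left _ _).trans hcon
  have k2 : 360 ≤ Real.exp (μ * J) :=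
    ((le_max_left _ _).trans (le_max_right _ _)).trans hcon
  have k3 : 16 * ((Dq : ℝ) + 1) ^ 2 ≤ Real.exp (μ * J) :=
    ((le_max_right _ _).trans (le_max_right _ _)).trans hcon
  have k4 : 2 * N * Cu ≤ η * Real.log 2 / 4 * J := by
    have h1 : (J₄ : ℝ) ≤ J := by exact_mod_cast j4
    have h2 := hJ₄.trans_le h1
    rw [div_lt_iff₀ (by positivity)] at h2
    linarith
  -- the loss
  obtain ⟨d, hd⟩ : ∃ d : ℕ, d = ⌊w₁ * J⌋₊ - ⌊w₀ * J⌋₊ := ⟨_, rfl⟩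
  have hd0 : (0 : ℝ) ≤ d := Nat.cast_nonneg d
  have hdJ : (d : ℝ) ≤ (w₁ - w₀) * J + 1 := by
    have h1 : ((⌊w₁ * J⌋₊ - ⌊w₀ * J⌋₊ : ℕ) : ℝ) = (⌊w₁ * J⌋₊ : ℝ) - ⌊w₀ * J⌋₊ := by
      rw [Nat.cast_sub G.W01]
    have h2 := Nat.floor_le (show 0 ≤ w₁ * (J : ℝ) by
      have := hw0.trans hw01
      positivity)
    have h3 := Nat.lt_floor_add_one (w₀ * (J : ℝ))
    rw [hd, h1]
    linarith
  obtain ⟨h, hh⟩ : ∃ h : ℝ, h = (Cu * (1 + (d : ℝ) * Real.log 2) + μ * J) / c := ⟨_, rfl⟩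
  have hh0 : 0 < h := by
    rw [hh]
    positivity
  obtain ⟨B, hBd⟩ : ∃ B : ℝ, B = Real.exp (h + μ * J) := ⟨_, rfl⟩
  have hBe : B = Real.exp h * Real.exp (μ * J) := by rw [hBd, Real.exp_add]
  have heh : 1 ≤ Real.exp h := Real.one_le_exp hh0.le
  have hemu : 1 ≤ Real.exp (μ * J) := Real.one_le_exp (by positivity)
  have hmuB : Real.exp (μ * J) ≤ B := by
    rw [hBe]
    exact le_mul_of_one_le_left (by linarith) heh
  have hB1 : 1 ≤ B := hemu.trans hmuB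
  obtain ⟨x, hx⟩ : ∃ x : ℝ, x = (N * Cu * (w₁ - w₀) + η) / c := ⟨_, rfl⟩
  have hx0 : 0 ≤ x := by
    rw [hx]
    have : 0 ≤ w₁ - w₀ := by linarith
    positivity
  rw [← hx] at hmar0
  simp only [← hx] at hmar ⊢
  have hBN : B ^ N ≤ (2 : ℝ) ^ (x * J) := by
    rw [hBd, ← Real.exp_nat_mul, Real.rpow_def_of_pos (by norm_num)]
    refine Real.exp_le_exp.2 ?_
    have h1 : (N : ℝ) * (h + μ * J) * c ≤ (N * Cu * (w₁ - w₀) + η) * J * Real.log 2 := by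
      have h2 : (N : ℝ) * (h + μ * J) * c =
          N * Cu + N * Cu * (d * Real.log 2) + N * μ * J + N * μ * J * c := by
        rw [hh]
        field_simp
      have h3 : N * μ * J * c ≤ N * μ * J := mul_le_of_le_one_right (by positivity) hc1
      have h4 : N * Cu * (d * Real.log 2) ≤ N * Cu * (((w₁ - w₀) * J + 1) * Real.log 2) :=
        mul_le_mul_of_nonneg_left (mul_le_mul_of_nonneg_right hdJ hl2.le) (by positivity)
      have h5 : N * Cu * Real.log 2 ≤ N * Cu := by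
        refine mul_le_of_le_one_right (by positivity) ?_
        have := Real.log_two_lt_d9
        linarith
      have h6 : N * μ * J = η * Real.log 2 / 4 * J := by rw [hμN]
      have h7 : 0 ≤ η * Real.log 2 * J := by positivity
      rw [h2]
      linarith
    have h6 : Real.log 2 * (x * J) = (N * Cu * (w₁ - w₀) + η) * J * Real.log 2 / c := by
      rw [hx]
      ring
    rw [h6, le_div_iff₀ hc]
    exact h1
  -- the margins
  have hPr := abs_le.1 G.Pr0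
  have hφη : φ' * J ≤ η / 2 * J := mul_le_mul_of_nonneg_right (hφ'.trans f4) hJr
  have hηJ : 0 ≤ η * J := by positivity
  have hwidr : ∀ i < k + 1, x * J ≤ ((Pr - wid ⌊w₁ * J⌋₊ g₁ i : ℕ) : ℝ) := by
    intro i hi
    have h1 := G.wd1 i hi
    rw [Nat.cast_sub h1]
    rcases Nat.eq_zero_or_pos i with h0 | h0
    · subst h0
      rw [wid_zero]
      have h2 := Nat.floor_le (show 0 ≤ w₁ * (J : ℝ) by
        have := hw0.trans hw01
        positivity)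
      have h3 := mul_le_mul_of_nonneg_right hmar0 hJr
      linarith
    · obtain ⟨l, rfl⟩ : ∃ l, i = l + 1 := ⟨i - 1, by omega⟩
      rw [wid_succ]
      have h2 := abs_le.1 (G.be1 l (by omega))
      have h3 := mul_le_mul_of_nonneg_right (hmar l (by omega)) hJr
      linarith
  have hngw : ∀ i : Fin (k + 1), (2 : ℝ) ^ (x * J) ≤ ngw ⌊w₁ * J⌋₊ Pr g₁ (k + 1) i := by
    intro i
    have h1 := hwidr i i.2
    unfold ngw
    push_cast
    have h2 : (2 : ℝ) ^ (x * J) ≤ 2 ^ (Pr - wid ⌊w₁ * J⌋₊ g₁ i) := by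
      rw [← Real.rpow_natCast]
      exact Real.rpow_le_rpow_of_exponent_le one_le_two h1
    have h3 : (2 : ℝ) ^ (Pr - wid ⌊w₁ * J⌋₊ g₁ i) ≤ 2 ^ (Pr - wid ⌊w₁ * J⌋₊ g₁ i + 1) :=
      pow_le_pow_right₀ one_le_two (Nat.le_succ _)
    linarith
  have hM : (2 : ℝ) ^ (x * J) ≤ ((2 ^ (Pr - ⌊w₁ * J⌋₊) : ℕ) : ℝ) := by
    have h1 := hwidr 0 (by omega)
    rw [wid_zero] at h1
    push_cast
    rw [← Real.rpow_natCast]
    exact Real.rpow_le_rpow_of_exponent_le one_le_two h1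
  have hM0 : (0 : ℝ) < ((2 ^ (Pr - ⌊w₁ * J⌋₊) : ℕ) : ℝ) := by positivity
  -- the numbers
  have hKK := hkk J j2 kap L G.L0 (G.kapJ.trans (hφJ.trans (mul_le_mul_of_nonneg_right f2 hJr)))
    (G.logL.trans (hφJ.trans (mul_le_mul_of_nonneg_right f2 hJr)))
  obtain ⟨KK, hKKe⟩ : ∃ KK : ℝ, KK = (C * (clC k kap L + 2) * ctC k kap L ^ (2 * (k + 1))) ^
    (Dq + 1) := ⟨_, rfl⟩
  rw [← hKKe] at hKK
  have hct1 := ctC_ge (r := k) (kap := kap) G.L0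
  have hcl1 := clC_ge (r := k) (kap := kap) G.L0
  have hKK1 : 1 ≤ KK := by
    rw [hKKe]
    refine one_le_pow₀ (one_le_mul_of_one_le_of_one_le (one_le_mul_of_one_le_of_one_le hC
      (by linarith)) (one_le_pow₀ hct1))
  obtain ⟨H, hHe⟩ : ∃ H : ℝ, H = C * Real.exp h := ⟨_, rfl⟩
  have hH1 : 1 ≤ H := by
    rw [hHe]
    exact one_le_mul_of_one_le_of_one_le hC heh
  have hHB : H ≤ B := by
    rw [hHe, hBe, mul_comm]
    exact mul_le_mul_of_nonneg_left k1 (by linarith)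
  obtain ⟨L', hL'⟩ : ∃ L' : ℝ, L' = 16 * ((Dq : ℝ) + 1) * KK * H := ⟨_, rfl⟩
  obtain ⟨Λ, hΛ⟩ : ∃ Λ : ℝ, Λ = 360 * (CB * H ^ 3) := ⟨_, rfl⟩
  have hDq0 : (0 : ℝ) ≤ Dq := Nat.cast_nonneg Dq
  have hKH : 1 ≤ KK * H := one_le_mul_of_one_le_of_one_le hKK1 hH1
  have hL1 : 1 ≤ L' := by
    rw [hL', mul_assoc]
    exact one_le_mul_of_one_le_of_one_le (by linarith) hKH
  have hΛ1 : 1 ≤ Λ := by
    rw [hΛ]
    exact one_le_mul_of_one_le_of_one_le (by norm_num)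
      (one_le_mul_of_one_le_of_one_le hCB (one_le_pow₀ hH1))
  have hCBB : CB ≤ B := by
    refine le_trans ?_ hmuB
    rw [← Real.log_le_iff_le_exp (by linarith)]
    exact hlCB.trans (mul_le_mul_of_nonneg_right f3 hJr)
  have heB : Real.exp (φ' * J) ≤ B := by
    refine le_trans (Real.exp_le_exp.2 ?_) hmuB
    exact mul_le_mul_of_nonneg_right (hφ'.trans f3) hJr
  obtain ⟨n1, n2⟩ := ev1_num Dq (B := B) (H := H) (KK := KK) (CB := CB) (L' := L') (Λ := Λ)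
    (e := Real.exp (φ' * J)) hB1 (k2.trans hmuB) (k3.trans hmuB) hH1 hKK1 hCB (Real.exp_pos _).le
    hHB (hKK.trans hmuB) hCBB heB hL' hΛ
  obtain ⟨θm, hθm⟩ : ∃ θm : ℝ, θm = Real.exp (φ' * J) / ((2 ^ (Pr - ⌊w₁ * J⌋₊) : ℕ) : ℝ) *
    (bE₀ Dq KK H L' * Λ ^ Dq) := ⟨_, rfl⟩
  have hMθ : ((2 ^ (Pr - ⌊w₁ * J⌋₊) : ℕ) : ℝ) * θm = Real.exp (φ' * J) *
      (bE₀ Dq KK H L' * Λ ^ Dq) := by
    rw [hθm]
    field_simp
  have hbE := bE₀_ge Dq hKK1 hH1 hL1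
  have hθ0 : 0 ≤ θm := by
    rw [hθm]
    have : 0 ≤ Λ := by linarith
    have : 0 ≤ bE₀ Dq KK H L' := by linarith
    positivity
  obtain ⟨E, hE⟩ : ∃ E : ℝ, E = 2 * θm * ((2 ^ (Pr - ⌊w₁ * J⌋₊) : ℕ) : ℝ) + 8 * KK * H :=
    ⟨_, rfl⟩
  have hpB : ∀ a ≤ N, B ^ a ≤ (2 : ℝ) ^ (x * J) := fun a ha =>
    (pow_le_pow_right₀ hB1 ha).trans hBN
  have hE8 : 8 * KK * H ≤ E := by
    rw [hE]
    have : 0 ≤ 2 * θm * ((2 ^ (Pr - ⌊w₁ * J⌋₊) : ℕ) : ℝ) := by positivity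
    linarith
  have hE1 : 1 ≤ E := by
    refine le_trans ?_ hE8
    rw [mul_assoc]
    exact one_le_mul_of_one_le_of_one_le (by norm_num) hKH
  have hEB : E ≤ B ^ (8 * Dq + 7) := by
    have h1 : 2 * θm * ((2 ^ (Pr - ⌊w₁ * J⌋₊) : ℕ) : ℝ) ≤ 2 * B ^ (8 * Dq + 6) := by
      have h2 : 2 * θm * ((2 ^ (Pr - ⌊w₁ * J⌋₊) : ℕ) : ℝ) =
          2 * (((2 ^ (Pr - ⌊w₁ * J⌋₊) : ℕ) : ℝ) * θm) := by ring
      rw [h2, hMθ]
      linarith
    have h3 : 8 * KK * H ≤ 8 * B ^ (8 * Dq + 6) := by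
      have h4 : KK * H ≤ B * B :=
        mul_le_mul (hKK.trans hmuB) hHB (by linarith) (by linarith)
      have h5 : B * B = B ^ 2 := by ring
      have h6 : B ^ 2 ≤ B ^ (8 * Dq + 6) := pow_le_pow_right₀ hB1 (by omega)
      rw [mul_assoc]
      exact mul_le_mul_of_nonneg_left (h4.trans (h5.le.trans h6)) (by norm_num)
    have h7 : B ^ (8 * Dq + 7) = B * B ^ (8 * Dq + 6) := by
      rw [pow_succ]
      ring
    have h8 : (10 : ℝ) ≤ B := by linarith [k2.trans hmuB]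
    have h9 : (0 : ℝ) ≤ B ^ (8 * Dq + 6) := by positivity
    have h10 : 10 * B ^ (8 * Dq + 6) ≤ B * B ^ (8 * Dq + 6) := mul_le_mul_of_nonneg_right h8 h9
    rw [hE, h7]
    linarith
  have hGb0 : 0 ≤ bgr Dq KK H L' := by
    unfold bgr bEb
    have : 0 ≤ L' := by linarith
    positivity
  refine ⟨KK, H, L', Λ, bgr Dq KK H L', E, θm, hKK1, hH1, hL1, hΛ1, hGb0, by linarith, hΛ.ge,
    ?_, ?_, ?_, ?_, ?_, ?_⟩
  · intro ω hω j hj
    have h1 := G.rz2 ω hω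
    have h0 := G.rz0 ω hω
    rw [hθm]
    unfold bth
    have h2 : ρz (z₁ (ptr F J ω)) ≤ Real.exp (φ' * J) / ((2 ^ (Pr - ⌊w₁ * J⌋₊) : ℕ) : ℝ) := by
      rw [le_div_iff₀ hM0]
      linarith
    rw [mul_assoc]
    refine mul_le_mul h2 (mul_le_mul_of_nonneg_left (pow_le_pow_right₀ hΛ1 hj) (by linarith)) ?_
      (by positivity)
    have : 0 ≤ Λ := by linarith
    have : 0 ≤ bE₀ Dq KK H L' := by linarith
    positivity
  · rw [hE]
    have : 0 ≤ 8 * KK * H := by positivity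
    linarith
  · refine le_trans ?_ (hpB 1 (by omega))
    rw [pow_one]
    exact hHB
  · exact n2.trans (hpB _ (by omega))
  · rw [hMθ]
    exact n1.trans (hpB _ (by omega))
  · have hl := isLaw_cond F.isLaw hA
    have key := hm Pr g₁ sg kap L V₁ z₁ z₁' P₁ Qh ρz
      (P2 (Pool.Agent.H49.Ent.cond F.p A True) (slam F ⌊w₀ * J⌋₊)) h E H KK L' Λ
      (fun l hl => by
        have h1 := abs_le.1 (G.be1 l hl)
        have h2 : φ' * J ≤ φ₁ * J := mul_le_mul_of_nonneg_right (hφ'.trans f1) hJr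
        linarith) G.WP G.PJ G.Pg (fun i hi => ⟨G.kp1 i hi, G.wd1 i hi⟩) G.n1 G.L0 G.csq G.rz1
      (P2_isLaw hl _) (fun e => by rw [one_mul])
      (fun i => (hEB.trans (hpB _ (by omega))).trans (hngw i)) hE1 hL1 hΛ1 hh0
      (by
        rw [← hHe]
        refine (hHB.trans ?_).trans hM
        have := hpB 1 (by omega)
        rwa [pow_one] at this) hHe.ge hKKe.ge (by
        have h1 : 4 * KK * (1 / E + Dq / L') * H = 4 * (KK * H) / E + 4 * (KK * H) * Dq / L' := by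
          field_simp
        have h2 : 4 * (KK * H) / E ≤ 1 / 2 := by
          rw [div_le_iff₀ (by linarith)]
          linarith
        have h3 : 4 * (KK * H) * Dq / L' ≤ 1 / 2 := by
          rw [div_le_iff₀ (by linarith), hL']
          have h4 : 0 ≤ KK * H * (Dq + 2) := by positivity
          linarith
        rw [h1]
        linarith)
    have hval : (Cu * (1 + ((⌊w₁ * J⌋₊ - ⌊w₀ * J⌋₊ : ℕ) : ℝ) * Real.log 2) + μ * J) / h = c := by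
      rw [← hd, hh]
      field_simp
    rw [hval] at key
    refine le_trans (ms_le (P2_isLaw hl _).nonneg ?_) key
    intro e _ he hcon
    obtain ⟨kk, -, h1, h2⟩ := hcon
    exact he ⟨kk, h1, h2⟩

end Pool.GEO
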