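import Pool.Agent.H5.GEO.Inc3

/-!
# The inclusion of the small cells in the own box, in a class

`inc_w`: for the law of one sample. `ms_dens_fst`, `ms_dens_snd`: the transfer to the laws of pairs
of bounded density. `prm`: the permutation of the coordinates from the permutation of the spatial
ones.
-/

set_option autoImplicit false

namespace Pool.GEO

open Finset Real MvPolynomial
open Pool.Agent.H49.Ent Pool.Agent.H32.Dense Pool.STK Pool.KAF Pool.KAL Pool.KS3 Pool.M3F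
open Pool.KJA Pool.KA Pool.K2S Pool.KSAT Pool.PB Pool.STAT Pool.GEN Pool.IEN Pool.CLO37
open Pool.KM7 Pool.S6C Pool.JPN

section dens

variable {Ω GT : Type} [Fintype Ω]

/-- The mass of a set of first samples. -/
theorem ms_dens_fst {p : Ω → ℝ} (hp : IsLaw p) {g : Ω → GT} {R : Ω × Ω → ℝ} {C : ℝ}
    (h : ∀ e, R e ≤ C * P2 p g e) (B : Ω → Prop) :
    ms R (fun e => B e.1) ≤ C * ms p B := by
  classical
  have h1 : ms R (fun e => B e.1) ≤ C * ms (P2 p g) (fun e => B e.1) := by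
    unfold ms
    rw [Finset.mul_sum]
    refine Finset.sum_le_sum fun e _ => ?_
    split_ifs
    · exact h e
    · rw [mul_zero]
  have h2 : ms (P2 p g) (fun e => B e.1) = ms p B := by
    have h3 := (P2_fst hp g).Ex_eq (fun ω => if B ω then (1 : ℝ) else 0)
    unfold Pool.Agent.H32.Dense.Ex at h3
    unfold ms
    simp only [mul_ite, mul_one, mul_zero] at h3
    convert h3 using 1 <;> exact Finset.sum_congr rfl fun _ _ => by split_ifs <;> rfl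
  rw [h2] at h1
  exact h1

/-- The mass of a set of second samples. -/
theorem ms_dens_snd {p : Ω → ℝ} (hp : IsLaw p) {g : Ω → GT} {R : Ω × Ω → ℝ} {C : ℝ}
    (h : ∀ e, R e ≤ C * P2 p g e) (B : Ω → Prop) :
    ms R (fun e => B e.2) ≤ C * ms p B := by
  classical
  have h1 : ms R (fun e => B e.2) ≤ C * ms (P2 p g) (fun e => B e.2) := by
    unfold ms
    rw [Finset.mul_sum]
    refine Finset.sum_le_sum fun e _ => ?_
    split_ifs
    · exact h e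
    · rw [mul_zero]
  have h2 : ms (P2 p g) (fun e => B e.2) = ms p B := by
    have h3 := (P2_snd hp g).Ex_eq (fun ω => if B ω then (1 : ℝ) else 0)
    unfold Pool.Agent.H32.Dense.Ex at h3
    unfold ms
    simp only [mul_ite, mul_one, mul_zero] at h3
    convert h3 using 1 <;> exact Finset.sum_congr rfl fun _ _ => by split_ifs <;> rfl
  rw [h2] at h1
  exact h1

end dens

variable {m J : ℕ} {F : Fam m J}

/-- The permutation of the coordinates: the time is fixed. -/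
noncomputable def prm {r : ℕ} (σ : Equiv.Perm (Fin r)) : Equiv.Perm (Fin (r + 1)) :=
  Equiv.Perm.decomposeFin.symm (0, σ)

theorem prm_zero {r : ℕ} (σ : Equiv.Perm (Fin r)) : prm σ 0 = 0 :=
  Equiv.Perm.decomposeFin_symm_apply_zero 0 σ

theorem prm_succ {r : ℕ} (σ : Equiv.Perm (Fin r)) (i : Fin r) : prm σ i.succ = (σ i).succ := by
  unfold prm
  rw [Equiv.Perm.decomposeFin_symm_apply_succ, Equiv.swap_self]
  rfl

theorem px_prm {r : ℕ} {c0 c1 : ℕ → Fin m} (σ : Equiv.Perm (Fin r))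
    (h : ∀ i : Fin r, c1 i = c0 (σ i)) (ξ : PtT F) (i : Fin (r + 1)) :
    px c1 ξ i = px c0 ξ (prm σ i) := by
  refine Fin.cases ?_ (fun j => ?_) i
  · rw [prm_zero]
    rfl
  · rw [prm_succ, Fin.val_succ, Fin.val_succ, px_succ, px_succ, h j]

/-- Weaker constants. -/
theorem nlabW_mono {c : ℕ → Fin m} {r W sg : ℕ} {g : ℕ → ℕ} {K K' : ℕ} {L L' : ℝ}
    {B : F.Ω → Prop} {V : Type} {z : PtT F → V} {z' : LnT F → V} {P : V → ℕ → PN}
    (hN : NLabW F c r W sg g K L B z z' P) (hK : K ≤ K') (hL : L ≤ L') :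
    NLabW F c r W sg g K' L' B z z' P where
  deg v i := (hN.deg v i).trans hK
  tri := hN.tri
  cls := hN.cls
  zero := hN.zero
  pos := hN.pos
  posN := hN.posN
  grad ω hω b hb i hi l hl := (hN.grad ω hω b hb i hi l hl).trans hL

/-- **The inclusion, in a class.** -/
theorem inc_w (r K : ℕ) : ∃ C : ℝ, 1 ≤ C ∧ ∀ {m : ℕ} {S : PCl m},
    (∀ (τ : ℝ) (J : ℕ) (F : Fam m J) (A : F.Ω → Prop), S.St τ J F A →
      F.Tr ∧ F.Tm (τ * J) ∧ F.Rb (τ * J) ∧ Real.exp (-(τ * J)) ≤ Pe F.p A) →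
    ∀ {c0 c1 : ℕ → Fin m} {w₀ w₁ : ℝ} {g : ℕ → ℝ}, 0 ≤ w₀ → w₀ ≤ w₁ → w₁ ≤ 1 →
    (∀ ρ : ℝ, 0 < ρ → ExvY S w₁ (fun J F ω (i : Fin r) => F.X J ω (c1 i))
      ((∑ l ∈ range r, (1 - g l)) - ρ)) →
    ∀ {δ : ℝ}, 0 < δ → ∃ φ : ℝ, 0 < φ ∧ Bas S (fun J F A =>
      ∀ (P : ℕ) (g0' g1' : ℕ → ℕ) (sg0 sg1 : ℕ) (L : ℝ) (V0 V1 : Type)
        (z0 : PtT F → V0) (z0' : LnT F → V0) (PA : V0 → ℕ → PN)
        (z1 : PtT F → V1) (z1' : LnT F → V1) (PB : V1 → ℕ → PN)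
        (ρ : Equiv.Perm (Fin (r + 1))) (h dl η : ℝ),
        (∀ l < r, (g l - φ) * J ≤ g1' l) → ⌊w₁ * J⌋₊ ≤ P → P ≤ J →
        (∀ i < r + 1, wid ⌊w₀ * J⌋₊ g0' i ≤ P) → (∀ i < r + 1, wid ⌊w₁ * J⌋₊ g1' i ≤ P) →
        (∀ (ξ : PtT F) (i : Fin (r + 1)), px c1 ξ i = px c0 ξ (ρ i)) →
        NLabW F c0 r ⌊w₀ * J⌋₊ sg0 g0' K L A z0 z0' PA →
        NLabW F c1 r ⌊w₁ * J⌋₊ sg1 g1' K L A z1 z1' PB → 0 ≤ L → 0 < h →
        (∀ i, C * (1 + L) * Real.exp h ≤ ngw ⌊w₁ * J⌋₊ P g1' (r + 1) i) → 0 < dl → 0 ≤ η →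
        dl * ∏ i : Fin (r + 1), ((2 ^ (P - wid ⌊w₀ * J⌋₊ g0' i) : ℕ) : ℝ) ≤
          ∏ i, (ngw ⌊w₁ * J⌋₊ P g1' (r + 1) i : ℝ) →
        C * Real.exp h ^ (r + 2) * η ≤ dl →
        ms (Pool.Agent.H49.Ent.cond F.p A True) (fun ω => ¬ InB F c0 r ⌊w₁ * J⌋₊ P
          (wid ⌊w₀ * J⌋₊ g0') g1' ρ (gsy r ⌊w₁ * J⌋₊ (PA (z0 (ptr F J ω))))
          (acs r ⌊w₁ * J⌋₊ (PA (z0 (ptr F J ω)))) (PB (z1 (ptr F J ω))) (2 * Real.exp h)
          (Real.exp (-h) / C) η ω) ≤ (δ * J + C) / h) := by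
  classical
  obtain ⟨C, hC, hlaw⟩ := inc_law r K
  refine ⟨C, hC, ?_⟩
  intro m S hmem c0 c1 w₀ w₁ g hw0 hw01 hw1 hex δ hδ
  obtain ⟨N₀, φ, hφ, hmx⟩ := mxc_w r hmem (c := c1) (g := g) (hw0.trans hw01) hw1 hex
    (δ := δ / C) (by positivity)
  refine ⟨φ, hφ, ?_⟩
  have hpos : Bas S (fun J F A => 0 < Pe F.p A) :=
    ⟨1, one_pos, 0, fun J _ F A h => lt_of_lt_of_le (Real.exp_pos _) (hmem _ J F A h).2.2.2⟩
  refine (hmx.and hpos).mono 0 ?_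
  rintro J - F A ⟨hm, hA⟩
  intro P g0' g1' sg0 sg1 L V0 V1 z0 z0' PA z1 z1' PB ρ h dl η hg hWP hPJ hw0' hw1' hρ hN0 hN1 hL hh
    hNg hdl hη hdlN hsmall
  obtain ⟨W0, hW0⟩ : ∃ W, W = ⌊w₀ * J⌋₊ := ⟨_, rfl⟩
  obtain ⟨W1, hW1⟩ : ∃ W, W = ⌊w₁ * J⌋₊ := ⟨_, rfl⟩
  have hJ0 : (0 : ℝ) ≤ J := Nat.cast_nonneg J
  have hW : W0 ≤ W1 := by
    rw [hW0, hW1]
    exact Nat.floor_le_floor (mul_le_mul_of_nonneg_right hw01 hJ0)
  have hl := isLaw_cond F.isLaw hA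
  rw [← hW1] at hWP hw1' hN1 hNg hdlN ⊢
  rw [← hW0] at hw0' hN0 hdlN ⊢
  obtain ⟨N, -, hMx⟩ := hm P g1' sg1 K L V1 z1 z1' PB hg (by rw [← hW1]; exact hw1')
    hPJ (by rw [← hW1]; exact hN1)
  rw [← hW1] at hMx
  have hful := hMx.ful (zx := fun ξ => (z1 ξ, z0 ξ))
    (zl := fun l => (z1' l, z0' (l.1, l.2.1, l.2.2 / 2 ^ (W1 - W0)))) (fun ω hω => by
      have h1 := hN1.cls ω (cond_supp hω)
      have h2 := hN0.cls ω (cond_supp hω)
      have h3 : slam F W0 ω = ((slam F W1 ω).1, (slam F W1 ω).2.1,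
          (slam F W1 ω).2.2 / 2 ^ (W1 - W0)) := by
        refine Prod.ext rfl (Prod.ext rfl ?_)
        change F.T1 W0 ω = F.T1 W1 ω / 2 ^ (W1 - W0)
        unfold Fam.T1
        rw [Nat.div_div_eq_div_mul, ← pow_add]
        congr 2
        have := hWP.trans hPJ
        omega
      rw [← h3]
      exact Prod.ext h1 h2)
  rw [Ex_const hl.sum_one] at hful
  have hkey := hlaw ρ (Pool.Agent.H49.Ent.cond F.p A True) id h (δ / C * J) dl η hN0 hN1 hL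
    (hW.trans (hWP.trans hPJ)) hWP hPJ hw0' hw1' hρ hl (fun ω hω => cond_supp hω) hful hh hNg hdl
    hη hdlN hsmall
  refine hkey.trans (div_le_div_of_nonneg_right (le_of_eq ?_) hh.le)
  field_simp

end Pool.GEO
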