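import Pool.Agent.H86.GEO.Pka

/-!
# The events of doubling and of inclusion, in a class

`lonE_w`: doubling on the leaves of the labels at the window `w₁`, from the natural cells of the
labels at the window `w₀`, in a class. `inB_cell`: the inclusion of the cells.
-/

set_option autoImplicit false

namespace Pool.GEO

open Finset Real
open Pool.Agent.H49.Ent Pool.Agent.H32.Dense Pool.STK Pool.KAF Pool.KAL Pool.KS3 Pool.M3F
open Pool.KJA Pool.KA Pool.K2S Pool.KSAT Pool.PB Pool.STAT Pool.GEN Pool.CLO37 Pool.IEN Pool.EXS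
open Pool.JPN Pool.JMS Pool.KM7 Pool.S6C

variable {m J : ℕ} {F : Fam m J}

/-- The pair of two closed labels. -/
theorem nlabW_pair {c : ℕ → Fin m} {r W₀ W₁ sg K : ℕ} {g : ℕ → ℕ} {L : ℝ} {B : F.Ω → Prop}
    {V V0 : Type} {z : PtT F → V} {z' : LnT F → V} {P : V → ℕ → PN} {z0 : PtT F → V0}
    {z0' : LnT F → V0} (hN : NLabW F c r W₁ sg g K L B z z' P)
    (h0 : ∀ ω, B ω → z0 (ptr F J ω) = z0' (slam F W₀ ω)) (hw : W₀ ≤ W₁) (hJ : W₁ ≤ J) :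
    NLabW F c r W₁ sg g K L B (fun ξ => (z ξ, z0 ξ))
      (fun l => (z' l, z0' (l.1, l.2.1, l.2.2 / 2 ^ (W₁ - W₀)))) (fun v => P v.1) where
  deg v i := hN.deg v.1 i
  tri v := hN.tri v.1
  cls ω hω := by
    have h3 : slam F W₀ ω = ((slam F W₁ ω).1, (slam F W₁ ω).2.1,
        (slam F W₁ ω).2.2 / 2 ^ (W₁ - W₀)) := by
      refine Prod.ext rfl (Prod.ext rfl ?_)
      change F.T1 W₀ ω = F.T1 W₁ ω / 2 ^ (W₁ - W₀)
      unfold Fam.T1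
      rw [Nat.div_div_eq_div_mul, ← pow_add]
      congr 2
      omega
    rw [← h3]
    exact Prod.ext (hN.cls ω hω) (h0 ω hω)
  zero := hN.zero
  pos := hN.pos
  posN := hN.posN
  grad := hN.grad

/-- **The entropy of the natural cell of the other order.** -/
lemma cell_few {c0 c1 : ℕ → Fin m} {k W₀ W₁ P sg0 sg1 q K : ℕ} {g0 : ℕ → ℕ} {L : ℝ}
    {A : F.Ω → Prop} {V0 V1 : Type} {z0 : PtT F → V0} {z0' : LnT F → V0} {PA : V0 → ℕ → PN}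
    {z1 : PtT F → V1} (hA : 0 < Pe F.p A)
    (hN : NLabW F c0 k W₀ sg0 g0 K L A z0 z0' PA) (hW₀J : W₀ ≤ J) (hWP : W₁ ≤ P)
    (hq : ∀ i < k + 1, wid W₀ g0 i + q ≤ P) (ρ : Equiv.Perm (Fin (k + 1))) (h0 : ρ 0 = 0)
    (hk : c1 k = c0 k) (hc : ∀ i : Fin (k + 1), i ≠ 0 → c1 (i.val - 1) = c0 ((ρ i).val - 1)) :
    CH (Pool.Agent.H49.Ent.cond F.p A True) (fun ω => ((z1 (ptr F J ω), z0 (ptr F J ω)),
      nidx (fun i => nw W₀ P g0 k q (ρ i)) (ndg (2 ^ (P - W₁))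
        (pmG ρ (gsy k W₁ (PA (z0 (ptr F J ω))))) (bse (zsw c1 k W₁ sg1 (ptr F J ω))))))
      (fun ω => (z1 (ptr F J ω), z0 (ptr F J ω))) ≤
        ((k : ℝ) + 1) * (((q : ℝ) + 3) * Real.log 2) := by
  classical
  have hl : IsLaw (Pool.Agent.H49.Ent.cond F.p A True) := isLaw_cond F.isLaw hA
  have hM0 : (0 : ℝ) < ((2 ^ (P - W₁) : ℕ) : ℝ) := by positivity
  have hN3 : ∀ i : Fin (k + 1), 1 ≤ nw W₀ P g0 k q (ρ i) := fun i => nw_pos _ _ _ _ _ _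
  have key := cell_ent (p := Pool.Agent.H49.Ent.cond F.p A True) hl
    (fun ω => bse (zsw c1 k W₁ sg1 (ptr F J ω)))
    (fun ω => (z1 (ptr F J ω), z0 (ptr F J ω))) (fun ω => (z1 (ptr F J ω), z0 (ptr F J ω)))
    (fun v : V1 × V0 => pmG ρ (gsy k W₁ (PA v.2))) (M := 2 ^ (P - W₁))
    (N₃ := fun i => nw W₀ P g0 k q (ρ i)) hN3
    (fun v i => if i = 0 then ((2 ^ (P - W₁) : ℕ) : ℝ) * (2 ^ W₁ *
      MvPolynomial.eval (fun _ => 0) (PA v.2 0)) / nw W₀ P g0 k q (ρ i) else 0)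
    (fun _ => 2 ^ q) (fun _ _ _ _ h => h) (by
      intro ω hω i
      have hAω : A ω := cond_supp hω
      obtain ⟨j, hj⟩ : ∃ j, j = ρ i := ⟨_, rfl⟩
      have hp := pos_w hN hW₀J hAω j.2
      have hz := zsw_pm ρ h0 hk hc W₁ sg1 (ptr F J ω)
      have hbse : bse (zsw c1 k W₁ sg1 (ptr F J ω)) =
          fun l => bse (zsw c0 k W₁ sg1 (ptr F J ω)) (ρ l) := by
        funext l
        exact (congrFun hz (some l)).symm
      simp only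
      rw [hbse, eval_pmG]
      beta_reduce
      rw [← hj]
      have hNj : (0 : ℝ) < ((nw W₀ P g0 k q j : ℕ) : ℝ) := by
        exact_mod_cast nw_pos W₀ P g0 k q j
      have hside : ((2 ^ (P - W₁) : ℕ) : ℝ) * (2 ^ W₁ * (1 / 2 ^ wid W₀ g0 j)) /
          ((nw W₀ P g0 k q j : ℕ) : ℝ) = 2 ^ q := by
        have h1 := hq j j.2
        unfold nw
        push_cast
        have e1 : P - wid W₀ g0 j - q = P - (wid W₀ g0 j + q) := by omega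
        rw [e1, two_pow_sub hWP, two_pow_sub h1, pow_add]
        field_simp
      have hmain : ∀ x : ℝ, |x| ≤ 2 ^ W₁ * (1 / 2 ^ wid W₀ g0 j) →
          |((2 ^ (P - W₁) : ℕ) : ℝ) * x / ((nw W₀ P g0 k q j : ℕ) : ℝ)| ≤ 2 ^ q := by
        intro x hx
        rw [abs_div, abs_mul, abs_of_pos hM0, abs_of_pos hNj, ← hside]
        exact div_le_div_of_nonneg_right (mul_le_mul_of_nonneg_left hx hM0.le) hNj.le
      have hW1 : (0 : ℝ) < 2 ^ W₁ := by positivity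
      by_cases hi : i = 0
      · have hj0 : j = 0 := by
          rw [hj, hi, h0]
        rw [if_pos hi]
        subst hj0
        rw [gsy_zero, map_zero, sub_zero]
        have h2 : MvPolynomial.eval (fun _ => (0 : ℝ)) (PA (z0 (ptr F J ω)) 0) =
            MvPolynomial.eval (px c0 (ptr F J ω)) (PA (z0 (ptr F J ω)) 0) := by
          rw [hN.zero ω hAω, MvPolynomial.eval_C, MvPolynomial.eval_C]
        have h3 : bse (zsw c0 k W₁ sg1 (ptr F J ω)) 0 = 2 ^ W₁ * px c0 (ptr F J ω) 0 := rfl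
        have h4 := hmain (2 ^ W₁ * (px c0 (ptr F J ω) 0 - MvPolynomial.eval
          (px c0 (ptr F J ω)) (PA (z0 (ptr F J ω)) 0))) (by
            rw [abs_mul, abs_of_pos hW1]
            exact mul_le_mul_of_nonneg_left hp hW1.le)
        refine le_trans (le_of_eq ?_) h4
        rw [h2, h3]
        congr 1
        ring
      · rw [if_neg hi, sub_zero]
        have hj0 : j ≠ 0 := by
          intro h
          rw [hj] at h
          exact hi (ρ.injective (h.trans h0.symm))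
        obtain ⟨l, rfl⟩ := Fin.exists_succ_eq.2 hj0
        refine hmain _ ?_
        rw [gsy_succ, eval_toF, ← bse_unF c0 k W₁ sg1 (ptr F J ω) (i := l.val + 1) (by
          have := l.2
          omega) (hN.tri _ _)]
        have h3 : bse (zsw c0 k W₁ sg1 (ptr F J ω)) l.succ =
            2 ^ W₁ * px c0 (ptr F J ω) (l.val + 1) := rfl
        rw [h3, ← mul_sub, abs_mul, abs_of_pos hW1]
        exact mul_le_mul_of_nonneg_left hp hW1.le)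
  refine key.trans ?_
  rw [Finset.sum_const, Finset.card_range, nsmul_eq_mul]
  push_cast
  refine mul_le_mul_of_nonneg_left ?_ (by positivity)
  have h1 : (1 : ℝ) ≤ 2 ^ q := one_le_pow₀ one_le_two
  have h2 : Real.log (2 ^ (q + 3)) = ((q : ℝ) + 3) * Real.log 2 := by
    rw [Real.log_pow]
    push_cast
    ring
  rw [← h2]
  refine Real.log_le_log (by positivity) ?_
  rw [pow_add]
  nlinarith

/-- **Doubling on the leaves, in a class.** -/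
theorem lonE_w (k D K : ℕ) {S : PCl m}
    (hmem : ∀ (τ : ℝ) (J : ℕ) (F : Fam m J) (A : F.Ω → Prop), S.St τ J F A →
      F.Tr ∧ F.Tm (τ * J) ∧ F.Rb (τ * J) ∧ Real.exp (-(τ * J)) ≤ Pe F.p A)
    {c0 c1 : ℕ → Fin m} {w₀ w₁ : ℝ} {g : ℕ → ℝ} (hw0 : 0 ≤ w₀) (hw01 : w₀ ≤ w₁) (hw1 : w₁ ≤ 1)
    (hex : ∀ ρ : ℝ, 0 < ρ → ExvY S w₁ (fun J F ω (i : Fin k) => F.X J ω (c1 i))
      ((∑ l ∈ range k, (1 - g l)) - ρ)) {δ : ℝ} (hδ : 0 < δ) :
    ∃ φ : ℝ, 0 < φ ∧ Bas S (fun J F A =>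
      ∀ (P : ℕ) (g0' g1' : ℕ → ℕ) (sg0 sg1 kap q : ℕ) (L : ℝ) (V0 V1 : Type)
        (z0 : PtT F → V0) (z0' : LnT F → V0) (PA : V0 → ℕ → PN)
        (z1 : PtT F → V1) (z1' : LnT F → V1) (PB : V1 → ℕ → PN)
        (ρ : Equiv.Perm (Fin (k + 1))) (h : ℝ),
        (∀ l < k, (g l - φ) * J ≤ g1' l) → ⌊w₁ * J⌋₊ ≤ P → P ≤ J → P ≤ g1' k →
        (∀ i < k + 1, wid ⌊w₀ * J⌋₊ g0' i + q ≤ P) →
        (∀ i < k + 1, ⌊w₁ * J⌋₊ ≤ wid ⌊w₁ * J⌋₊ g1' i + kap ∧ wid ⌊w₁ * J⌋₊ g1' i ≤ P) →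
        ρ 0 = 0 → c1 k = c0 k →
        (∀ i : Fin (k + 1), i ≠ 0 → c1 (i.val - 1) = c0 ((ρ i).val - 1)) →
        NLabW F c0 k ⌊w₀ * J⌋₊ sg0 g0' K L A z0 z0' PA →
        NLabW F c1 k ⌊w₁ * J⌋₊ sg1 g1' K L A z1 z1' PB → 0 ≤ L → 0 < h →
        ms (Pool.Agent.H49.Ent.cond F.p A True) (fun ω => ¬ LonE F c1 k ⌊w₁ * J⌋₊ sg1 P D g1'
          (clC k kap L) (2 ^ D * Real.exp h) (fun i => nw ⌊w₀ * J⌋₊ P g0' k q (ρ i))
          (pmG ρ (gsy k ⌊w₁ * J⌋₊ (PA (z0 (ptr F J ω))))) (PB (z1 (ptr F J ω))) ω) ≤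
          (2 * D * (((k : ℝ) + 1) * (((q : ℝ) + 3) * Real.log 2)) + δ * J) / h) := by
  classical
  obtain ⟨C, hC, hlon⟩ := lon_w k D K
  have hC0 : 0 < C := by linarith
  obtain ⟨N₀, φ, hφ, hmx⟩ := mxc_w k hmem (c := c1) (g := g) (hw0.trans hw01) hw1 hex
    (δ := δ / (4 * C)) (by positivity)
  refine ⟨φ, hφ, ?_⟩
  have hN0 : (0 : ℝ) ≤ (N₀ : ℝ) := Nat.cast_nonneg N₀
  obtain ⟨δ₂, hδ₂⟩ : ∃ δ₂ : ℝ, δ₂ = δ / (4 * (C * (N₀ + 1))) := ⟨_, rfl⟩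
  have hδ₂0 : 0 < δ₂ := by
    rw [hδ₂]
    positivity
  obtain ⟨J₁, hJ₁⟩ := exists_nat_gt (4 * (C * (N₀ + 1)) / δ)
  have hpos : Bas S (fun J F A => 0 < Pe F.p A) :=
    ⟨1, one_pos, 0, fun J _ F A h => lt_of_lt_of_le (Real.exp_pos _) (hmem _ J F A h).2.2.2⟩
  refine ((tdg_w hmem w₁ hδ₂0).and (hmx.and hpos)).mono J₁ ?_
  rintro J hJ F A ⟨ht, hm, hA⟩
  intro P g0' g1' sg0 sg1 kap q L V0 V1 z0 z0' PA z1 z1' PB ρ h hg hWP hPJ hPg hq hwd h0 hk hc hNa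
    hNb hL hh
  have hJ0 : (0 : ℝ) ≤ J := Nat.cast_nonneg J
  have hW : ⌊w₀ * J⌋₊ ≤ ⌊w₁ * J⌋₊ :=
    Nat.floor_le_floor (mul_le_mul_of_nonneg_right hw01 hJ0)
  have hNp := nlabW_pair hNb (z0 := z0) (z0' := z0') hNa.cls hW (hWP.trans hPJ)
  obtain ⟨N, hNN, hMx⟩ := hm P g1' sg1 K L (V1 × V0) _ _ _ hg (fun i hi => (hwd i hi).2) hPJ hNp
  have hT := ht P hWP hPJ
  have hb := cell_few (q := q) (sg1 := sg1) (z1 := z1) hA hNa (hW.trans (hWP.trans hPJ)) hWP hq ρ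
    h0 hk hc
  have hlaw : 0 < law F.p A True := hA
  have key := hlon (z₀ := fun ξ => (z1 ξ, z0 ξ)) (G := fun v => pmG ρ (gsy k ⌊w₁ * J⌋₊ (PA v.2)))
    (N₃ := fun i => nw ⌊w₀ * J⌋₊ P g0' k q (ρ i)) (kap := kap) (N := N) (μ := δ / (4 * C) * J)
    (e₁ := δ₂ * J) (h := h) hNp hL hlaw hPJ hWP hPg hwd hMx (by positivity) hT (by positivity) hh
    (fun i => nw_pos _ _ _ _ _ _) hb
  refine key.trans (div_le_div_of_nonneg_right ?_ hh.le)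
  have hNr : (N : ℝ) ≤ N₀ := by exact_mod_cast hNN
  have hN' : (0 : ℝ) ≤ (N : ℝ) := Nat.cast_nonneg N
  have hJδ : C * (N₀ + 1) ≤ δ / 4 * J := by
    have h1 : (J₁ : ℝ) ≤ J := by exact_mod_cast hJ
    have h2 := hJ₁.trans_le h1
    rw [div_lt_iff₀ hδ] at h2
    linarith
  have h1 : C * (((N : ℝ) + 1) * (δ₂ * J + 1)) ≤ C * (((N₀ : ℝ) + 1) * (δ₂ * J + 1)) := by
    refine mul_le_mul_of_nonneg_left (mul_le_mul_of_nonneg_right (by linarith) ?_) hC0.le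
    positivity
  have h2 : C * (((N₀ : ℝ) + 1) * (δ₂ * J)) = δ / 4 * J := by
    rw [hδ₂]
    field_simp
  have h3 : C * (δ / (4 * C) * J) = δ / 4 * J := by
    field_simp
  nlinarith

/-- **The inclusion of the cells**, from the inclusion of the boxes. -/
lemma inB_cell {c0 : ℕ → Fin m} {k W₀ W₁ P sg q : ℕ} {g0 g1 : ℕ → ℕ}
    {ρ : Equiv.Perm (Fin (k + 1))} {G0 : Fin (k + 1) → MvPolynomial (Fin (k + 1)) ℝ}
    {a : Fin (k + 1) → ℝ} {PB : ℕ → PN} {s κ η : ℝ} {ω : F.Ω} (hWP : W₁ ≤ P) (hPJ : P ≤ J)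
    (hq : ∀ i < k + 1, wid W₀ g0 i + q ≤ P) (hη : 1 / 2 ^ q ≤ η)
    (h : InB F c0 k W₁ P (wid W₀ g0) g1 ρ G0 a PB s κ η ω) {b₂ : Fin (k + 1) → ℤ}
    (hb₂ : b₂ = nidx (nw W₀ P g0 k q) (ndg (2 ^ (P - W₁)) G0 (bse (xte c0 k W₁ P sg F ω)))) :
    ∀ y ∈ ncell (2 ^ (P - W₁)) (nw W₀ P g0 k q) G0 b₂, ∃ u ∈ ucube (k + 1),
      cbw (k + 1) W₁ P g1 PB u = (fun i => y (ρ i)) := by
  intro y hy
  have hM1 : 1 ≤ 2 ^ (P - W₁) := Nat.one_le_two_pow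
  obtain ⟨u, hu, h1, -⟩ := h.inc (bse (xte c0 k W₁ P sg F ω)) (nw W₀ P g0 k q) b₂ (by
    intro i
    have h1 := xte_near (F := F) c0 k sg hWP hPJ ω (some i)
    rw [abs_sub_comm] at h1
    exact h1) (by
    intro i
    have h1 := hq i i.2
    unfold nw
    push_cast
    have e1 : P - wid W₀ g0 i - q = P - (wid W₀ g0 i + q) := by omega
    have h2 : (2 : ℝ) ^ (P - (wid W₀ g0 i + q)) = 1 / 2 ^ q * 2 ^ (P - wid W₀ g0 i) := by
      rw [two_pow_sub h1, two_pow_sub (by omega : wid W₀ g0 i ≤ P), pow_add]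
      field_simp
    rw [e1, h2]
    exact mul_le_mul_of_nonneg_right hη (by positivity)) (by
    rw [hb₂]
    exact mem_own hM1 (fun i => nw_pos _ _ _ _ _ _) _) y hy
  exact ⟨u, hu, h1⟩

end Pool.GEO
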