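import Pool.Agent.H5.GEO.Ev1
import Pool.Agent.H5.GEO.Ev3

/-!
# The events of doubling and of inclusion over the data of the pairs

`evlo_w`: doubling, in a class. `evin_w`: the inclusion of the cell, in a class.
-/

set_option autoImplicit false

namespace Pool.GEO

open Finset Real
open Pool.Agent.H49.Ent Pool.Agent.H32.Dense Pool.STK Pool.KAF Pool.KAL Pool.KS3 Pool.M3F
open Pool.KJA Pool.KA Pool.K2S Pool.KSAT Pool.PB Pool.STAT Pool.GEN Pool.CLO37 Pool.IEN Pool.EXS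
open Pool.JPN Pool.JMS Pool.KM7 Pool.S6C

/-- **(E3) Doubling, in a class.** -/
theorem evlo_w (k D : ℕ) : ∃ Cl : ℝ, 1 ≤ Cl ∧ ∀ (K : ℕ) {m : ℕ} {S : PCl m},
    (∀ (τ : ℝ) (J : ℕ) (F : Fam m J) (A : F.Ω → Prop), S.St τ J F A →
      F.Tr ∧ F.Tm (τ * J) ∧ F.Rb (τ * J) ∧ Real.exp (-(τ * J)) ≤ Pe F.p A) →
    ∀ {c₀ c₁ : ℕ → Fin m} {w₀ w₁ : ℝ} {β₁ : ℕ → ℝ}, 0 ≤ w₀ → w₀ ≤ w₁ → w₁ ≤ 1 →
    (∀ ρ : ℝ, 0 < ρ → ExvY S w₁ (fun J F ω (i : Fin k) => F.X J ω (c₁ i))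
      ((∑ l ∈ range k, (1 - β₁ l)) - ρ)) →
    ∀ {q X η c : ℝ}, 0 ≤ q → 0 ≤ X → 0 < η → 0 < c →
    ∃ φ : ℝ, 0 < φ ∧ Bas S (fun J F A => 0 < Pe F.p A ∧
      ∀ (Dq : ℕ) (pr φ' : ℝ) (β₀ : ℕ → ℝ) (ρ : Equiv.Perm (Fin (k + 1)))
        (Pr sg₀ sg kap : ℕ) (g₀ g₁ : ℕ → ℕ) (L : ℝ) (V₀ V₁ : Type) (z₀ : PtT F → V₀)
        (z₀' : LnT F → V₀) (P₀ : V₀ → ℕ → PN) (z₁ : PtT F → V₁) (z₁' : LnT F → V₁)
        (P₁ : V₁ → ℕ → PN) (Qh : V₁ → MvPolynomial (Option (Fin (k + 1))) ℝ) (ρz : V₁ → ℝ),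
        φ' ≤ φ → GD F A c₀ c₁ k K Dq w₀ w₁ pr q X φ' β₀ β₁ ρ Pr sg₀ sg kap g₀ g₁ L z₀ z₀' P₀ z₁
          z₁' P₁ Qh ρz →
        ∃ Z : ℝ, 1 ≤ Z ∧ Z ≤ 2 ^ ((Cl * (q + X) + η) / c * J) ∧
          ms (P2 (Pool.Agent.H49.Ent.cond F.p A True) (slam F ⌊w₀ * J⌋₊))
            (fun e => ¬ EvLo F c₁ k ⌊w₀ * J⌋₊ ⌊w₁ * J⌋₊ Pr sg ⌊q * J⌋₊ ⌊X * J⌋₊ g₀ g₁ ρ z₀ P₀ z₁
              P₁ D kap L Z e.1) ≤ c) := by
  classical
  obtain ⟨a, ha⟩ : ∃ a : ℝ, a = 2 * D * ((k : ℝ) + 1) := ⟨_, rfl⟩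
  have ha0 : 0 ≤ a := by
    rw [ha]
    positivity
  refine ⟨a + 1, by linarith, ?_⟩
  intro K m S hmem c₀ c₁ w₀ w₁ β₁ hw0 hw01 hw1 hex q X η c hq hX hη hc
  have hl2 : 0 < Real.log 2 := Real.log_pos one_lt_two
  obtain ⟨δ, hδ⟩ : ∃ δ : ℝ, δ = η * Real.log 2 / 4 := ⟨_, rfl⟩
  have hδ0 : 0 < δ := by
    rw [hδ]
    positivity
  obtain ⟨φ, hφ, hB⟩ := lonE_w k D K hmem (c0 := c₀) hw0 hw01 hw1 hex hδ0
  obtain ⟨J₁, hJ₁⟩ := exists_nat_gt ((D * c + 3 * a) / (η / 4))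
  have hpos : Bas S (fun J F A => 0 < Pe F.p A) :=
    ⟨1, one_pos, 0, fun J _ F A h => lt_of_lt_of_le (Real.exp_pos _) (hmem _ J F A h).2.2.2⟩
  refine ⟨φ, hφ, (hB.and hpos).mono (max 1 J₁) ?_⟩
  rintro J hJ F A ⟨hm, hA⟩
  refine ⟨hA, ?_⟩
  intro Dq pr φ' β₀ ρ Pr sg₀ sg kap g₀ g₁ L V₀ V₁ z₀ z₀' P₀ z₁ z₁' P₁ Qh ρz hφ' G
  have hJ1 : (1 : ℝ) ≤ J := by exact_mod_cast (le_max_left _ _).trans hJ
  have hJ0 : (0 : ℝ) ≤ J := by linarith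
  have j1 : (J₁ : ℝ) ≤ J := by exact_mod_cast (le_max_right _ _).trans hJ
  have hJc : D * c + 3 * a ≤ η / 4 * J := by
    have h2 := hJ₁.trans_le j1
    rw [div_lt_iff₀ (by positivity)] at h2
    linarith
  obtain ⟨d, hd⟩ : ∃ d : ℕ, d = ⌊q * J⌋₊ + ⌊X * J⌋₊ := ⟨_, rfl⟩
  have hdJ : (d : ℝ) ≤ (q + X) * J := by
    have h1 := Nat.floor_le (show 0 ≤ q * (J : ℝ) by positivity)
    have h2 := Nat.floor_le (show 0 ≤ X * (J : ℝ) by positivity)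
    rw [hd]
    push_cast
    linarith
  obtain ⟨h, hh⟩ : ∃ h : ℝ, h = (2 * D * (((k : ℝ) + 1) * (((d : ℝ) + 3) * Real.log 2)) + δ * J) /
    c := ⟨_, rfl⟩
  have hh0 : 0 < h := by
    rw [hh]
    positivity
  have hhc : h * c = a * (d + 3) * Real.log 2 + δ * J := by
    rw [hh, ha]
    field_simp
  refine ⟨2 ^ D * Real.exp h, ?_, ?_, ?_⟩
  · exact one_le_mul_of_one_le_of_one_le (one_le_pow₀ one_le_two) (Real.one_le_exp hh0.le)
  · rw [Real.rpow_def_of_pos (by norm_num), ← Real.rpow_natCast (2 : ℝ) D,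
      Real.rpow_def_of_pos (by norm_num : (0 : ℝ) < 2) (D : ℝ), ← Real.exp_add]
    refine Real.exp_le_exp.2 ?_
    have h1 : Real.log 2 * (((a + 1) * (q + X) + η) / c * J) =
        Real.log 2 * (((a + 1) * (q + X) + η) * J) / c := by ring
    rw [h1, le_div_iff₀ hc, add_mul, hhc]
    have h2 : a * d ≤ a * ((q + X) * J) := mul_le_mul_of_nonneg_left hdJ ha0
    have h3 : 0 ≤ (q + X) * J := by positivity
    have h4 : D * c + a * (d + 3) + η / 4 * J ≤ ((a + 1) * (q + X) + η) * J := by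
      have h6 : 0 ≤ η * J := by positivity
      linarith
    have h5 := mul_le_mul_of_nonneg_left h4 hl2.le
    rw [hδ]
    linarith
  · have hl := isLaw_cond F.isLaw hA
    have key := hm Pr g₀ g₁ sg₀ sg kap d L V₀ V₁ z₀ z₀' P₀ z₁ z₁' P₁ ρ h
      (fun l hl => by
        have h1 := abs_le.1 (G.be1 l hl)
        have h2 : φ' * J ≤ φ * J := mul_le_mul_of_nonneg_right hφ' hJ0
        linarith) G.WP G.PJ G.Pg (fun i hi => by
        have h1 := G.wd0 i hi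
        rw [hd]
        omega) (fun i hi => ⟨G.kp1 i hi, G.wd1 i hi⟩) G.r0 G.rk G.rc G.n0 G.n1 G.L0 hh0
    have h1 := ms_dens_fst hl (g := slam F ⌊w₀ * J⌋₊) (C := 1)
      (R := P2 (Pool.Agent.H49.Ent.cond F.p A True) (slam F ⌊w₀ * J⌋₊))
      (fun e => by rw [one_mul]) (fun ω => ¬ EvLo F c₁ k ⌊w₀ * J⌋₊ ⌊w₁ * J⌋₊ Pr sg ⌊q * J⌋₊
        ⌊X * J⌋₊ g₀ g₁ ρ z₀ P₀ z₁ P₁ D kap L (2 ^ D * Real.exp h) ω)
    rw [one_mul] at h1
    refine h1.trans ?_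
    have h2 : (2 * D * (((k : ℝ) + 1) * (((d : ℝ) + 3) * Real.log 2)) + δ * J) / h = c := by
      rw [hh]
      field_simp
    rw [h2] at key
    subst hd
    exact key

/-- **(E3) The inclusion of the cell, in a class.** -/
theorem evin_w (k K : ℕ) {m : ℕ} {S : PCl m}
    (hmem : ∀ (τ : ℝ) (J : ℕ) (F : Fam m J) (A : F.Ω → Prop), S.St τ J F A →
      F.Tr ∧ F.Tm (τ * J) ∧ F.Rb (τ * J) ∧ Real.exp (-(τ * J)) ≤ Pe F.p A)
    {c₀ c₁ : ℕ → Fin m} {w₀ w₁ pr q : ℝ} {β₀ β₁ : ℕ → ℝ} (hw0 : 0 ≤ w₀) (hw01 : w₀ ≤ w₁)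
    (hw1 : w₁ ≤ 1)
    (hex : ∀ ρ : ℝ, 0 < ρ → ExvY S w₁ (fun J F ω (i : Fin k) => F.X J ω (c₁ i))
      ((∑ l ∈ range k, (1 - β₁ l)) - ρ)) {η c : ℝ} (hη : 0 < η) (hc : 0 < c)
    (hm0 : w₁ + η ≤ pr) (hm1 : ∀ l < k, β₁ l + η ≤ pr)
    (hvol : (w₁ - w₀) + ∑ l ∈ range k, (β₁ l - β₀ l) + η ≤ q) :
    ∃ φ : ℝ, 0 < φ ∧ Bas S (fun J F A => 0 < Pe F.p A ∧
      ∀ (Dq : ℕ) (X φ' : ℝ) (ρ : Equiv.Perm (Fin (k + 1)))
        (Pr sg₀ sg kap : ℕ) (g₀ g₁ : ℕ → ℕ) (L : ℝ) (V₀ V₁ : Type) (z₀ : PtT F → V₀)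
        (z₀' : LnT F → V₀) (P₀ : V₀ → ℕ → PN) (z₁ : PtT F → V₁) (z₁' : LnT F → V₁)
        (P₁ : V₁ → ℕ → PN) (Qh : V₁ → MvPolynomial (Option (Fin (k + 1))) ℝ) (ρz : V₁ → ℝ),
        φ' ≤ φ → GD F A c₀ c₁ k K Dq w₀ w₁ pr q X φ' β₀ β₁ ρ Pr sg₀ sg kap g₀ g₁ L z₀ z₀' P₀ z₁
          z₁' P₁ Qh ρz →
        ms (P2 (Pool.Agent.H49.Ent.cond F.p A True) (slam F ⌊w₀ * J⌋₊))
          (fun e => ¬ EvIn F c₀ k ⌊w₀ * J⌋₊ ⌊w₁ * J⌋₊ Pr sg ⌊q * J⌋₊ g₀ g₁ ρ z₀ P₀ z₁ P₁ e.1) ≤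
          c) := by
  classical
  obtain ⟨C, hC, hinc⟩ := inc_w k K
  have hC0 : 0 < C := by linarith
  have hl2 : 0 < Real.log 2 := Real.log_pos one_lt_two
  have hl2' : Real.log 2 < 1 := by
    have := Real.log_two_lt_d9
    linarith
  obtain ⟨μ, hμ⟩ : ∃ μ : ℝ, μ = η * Real.log 2 / (8 * (k + 3)) := ⟨_, rfl⟩
  have hμ0 : 0 < μ := by
    rw [hμ]
    positivity
  have hμk : (k + 3) * μ = η * Real.log 2 / 8 := by
    rw [hμ]
    field_simp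
  obtain ⟨φ₁, hφ₁, hB⟩ := hinc hmem (c0 := c₀) hw0 hw01 hw1 hex
    (show (0 : ℝ) < c * μ / 2 by positivity)
  obtain ⟨φ, hφ⟩ : ∃ φ : ℝ, φ = min φ₁ (min μ (η / (8 * (k + 1)))) := ⟨_, rfl⟩
  have hφ0 : 0 < φ := by
    rw [hφ]
    exact lt_min hφ₁ (lt_min hμ0 (by positivity))
  have f1 : φ ≤ φ₁ := by
    rw [hφ]
    exact min_le_left _ _
  have f2 : φ ≤ μ := by
    rw [hφ]
    exact (min_le_right _ _).trans (min_le_left _ _)
  have f3 : (k + 1) * φ ≤ η / 8 := by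
    have h1 : φ ≤ η / (8 * (k + 1)) := by
      rw [hφ]
      exact (min_le_right _ _).trans (min_le_right _ _)
    have h2 : η / (8 * ((k : ℝ) + 1)) = η / 8 / (k + 1) := by field_simp
    rw [h2, le_div_iff₀ (by positivity)] at h1
    linarith
  have f4 : φ ≤ η / 8 := by
    have : (0 : ℝ) ≤ k * φ := by positivity
    linarith
  obtain ⟨J₃, hJ₃⟩ := const_exp (8 * C) hμ0
  obtain ⟨J₄, hJ₄⟩ := exists_nat_gt (C / (c * μ / 2))
  have hpos : Bas S (fun J F A => 0 < Pe F.p A) :=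
    ⟨1, one_pos, 0, fun J _ F A h => lt_of_lt_of_le (Real.exp_pos _) (hmem _ J F A h).2.2.2⟩
  refine ⟨φ, hφ0, (hB.and hpos).mono (max 1 (max J₃ J₄)) ?_⟩
  rintro J hJ F A ⟨hm, hA⟩
  refine ⟨hA, ?_⟩
  intro Dq X φ' ρ Pr sg₀ sg kap g₀ g₁ L V₀ V₁ z₀ z₀' P₀ z₁ z₁' P₁ Qh ρz hφ' G
  have hJ1 : (1 : ℝ) ≤ J := by exact_mod_cast (le_max_left _ _).trans hJ
  have hJ0 : (0 : ℝ) ≤ J := by linarith
  have j3 : J₃ ≤ J := ((le_max_left _ _).trans (le_max_right _ _)).trans hJ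
  have j4 : (J₄ : ℝ) ≤ J := by
    exact_mod_cast ((le_max_right _ _).trans (le_max_right _ _)).trans hJ
  have hCμ : 8 * C ≤ Real.exp (μ * J) := hJ₃ J j3
  have hCc : C ≤ c * μ / 2 * J := by
    have h2 := hJ₄.trans_le j4
    rw [div_lt_iff₀ (by positivity)] at h2
    linarith
  have hφJ : φ' * J ≤ φ * J := mul_le_mul_of_nonneg_right hφ' hJ0
  have hemu : 1 ≤ Real.exp (μ * J) := Real.one_le_exp (by positivity)
  have hPr := abs_le.1 G.Pr0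
  have hφη : φ' * J ≤ η / 8 * J := hφJ.trans (mul_le_mul_of_nonneg_right f4 hJ0)
  have hηJ : 0 ≤ η * J := by positivity
  have hw1' : 0 ≤ w₁ := hw0.trans hw01
  have fl0 := Nat.lt_floor_add_one (w₀ * (J : ℝ))
  have fl1 := Nat.floor_le (show 0 ≤ w₁ * (J : ℝ) by positivity)
  -- the permutation
  have hpx : ∀ (ξ : PtT F) (i : Fin (k + 1)), px c₁ ξ i = px c₀ ξ (ρ i) := by
    intro ξ i
    by_cases hi : i = 0
    · rw [hi, G.r0]
      rfl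
    · have hj0 : ρ i ≠ 0 := by
        intro h
        exact hi (ρ.injective (h.trans G.r0.symm))
      have h1 := G.rc i hi
      obtain ⟨l, hl⟩ := Fin.exists_succ_eq.2 hi
      obtain ⟨l', hl'⟩ := Fin.exists_succ_eq.2 hj0
      rw [← hl'] at h1 ⊢
      rw [← hl] at h1 ⊢
      rw [Fin.val_succ, Fin.val_succ, Nat.add_sub_cancel, Nat.add_sub_cancel] at h1
      rw [Fin.val_succ, Fin.val_succ, px_succ, px_succ, h1]
  -- the boxes are large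
  have hwidr : ∀ i < k + 1, 3 * η / 4 * J ≤ ((Pr - wid ⌊w₁ * J⌋₊ g₁ i : ℕ) : ℝ) := by
    intro i hi
    have h1 := G.wd1 i hi
    rw [Nat.cast_sub h1]
    rcases Nat.eq_zero_or_pos i with h0 | h0
    · subst h0
      rw [wid_zero]
      have h3 := mul_le_mul_of_nonneg_right hm0 hJ0
      linarith
    · obtain ⟨l, rfl⟩ : ∃ l, i = l + 1 := ⟨i - 1, by omega⟩
      rw [wid_succ]
      have h2 := abs_le.1 (G.be1 l (by omega))
      have h3 := mul_le_mul_of_nonneg_right (hm1 l (by omega)) hJ0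
      linarith
  have hngw0 : ∀ i : Fin (k + 1), (2 : ℝ) ^ ((Pr - wid ⌊w₁ * J⌋₊ g₁ i : ℕ) : ℝ) ≤
      ngw ⌊w₁ * J⌋₊ Pr g₁ (k + 1) i := by
    intro i
    unfold ngw
    push_cast
    rw [Real.rpow_natCast]
    have h3 : (2 : ℝ) ^ (Pr - wid ⌊w₁ * J⌋₊ g₁ i) ≤ 2 ^ (Pr - wid ⌊w₁ * J⌋₊ g₁ i + 1) :=
      pow_le_pow_right₀ one_le_two (Nat.le_succ _)
    linarith
  have h2e : ∀ x : ℝ, (2 : ℝ) ^ x = Real.exp (Real.log 2 * x) := fun x =>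
    Real.rpow_def_of_pos (by norm_num) x
  have hngw : ∀ i : Fin (k + 1), C * (1 + L) * Real.exp (μ * J) ≤
      ngw ⌊w₁ * J⌋₊ Pr g₁ (k + 1) i := by
    intro i
    refine le_trans ?_ (hngw0 i)
    have h1 : 1 + L ≤ Real.exp (μ * J) := by
      rw [← Real.log_le_iff_le_exp (by linarith [G.L0])]
      exact (G.logL.trans hφJ).trans (mul_le_mul_of_nonneg_right f2 hJ0)
    have h2 : C ≤ Real.exp (μ * J) := by linarith
    calc C * (1 + L) * Real.exp (μ * J) ≤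
          Real.exp (μ * J) * Real.exp (μ * J) * Real.exp (μ * J) := by
          refine mul_le_mul_of_nonneg_right ?_ (by positivity)
          exact mul_le_mul h2 h1 (by linarith [G.L0]) (by positivity)
      _ = Real.exp (3 * μ * J) := by
          rw [← Real.exp_add, ← Real.exp_add]
          congr 1
          ring
      _ ≤ _ := by
          rw [h2e]
          refine Real.exp_le_exp.2 ?_
          have h3 := mul_le_mul_of_nonneg_left (hwidr i i.2) hl2.le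
          have h4 : (0 : ℝ) ≤ k * μ := by positivity
          have h5 : 3 * μ ≤ η * Real.log 2 / 8 := by linarith
          have h6 : 3 * μ * J ≤ η * Real.log 2 / 8 * J := mul_le_mul_of_nonneg_right h5 hJ0
          have h7 : 0 ≤ η * Real.log 2 * J := by positivity
          linarith
  -- the volumes
  obtain ⟨e, he⟩ : ∃ e : ℕ → ℝ, e = fun i => if i = 0 then (w₁ - w₀) * J + 1 else
    (β₁ (i - 1) - β₀ (i - 1)) * J + 2 * (φ' * J) := ⟨_, rfl⟩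
  have hei : ∀ i < k + 1, (wid ⌊w₁ * J⌋₊ g₁ i : ℝ) - wid ⌊w₀ * J⌋₊ g₀ i ≤ e i := by
    intro i hi
    rcases Nat.eq_zero_or_pos i with h0 | h0
    · subst h0
      rw [wid_zero, wid_zero, he]
      simp only [if_true]
      linarith
    · obtain ⟨l, rfl⟩ : ∃ l, i = l + 1 := ⟨i - 1, by omega⟩
      rw [wid_succ, wid_succ, he]
      simp only [Nat.succ_ne_zero, if_false, Nat.add_sub_cancel]
      have h2 := abs_le.1 (G.be1 l (by omega))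
      have h3 := abs_le.1 (G.be0 l (by omega))
      linarith
  have hesum : ∑ i : Fin (k + 1), e i =
      ((w₁ - w₀) + ∑ l ∈ range k, (β₁ l - β₀ l)) * J + 1 + 2 * k * (φ' * J) := by
    rw [Fin.sum_univ_succ, he]
    simp only [Fin.val_zero, if_true, Fin.val_succ, Nat.succ_ne_zero, if_false, Nat.add_sub_cancel]
    rw [Fin.sum_univ_eq_sum_range (fun l => (β₁ l - β₀ l) * (J : ℝ) + 2 * (φ' * J)) k,
      Finset.sum_add_distrib, ← Finset.sum_mul, Finset.sum_const, Finset.card_range, nsmul_eq_mul]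
    ring
  obtain ⟨dl, hdl⟩ : ∃ dl : ℝ, dl = (2 : ℝ) ^ (-∑ i : Fin (k + 1), e i) := ⟨_, rfl⟩
  have hdl0 : 0 < dl := by
    rw [hdl]
    positivity
  have hdlprod : dl = ∏ i : Fin (k + 1), (2 : ℝ) ^ (-e i) := by
    rw [hdl, ← Finset.sum_neg_distrib, Real.rpow_sum_of_pos (by norm_num)]
  have hdlN : dl * ∏ i : Fin (k + 1), ((2 ^ (Pr - wid ⌊w₀ * J⌋₊ g₀ i) : ℕ) : ℝ) ≤
      ∏ i, (ngw ⌊w₁ * J⌋₊ Pr g₁ (k + 1) i : ℝ) := by
    rw [hdlprod, ← Finset.prod_mul_distrib]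
    refine Finset.prod_le_prod (fun i _ => by positivity) fun i _ => ?_
    refine le_trans ?_ (hngw0 i)
    push_cast
    rw [← Real.rpow_natCast, ← Real.rpow_add (by norm_num)]
    refine Real.rpow_le_rpow_of_exponent_le one_le_two ?_
    have h1 := hei i i.2
    have h2 := G.wd1 i i.2
    have h3 := G.wd0 i i.2
    rw [Nat.cast_sub (by omega), Nat.cast_sub h2]
    linarith
  obtain ⟨Q, hQ⟩ : ∃ Q : ℕ, Q = ⌊q * J⌋₊ := ⟨_, rfl⟩
  have hQq : q * J ≤ Q + 1 := by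
    rw [hQ]
    exact (Nat.lt_floor_add_one _).le
  have hsmall : C * Real.exp (μ * J) ^ (k + 2) * (1 / 2 ^ Q) ≤ dl := by
    rw [mul_one_div, div_le_iff₀ (by positivity)]
    have h0 : (2 : ℝ) ^ Q = Real.exp (Real.log 2 * Q) := by
      rw [← Real.rpow_natCast, h2e]
    have h1 : C * Real.exp (μ * J) ^ (k + 2) ≤ Real.exp ((k + 3) * μ * J) / 8 := by
      have h2 : Real.exp ((k + 3) * μ * J) = Real.exp (μ * J) * Real.exp (μ * J) ^ (k + 2) := by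
        rw [← Real.exp_nat_mul, ← Real.exp_add]
        congr 1
        push_cast
        ring
      rw [h2]
      have h3 : 0 ≤ Real.exp (μ * J) ^ (k + 2) := by positivity
      have h4 := mul_le_mul_of_nonneg_right hCμ h3
      linarith
    refine h1.trans ?_
    rw [hdl, h2e, h0, ← Real.exp_add]
    have h8 : (8 : ℝ) = Real.exp (Real.log 2 * 3) := by
      rw [← h2e]
      norm_num
    rw [h8, ← Real.exp_sub]
    refine Real.exp_le_exp.2 ?_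
    rw [hesum]
    have h3 : (k + 3) * μ * J = Real.log 2 * (η / 8 * J) := by
      rw [hμk]
      ring
    rw [h3]
    have h4 := mul_le_mul_of_nonneg_right hvol hJ0
    have h5 : (k + 1) * (φ' * J) ≤ η / 8 * J := by
      have h6 : (k + 1) * (φ' * J) ≤ (k + 1) * (φ * J) :=
        mul_le_mul_of_nonneg_left hφJ (by positivity)
      have h7 := mul_le_mul_of_nonneg_right f3 hJ0
      linarith
    have h6 : 2 * k * (φ' * J) ≤ η / 2 * J := by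
      rcases le_or_gt 0 φ' with h7 | h7
      · have h8 : 0 ≤ φ' * J := by positivity
        linarith
      · have h8 : φ' * J ≤ 0 := mul_nonpos_of_nonpos_of_nonneg h7.le hJ0
        have h9 : (0 : ℝ) ≤ k := Nat.cast_nonneg k
        have h10 : 2 * k * (φ' * J) ≤ 0 := mul_nonpos_of_nonneg_of_nonpos (by linarith) h8
        have h11 : 0 ≤ η / 2 * J := by positivity
        linarith
    have h7 : η / 8 * J - 3 ≤ -(((w₁ - w₀) + ∑ l ∈ range k, (β₁ l - β₀ l)) * J + 1 +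
        2 * k * (φ' * J)) + Q := by
      linarith
    have h9 := mul_le_mul_of_nonneg_left h7 hl2.le
    linarith
  have hl := isLaw_cond F.isLaw hA
  have key := hm Pr g₀ g₁ sg₀ sg L V₀ V₁ z₀ z₀' P₀ z₁ z₁' P₁ ρ (μ * J) dl (1 / 2 ^ Q)
    (fun l hl => by
      have h1 := abs_le.1 (G.be1 l hl)
      have h2 : φ' * J ≤ φ₁ * J := mul_le_mul_of_nonneg_right (hφ'.trans f1) hJ0
      linarith) G.WP G.PJ (fun i hi => by
      have h1 := G.wd0 i hi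
      omega) G.wd1 hpx G.n0 G.n1 G.L0 (by positivity) hngw hdl0 (by positivity) hdlN hsmall
  have h1 := ms_dens_fst hl (g := slam F ⌊w₀ * J⌋₊) (C := 1)
    (R := P2 (Pool.Agent.H49.Ent.cond F.p A True) (slam F ⌊w₀ * J⌋₊))
    (fun e => by rw [one_mul]) (fun ω => ¬ EvIn F c₀ k ⌊w₀ * J⌋₊ ⌊w₁ * J⌋₊ Pr sg ⌊q * J⌋₊ g₀ g₁
      ρ z₀ P₀ z₁ P₁ ω)
  rw [one_mul] at h1
  refine h1.trans ?_
  have h2 : (c * μ / 2 * J + C) / (μ * J) ≤ c := by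
    rw [div_le_iff₀ (by positivity)]
    linarith
  refine le_trans (ms_le hl.nonneg ?_) (key.trans h2)
  intro ω hω h3 hcon
  refine h3 ?_
  subst hQ
  exact inB_cell G.WP G.PJ (fun i hi => by
    have h1 := G.wd0 i hi
    omega) le_rfl hcon rfl

end Pool.GEO
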