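import Pool.Agent.H5.GEO.Inc

/-!
# A quantitative inverse function theorem for polynomial maps

`pol_ift`: a polynomial map of the unit cube with values bounded by `S`, with Jacobian at least `δ`
at a point `us` which is not near the boundary: all values near the value at `us` are attained near
`us`.
-/

set_option autoImplicit false

namespace Pool.GEO

open Finset Real MvPolynomial
open Pool.KAL Pool.KS3 Pool.M3F

/-- Markov's inequality on the unit cube. -/
theorem mark_d (d E : ℕ) : ∃ C : ℝ, 1 ≤ C ∧ ∀ (R : MvPolynomial (Fin d) ℝ) (A : ℝ),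
    R.totalDegree ≤ E → (∀ u ∈ ucube d, |eval u R| ≤ A) → ∀ u ∈ ucube d, ∀ i,
      |eval u (pderiv i R)| ≤ C * A := by
  obtain ⟨K₁, hK₁, hcen⟩ := SML.psi_center_le d E
  refine ⟨2 * (E + 1) * K₁, by
    have : (0 : ℝ) ≤ E := Nat.cast_nonneg E
    nlinarith, ?_⟩
  intro R A hR hA v hv i
  have hE : (0 : ℝ) ≤ E := Nat.cast_nonneg E
  have hA0 : 0 ≤ A := (abs_nonneg _).trans (hA v hv)
  have hcs : cs (fun _ => 0) 1 R ≤ A := SML.cs_le _ hA0 fun y hy => hA y fun i => by
    have := hy i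
    constructor <;> linarith [this.1, this.2]
  have h1 := abs_eval_le_Psi_of_near (pderiv i R) (1 / 2) (by norm_num)
    (fun _ : Fin d => (0 : ℝ) + 1 / 2) v (fun j => by
      have := hv j
      rw [abs_le]
      constructor <;> linarith [this.1, this.2])
  have h2 := Psi_pderiv_le R (1 / 2) (by norm_num) (fun _ : Fin d => (0 : ℝ) + 1 / 2) i
  have h3 := hcen R (fun _ => 0) 1 zero_le_one hR
  have h4 : (R.totalDegree : ℝ) ≤ E := by exact_mod_cast hR
  have h5 : 0 ≤ Psi R (1 / 2) (fun _ : Fin d => (0 : ℝ) + 1 / 2) := Psi_nonneg _ _ _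
  have h6 : Psi R (1 / 2) (fun _ : Fin d => (0 : ℝ) + 1 / 2) ≤ K₁ * A :=
    h3.trans (mul_le_mul_of_nonneg_left hcs (by linarith))
  have h7 : (R.totalDegree : ℝ) * Psi R (1 / 2) (fun _ : Fin d => (0 : ℝ) + 1 / 2) ≤
      E * (K₁ * A) := mul_le_mul h4 h6 h5 hE
  have h8 : 0 ≤ K₁ * A := by positivity
  calc |eval v (pderiv i R)| ≤ Psi (pderiv i R) (1 / 2) (fun _ : Fin d => (0 : ℝ) + 1 / 2) := h1
    _ ≤ 2 * (E * (K₁ * A)) := by linarith
    _ ≤ _ := by nlinarith

/-- The mean value inequality in a box. -/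
theorem mean_box {d : ℕ} (R : MvPolynomial (Fin d) ℝ) (B : Fin d → ℝ) (us : Fin d → ℝ) {ρ : ℝ}
    (hρ : 0 < ρ) (h : ∀ u : Fin d → ℝ, (∀ i, |u i - us i| ≤ ρ) → ∀ i, |eval u (pderiv i R)| ≤ B i)
    {u u' : Fin d → ℝ} (hu : ∀ i, |u i - us i| ≤ ρ) (hu' : ∀ i, |u' i - us i| ≤ ρ) :
    |eval u' R - eval u R| ≤ ∑ i, B i * |u' i - u i| := by
  classical
  obtain ⟨Φ, hΦ⟩ : ∃ Φ : Fin d → MvPolynomial (Fin d) ℝ, Φ = fun i =>
    C (us i - ρ) + C (2 * ρ) * X i := ⟨_, rfl⟩
  have hev : ∀ x : Fin d → ℝ, ∀ Q : MvPolynomial (Fin d) ℝ,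
      eval x (bind₁ Φ Q) = eval (fun i => us i - ρ + 2 * ρ * x i) Q := by
    intro x Q
    rw [Pool.M3F.eval_bind]
    congr 2
    funext i
    unfold cpt
    rw [hΦ]
    simp
  have hpd : ∀ l, pderiv l (bind₁ Φ R) = C (2 * ρ) * bind₁ Φ (pderiv l R) := by
    intro l
    rw [pderiv_bind, Finset.sum_eq_single l]
    · rw [hΦ]
      simp [pderiv_X, mul_comm]
    · intro i _ hi
      rw [hΦ]
      simp [pderiv_X, hi]
    · intro h
      exact absurd (Finset.mem_univ _) h
  have hsc : ∀ v : Fin d → ℝ, (∀ i, |v i - us i| ≤ ρ) →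
      (fun i => (v i - (us i - ρ)) / (2 * ρ)) ∈ ucube d ∧
      (fun i => us i - ρ + 2 * ρ * ((v i - (us i - ρ)) / (2 * ρ))) = v := by
    intro v hv
    refine ⟨fun i => ?_, ?_⟩
    · have := abs_le.1 (hv i)
      constructor
      · exact div_nonneg (by linarith) (by linarith)
      · rw [div_le_one (by linarith)]
        linarith
    · funext i
      field_simp
      ring
  obtain ⟨h1, h2⟩ := hsc u hu
  obtain ⟨h1', h2'⟩ := hsc u' hu'
  have h3 := mean_dir (bind₁ Φ R) (fun i => 2 * ρ * B i) (by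
    intro x hx i
    rw [hpd, map_mul, eval_C, hev, abs_mul, abs_of_pos (by linarith)]
    refine mul_le_mul_of_nonneg_left (h _ (fun j => ?_) i) (by linarith)
    have := hx j
    rw [abs_le]
    constructor <;> nlinarith [this.1, this.2]) h1 h1'
  rw [hev, hev, h2, h2'] at h3
  refine h3.trans (le_of_eq ?_)
  refine Finset.sum_congr rfl fun i _ => ?_
  have h4 : (u' i - (us i - ρ)) / (2 * ρ) - (u i - (us i - ρ)) / (2 * ρ) =
      (u' i - u i) / (2 * ρ) := by ring
  rw [h4, abs_div, abs_of_pos (by linarith : 0 < 2 * ρ)]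
  field_simp

/-- **The inverse function theorem for polynomial maps.** -/
theorem pol_ift (d K : ℕ) : ∃ C : ℝ, 1 ≤ C ∧
    ∀ (D : Fin d → MvPolynomial (Fin d) ℝ) (us v : Fin d → ℝ) (S δ η ε : ℝ),
      (∀ i, (D i).totalDegree ≤ K) → 1 ≤ S → (∀ u ∈ ucube d, ∀ i, |eval u (D i)| ≤ S) → 0 < δ →
      δ ≤ |Matrix.det (Matrix.of fun i l => eval us (pderiv l (D i)))| → ε ≤ 1 →
      (∀ i, ε ≤ us i ∧ us i ≤ 1 - ε) → 0 ≤ η → (∀ i, |eval us (D i) - v i| ≤ η) →
      C * S ^ (2 * d + 1) / δ ^ 2 * η ≤ ε →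
      ∃ u ∈ ucube d, (∀ i, eval u (D i) = v i) ∧
        ∀ i, |u i - us i| ≤ C * S ^ d / δ * η := by
  classical
  obtain ⟨C₁, hC₁, hmd⟩ := mark_d d K
  obtain ⟨C₂, hC₂, hm⟩ := mark d K
  have hd0 : (0 : ℝ) ≤ d := Nat.cast_nonneg d
  have hf1 : (1 : ℝ) ≤ (Nat.factorial d : ℝ) := by
    exact_mod_cast Nat.one_le_iff_ne_zero.2 (Nat.factorial_ne_zero d)
  obtain ⟨f, hf⟩ : ∃ f : ℝ, f = (Nat.factorial d : ℝ) := ⟨_, rfl⟩
  rw [← hf] at hf1
  have hC1d : 1 ≤ C₁ ^ d := one_le_pow₀ hC₁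
  obtain ⟨C, hC⟩ : ∃ C : ℝ, C = 4 * (d + 1) ^ 4 * f ^ 2 * (C₁ ^ d) ^ 2 * C₁ * C₂ := ⟨_, rfl⟩
  have hd1 : (1 : ℝ) ≤ d + 1 := by linarith
  have hd14 : (1 : ℝ) ≤ (d + 1) ^ 4 := one_le_pow₀ hd1
  have hff : (1 : ℝ) ≤ f ^ 2 := one_le_pow₀ hf1
  have hcc : (1 : ℝ) ≤ (C₁ ^ d) ^ 2 := one_le_pow₀ hC1d
  have hC1 : 1 ≤ C := by
    rw [hC]
    have h1 : (1 : ℝ) ≤ (d + 1) ^ 4 * f ^ 2 := one_le_mul_of_one_le_of_one_le hd14 hff
    have h2 : (1 : ℝ) ≤ (d + 1) ^ 4 * f ^ 2 * (C₁ ^ d) ^ 2 :=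
      one_le_mul_of_one_le_of_one_le h1 hcc
    have h3 : (1 : ℝ) ≤ (d + 1) ^ 4 * f ^ 2 * (C₁ ^ d) ^ 2 * C₁ :=
      one_le_mul_of_one_le_of_one_le h2 hC₁
    have h4 : (1 : ℝ) ≤ (d + 1) ^ 4 * f ^ 2 * (C₁ ^ d) ^ 2 * C₁ * C₂ :=
      one_le_mul_of_one_le_of_one_le h3 hC₂
    nlinarith
  refine ⟨C, hC1, ?_⟩
  intro D us v S δ η ε hD hS hSD hδ hdet hε1 hus hη hv hsmall
  have hS0 : 0 < S := by linarith
  have hq0 : 0 ≤ C * S ^ (2 * d + 1) / δ ^ 2 * η := by positivity
  have hε0 : 0 ≤ ε := hq0.trans hsmall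
  have husc : us ∈ ucube d := fun i => by
    have := hus i
    constructor <;> linarith [this.1, this.2]
  -- the matrix
  obtain ⟨A, hA⟩ : ∃ A : Matrix (Fin d) (Fin d) ℝ,
    A = Matrix.of fun i l => eval us (pderiv l (D i)) := ⟨_, rfl⟩
  have hAe : ∀ i l, A i l = eval us (pderiv l (D i)) := fun i l => by
    rw [hA]
    rfl
  rw [← hA] at hdet
  have hAb : ∀ i l, |A i l| ≤ C₁ * S := fun i l => by
    rw [hAe]
    exact hmd (D i) S (hD i) (fun u hu => hSD u hu i) us husc l
  have hCS : 1 ≤ C₁ * S := one_le_mul_of_one_le_of_one_le hC₁ hS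
  have hdetb : ∀ B : Matrix (Fin d) (Fin d) ℝ, (∀ i l, |B i l| ≤ C₁ * S) →
      |B.det| ≤ f * (C₁ * S) ^ d := by
    intro B hB
    have h1 := Matrix.det_le (A := B) (abv := AbsoluteValue.abs) (x := C₁ * S) hB
    rw [Fintype.card_fin, nsmul_eq_mul, ← hf] at h1
    exact h1
  have hdetA := hdetb A hAb
  have hdne : A.det ≠ 0 := by
    intro h
    rw [h, abs_zero] at hdet
    linarith
  have hunit : IsUnit A.det := isUnit_iff_ne_zero.2 hdne
  obtain ⟨Bm, hBm⟩ : ∃ Bm, Bm = A⁻¹ := ⟨_, rfl⟩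
  obtain ⟨b, hb⟩ : ∃ b : ℝ, b = f * (C₁ * S) ^ d / δ := ⟨_, rfl⟩
  have hb1 : 1 ≤ b := by
    rw [hb, one_le_div hδ]
    exact hdet.trans hdetA
  have hBb : ∀ i j, |Bm i j| ≤ b := by
    intro i j
    rw [hBm, Matrix.inv_def, Ring.inverse_eq_inv']
    rw [Matrix.smul_apply, smul_eq_mul, Matrix.adjugate_apply, abs_mul, abs_inv]
    have h1 := hdetb (A.updateRow j (Pi.single i 1)) (fun k l => by
      rw [Matrix.updateRow_apply]
      split_ifs
      · rw [Pi.single_apply]
        split_ifs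
        · rw [abs_one]
          exact hCS
        · rw [abs_zero]
          linarith
      · exact hAb k l)
    rw [hb, div_eq_inv_mul]
    refine mul_le_mul ?_ h1 (abs_nonneg _) (by positivity)
    exact inv_anti₀ hδ hdet
  have hBA : ∀ i l, ∑ j, Bm i j * A j l = if i = l then 1 else 0 := by
    intro i l
    have h1 : Bm * A = 1 := by
      rw [hBm]
      exact Matrix.nonsing_inv_mul A hunit
    have h2 := congrFun (congrFun h1 i) l
    rw [Matrix.mul_apply, Matrix.one_apply] at h2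
    exact h2
  have hAB : ∀ i l, ∑ j, A i j * Bm j l = if i = l then 1 else 0 := by
    intro i l
    have h1 : A * Bm = 1 := by
      rw [hBm]
      exact Matrix.mul_nonsing_inv A hunit
    have h2 := congrFun (congrFun h1 i) l
    rw [Matrix.mul_apply, Matrix.one_apply] at h2
    exact h2
  rcases hη.eq_or_lt with h0 | hη0
  · refine ⟨us, husc, fun i => ?_, fun i => ?_⟩
    · have h1 := hv i
      rw [← h0] at h1
      exact sub_eq_zero.1 (abs_eq_zero.1 (le_antisymm h1 (abs_nonneg _)))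
    · rw [sub_self, abs_zero]
      positivity
  -- the radius
  obtain ⟨ρ, hρ⟩ : ∃ ρ : ℝ, ρ = 2 * (d + 1) * b * η := ⟨_, rfl⟩
  have hρ0 : 0 < ρ := by
    rw [hρ]
    positivity
  have hbS : b ^ 2 * δ ^ 2 = f ^ 2 * (C₁ ^ d) ^ 2 * S ^ (2 * d) := by
    rw [hb, div_pow, div_mul_cancel₀ _ (by positivity), mul_pow, ← pow_mul, mul_pow, ← pow_mul,
      mul_comm d 2, mul_assoc]
  have hbq : b ^ 2 * η * S * (4 * (d + 1) ^ 4 * C₁ * C₂) = C * S ^ (2 * d + 1) / δ ^ 2 * η := by
    have h1 : b ^ 2 = f ^ 2 * (C₁ ^ d) ^ 2 * S ^ (2 * d) / δ ^ 2 := by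
      rw [← hbS]
      field_simp
    rw [h1, hC]
    field_simp
    ring
  have hb2 : b ≤ b ^ 2 := by nlinarith
  have hCC : 1 ≤ C₁ * C₂ := one_le_mul_of_one_le_of_one_le hC₁ hC₂
  have hρq : ρ ≤ C * S ^ (2 * d + 1) / δ ^ 2 * η := by
    rw [← hbq, hρ]
    have h1 : b * η ≤ b ^ 2 * η * S := by
      have h2 : b * η ≤ b ^ 2 * η := mul_le_mul_of_nonneg_right hb2 hη
      have h3 : 0 ≤ b ^ 2 * η := by positivity
      nlinarith
    have h2 : 2 * ((d : ℝ) + 1) ≤ 4 * (d + 1) ^ 4 * C₁ * C₂ := by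
      have h3 : ((d : ℝ) + 1) ≤ (d + 1) ^ 4 := by
        calc ((d : ℝ) + 1) = (d + 1) ^ 1 := (pow_one _).symm
          _ ≤ (d + 1) ^ 4 := pow_le_pow_right₀ hd1 (by norm_num)
      have h4 : ((d : ℝ) + 1) ^ 4 ≤ (d + 1) ^ 4 * (C₁ * C₂) := by nlinarith
      nlinarith
    calc 2 * ((d : ℝ) + 1) * b * η = (b * η) * (2 * (d + 1)) := by ring
      _ ≤ (b ^ 2 * η * S) * (4 * (d + 1) ^ 4 * C₁ * C₂) :=
        mul_le_mul h1 h2 (by positivity) (by positivity)
      _ = _ := rfl
  have hρl : ρ ≤ C * S ^ d / δ * η := by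
    have h1 : 2 * ((d : ℝ) + 1) * f * C₁ ^ d ≤ C := by
      rw [hC]
      have h2 : ((d : ℝ) + 1) ≤ (d + 1) ^ 4 := by
        calc ((d : ℝ) + 1) = (d + 1) ^ 1 := (pow_one _).symm
          _ ≤ (d + 1) ^ 4 := pow_le_pow_right₀ hd1 (by norm_num)
      have h3 : f ≤ f ^ 2 := by nlinarith
      have h4 : C₁ ^ d ≤ (C₁ ^ d) ^ 2 := by nlinarith
      calc 2 * ((d : ℝ) + 1) * f * C₁ ^ d ≤ 4 * (d + 1) ^ 4 * f ^ 2 * (C₁ ^ d) ^ 2 :=
            mul_le_mul (mul_le_mul (by linarith) h3 (by linarith) (by positivity)) h4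
              (by positivity) (by positivity)
        _ ≤ 4 * (d + 1) ^ 4 * f ^ 2 * (C₁ ^ d) ^ 2 * (C₁ * C₂) :=
            le_mul_of_one_le_right (by positivity) hCC
        _ = _ := by ring
    have h2 : ρ = 2 * (d + 1) * f * C₁ ^ d * (S ^ d / δ * η) := by
      rw [hρ, hb, mul_pow]
      ring
    rw [h2]
    calc 2 * ((d : ℝ) + 1) * f * C₁ ^ d * (S ^ d / δ * η) ≤ C * (S ^ d / δ * η) :=
          mul_le_mul_of_nonneg_right h1 (by positivity)
      _ = _ := by ring
  have hρε : ρ ≤ ε := hρq.trans hsmall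
  have hball : ∀ u : Fin d → ℝ, (∀ i, |u i - us i| ≤ ρ) → u ∈ ucube d := by
    intro u hu i
    have h1 := abs_le.1 (hu i)
    have h2 := hus i
    constructor <;> linarith [h1.1, h1.2, h2.1, h2.2]
  -- the derivatives in the ball
  obtain ⟨κ, hκ⟩ : ∃ κ : ℝ, κ = C₂ * (C₁ * S) * (d * ρ) := ⟨_, rfl⟩
  have hκ0 : 0 ≤ κ := by
    rw [hκ]
    positivity
  have hder : ∀ u : Fin d → ℝ, (∀ i, |u i - us i| ≤ ρ) → ∀ j l,
      |eval u (pderiv l (D j)) - A j l| ≤ κ := by
    intro u hu j l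
    rw [hAe]
    have h1 := hm (pderiv l (D j)) (C₁ * S)
      (SML.totalDegree_pderiv_le _ _ K ((hD j).trans (Nat.le_succ _)))
      (fun w hw => hmd (D j) S (hD j) (fun u hu => hSD u hu j) w hw l) us husc u (hball u hu)
    refine h1.trans ?_
    rw [hκ]
    refine mul_le_mul_of_nonneg_left ?_ (by positivity)
    calc ∑ i, |u i - us i| ≤ ∑ _i : Fin d, ρ := Finset.sum_le_sum fun i _ => hu i
      _ = d * ρ := by rw [Finset.sum_const, Finset.card_univ, Fintype.card_fin, nsmul_eq_mul]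
  -- the linearized error
  have hlin : ∀ u u' : Fin d → ℝ, (∀ i, |u i - us i| ≤ ρ) → (∀ i, |u' i - us i| ≤ ρ) → ∀ j,
      |(eval u' (D j) - eval u (D j)) - ∑ l, A j l * (u' l - u l)| ≤
        κ * ∑ l, |u' l - u l| := by
    intro u u' hu hu' j
    obtain ⟨R, hR⟩ : ∃ R : MvPolynomial (Fin d) ℝ, R = D j - ∑ l, MvPolynomial.C (A j l) * X l :=
      ⟨_, rfl⟩
    have hRe : ∀ w : Fin d → ℝ, eval w R = eval w (D j) - ∑ l, A j l * w l := by
      intro w
      rw [hR, map_sub, map_sum]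
      simp
    have hRd : ∀ w : Fin d → ℝ, ∀ l, eval w (pderiv l R) = eval w (pderiv l (D j)) - A j l := by
      intro w l
      rw [hR, map_sub, map_sub, map_sum, map_sum]
      congr 1
      rw [Finset.sum_eq_single l]
      · simp [pderiv_X]
      · intro i _ hi
        simp [pderiv_X, hi]
      · intro h
        exact absurd (Finset.mem_univ _) h
    have h1 := mean_box R (fun _ => κ) us hρ0 (fun w hw l => by
      rw [hRd]
      exact hder w hw j l) hu hu'
    rw [hRe, hRe, ← Finset.mul_sum] at h1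
    have h2 : eval u' (D j) - ∑ l, A j l * u' l - (eval u (D j) - ∑ l, A j l * u l) =
        (eval u' (D j) - eval u (D j)) - ∑ l, A j l * (u' l - u l) := by
      simp only [mul_sub, Finset.sum_sub_distrib]
      ring
    rw [h2] at h1
    exact h1
  -- the Newton map
  obtain ⟨Φ, hΦ⟩ : ∃ Φ : (Fin d → ℝ) → Fin d → ℝ, Φ = fun u i =>
    u i - ∑ j, Bm i j * (eval u (D j) - v j) := ⟨_, rfl⟩
  have hΦe : ∀ u i, Φ u i = u i - ∑ j, Bm i j * (eval u (D j) - v j) := fun u i => by rw [hΦ]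
  have hΦd : ∀ u u' : Fin d → ℝ, (∀ i, |u i - us i| ≤ ρ) → (∀ i, |u' i - us i| ≤ ρ) → ∀ i,
      |Φ u' i - Φ u i| ≤ d * b * κ * ∑ l, |u' l - u l| := by
    intro u u' hu hu' i
    have e1 : Φ u' i - Φ u i = - ∑ j, Bm i j * ((eval u' (D j) - eval u (D j)) -
        ∑ l, A j l * (u' l - u l)) := by
      have e2 : ∑ j, Bm i j * ∑ l, A j l * (u' l - u l) = u' i - u i := by
        calc ∑ j, Bm i j * ∑ l, A j l * (u' l - u l) =
              ∑ j, ∑ l, Bm i j * A j l * (u' l - u l) := by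
                refine Finset.sum_congr rfl fun j _ => ?_
                rw [Finset.mul_sum]
                exact Finset.sum_congr rfl fun l _ => by ring
          _ = ∑ l, ∑ j, Bm i j * A j l * (u' l - u l) := Finset.sum_comm
          _ = ∑ l, (if i = l then 1 else 0) * (u' l - u l) := by
                refine Finset.sum_congr rfl fun l _ => ?_
                rw [← Finset.sum_mul, hBA]
          _ = u' i - u i := by
                rw [Finset.sum_eq_single i]
                · rw [if_pos rfl, one_mul]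
                · intro l _ hl
                  rw [if_neg hl.symm, zero_mul]
                · intro h
                  exact absurd (Finset.mem_univ _) h
      simp only [mul_sub (Bm i _), Finset.sum_sub_distrib] at e2 ⊢
      rw [hΦe, hΦe]
      simp only [mul_sub (Bm i _), Finset.sum_sub_distrib]
      linarith
    rw [e1, abs_neg]
    refine (Finset.abs_sum_le_sum_abs _ _).trans ?_
    calc ∑ j, |Bm i j * ((eval u' (D j) - eval u (D j)) - ∑ l, A j l * (u' l - u l))| ≤
          ∑ _j : Fin d, b * (κ * ∑ l, |u' l - u l|) := by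
            refine Finset.sum_le_sum fun j _ => ?_
            rw [abs_mul]
            exact mul_le_mul (hBb i j) (hlin u u' hu hu' j) (abs_nonneg _) (by linarith)
      _ = d * b * κ * ∑ l, |u' l - u l| := by
            rw [Finset.sum_const, Finset.card_univ, Fintype.card_fin, nsmul_eq_mul]
            ring
  have hhalf : d * b * κ * d ≤ 1 / 2 := by
    have h1 : d * b * κ * d = d ^ 3 * (2 * (d + 1)) * (C₁ * C₂) * (b ^ 2 * η * S) := by
      rw [hκ, hρ]
      ring
    have h2 : (d : ℝ) ^ 3 * (2 * (d + 1)) ≤ 2 * (d + 1) ^ 4 := by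
      have h3 : (d : ℝ) ^ 3 ≤ (d + 1) ^ 3 := pow_le_pow_left₀ hd0 (by linarith) 3
      calc (d : ℝ) ^ 3 * (2 * (d + 1)) ≤ (d + 1) ^ 3 * (2 * (d + 1)) :=
            mul_le_mul_of_nonneg_right h3 (by positivity)
        _ = _ := by ring
    have h4 : b ^ 2 * η * S * (4 * (d + 1) ^ 4 * C₁ * C₂) ≤ 1 := by
      rw [hbq]
      exact hsmall.trans hε1
    have h5 : d ^ 3 * (2 * (d + 1)) * (C₁ * C₂) * (b ^ 2 * η * S) ≤
        2 * (d + 1) ^ 4 * (C₁ * C₂) * (b ^ 2 * η * S) := by
      refine mul_le_mul_of_nonneg_right (mul_le_mul_of_nonneg_right h2 (by linarith)) ?_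
      positivity
    rw [h1]
    refine h5.trans ?_
    have h6 : 2 * ((d : ℝ) + 1) ^ 4 * (C₁ * C₂) * (b ^ 2 * η * S) =
        1 / 2 * (b ^ 2 * η * S * (4 * (d + 1) ^ 4 * C₁ * C₂)) := by ring
    rw [h6]
    linarith
  have hsumle : ∀ u u' : Fin d → ℝ, ∑ l, |u' l - u l| ≤ d * dist u' u := by
    intro u u'
    calc ∑ l, |u' l - u l| ≤ ∑ _l : Fin d, dist u' u := by
          refine Finset.sum_le_sum fun l _ => ?_
          rw [← Real.dist_eq]
          exact dist_le_pi_dist u' u l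
      _ = d * dist u' u := by
          rw [Finset.sum_const, Finset.card_univ, Fintype.card_fin, nsmul_eq_mul]
  have hlip : ∀ u u' : Fin d → ℝ, (∀ i, |u i - us i| ≤ ρ) → (∀ i, |u' i - us i| ≤ ρ) →
      dist (Φ u') (Φ u) ≤ 1 / 2 * dist u' u := by
    intro u u' hu hu'
    rw [dist_pi_le_iff (by positivity)]
    intro i
    rw [Real.dist_eq]
    refine (hΦd u u' hu hu' i).trans ?_
    calc d * b * κ * ∑ l, |u' l - u l| ≤ d * b * κ * (d * dist u' u) :=
          mul_le_mul_of_nonneg_left (hsumle u u') (by positivity)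
      _ = d * b * κ * d * dist u' u := by ring
      _ ≤ 1 / 2 * dist u' u := mul_le_mul_of_nonneg_right hhalf dist_nonneg
  have hus0 : ∀ i, |us i - us i| ≤ ρ := fun i => by
    rw [sub_self, abs_zero]
    exact hρ0.le
  have hmem : ∀ u : Fin d → ℝ, u ∈ Metric.closedBall us ρ ↔ ∀ i, |u i - us i| ≤ ρ := by
    intro u
    rw [Metric.mem_closedBall, dist_pi_le_iff hρ0.le]
    simp only [Real.dist_eq]
  have hself : Set.MapsTo Φ (Metric.closedBall us ρ) (Metric.closedBall us ρ) := by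
    intro u hu
    have hu' := (hmem u).1 hu
    rw [Metric.mem_closedBall]
    have h1 := hlip us u hus0 hu'
    have h2 : dist (Φ us) us ≤ ρ / 2 := by
      rw [dist_pi_le_iff (by positivity)]
      intro i
      rw [Real.dist_eq, hΦe]
      have e1 : us i - ∑ j, Bm i j * (eval us (D j) - v j) - us i =
          - ∑ j, Bm i j * (eval us (D j) - v j) := by ring
      rw [e1, abs_neg]
      refine (Finset.abs_sum_le_sum_abs _ _).trans ?_
      calc ∑ j, |Bm i j * (eval us (D j) - v j)| ≤ ∑ _j : Fin d, b * η := by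
            refine Finset.sum_le_sum fun j _ => ?_
            rw [abs_mul]
            exact mul_le_mul (hBb i j) (hv j) (abs_nonneg _) (by linarith)
        _ = d * (b * η) := by
            rw [Finset.sum_const, Finset.card_univ, Fintype.card_fin, nsmul_eq_mul]
        _ ≤ (d + 1) * (b * η) := mul_le_mul_of_nonneg_right (by linarith) (by positivity)
        _ = ρ / 2 := by
            rw [hρ]
            ring
    calc dist (Φ u) us ≤ dist (Φ u) (Φ us) + dist (Φ us) us := dist_triangle _ _ _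
      _ ≤ 1 / 2 * dist u us + ρ / 2 := add_le_add h1 h2
      _ ≤ ρ := by
          have h3 := Metric.mem_closedBall.1 hu
          linarith
  have hcw : ContractingWith (1 / 2) (hself.restrict Φ (Metric.closedBall us ρ)
      (Metric.closedBall us ρ)) := by
    refine ⟨by
      rw [← NNReal.coe_lt_coe]
      norm_num, ?_⟩
    refine LipschitzWith.of_dist_le_mul fun x y => ?_
    have h1 := hlip y.1 x.1 ((hmem _).1 y.2) ((hmem _).1 x.2)
    rw [Subtype.dist_eq, Subtype.dist_eq]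
    push_cast
    exact h1
  obtain ⟨u, hu, hfix, -⟩ := ContractingWith.exists_fixedPoint'
    (Metric.isClosed_closedBall.isComplete) hself hcw
    (x := us) (Metric.mem_closedBall_self hρ0.le) (edist_ne_top _ _)
  have hu' := (hmem u).1 hu
  refine ⟨u, hball u hu', fun i => ?_, fun i => (hu' i).trans hρl⟩
  have h1 : ∀ i, ∑ j, Bm i j * (eval u (D j) - v j) = 0 := by
    intro i
    have h2 := congrFun hfix i
    rw [hΦe] at h2
    linarith
  have h2 : ∑ k, A i k * ∑ j, Bm k j * (eval u (D j) - v j) = eval u (D i) - v i := by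
    calc ∑ k, A i k * ∑ j, Bm k j * (eval u (D j) - v j) =
          ∑ k, ∑ j, A i k * Bm k j * (eval u (D j) - v j) := by
            refine Finset.sum_congr rfl fun k _ => ?_
            rw [Finset.mul_sum]
            exact Finset.sum_congr rfl fun j _ => by ring
      _ = ∑ j, ∑ k, A i k * Bm k j * (eval u (D j) - v j) := Finset.sum_comm
      _ = ∑ j, (if i = j then 1 else 0) * (eval u (D j) - v j) := by
            refine Finset.sum_congr rfl fun j _ => ?_
            rw [← Finset.sum_mul, hAB]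
      _ = eval u (D i) - v i := by
            rw [Finset.sum_eq_single i]
            · rw [if_pos rfl, one_mul]
            · intro l _ hl
              rw [if_neg hl.symm, zero_mul]
            · intro h
              exact absurd (Finset.mem_univ _) h
  have h3 : ∑ k, A i k * ∑ j, Bm k j * (eval u (D j) - v j) = 0 :=
    Finset.sum_eq_zero fun k _ => by rw [h1 k, mul_zero]
  linarith

/-- **The inverse function theorem along a segment**: if the Jacobian is at least `δ` on the whole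
cube, the loss is the first power of `δ`. -/
theorem pol_lift (d K : ℕ) : ∃ C : ℝ, 1 ≤ C ∧
    ∀ (D : Fin d → MvPolynomial (Fin d) ℝ) (us v : Fin d → ℝ) (S δ η ε : ℝ),
      (∀ i, (D i).totalDegree ≤ K) → 1 ≤ S → (∀ u ∈ ucube d, ∀ i, |eval u (D i)| ≤ S) → 0 < δ →
      (∀ u ∈ ucube d, δ ≤ |Matrix.det (Matrix.of fun i l => eval u (pderiv l (D i)))|) → ε ≤ 1 →
      (∀ i, ε ≤ us i ∧ us i ≤ 1 - ε) → 0 ≤ η → (∀ i, |eval us (D i) - v i| ≤ η) →
      C * S ^ d / δ * η ≤ ε / 2 →
      ∃ u ∈ ucube d, (∀ i, eval u (D i) = v i) ∧ ∀ i, |u i - us i| ≤ C * S ^ d / δ * η := by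
  classical
  obtain ⟨C, hC, hift⟩ := pol_ift d K
  refine ⟨C, hC, ?_⟩
  intro D us v S δ η ε hD hS hSD hδ hdet hε1 hus hη hv hsmall
  have hS0 : 0 < S := by linarith
  have hC0 : 0 < C := by linarith
  have hε0 : 0 ≤ ε := by
    have : 0 ≤ C * S ^ d / δ * η := by positivity
    linarith
  have husc : us ∈ ucube d := fun i => by
    have := hus i
    constructor <;> linarith [this.1, this.2]
  rcases hη.eq_or_lt with h0 | hη0
  · refine ⟨us, husc, fun i => ?_, fun i => ?_⟩
    · have h1 := hv i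
      rw [← h0] at h1
      exact sub_eq_zero.1 (abs_eq_zero.1 (le_antisymm h1 (abs_nonneg _)))
    · rw [sub_self, abs_zero]
      positivity
  have hεp : 0 < ε := by
    have : 0 < C * S ^ d / δ * η := by positivity
    linarith
  -- the number of the steps
  obtain ⟨n, hn⟩ := exists_nat_gt (C * S ^ (2 * d + 1) / δ ^ 2 * η / (ε / 2))
  have hn0 : (0 : ℝ) < n := lt_of_le_of_lt (by positivity) hn
  have hn1 : C * S ^ (2 * d + 1) / δ ^ 2 * (η / n) ≤ ε / 2 := by
    rw [div_lt_iff₀ (by positivity)] at hn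
    rw [← mul_div_assoc, div_le_iff₀ hn0]
    linarith
  have key : ∀ j : ℕ, j ≤ n → ∃ u ∈ ucube d,
      (∀ i, eval u (D i) = eval us (D i) + j / n * (v i - eval us (D i))) ∧
      ∀ i, |u i - us i| ≤ j * (C * S ^ d / δ * (η / n)) := by
    intro j
    induction j with
    | zero =>
      intro _
      refine ⟨us, husc, fun i => ?_, fun i => ?_⟩
      · push_cast
        ring
      · rw [sub_self, abs_zero]
        push_cast
        linarith
    | succ j ih =>
      intro hj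
      obtain ⟨u, hu, h1, h2⟩ := ih (by omega)
      have hjn : (j : ℝ) ≤ n := by exact_mod_cast (by omega : j ≤ n)
      have h3 : ∀ i, |u i - us i| ≤ ε / 2 := by
        intro i
        refine (h2 i).trans (le_trans ?_ hsmall)
        have h4 : (j : ℝ) * (C * S ^ d / δ * (η / n)) = j / n * (C * S ^ d / δ * η) := by
          field_simp
        rw [h4]
        have h5 : (j : ℝ) / n ≤ 1 := by
          rw [div_le_one hn0]
          exact hjn
        have h6 : 0 ≤ C * S ^ d / δ * η := by positivity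
        nlinarith
      obtain ⟨u', hu', h4, h5⟩ := hift D u
        (fun i => eval us (D i) + ((j + 1 : ℕ) : ℝ) / n * (v i - eval us (D i))) S δ (η / n) (ε / 2)
        hD hS hSD hδ (hdet u hu) (by linarith) (fun i => by
          have h6 := abs_le.1 (h3 i)
          have h7 := hus i
          constructor <;> linarith [h6.1, h6.2, h7.1, h7.2]) (by positivity) (fun i => by
          rw [h1 i]
          have e1 : eval us (D i) + j / n * (v i - eval us (D i)) -
              (eval us (D i) + ((j + 1 : ℕ) : ℝ) / n * (v i - eval us (D i))) =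
              (eval us (D i) - v i) / n := by
            push_cast
            field_simp
            ring
          rw [e1, abs_div, abs_of_pos hn0]
          exact div_le_div_of_nonneg_right (hv i) hn0.le) hn1
      refine ⟨u', hu', h4, fun i => ?_⟩
      have h6 := abs_sub_le (u' i) (u i) (us i)
      have e1 : ((j + 1 : ℕ) : ℝ) * (C * S ^ d / δ * (η / n)) =
          C * S ^ d / δ * (η / n) + j * (C * S ^ d / δ * (η / n)) := by
        push_cast
        ring
      rw [e1]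
      exact h6.trans (add_le_add (h5 i) (h2 i))
  obtain ⟨u, hu, h1, h2⟩ := key n le_rfl
  refine ⟨u, hu, fun i => ?_, fun i => ?_⟩
  · rw [h1 i, div_self hn0.ne']
    ring
  · refine (h2 i).trans (le_of_eq ?_)
    field_simp

end Pool.GEO
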