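import Pool.Agent.H37.M3F.Lab
import Pool.Agent.H86.IE.Ev

/-!
# Natural cells of one system inside the box of another one

`inc_cell`: a point of the box of the system `gB`, not near its boundary; a small natural cell of
the system `g0` which contains the point is contained in the box, if the differences `g0 i - gB i`
are bounded on the box.
-/

set_option autoImplicit false

namespace Pool.GEO

open Finset Real MvPolynomial
open Pool.KAL Pool.KS3 Pool.M3F

/-- Polynomials of bounded degree are Lipschitz on the unit cube. -/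
theorem mark (d E : ℕ) : ∃ C : ℝ, 1 ≤ C ∧ ∀ (R : MvPolynomial (Fin d) ℝ) (A : ℝ),
    R.totalDegree ≤ E → (∀ u ∈ ucube d, |eval u R| ≤ A) → ∀ u ∈ ucube d, ∀ u' ∈ ucube d,
      |eval u' R - eval u R| ≤ C * A * ∑ i, |u' i - u i| := by
  obtain ⟨K₁, hK₁, hcen⟩ := SML.psi_center_le d E
  refine ⟨2 * (E + 1) * K₁, by
    have : (0 : ℝ) ≤ E := Nat.cast_nonneg E
    nlinarith, ?_⟩
  intro R A hR hA u hu u' hu'
  have hE : (0 : ℝ) ≤ E := Nat.cast_nonneg E
  have hA0 : 0 ≤ A := (abs_nonneg _).trans (hA u hu)
  have hcs : cs (fun _ => 0) 1 R ≤ A := SML.cs_le _ hA0 fun y hy => hA y fun i => by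
    have := hy i
    constructor <;> linarith [this.1, this.2]
  have hder : ∀ v ∈ ucube d, ∀ i, |eval v (pderiv i R)| ≤ 2 * (E + 1) * K₁ * A := by
    intro v hv i
    have h1 := abs_eval_le_Psi_of_near (pderiv i R) (1 / 2) (by norm_num)
      (fun _ : Fin d => (0 : ℝ) + 1 / 2) v (fun j => by
        have := hv j
        rw [abs_le]
        constructor <;> linarith [this.1, this.2])
    have h2 := Psi_pderiv_le R (1 / 2) (by norm_num) (fun _ : Fin d => (0 : ℝ) + 1 / 2) i
    have h3 := hcen R (fun _ => 0) 1 zero_le_one hR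
    have h4 : (R.totalDegree : ℝ) ≤ E := by exact_mod_cast hR
    have h5 : 0 ≤ Psi R (1 / 2) (fun _ : Fin d => (0 : ℝ) + 1 / 2) := Psi_nonneg _ _ _
    have h6 : Psi R (1 / 2) (fun _ : Fin d => (0 : ℝ) + 1 / 2) ≤ K₁ * A :=
      h3.trans (mul_le_mul_of_nonneg_left hcs (by linarith))
    have h7 : (R.totalDegree : ℝ) * Psi R (1 / 2) (fun _ : Fin d => (0 : ℝ) + 1 / 2) ≤
        E * (K₁ * A) := mul_le_mul h4 h6 h5 hE
    have h8 : 0 ≤ K₁ * A := by positivity
    calc |eval v (pderiv i R)| ≤ Psi (pderiv i R) (1 / 2) (fun _ : Fin d => (0 : ℝ) + 1 / 2) := h1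
      _ ≤ 2 * (E * (K₁ * A)) := by linarith
      _ ≤ _ := by nlinarith
  refine (mean_dir R (fun _ => 2 * (E + 1) * K₁ * A) hder hu hu').trans (le_of_eq ?_)
  rw [← Finset.mul_sum]

/-- **Small natural cells of one system are in the box of another one.** -/
theorem inc_cell (d K₀ : ℕ) : ∃ C : ℝ, 1 ≤ C ∧
    ∀ (M : ℕ) (g0 gB : Fin d → MvPolynomial (Fin d) ℝ) (cB wB : Fin d → ℝ) (N0 N2 : Fin d → ℕ)
      (b : Fin d → ℤ) (us : Fin d → ℝ) (S η ε : ℝ),
      1 ≤ M → TriP g0 → TriP gB → (∀ i, (g0 i).totalDegree ≤ K₀) →
      (∀ i, (gB i).totalDegree ≤ K₀) → (∀ i, 0 < wB i) → 1 ≤ S → 0 ≤ η → 0 < ε →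
      (∀ i, ε ≤ us i ∧ us i ≤ 1 - ε) → cpt (chi gB cB wB) us ∈ ncell M N2 g0 b →
      (∀ u ∈ ucube d, ∀ i, |eval (cpt (chi gB cB wB) u) (g0 i - gB i)| ≤ S * N0 i / M) →
      (∀ i, (N2 i : ℝ) ≤ η * N0 i) →
      C * S ^ d * (∏ i, max 1 ((N0 i : ℝ) / (M * wB i))) * η ≤ ε →
      ∀ y ∈ ncell M N2 g0 b, ∃ u ∈ ucube d, cpt (chi gB cB wB) u = y ∧
        ∀ i, |u i - us i| ≤ C * S ^ d * (∏ i, max 1 ((N0 i : ℝ) / (M * wB i))) * η := by
  classical
  obtain ⟨C₁, hC₁, hm⟩ := mark d ((K₀ + 1) ^ d * K₀)
  have hd0 : (0 : ℝ) ≤ d := Nat.cast_nonneg d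
  refine ⟨(1 + d * C₁) ^ d, one_le_pow₀ (by nlinarith), ?_⟩
  intro M g0 gB cB wB N0 N2 b us S η ε hM ht0 htB hd₀ hdB hwB hS hη hε hus hcell hRB hN2 hsmall y hy
  have hM0 : (0 : ℝ) < M := by exact_mod_cast hM
  obtain ⟨ρ, hρ⟩ : ∃ ρ : Fin d → ℝ, ρ = fun i => max 1 ((N0 i : ℝ) / (M * wB i)) := ⟨_, rfl⟩
  have hρ1 : ∀ i, 1 ≤ ρ i := fun i => by
    rw [hρ]
    exact le_max_left _ _
  have hρN : ∀ i, (N0 i : ℝ) / (M * wB i) ≤ ρ i := fun i => by
    rw [hρ]
    exact le_max_right _ _
  obtain ⟨Pr, hPr⟩ : ∃ Pr : ℕ → ℝ, Pr = fun n => ∏ l ∈ univ.filter (fun l : Fin d => l.val < n),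
    ρ l := ⟨_, rfl⟩
  have hPr1 : ∀ n, 1 ≤ Pr n := fun n => by
    rw [hPr]
    exact Finset.prod_induction _ (fun x : ℝ => 1 ≤ x) (fun a b ha hb => by nlinarith) le_rfl
      (fun i _ => hρ1 i)
  have hPrs : ∀ i : Fin d, Pr (i.val + 1) = ρ i * Pr i.val := fun i => by
    have e1 : univ.filter (fun l : Fin d => l.val < i.val + 1) =
        insert i (univ.filter (fun l : Fin d => l.val < i.val)) := by
      ext l
      simp only [mem_filter, mem_univ, true_and, mem_insert, Fin.ext_iff]
      omega
    have e2 : i ∉ univ.filter (fun l : Fin d => l.val < i.val) := by simp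
    simp only [hPr]
    rw [e1, Finset.prod_insert e2]
  have hPrm : ∀ n n', n ≤ n' → Pr n ≤ Pr n' := by
    intro n n' hn
    induction n', hn using Nat.le_induction with
    | base => exact le_rfl
    | succ n' _ ih =>
      refine ih.trans ?_
      by_cases hn' : n' < d
      · have h1 := hPrs ⟨n', hn'⟩
        have h2 := hρ1 ⟨n', hn'⟩
        have h3 := hPr1 n'
        simp only at h1
        rw [h1]
        nlinarith
      · refine le_of_eq ?_
        simp only [hPr]
        refine Finset.prod_congr ?_ fun _ _ => rfl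
        ext l
        simp only [mem_filter, mem_univ, true_and]
        have := l.2
        omega
  have hPrd : Pr d = ∏ i, ρ i := by
    simp only [hPr]
    refine Finset.prod_congr ?_ fun _ _ => rfl
    ext l
    simp
  obtain ⟨A, hA⟩ : ∃ A : ℝ, A = 1 + d * C₁ * S := ⟨_, rfl⟩
  have hA1 : 1 ≤ A := by
    rw [hA]
    have : 0 ≤ d * C₁ * S := by positivity
    linarith
  -- the total bound
  have htot : ∀ n ≤ d, η * A ^ n * Pr n ≤
      (1 + d * C₁) ^ d * S ^ d * (∏ i, max 1 ((N0 i : ℝ) / (M * wB i))) * η := by
    intro n hn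
    have h1 : A ≤ (1 + d * C₁) * S := by
      rw [hA]
      nlinarith
    have h2 : A ^ n ≤ ((1 + d * C₁) * S) ^ d :=
      (pow_le_pow_right₀ hA1 hn).trans (pow_le_pow_left₀ (by linarith) h1 d)
    have h3 : Pr n ≤ ∏ i, max 1 ((N0 i : ℝ) / (M * wB i)) := by
      have := hPrm n d hn
      rw [hPrd, hρ] at this
      exact this
    have h4 : 0 ≤ Pr n := by linarith [hPr1 n]
    calc η * A ^ n * Pr n ≤ η * ((1 + d * C₁) * S) ^ d *
          (∏ i, max 1 ((N0 i : ℝ) / (M * wB i))) :=
          mul_le_mul (mul_le_mul_of_nonneg_left h2 hη) h3 h4 (by positivity)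
      _ = _ := by
        rw [mul_pow]
        ring
  obtain ⟨u, hu⟩ : ∃ u : Fin d → ℝ, u = fun i => (y i - eval y (gB i) - cB i) / wB i := ⟨_, rfl⟩
  have huy : cpt (chi gB cB wB) u = y := by
    rw [hu]
    exact chi_onto gB htB cB wB hwB y
  obtain ⟨ys, hys⟩ : ∃ ys, ys = cpt (chi gB cB wB) us := ⟨_, rfl⟩
  rw [← hys] at hcell
  have key : ∀ m : ℕ, ∀ i : Fin d, i.val = m → |u i - us i| ≤ η * A ^ m * Pr (m + 1) := by
    intro m
    induction m using Nat.strong_induction_on with
    | _ m ih =>
      intro i him
      have hR0 := hRB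
      -- the modified point
      obtain ⟨ut, hut⟩ : ∃ ut : Fin d → ℝ, ut = fun l => if l < i then u l else us l := ⟨_, rfl⟩
      have hlt : ∀ l : Fin d, l < i → |u l - us l| ≤ η * A ^ l.val * Pr (l.val + 1) := fun l hl =>
        ih l.val (by rw [← him]; exact hl) l rfl
      have hlt' : ∀ l : Fin d, l < i → |u l - us l| ≤ ε := fun l hl => by
        have h1 := htot (l.val + 1) l.2
        have h2 : η * A ^ l.val * Pr (l.val + 1) ≤ η * A ^ (l.val + 1) * Pr (l.val + 1) := by
          refine mul_le_mul_of_nonneg_right (mul_le_mul_of_nonneg_left ?_ hη) (by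
            linarith [hPr1 (l.val + 1)])
          exact pow_le_pow_right₀ hA1 (Nat.le_succ _)
        exact (hlt l hl).trans (h2.trans (h1.trans hsmall))
      have husm : us ∈ ucube d := fun l => by
        have := hus l
        constructor <;> linarith [this.1, this.2]
      have hutm : ut ∈ ucube d := by
        intro l
        rw [hut]
        by_cases hl : l < i
        · simp only [if_pos hl]
          have h1 := abs_le.1 (hlt' l hl)
          have h2 := hus l
          constructor <;> linarith [h1.1, h1.2, h2.1, h2.2]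
        · simp only [if_neg hl]
          exact husm l
      -- the difference polynomial
      obtain ⟨R, hR⟩ : ∃ R, R = bind₁ (chi gB cB wB) (g0 i - gB i) := ⟨_, rfl⟩
      have hRe : ∀ v, eval v R = eval (cpt (chi gB cB wB) v) (g0 i - gB i) := fun v => by
        rw [hR, eval_bind]
      have hRd : R.totalDegree ≤ (K₀ + 1) ^ d * K₀ := by
        rw [hR]
        refine (SML.totalDegree_bind_le _ ((K₀ + 1) ^ d) (fun l => deg_chiN gB cB wB K₀ hdB d l)
          _).trans (Nat.mul_le_mul_left _ ?_)
        exact (totalDegree_sub _ _).trans (max_le (hd₀ i) (hdB i))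
      have h1 := hm R (S * N0 i / M) hRd (fun v hv => by
        rw [hRe]
        exact hRB v hv i) us husm ut hutm
      -- the value at the modified point
      have h2 : eval ut R = eval u R := by
        rw [hRe, hRe]
        refine eval_eq_of_pderiv (i := i) (fun l hl => ?_) ?_
        · rw [map_sub, ht0 i l hl, htB i l hl, sub_zero]
        · have h3 : ∀ n : ℕ, ∀ l : Fin d, l.val = n → l < i →
              cpt (chi gB cB wB) ut l = cpt (chi gB cB wB) u l := by
            intro n
            induction n using Nat.strong_induction_on with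
            | _ n ihn =>
              intro l hln hl
              rw [eval_chi gB htB, eval_chi gB htB]
              have h4 : ut l = u l := by
                rw [hut]
                exact if_pos hl
              rw [h4]
              have h5 : eval (cpt (chi gB cB wB) ut) (gB l) =
                  eval (cpt (chi gB cB wB) u) (gB l) :=
                eval_eq_of_pderiv (fun l' hl' => htB l l' hl') (fun l' hl' =>
                  ihn l'.val (by rw [← hln]; exact hl') l' rfl (hl'.trans hl))
              rw [h5]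
          exact fun l hl => h3 l.val l rfl hl
      rw [h2] at h1
      -- the sum
      have h3 : ∑ l, |ut l - us l| ≤ (if m = 0 then 0 else d * (η * A ^ (m - 1) * Pr m)) := by
        by_cases hm0 : m = 0
        · rw [if_pos hm0]
          refine le_of_eq (Finset.sum_eq_zero fun l _ => ?_)
          have h4 : ¬ l < i := by
            intro hl
            have : l.val < i.val := hl
            omega
          rw [hut]
          simp only [if_neg h4, sub_self, abs_zero]
        · rw [if_neg hm0]
          have h5 : ∀ l ∈ (univ : Finset (Fin d)), |ut l - us l| ≤ η * A ^ (m - 1) * Pr m := by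
            intro l _
            by_cases hl : l < i
            · have h6 : ut l = u l := by
                rw [hut]
                exact if_pos hl
              rw [h6]
              have h7 : l.val < m := by
                rw [← him]
                exact hl
              refine (hlt l hl).trans (mul_le_mul (mul_le_mul_of_nonneg_left
                (pow_le_pow_right₀ hA1 (by omega)) hη) (hPrm _ _ (by omega)) ?_ (by positivity))
              linarith [hPr1 (l.val + 1)]
            · have h6 : ut l = us l := by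
                rw [hut]
                exact if_neg hl
              rw [h6, sub_self, abs_zero]
              have := hPr1 m
              positivity
          refine (Finset.sum_le_sum h5).trans (le_of_eq ?_)
          rw [Finset.sum_const, card_univ, Fintype.card_fin, nsmul_eq_mul]
      -- the natural coordinates
      have h4 : u i - us i = ((y i - eval y (g0 i)) - (ys i - eval ys (g0 i)) +
          (eval u R - eval us R)) / wB i := by
        have e1 : y i = eval y (gB i) + cB i + wB i * u i := by
          have := eval_chi gB htB cB wB u i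
          rwa [huy] at this
        have e2 : ys i = eval ys (gB i) + cB i + wB i * us i := by
          have := eval_chi gB htB cB wB us i
          rwa [← hys] at this
        have e3 : eval u R = eval y (g0 i) - eval y (gB i) := by
          rw [hRe, huy, map_sub]
        have e4 : eval us R = eval ys (g0 i) - eval ys (gB i) := by
          rw [hRe, ← hys, map_sub]
        rw [e3, e4, eq_div_iff (hwB i).ne']
        linear_combination e2 - e1
      have h5 : |(y i - eval y (g0 i)) - (ys i - eval ys (g0 i))| ≤ η * N0 i / M := by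
        have h6 := hy i
        have h7 := hcell i
        have h8 : (N2 i : ℝ) / M ≤ η * N0 i / M := div_le_div_of_nonneg_right (hN2 i) hM0.le
        rw [abs_le]
        constructor <;> linarith [h6.1, h6.2, h7.1, h7.2]
      rw [h4, abs_div, abs_of_pos (hwB i), div_le_iff₀ (hwB i)]
      have hN0 : (0 : ℝ) ≤ N0 i := Nat.cast_nonneg _
      have h6 : |(y i - eval y (g0 i)) - (ys i - eval ys (g0 i)) + (eval u R - eval us R)| ≤
          (N0 i : ℝ) / M * (η + C₁ * S * (if m = 0 then 0 else d * (η * A ^ (m - 1) * Pr m))) := by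
        refine (abs_add_le _ _).trans ((add_le_add h5 (h1.trans
          (mul_le_mul_of_nonneg_left h3 (by positivity)))).trans (le_of_eq ?_))
        ring
      refine h6.trans ?_
      have h7 : η + C₁ * S * (if m = 0 then 0 else d * (η * A ^ (m - 1) * Pr m)) ≤
          η * A ^ m * Pr m := by
        by_cases hm0 : m = 0
        · subst hm0
          rw [if_pos rfl, mul_zero, add_zero, pow_zero, mul_one]
          have := hPr1 0
          nlinarith
        · rw [if_neg hm0]
          have e1 : A ^ m = A ^ (m - 1) * A := by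
            rw [← pow_succ]
            congr 1
            omega
          have h8 : 1 ≤ A ^ (m - 1) := one_le_pow₀ hA1
          have h9 := hPr1 m
          have h10 : η ≤ η * (A ^ (m - 1) * Pr m) := by
            have : 1 ≤ A ^ (m - 1) * Pr m := one_le_mul_of_one_le_of_one_le h8 h9
            nlinarith
          rw [e1]
          calc η + C₁ * S * (d * (η * A ^ (m - 1) * Pr m)) ≤
                η * (A ^ (m - 1) * Pr m) + C₁ * S * (d * (η * A ^ (m - 1) * Pr m)) := by linarith
            _ = η * (A ^ (m - 1) * (1 + d * C₁ * S)) * Pr m := by ring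
            _ = _ := by rw [← hA]
      have h8 : (N0 i : ℝ) / M ≤ ρ i * wB i := by
        have h9 := hρN i
        rw [div_le_iff₀ (by have := hwB i; positivity)] at h9
        rw [div_le_iff₀ hM0]
        linarith
      have h9 : 0 ≤ η * A ^ m * Pr m := by
        have := hPr1 m
        positivity
      calc (N0 i : ℝ) / M * (η + C₁ * S * (if m = 0 then 0 else d * (η * A ^ (m - 1) * Pr m))) ≤
            (N0 i : ℝ) / M * (η * A ^ m * Pr m) := mul_le_mul_of_nonneg_left h7 (by positivity)
        _ ≤ ρ i * wB i * (η * A ^ m * Pr m) := mul_le_mul_of_nonneg_right h8 h9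
        _ = η * A ^ m * Pr (m + 1) * wB i := by
          rw [← him, hPrs i]
          ring
  have hfin : ∀ i, |u i - us i| ≤
      (1 + d * C₁) ^ d * S ^ d * (∏ i, max 1 ((N0 i : ℝ) / (M * wB i))) * η := by
    intro i
    have h1 := htot (i.val + 1) i.2
    have h2 : η * A ^ i.val * Pr (i.val + 1) ≤ η * A ^ (i.val + 1) * Pr (i.val + 1) := by
      refine mul_le_mul_of_nonneg_right (mul_le_mul_of_nonneg_left ?_ hη) (by
        linarith [hPr1 (i.val + 1)])
      exact pow_le_pow_right₀ hA1 (Nat.le_succ _)
    exact (key i.val i rfl).trans (h2.trans h1)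
  refine ⟨u, fun i => ?_, huy, hfin⟩
  have h1 := abs_le.1 ((hfin i).trans hsmall)
  have h2 := hus i
  constructor <;> linarith [h1.1, h1.2, h2.1, h2.2]

end Pool.GEO
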