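import Pool.Agent.H5.GEO.Ift
import Pool.Agent.H37.CLO.Clf

/-!
# Natural cells of one system inside the box of another one, two orders of the coordinates

`inc_cell2`: as `inc_cell` (Inc.lean), when the system of the cells and the system of the box use
different orders of the coordinates. The Jacobian of the natural coordinates of the cell on the box
is constant.
-/

set_option autoImplicit false

namespace Pool.GEO

open Finset Real MvPolynomial
open Pool.KAL Pool.KS3 Pool.M3F

/-- The Jacobian of the chart. -/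
theorem det_chi {d : ℕ} (g : Fin d → MvPolynomial (Fin d) ℝ) (hg : TriP g) (c w : Fin d → ℝ)
    (u : Fin d → ℝ) :
    Matrix.det (Matrix.of fun i l => eval u (pderiv l (chi g c w i))) = ∏ i, w i := by
  classical
  have hz : ∀ i l : Fin d, i < l → pderiv l (chi g c w i) = 0 := fun i l h =>
    pderiv_chiN_zero g hg c w d i l h
  have hpol : ∀ i, chi g c w i = bind₁ (chi g c w) (g i) + C (c i) + C (w i) * X i := by
    intro i
    refine MvPolynomial.funext fun x => ?_
    have h1 := eval_chi g hg c w x i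
    have h2 : eval x (bind₁ (chi g c w) (g i)) = eval (cpt (chi g c w) x) (g i) :=
      Pool.M3F.eval_bind _ _ _
    have h3 : cpt (chi g c w) x i = eval x (chi g c w i) := rfl
    rw [← h3, h1, map_add, map_add, h2, map_mul, eval_C, eval_C, eval_X]
  rw [Matrix.det_of_isLowerTriangular]
  · refine Finset.prod_congr rfl fun i _ => ?_
    rw [Matrix.of_apply, hpol i, map_add (pderiv i), map_add (pderiv i), pderiv_bind, pderiv_C,
      add_zero]
    have h1 : ∑ o, bind₁ (chi g c w) (pderiv o (g i)) * pderiv i (chi g c w o) = 0 := by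
      refine Finset.sum_eq_zero fun o _ => ?_
      rcases lt_or_ge o i with h | h
      · rw [hz o i h, mul_zero]
      · rw [hg i o h, map_zero, zero_mul]
    rw [h1, zero_add]
    simp
  · intro i l hil
    have h1 : i < l := hil
    rw [Matrix.of_apply, hz i l h1, map_zero]

/-- The Jacobian of the natural coordinates of one system in the chart of another one, with another
order of the coordinates. -/
theorem det_nat {d : ℕ} (e : Equiv.Perm (Fin d)) (g0 gB : Fin d → MvPolynomial (Fin d) ℝ)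
    (h0 : TriP g0) (hB : TriP gB) (cB wB a v u : Fin d → ℝ) :
    |Matrix.det (Matrix.of fun i l => eval u (pderiv l (C (v i) *
      (chi gB cB wB (e i) - bind₁ (fun j => chi gB cB wB (e j)) (g0 i) - C (a i)))))| =
      |(∏ i, v i) * ∏ i, wB i| := by
  classical
  obtain ⟨B, hBd⟩ : ∃ B : Matrix (Fin d) (Fin d) ℝ, B = Matrix.of fun i l =>
    eval u (pderiv l (chi gB cB wB i)) := ⟨_, rfl⟩
  obtain ⟨G, hG⟩ : ∃ G : Matrix (Fin d) (Fin d) ℝ, G = Matrix.of fun i j =>
    (if i = j then (1 : ℝ) else 0) - eval (cpt (fun j => chi gB cB wB (e j)) u)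
      (pderiv j (g0 i)) := ⟨_, rfl⟩
  have h1 : (Matrix.of fun i l => eval u (pderiv l (C (v i) *
      (chi gB cB wB (e i) - bind₁ (fun j => chi gB cB wB (e j)) (g0 i) - C (a i))))) =
      Matrix.of fun i l => v i * (G * B.submatrix e id) i l := by
    ext i l
    have e0 : pderiv l (C (v i) * (chi gB cB wB (e i) -
        bind₁ (fun j => chi gB cB wB (e j)) (g0 i) - C (a i))) =
        C (v i) * (pderiv l (chi gB cB wB (e i)) -
          pderiv l (bind₁ (fun j => chi gB cB wB (e j)) (g0 i))) := by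
      simp [map_sub]
    rw [Matrix.of_apply, Matrix.of_apply, Matrix.mul_apply, e0, map_mul, eval_C, map_sub,
      pderiv_bind, map_sum]
    congr 1
    have e1 : ∀ j, G i j * B.submatrix e id j l =
        (if i = j then 1 else 0) * eval u (pderiv l (chi gB cB wB (e j))) -
          eval u (bind₁ (fun j => chi gB cB wB (e j)) (pderiv j (g0 i)) *
            pderiv l (chi gB cB wB (e j))) := by
      intro j
      rw [map_mul, Pool.M3F.eval_bind, hG, hBd]
      simp only [Matrix.of_apply, Matrix.submatrix_apply, id_eq]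
      ring
    simp only [e1, Finset.sum_sub_distrib]
    congr 1
    rw [Finset.sum_eq_single i]
    · rw [if_pos rfl, one_mul]
    · intro j _ hj
      rw [if_neg hj.symm, zero_mul]
    · intro h
      exact absurd (Finset.mem_univ _) h
  have hGd : G.det = 1 := by
    rw [Matrix.det_of_isLowerTriangular]
    · refine Finset.prod_eq_one fun i _ => ?_
      rw [hG]
      simp only [Matrix.of_apply, if_true]
      rw [h0 i i le_rfl, map_zero, sub_zero]
    · intro i l hil
      have h2 : i < l := hil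
      rw [hG]
      simp only [Matrix.of_apply]
      rw [if_neg h2.ne, h0 i l h2.le, map_zero, sub_zero]
  have hBdet : B.det = ∏ i, wB i := by
    rw [hBd]
    exact det_chi gB hB cB wB u
  rw [h1, Matrix.det_mul_column, Matrix.det_mul, hGd, one_mul, Matrix.det_permute, hBdet, abs_mul,
    abs_mul, abs_mul]
  have h2 : |((Equiv.Perm.sign e : ℤ) : ℝ)| = 1 := by
    rcases Int.units_eq_one_or (Equiv.Perm.sign e) with h | h <;> rw [h] <;> norm_num
  rw [h2, one_mul]

/-- The system determines the point. -/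
theorem tri_inj {d : ℕ} {g0 : Fin d → MvPolynomial (Fin d) ℝ} (h0 : TriP g0) {x y : Fin d → ℝ}
    (h : ∀ i, x i - eval x (g0 i) = y i - eval y (g0 i)) : x = y := by
  have key : ∀ n : ℕ, ∀ i : Fin d, i.val = n → x i = y i := by
    intro n
    induction n using Nat.strong_induction_on with
    | _ n ih =>
      intro i hi
      have h1 : eval x (g0 i) = eval y (g0 i) :=
        eval_eq_of_pderiv (fun l hl => h0 i l hl) fun l hl =>
          ih l.val (by rw [← hi]; exact hl) l rfl
      have h2 := h i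
      rw [h1] at h2
      linarith
  funext i
  exact key i.val i rfl

/-- **Small natural cells of one system are in the box of another one, two orders.** `e`: the
coordinate `i` of the system `g0` is the coordinate `e i` of the system `gB`. The loss is the ratio
`δ` of the volumes of the two boxes. -/
theorem inc_cell2 (d K₀ : ℕ) : ∃ C : ℝ, 1 ≤ C ∧
    ∀ (M : ℕ) (e : Equiv.Perm (Fin d)) (g0 gB : Fin d → MvPolynomial (Fin d) ℝ)
      (cB wB a : Fin d → ℝ) (N0 N2 : Fin d → ℕ) (b : Fin d → ℤ) (us : Fin d → ℝ)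
      (S δ η ε : ℝ),
      1 ≤ M → TriP g0 → TriP gB → (∀ i, (g0 i).totalDegree ≤ K₀) →
      (∀ i, (gB i).totalDegree ≤ K₀) → (∀ i, 0 < wB i) → (∀ i, 1 ≤ N0 i) → 1 ≤ S → 0 ≤ η →
      ε ≤ 1 → (∀ i, ε ≤ us i ∧ us i ≤ 1 - ε) →
      (fun i => cpt (chi gB cB wB) us (e i)) ∈ ncell M N2 g0 b →
      (∀ u ∈ ucube d, ∀ i, |cpt (chi gB cB wB) u (e i) -
        eval (fun j => cpt (chi gB cB wB) u (e j)) (g0 i) - a i| ≤ S * N0 i / M) →
      (∀ i, (N2 i : ℝ) ≤ η * N0 i) → 0 < δ → δ * ∏ i, (N0 i : ℝ) ≤ ∏ i, ((M : ℝ) * wB i) →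
      C * S ^ d / δ * η ≤ ε / 2 →
      ∀ y ∈ ncell M N2 g0 b, ∃ u ∈ ucube d, (∀ i, cpt (chi gB cB wB) u (e i) = y i) ∧
        ∀ i, |u i - us i| ≤ C * S ^ d / δ * η := by
  classical
  obtain ⟨C, hC, hift⟩ := pol_lift d ((K₀ + 1) ^ d * (K₀ + 1))
  refine ⟨C, hC, ?_⟩
  intro M e g0 gB cB wB a N0 N2 b us S δ η ε hM ht0 htB hd₀ hdB hwB hN0 hS hη hε1 hus hcell hRB
    hN2 hδ hδN hsmall y hy
  have hM0 : (0 : ℝ) < M := by exact_mod_cast hM
  have hN0' : ∀ i, (0 : ℝ) < N0 i := fun i => by exact_mod_cast hN0 i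
  obtain ⟨β, hβ⟩ : ∃ β : Fin d → MvPolynomial (Fin d) ℝ, β = fun j => chi gB cB wB (e j) :=
    ⟨_, rfl⟩
  have hβe : ∀ u, cpt β u = fun j => cpt (chi gB cB wB) u (e j) := fun u => by
    rw [hβ]
    rfl
  obtain ⟨D, hD⟩ : ∃ D : Fin d → MvPolynomial (Fin d) ℝ, D = fun i =>
    MvPolynomial.C ((M : ℝ) / N0 i) * (chi gB cB wB (e i) -
      bind₁ (fun j => chi gB cB wB (e j)) (g0 i) - MvPolynomial.C (a i)) := ⟨_, rfl⟩
  have hDe : ∀ u i, eval u (D i) = (M : ℝ) / N0 i * (cpt (chi gB cB wB) u (e i) -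
      eval (fun j => cpt (chi gB cB wB) u (e j)) (g0 i) - a i) := by
    intro u i
    rw [hD]
    simp only [map_mul, map_sub, eval_C]
    rw [Pool.M3F.eval_bind]
    rfl
  have hβd : ∀ j, (chi gB cB wB (e j)).totalDegree ≤ (K₀ + 1) ^ d := fun j =>
    deg_chiN gB cB wB K₀ hdB d (e j)
  have hKp : (K₀ + 1) ^ d ≤ (K₀ + 1) ^ d * (K₀ + 1) := Nat.le_mul_of_pos_right _ (Nat.succ_pos _)
  have hDd : ∀ i, (D i).totalDegree ≤ (K₀ + 1) ^ d * (K₀ + 1) := by
    intro i
    rw [hD]
    refine (totalDegree_mul _ _).trans ?_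
    rw [totalDegree_C, zero_add]
    refine (totalDegree_sub _ _).trans (max_le ((totalDegree_sub _ _).trans (max_le
      ((hβd i).trans hKp) ?_)) ?_)
    · refine (SML.totalDegree_bind_le _ ((K₀ + 1) ^ d) hβd _).trans (Nat.mul_le_mul_left _ ?_)
      exact (hd₀ i).trans (Nat.le_succ _)
    · rw [totalDegree_C]
      exact Nat.zero_le _
  have hDS : ∀ u ∈ ucube d, ∀ i, |eval u (D i)| ≤ S := by
    intro u hu i
    rw [hDe, abs_mul, abs_of_pos (div_pos hM0 (hN0' i))]
    have h1 := mul_le_mul_of_nonneg_left (hRB u hu i) (div_pos hM0 (hN0' i)).le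
    refine h1.trans (le_of_eq ?_)
    have := (hN0' i).ne'
    field_simp
  have hdet : ∀ u ∈ ucube d,
      δ ≤ |Matrix.det (Matrix.of fun i l => eval u (pderiv l (D i)))| := by
    intro u _
    rw [hD, det_nat e g0 gB ht0 htB cB wB a (fun i => (M : ℝ) / N0 i) u]
    have h1 : 0 ≤ (∏ i, (M : ℝ) / N0 i) * ∏ i, wB i :=
      mul_nonneg (Finset.prod_nonneg fun i _ => (div_pos hM0 (hN0' i)).le)
        (Finset.prod_nonneg fun i _ => (hwB i).le)
    rw [abs_of_nonneg h1, Finset.prod_div_distrib, div_mul_eq_mul_div, ← Finset.prod_mul_distrib,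
      le_div_iff₀ (Finset.prod_pos fun i _ => hN0' i)]
    exact hδN
  obtain ⟨u, hu, h1, h2⟩ := hift D us (fun i => (M : ℝ) / N0 i * (y i - eval y (g0 i) - a i)) S δ
    η ε hDd hS hDS hδ hdet hε1 hus hη (fun i => by
      rw [hDe, ← mul_sub, abs_mul, abs_of_pos (div_pos hM0 (hN0' i))]
      have h3 := hcell i
      have h4 := hy i
      simp only at h3
      have h5 : |cpt (chi gB cB wB) us (e i) - eval (fun j => cpt (chi gB cB wB) us (e j)) (g0 i) -
          a i - (y i - eval y (g0 i) - a i)| ≤ (N2 i : ℝ) / M := by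
        rw [abs_le]
        constructor <;> linarith [h3.1, h3.2, h4.1, h4.2]
      have h6 := mul_le_mul_of_nonneg_left h5 (div_pos hM0 (hN0' i)).le
      refine h6.trans ?_
      have h7 : (M : ℝ) / N0 i * ((N2 i : ℝ) / M) = N2 i / N0 i := by
        have := (hN0' i).ne'
        field_simp
      rw [h7, div_le_iff₀ (hN0' i)]
      exact hN2 i) hsmall
  refine ⟨u, hu, ?_, h2⟩
  have h3 : (fun j => cpt (chi gB cB wB) u (e j)) = y := by
    refine tri_inj ht0 fun i => ?_
    have h4 := h1 i
    rw [hDe] at h4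
    have h5 := mul_left_cancel₀ (div_pos hM0 (hN0' i)).ne' h4
    linarith
  exact fun i => congrFun h3 i

end Pool.GEO
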