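import Pool.Agent.H86.EXT.Lev

/-!
# The equation of a leaf along a long line, with the gradient

`line_ev2`: as `line_ev` of helper86 (H86/EXT/Lev.lean), with the constant of the time deficits
independent of the degree of the chart, and with the gradient of the equation at the other time.
-/

set_option autoImplicit false

namespace Pool.GEO

open Finset Real
open Pool.Agent.H49.Ent Pool.Agent.H32.Dense Pool.STK Pool.KAF Pool.KAL Pool.KS3 Pool.M3F Pool.KJA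
open Pool.IEN

/-- The constant of the gradient. -/
def bgr (D : ℕ) (KK H L : ℝ) : ℝ := (D + 1) ^ 2 * KK ^ 2 * bEb D H L * H ^ 2

/-- **The derivatives on the chart** in any direction, of all orders. -/
theorem grad_num {d D M k : ℕ} {Φ : Option (Fin d) → MvPolynomial (Fin d) ℝ}
    {Q : MvPolynomial (Option (Fin d)) ℝ} {E B b θ₀ θ₁ a : ℝ} (hM : 1 ≤ M) (hE : 0 < E)
    (hB : 0 ≤ B) (hb : 0 ≤ b) (ha : 0 ≤ a) (hθ₀ : 0 ≤ θ₀) (hθ₁ : 1 / (M : ℝ) ≤ θ₁)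
    (hQ : Q.totalDegree ≤ D)
    (hst : ∀ Q : MvPolynomial (Option (Fin d)) ℝ, Q.totalDegree ≤ D → ∀ o,
      1 / M * csC Φ (MvPolynomial.pderiv o Q) ≤
        B * (csC Φ Q / E + 1 / M * csC Φ (MvPolynomial.pderiv none Q)))
    (h0 : csC Φ (pN k Q) ≤ b * θ₀ * a)
    (h1 : ∀ m, csC Φ (pN (k + 1 + m) Q) * θ₁ ^ m ≤ b * a) (o : Option (Fin d)) (m : ℕ) :
    nj D M Φ 1 (MvPolynomial.pderiv o (pN (k + m) Q)) * θ₁ ^ m ≤
      (D + 1) * B * b * (1 + (θ₀ + θ₁) * M / E) * a := by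
  have hM0 : (0 : ℝ) < M := by exact_mod_cast hM
  have hθ₁0 : 0 < θ₁ := lt_of_lt_of_le (by positivity) hθ₁
  have hba : 0 ≤ b * a := mul_nonneg hb ha
  rw [nj_one, Finset.sum_mul]
  have hterm : ∀ r ∈ range (D + 1), (1 / M : ℝ) ^ r *
      csC Φ (pN r (MvPolynomial.pderiv o (pN (k + m) Q))) * θ₁ ^ m ≤
      B * (b * a * (1 + (θ₀ + θ₁) * M / E)) := by
    intro r _
    rw [pN_pderiv, pN_pN]
    have e1 : r + (k + m) = k + (m + r) := by ring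
    rw [e1]
    have h2 := hst (pN (k + (m + r)) Q) (pN_deg _ D hQ) o
    rw [← pN_succ] at h2
    have h3 : csC Φ (MvPolynomial.pderiv o (pN (k + (m + r)) Q)) ≤
        B * (csC Φ (pN (k + (m + r)) Q) * (M / E) + csC Φ (pN (k + (m + r) + 1) Q)) := by
      have h4 := mul_le_mul_of_nonneg_left h2 hM0.le
      have e2 : (M : ℝ) * (1 / M * csC Φ (MvPolynomial.pderiv o (pN (k + (m + r)) Q))) =
          csC Φ (MvPolynomial.pderiv o (pN (k + (m + r)) Q)) := by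
        field_simp
      rw [e2] at h4
      refine h4.trans (le_of_eq ?_)
      field_simp
    have h4 : (1 / M : ℝ) ^ r ≤ θ₁ ^ r := pow_le_pow_left₀ (by positivity) hθ₁ r
    have h5 : (1 / M : ℝ) ^ r * csC Φ (pN (k + (m + r)) Q) * θ₁ ^ m ≤ (θ₀ + θ₁) * (b * a) := by
      have h6 := csC_nonneg Φ (pN (k + (m + r)) Q)
      have h7 : (1 / M : ℝ) ^ r * csC Φ (pN (k + (m + r)) Q) * θ₁ ^ m ≤
          csC Φ (pN (k + (m + r)) Q) * θ₁ ^ (m + r) := by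
        have e3 : csC Φ (pN (k + (m + r)) Q) * θ₁ ^ (m + r) =
            θ₁ ^ r * csC Φ (pN (k + (m + r)) Q) * θ₁ ^ m := by
          rw [pow_add]
          ring
        rw [e3]
        exact mul_le_mul_of_nonneg_right (mul_le_mul_of_nonneg_right h4 h6) (by positivity)
      refine h7.trans ?_
      rcases Nat.eq_zero_or_pos (m + r) with h8 | h8
      · rw [h8, pow_zero, mul_one, add_zero]
        have : 0 ≤ θ₁ * (b * a) := mul_nonneg hθ₁0.le hba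
        calc csC Φ (pN k Q) ≤ b * θ₀ * a := h0
          _ ≤ (θ₀ + θ₁) * (b * a) := by linarith
      · obtain ⟨j, hj⟩ : ∃ j, m + r = j + 1 := ⟨m + r - 1, by omega⟩
        have h9 := h1 j
        rw [hj, pow_succ, ← mul_assoc]
        have e4 : k + (j + 1) = k + 1 + j := by ring
        rw [e4]
        have h10 := mul_le_mul_of_nonneg_right h9 hθ₁0.le
        have h11 : 0 ≤ θ₀ * (b * a) := mul_nonneg hθ₀ hba
        calc csC Φ (pN (k + 1 + j) Q) * θ₁ ^ j * θ₁ ≤ b * a * θ₁ := h10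
          _ ≤ (θ₀ + θ₁) * (b * a) := by linarith
    have h6 : (1 / M : ℝ) ^ r * csC Φ (pN (k + (m + r) + 1) Q) * θ₁ ^ m ≤ b * a := by
      have h7 := csC_nonneg Φ (pN (k + (m + r) + 1) Q)
      have e3 : θ₁ ^ r * csC Φ (pN (k + (m + r) + 1) Q) * θ₁ ^ m =
          csC Φ (pN (k + 1 + (m + r)) Q) * θ₁ ^ (m + r) := by
        rw [pow_add]
        have : k + (m + r) + 1 = k + 1 + (m + r) := by ring
        rw [this]
        ring
      refine le_trans ?_ (h1 (m + r))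
      rw [← e3]
      exact mul_le_mul_of_nonneg_right (mul_le_mul_of_nonneg_right h4 h7) (by positivity)
    calc (1 / M : ℝ) ^ r * csC Φ (MvPolynomial.pderiv o (pN (k + (m + r)) Q)) * θ₁ ^ m
        ≤ (1 / M : ℝ) ^ r * (B * (csC Φ (pN (k + (m + r)) Q) * (M / E) +
            csC Φ (pN (k + (m + r) + 1) Q))) * θ₁ ^ m :=
          mul_le_mul_of_nonneg_right (mul_le_mul_of_nonneg_left h3 (by positivity))
            (by positivity)
      _ = B * ((1 / M : ℝ) ^ r * csC Φ (pN (k + (m + r)) Q) * θ₁ ^ m * (M / E) +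
            (1 / M : ℝ) ^ r * csC Φ (pN (k + (m + r) + 1) Q) * θ₁ ^ m) := by ring
      _ ≤ B * ((θ₀ + θ₁) * (b * a) * (M / E) + b * a) :=
          mul_le_mul_of_nonneg_left (add_le_add (mul_le_mul_of_nonneg_right h5 (by positivity))
            h6) hB
      _ = _ := by ring
  refine (Finset.sum_le_sum hterm).trans (le_of_eq ?_)
  rw [Finset.sum_const, Finset.card_range, nsmul_eq_mul]
  push_cast
  ring

/-- **The derivatives in the other directions** at the point `x`, for the index `k` of the gap. -/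
def GrR {d : ℕ} (M : ℕ) (Q : MvPolynomial (Option (Fin d)) ℝ) (G E : ℝ) (θ : ℕ → ℝ)
    (x : Option (Fin d) → ℝ) (k : ℕ) : Prop :=
  ∀ (o : Option (Fin d)) (m : ℕ),
    |MvPolynomial.eval x (MvPolynomial.pderiv o (pN (k + m) Q))| * θ (k + 1) ^ m ≤
      G * (1 + (θ k + θ (k + 1)) * M / E) * |MvPolynomial.eval x (pN (k + 1) Q)|

lemma bEb_ge (D : ℕ) {H L : ℝ} (hH : 1 ≤ H) (hL : 1 ≤ L) : 1 ≤ bEb D H L := by
  unfold bEb
  have hD : (0 : ℝ) ≤ D := Nat.cast_nonneg D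
  have h3 : (1 : ℝ) ≤ L ^ D := one_le_pow₀ hL
  have h4 : 1 ≤ L ^ D * H := one_le_mul_of_one_le_of_one_le h3 hH
  have h5 : 1 ≤ 2 * ((D : ℝ) + 1) := by linarith
  calc (1 : ℝ) ≤ 2 * ((D : ℝ) + 1) * (L ^ D * H) := one_le_mul_of_one_le_of_one_le h5 h4
    _ = _ := by ring

lemma bE₀_ge (D : ℕ) {KK H L : ℝ} (hK : 1 ≤ KK) (hH : 1 ≤ H) (hL : 1 ≤ L) :
    1 ≤ bE₀ D KK H L := by
  unfold bE₀
  have hD : (0 : ℝ) ≤ D := Nat.cast_nonneg D
  have hD1 : (1 : ℝ) ≤ D + 1 := by linarith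
  have h3 : 1 ≤ H * KK := one_le_mul_of_one_le_of_one_le hH hK
  have h4 : 1 ≤ 2 * (2 * H * KK * ((D : ℝ) + 1)) := by
    have : 1 ≤ H * KK * ((D : ℝ) + 1) := one_le_mul_of_one_le_of_one_le h3 hD1
    linarith
  exact one_le_mul_of_one_le_of_one_le (one_le_mul_of_one_le_of_one_le h4 (bEb_ge D hH hL)) hD1

lemma bth_nonneg (D : ℕ) {KK H L Λ ρ : ℝ} (hK : 1 ≤ KK) (hH : 1 ≤ H) (hL : 1 ≤ L) (hΛ : 1 ≤ Λ)
    (hρ : 0 < ρ) (j : ℕ) : 0 ≤ bth D KK H L Λ ρ j := by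
  have := bE₀_ge D hK hH hL
  unfold bth
  positivity

lemma bth_ge (D : ℕ) {M : ℕ} {KK H L Λ ρ : ℝ} (hM : 1 ≤ M) (hK : 1 ≤ KK) (hH : 1 ≤ H)
    (hL : 1 ≤ L) (hΛ : 1 ≤ Λ) (hρ : 0 < ρ) (hMρ : 1 ≤ M * ρ) (j : ℕ) :
    1 / (M : ℝ) ≤ bth D KK H L Λ ρ j := by
  have hM0 : (0 : ℝ) < M := by exact_mod_cast hM
  have h3 : (1 : ℝ) ≤ Λ ^ j := one_le_pow₀ hΛ
  have h4 : 1 ≤ bE₀ D KK H L * Λ ^ j :=
    one_le_mul_of_one_le_of_one_le (bE₀_ge D hK hH hL) h3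
  have h5 : 1 / (M : ℝ) ≤ ρ := by
    rw [div_le_iff₀ hM0]
    linarith
  have e1 : bth D KK H L Λ ρ j = ρ * (bE₀ D KK H L * Λ ^ j) := by
    unfold bth
    ring
  rw [e1]
  exact h5.trans (le_mul_of_one_le_right hρ.le h4)

/-- **The derivatives in the other directions**, at one point of the line. -/
theorem grad_pt {d D M k : ℕ} {Φ : Option (Fin d) → MvPolynomial (Fin d) ℝ}
    {Q : MvPolynomial (Option (Fin d)) ℝ} {E H L Λ KK κ ρ B : ℝ} {a : ℕ → ℝ}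
    {x₀ x₁ x₂ : Option (Fin d) → ℝ} (hM : 1 ≤ M) (hE : 1 ≤ E) (hH : 1 ≤ H) (hL : 1 ≤ L)
    (hΛ : 1 ≤ Λ) (hKK : 1 ≤ KK) (hκ : 1 ≤ κ) (hρ : 0 < ρ) (hMρ : 1 ≤ M * ρ)
    (hQ : Q.totalDegree ≤ D)
    (hjet : ∀ R : MvPolynomial (Option (Fin d)) ℝ, R.totalDegree ≤ D →
      Psi R (κ / M) x₀ ≤ KK * nj D M Φ 1 R)
    (hvar : ∀ R : MvPolynomial (Option (Fin d)) ℝ, R.totalDegree ≤ D →
      ∀ y : Option (Fin d) → ℝ, (∀ o, |y o - x₀ o| ≤ κ / M) →
        |MvPolynomial.eval y R - MvPolynomial.eval x₀ R| ≤ KK * nj D M Φ (1 / E) R)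
    (htyp : ∀ k ≤ D, 0 < csC Φ (pN k Q) → ∃ y : Option (Fin d) → ℝ,
      (∀ o, |y o - x₀ o| ≤ κ / M) ∧ csC Φ (pN k Q) ≤ H * |MvPolynomial.eval y (pN k Q)|)
    (hKL : 4 * KK * (1 / E + D / L) * H ≤ 1)
    (hx₁ : ∀ o, |x₁ o - x₀ o| ≤ κ / M)
    (hB : 0 ≤ B) (hBK : B ≤ KK)
    (hst : ∀ Q : MvPolynomial (Option (Fin d)) ℝ, Q.totalDegree ≤ D → ∀ o,
      1 / M * csC Φ (MvPolynomial.pderiv o Q) ≤
        B * (csC Φ Q / E + 1 / M * csC Φ (MvPolynomial.pderiv none Q)))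
    (ha : ∀ k, 0 ≤ a k) (ha₁ : ∀ k, |MvPolynomial.eval x₁ (pN k Q)| ≤ a k)
    (hk : Gap D a (bth D KK H L Λ ρ) k)
    (hq : a (k + 1) ≤ H * |MvPolynomial.eval x₂ (pN (k + 1) Q)|)
    (hv : ∀ (o : Option (Fin d)), ∀ i ≤ D, |MvPolynomial.eval x₂ (MvPolynomial.pderiv o (pN i Q))| ≤
      H * |MvPolynomial.eval x₁ (MvPolynomial.pderiv o (pN i Q))|) :
    GrR M Q (bgr D KK H L) E (bth D KK H L Λ ρ) x₂ k := by
  intro o m
  have hM0 : (0 : ℝ) < M := by exact_mod_cast hM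
  have hD0 : (0 : ℝ) ≤ D := Nat.cast_nonneg D
  have hE0 : 0 < E := by linarith
  have hH0 : 0 < H := by linarith
  have hEb := bEb_ge D hH hL
  have hθ0 := bth_nonneg D hKK hH hL hΛ hρ
  have hθM := bth_ge D hM hKK hH hL hΛ hρ hMρ
  obtain ⟨q, hqd⟩ : ∃ q, q = |MvPolynomial.eval x₂ (pN (k + 1) Q)| := ⟨_, rfl⟩
  rw [← hqd] at hq ⊢
  have hq0 : 0 ≤ q := hqd ▸ abs_nonneg _
  have hbr : 0 ≤ bgr D KK H L * (1 + (bth D KK H L Λ ρ k + bth D KK H L Λ ρ (k + 1)) * M / E) := by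
    have h3 := hθ0 k
    have h4 := hθ0 (k + 1)
    unfold bgr
    positivity
  by_cases hkm : k + m ≤ D
  · -- suprema over the chart
    have hnv := nval D M (Φ := Φ) hM hE hH hL (by linarith : 0 ≤ KK) hQ (x := x₀) hvar htyp hKL hx₁
    have hS1 : ∀ m, csC Φ (pN m Q) ≤ bEb D H L * ∑ r ∈ range (D + 1), (1 / M : ℝ) ^ r *
        a (m + r) := by
      intro m
      have h3 := Finset.single_le_sum (f := fun r => (1 / M : ℝ) ^ r * csC Φ (pN (m + r) Q))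
        (fun r _ => mul_nonneg (by positivity) (csC_nonneg _ _))
        (Finset.mem_range.mpr (Nat.succ_pos D))
      simp only [pow_zero, one_mul, add_zero] at h3
      refine (h3.trans (hnv m)).trans ?_
      have e1 : 2 * ((D : ℝ) + 1) * L ^ D * H = bEb D H L := rfl
      rw [e1]
      refine mul_le_mul_of_nonneg_left ?_ (by linarith)
      refine Finset.sum_le_sum fun r _ => ?_
      exact mul_le_mul_of_nonneg_left (ha₁ _) (by positivity)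
    obtain ⟨f1, f2⟩ := bridge_num (D := D) (k := k)
      (s := fun m => csC Φ (pN m Q)) (by exact_mod_cast hM : (1 : ℝ) ≤ M)
      ha hEb (hθM k) (hθM (k + 1)) hS1 hk.2.1 hk.2.2.1 hk.2.2.2
    have hgn := grad_num (Φ := Φ) (Q := Q) (k := k)
      (b := bEb D H L * ((D : ℝ) + 1)) (θ₀ := bth D KK H L Λ ρ k)
      (θ₁ := bth D KK H L Λ ρ (k + 1))
      (a := a (k + 1)) hM hE0 hB (by positivity) (ha _) (hθ0 k) (hθM (k + 1))
      hQ hst f1 f2 o m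
    -- the value at the first time
    obtain ⟨R, hRd⟩ : ∃ R, R = MvPolynomial.pderiv o (pN (k + m) Q) := ⟨_, rfl⟩
    have hv2 := hv o (k + m) hkm
    rw [← hRd] at hgn hv2 ⊢
    have hRD : R.totalDegree ≤ D := by
      rw [hRd]
      exact SML.totalDegree_pderiv_le _ _ D ((pN_deg _ D hQ).trans (Nat.le_succ _))
    have hv1 : |MvPolynomial.eval x₁ R| ≤ KK * nj D M Φ 1 R :=
      (abs_eval_le_Psi_of_near _ (κ / M) (by positivity) _ _ hx₁).trans (hjet R hRD)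
    obtain ⟨θ₀, hθ₀d⟩ : ∃ θ₀, θ₀ = bth D KK H L Λ ρ k := ⟨_, rfl⟩
    obtain ⟨θ₁, hθ₁d⟩ : ∃ θ₁, θ₁ = bth D KK H L Λ ρ (k + 1) := ⟨_, rfl⟩
    have hθ₀0 : 0 ≤ θ₀ := hθ₀d ▸ hθ0 k
    have hθ₁0 : 0 ≤ θ₁ := hθ₁d ▸ hθ0 (k + 1)
    rw [← hθ₀d, ← hθ₁d] at hgn ⊢
    have hF0 : 0 ≤ 1 + (θ₀ + θ₁) * M / E := by positivity
    calc |MvPolynomial.eval x₂ R| * θ₁ ^ m
        ≤ H * (KK * nj D M Φ 1 R) * θ₁ ^ m :=
          mul_le_mul_of_nonneg_right (hv2.trans (mul_le_mul_of_nonneg_left hv1 hH0.le))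
            (by positivity)
      _ = H * KK * (nj D M Φ 1 R * θ₁ ^ m) := by ring
      _ ≤ H * KK * (((D : ℝ) + 1) * B * (bEb D H L * (D + 1)) *
            (1 + (θ₀ + θ₁) * M / E) * a (k + 1)) :=
          mul_le_mul_of_nonneg_left hgn (by positivity)
      _ ≤ H * KK * (((D : ℝ) + 1) * KK * (bEb D H L * (D + 1)) *
            (1 + (θ₀ + θ₁) * M / E) * (H * q)) := by
          refine mul_le_mul_of_nonneg_left ?_ (by positivity)
          refine mul_le_mul ?_ hq (ha _) (by positivity)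
          refine mul_le_mul_of_nonneg_right ?_ hF0
          refine mul_le_mul_of_nonneg_right ?_ (by positivity)
          exact mul_le_mul_of_nonneg_left hBK (by positivity)
      _ = _ := by
          unfold bgr
          ring
  · rw [pN_eq_zero (k + m) D hQ (by omega), map_zero, map_zero, abs_zero, zero_mul]
    exact mul_nonneg hbr hq0

/-- **The equation along the line, with the gradient.** The constant `Cu` of the deficits of the
times does not depend on the degree `k₀` of the chart. -/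
theorem line_ev2 (d D : ℕ) : ∃ Cu : ℝ, 1 ≤ Cu ∧ ∀ k₀ : ℕ, ∃ C : ℝ, 1 ≤ C ∧
    ∀ (C₀ κ : ℝ) (V Z Lw : Type) [Fintype V] (r : V → ℝ) (ζ : V → Z) (lw : V → Lw)
      (Yb : V → Fin d → ℕ) (Ng : Z → Fin d → ℕ) (G : Z → Fin d → MvPolynomial (Fin d) ℝ)
      (w : Z → Fin d → ℝ) (F : Z → MvPolynomial (Fin d) ℝ) (M W : ℕ)
      (A' B' : Lw → Option (Fin d) → ℝ) (T₁ T₂ : V → ℕ)
      (Q : Z → MvPolynomial (Option (Fin d)) ℝ) (ρ : Z → ℝ) (h E H KK L Λ μ : ℝ),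
      1 ≤ C₀ → 1 ≤ κ → 1 ≤ M → 1 ≤ W → 1 ≤ E → 1 ≤ L → 1 ≤ Λ → IsLaw r →
      (∀ v, 0 < r v → Tri k₀ C₀ M (Ng (ζ v)) (G (ζ v)) (w (ζ v)) (F (ζ v))) →
      (∀ v, 0 < r v → ChartOK (k₀ + 1) κ M (Ng (ζ v)) (triC (G (ζ v)) (w (ζ v)) (F (ζ v)))) →
      (∀ v, 0 < r v → ∀ i, E ≤ Ng (ζ v) i) →
      (∀ v, 0 < r v → ∀ i, Yb v i < Ng (ζ v) i) →
      Ex r (fun v => ∑ i, Real.log (Ng (ζ v) i)) - CH r Yb ζ ≤ μ → 0 ≤ μ →
      (∀ v, 0 < r v → T₁ v < W * M) → (∀ v, 0 < r v → T₂ v < W * M) →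
      (∀ v, 0 < r v → ∀ o, |(A' (lw v) o + (T₁ v : ℝ) / M * B' (lw v) o) -
        cpt (triC (G (ζ v)) (w (ζ v)) (F (ζ v))) (gpos (Ng (ζ v)) (Yb v)) o| ≤ κ / M) →
      (∀ v, 0 < r v → (Q (ζ v)).totalDegree ≤ D) →
      (∀ v, 0 < r v → 0 < ρ (ζ v) ∧ 1 ≤ M * ρ (ζ v)) →
      (∀ v, 0 < r v → ∀ Φ, Φ = triC (G (ζ v)) (w (ζ v)) (F (ζ v)) →
        0 < csC Φ (pN 1 (Q (ζ v))) ∧
        csC Φ (Q (ζ v)) ≤ ρ (ζ v) * csC Φ (pN 1 (Q (ζ v))) ∧
        ∀ j, csC Φ (pN (j + 1) (Q (ζ v))) * ρ (ζ v) ^ j ≤ csC Φ (pN 1 (Q (ζ v)))) →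
      0 < h → C * Real.exp h ≤ M → C * Real.exp h ≤ H →
      (C * κ * C₀ ^ (2 * d)) ^ (D + 1) ≤ KK → 4 * KK * (1 / E + D / L) * H ≤ 1 →
      ms r (fun v => ¬ ∃ k, Gap D (aL W (A' (lw v)) (B' (lw v)) (Q (ζ v)))
          (bth D KK H L Λ (ρ (ζ v))) k ∧
        LnR D (Q (ζ v)) H (bth D KK H L Λ (ρ (ζ v))) (ltW W (A' (lw v)) (B' (lw v))
          ((T₂ v : ℝ) / ((W * M : ℕ) : ℝ))) k ∧
        GrR M (Q (ζ v)) (bgr D KK H L) E (bth D KK H L Λ (ρ (ζ v)))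
          (ltW W (A' (lw v)) (B' (lw v)) ((T₂ v : ℝ) / ((W * M : ℕ) : ℝ))) k) ≤
        (Cu * (1 + (Real.log ((W * M : ℕ) : ℝ) - CH r T₁ (fun v => (lw v, ζ v))) +
          (Real.log ((W * M : ℕ) : ℝ) - CH r T₂ (fun v => (lw v, ζ v)))) + C * (1 + μ)) / h := by
  classical
  obtain ⟨C₄, hC₄, htim⟩ := tim_ev D
  set K₂ : ℝ := ((D : ℝ) + 1) * (2 * (D + 1) * (1 + C₄)) with hK₂
  set K₄ : ℝ := 2 * (D + 1) * (1 + C₄) with hK₄
  set K₆ : ℝ := (((d : ℝ) + 1) * (D + 1)) * (2 * (D + 1) * (1 + C₄)) with hK₆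
  have hD0 : (0 : ℝ) ≤ D := Nat.cast_nonneg D
  have hK₂0 : 0 ≤ K₂ := by positivity
  have hK₄0 : 0 ≤ K₄ := by positivity
  have hK₆0 : 0 ≤ K₆ := by positivity
  set Cu : ℝ := 1 + K₂ + K₄ + K₆ with hCu
  refine ⟨Cu, by
    rw [hCu]
    linarith, ?_⟩
  intro k₀
  obtain ⟨C₁, hC₁, hjt⟩ := jet_tri d D k₀
  obtain ⟨C₁', hC₁', hjst⟩ := jst d D k₀
  obtain ⟨C₃, hC₃, hrev⟩ := rev d ((k₀ + 1) * D)
  set K₃ : ℝ := ((D : ℝ) + 1) * (2 * (((k₀ + 1) * D : ℕ) + 1) * (1 + C₃)) with hK₃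
  have hE00 : (0 : ℝ) ≤ (((k₀ + 1) * D : ℕ) : ℝ) := Nat.cast_nonneg _
  have hK₃0 : 0 ≤ K₃ := by positivity
  set C : ℝ := C₁ + C₁' + C₄ + 2 + K₃ with hC
  have hC1 : 1 ≤ C := by
    rw [hC]
    linarith
  refine ⟨C, hC1, ?_⟩
  intro C₀ κ V Z Lw _ r ζ lw Yb Ng G w F M W A' B' T₁ T₂ Q ρ h E H KK L Λ μ hC₀ hκ hM hW hE hL hΛ
    hr hTri hch hEN hYlt hμ hμ0 hT₁ hT₂ hnr hQ₁ hρ hQj hh hhM hhH hKK hKL
  have hr0 := hr.nonneg
  have hM0 : (0 : ℝ) < M := by exact_mod_cast hM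
  have hW1 : (1 : ℝ) ≤ W := by exact_mod_cast hW
  have hWM : (0 : ℝ) < ((W * M : ℕ) : ℝ) := by
    push_cast
    positivity
  have hWMM : (M : ℝ) ≤ ((W * M : ℕ) : ℝ) := by
    push_cast
    exact le_mul_of_one_le_left hM0.le hW1
  have heh := Real.exp_pos h
  have heh1 : 1 ≤ Real.exp h := Real.one_le_exp hh.le
  set Φ : Z → Option (Fin d) → MvPolynomial (Fin d) ℝ := fun ζ => triC (G ζ) (w ζ) (F ζ) with hΦ
  set δ₁ : ℝ := Real.log ((W * M : ℕ) : ℝ) - CH r T₁ (fun v => (lw v, ζ v)) with hδ₁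
  set δ₂ : ℝ := Real.log ((W * M : ℕ) : ℝ) - CH r T₂ (fun v => (lw v, ζ v)) with hδ₂
  have hδ₁0 : 0 ≤ δ₁ := tdef_nonneg hr _ _ _ hT₁
  have hδ₂0 : 0 ≤ δ₂ := tdef_nonneg hr _ _ _ hT₂
  set X : ℝ := 1 + δ₁ + δ₂ with hXdef
  have hX1 : 1 ≤ X := by
    rw [hXdef]
    linarith
  have hdegb : ∀ (Φ' : Option (Fin d) → MvPolynomial (Fin d) ℝ),
      (∀ o, (Φ' o).totalDegree ≤ k₀ + 1) → ∀ R : MvPolynomial (Option (Fin d)) ℝ,
      R.totalDegree ≤ D → (MvPolynomial.bind₁ Φ' R).totalDegree ≤ (k₀ + 1) * D := fun Φ' h1 R hR =>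
    (SML.totalDegree_bind_le Φ' (k₀ + 1) h1 R).trans (Nat.mul_le_mul_left _ hR)
  set c : V → Lw × Z := fun v => (lw v, ζ v) with hc
  have hCM : C₄ * Real.exp h ≤ ((W * M : ℕ) : ℝ) := by
    have h1 : C₄ ≤ C := by
      rw [hC]
      linarith
    exact (mul_le_mul_of_nonneg_right h1 heh.le).trans (hhM.trans hWMM)
  -- the exceptional sets
  set P3 : V → Prop := fun v => ∃ i : Fin (D + 1),
    0 < cs (fun _ => 0) 1 (MvPolynomial.bind₁ (Φ (ζ v)) (pN i (Q (ζ v)))) ∧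
    ∀ u ∈ gcell (Ng (ζ v)) (Yb v),
      |MvPolynomial.eval u (MvPolynomial.bind₁ (Φ (ζ v)) (pN i (Q (ζ v))))| ≤
      Real.exp (-h) * cs (fun _ => 0) 1
        (MvPolynomial.bind₁ (Φ (ζ v)) (pN i (Q (ζ v)))) with hP3
  set P4 : V → Prop := fun v =>
    0 < sp (lq (A' (c v).1) (fun o => W * B' (c v).1 o) (Q (c v).2)) ∧
    |(lq (A' (c v).1) (fun o => W * B' (c v).1 o) (Q (c v).2)).eval
      ((T₁ v : ℝ) / ((W * M : ℕ) : ℝ))| ≤ 1 / 2 * (Real.exp (-h) *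
        sp (lq (A' (c v).1) (fun o => W * B' (c v).1 o) (Q (c v).2))) with hP4
  set P5 : V → Prop := fun v => ∃ i : Fin (D + 1),
    0 < sp (lq (A' (c v).1) (fun o => W * B' (c v).1 o) (pN i (Q (c v).2))) ∧
    |(lq (A' (c v).1) (fun o => W * B' (c v).1 o) (pN i (Q (c v).2))).eval
      ((T₂ v : ℝ) / ((W * M : ℕ) : ℝ))| ≤ 1 / 2 * (Real.exp (-h) *
        sp (lq (A' (c v).1) (fun o => W * B' (c v).1 o) (pN i (Q (c v).2)))) with hP5
  set P6 : V → Prop := fun v => ∃ i : Option (Fin d) × Fin (D + 1),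
    0 < sp (lq (A' (c v).1) (fun o => W * B' (c v).1 o)
      (MvPolynomial.pderiv i.1 (pN i.2 (Q (c v).2)))) ∧
    |(lq (A' (c v).1) (fun o => W * B' (c v).1 o)
      (MvPolynomial.pderiv i.1 (pN i.2 (Q (c v).2)))).eval
      ((T₁ v : ℝ) / ((W * M : ℕ) : ℝ))| ≤ 1 / 2 * (Real.exp (-h) *
        sp (lq (A' (c v).1) (fun o => W * B' (c v).1 o)
          (MvPolynomial.pderiv i.1 (pN i.2 (Q (c v).2))))) with hP6
  have hcard6 : (Fintype.card (Option (Fin d) × Fin (D + 1)) : ℝ) = (d + 1) * (D + 1) := by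
    rw [Fintype.card_prod, Fintype.card_option, Fintype.card_fin, Fintype.card_fin]
    push_cast
    ring
  have hcard : (Fintype.card (Fin (D + 1)) : ℝ) = D + 1 := by
    rw [Fintype.card_fin]
    push_cast
    ring
  have htimb : ∀ (TT : V → ℕ) (gg : Lw × Z → Polynomial ℝ),
      (∀ v, 0 < r v → TT v < W * M) → (∀ v, 0 < r v → (gg (c v)).natDegree ≤ D) →
      Real.log ((W * M : ℕ) : ℝ) - CH r TT c ≤ X →
      ms r (fun v => 0 < sp (gg (c v)) ∧ |(gg (c v)).eval ((TT v : ℝ) / ((W * M : ℕ) : ℝ))| ≤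
        1 / 2 * (Real.exp (-h) * sp (gg (c v)))) ≤ K₄ * X / h := by
    intro TT gg hTT hgg hδ
    have h1 := htim V (Lw × Z) r c TT (W * M) gg h hr hTT hgg hh hCM
    refine le_trans ((ms_eq r _ _).le.trans h1) ?_
    refine div_le_div_of_nonneg_right ?_ hh.le
    rw [show K₄ * X = 2 * ((D : ℝ) + 1) * ((1 + C₄) * X) by rw [hK₄]; ring]
    refine mul_le_mul_of_nonneg_left ?_ (by positivity)
    have h2 : C₄ ≤ C₄ * X := le_mul_of_one_le_right (by linarith) hX1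
    calc _ ≤ X + C₄ := add_le_add hδ le_rfl
      _ ≤ (1 + C₄) * X := by linarith
  have b4 : ms r P4 ≤ K₄ * X / h :=
    htimb T₁ (fun γ => lq (A' γ.1) (fun o => W * B' γ.1 o) (Q γ.2)) hT₁
      (fun v hv => deg_lq _ _ (hQ₁ v hv)) (by
        rw [hXdef]
        linarith)
  have b5 : ms r P5 ≤ K₂ * X / h := by
    have h1 := ms_ex hr0 (fun (i : Fin (D + 1)) v =>
      0 < sp (lq (A' (c v).1) (fun o => W * B' (c v).1 o) (pN i (Q (c v).2))) ∧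
      |(lq (A' (c v).1) (fun o => W * B' (c v).1 o) (pN i (Q (c v).2))).eval
        ((T₂ v : ℝ) / ((W * M : ℕ) : ℝ))| ≤ 1 / 2 * (Real.exp (-h) *
          sp (lq (A' (c v).1) (fun o => W * B' (c v).1 o) (pN i (Q (c v).2)))))
      (fun i => htimb T₂ (fun γ => lq (A' γ.1) (fun o => W * B' γ.1 o) (pN i (Q γ.2))) hT₂
        (fun v hv => deg_lq _ _ (pN_deg i D (hQ₁ v hv))) (by
          rw [hXdef]
          linarith))
    refine h1.trans (le_of_eq ?_)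
    rw [hcard, hK₂, hK₄]
    ring
  have b6 : ms r P6 ≤ K₆ * X / h := by
    have h1 := ms_ex hr0 (fun (i : Option (Fin d) × Fin (D + 1)) v =>
      0 < sp (lq (A' (c v).1) (fun o => W * B' (c v).1 o)
        (MvPolynomial.pderiv i.1 (pN i.2 (Q (c v).2)))) ∧
      |(lq (A' (c v).1) (fun o => W * B' (c v).1 o)
        (MvPolynomial.pderiv i.1 (pN i.2 (Q (c v).2)))).eval
        ((T₁ v : ℝ) / ((W * M : ℕ) : ℝ))| ≤ 1 / 2 * (Real.exp (-h) *
          sp (lq (A' (c v).1) (fun o => W * B' (c v).1 o)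
            (MvPolynomial.pderiv i.1 (pN i.2 (Q (c v).2))))))
      (fun i => htimb T₁ (fun γ => lq (A' γ.1) (fun o => W * B' γ.1 o)
        (MvPolynomial.pderiv i.1 (pN i.2 (Q γ.2)))) hT₁
        (fun v hv => deg_lq _ _ (SML.totalDegree_pderiv_le _ _ D
          ((pN_deg i.2 D (hQ₁ v hv)).trans (Nat.le_succ _)))) (by
          rw [hXdef]
          linarith))
    refine h1.trans (le_of_eq ?_)
    rw [hcard6, hK₆, hK₄]
    ring
  have b3 : ms r P3 ≤ K₃ * (1 + μ) / h := by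
    have h1 := ms_ex hr0 (fun (i : Fin (D + 1)) v =>
      0 < cs (fun _ => 0) 1 (MvPolynomial.bind₁ (Φ (ζ v)) (pN i (Q (ζ v)))) ∧
      ∀ u ∈ gcell (Ng (ζ v)) (Yb v),
        |MvPolynomial.eval u (MvPolynomial.bind₁ (Φ (ζ v)) (pN i (Q (ζ v))))| ≤
        Real.exp (-h) * cs (fun _ => 0) 1
          (MvPolynomial.bind₁ (Φ (ζ v)) (pN i (Q (ζ v)))))
      (b := 2 * (((k₀ + 1) * D : ℕ) + 1) * (1 + C₃) * (1 + μ) / h) (fun i => by
        have h2 := hrev V Z r ζ Yb Ng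
          (fun ζ => MvPolynomial.bind₁ (Φ ζ) (pN i (Q ζ))) h hr hYlt
          (fun v hv => hdegb _ (hch v hv).deg _ (pN_deg i D (hQ₁ v hv))) hh
        refine le_trans ((ms_eq r _ _).le.trans h2) ?_
        refine div_le_div_of_nonneg_right ?_ hh.le
        rw [mul_assoc (2 * ((((k₀ + 1) * D : ℕ) : ℝ) + 1))]
        refine mul_le_mul_of_nonneg_left ?_ (by positivity)
        have h3 : 0 ≤ C₃ * μ := mul_nonneg (by linarith) hμ0
        calc _ ≤ μ + C₃ := add_le_add hμ le_rfl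
          _ ≤ (1 + C₃) * (1 + μ) := by linarith)
    refine h1.trans (le_of_eq ?_)
    rw [hcard, hK₃]
    ring
  have hsub : ∀ v, 0 < r v → (¬ ∃ k, Gap D (aL W (A' (lw v)) (B' (lw v)) (Q (ζ v)))
          (bth D KK H L Λ (ρ (ζ v))) k ∧
        LnR D (Q (ζ v)) H (bth D KK H L Λ (ρ (ζ v))) (ltW W (A' (lw v)) (B' (lw v))
          ((T₂ v : ℝ) / ((W * M : ℕ) : ℝ))) k ∧
        GrR M (Q (ζ v)) (bgr D KK H L) E (bth D KK H L Λ (ρ (ζ v)))
          (ltW W (A' (lw v)) (B' (lw v)) ((T₂ v : ℝ) / ((W * M : ℕ) : ℝ))) k) →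
        P3 v ∨ P4 v ∨ P5 v ∨ P6 v := by
    intro v hv hbad
    by_contra hcon
    push Not at hcon
    obtain ⟨g3, g4, g5, g6⟩ := hcon
    refine hbad ?_
    have hC₀d : (1 : ℝ) ≤ C₀ ^ (2 * d) := one_le_pow₀ hC₀
    have hkk : (C₁ * κ * C₀ ^ (2 * d)) ^ (D + 1) ≤ KK := by
      refine le_trans (pow_le_pow_left₀ (by positivity) ?_ _) hKK
      refine mul_le_mul_of_nonneg_right (mul_le_mul_of_nonneg_right ?_ (by linarith))
        (by positivity)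
      rw [hC]
      linarith
    have hKK1 : 1 ≤ KK := by
      refine le_trans (one_le_pow₀ ?_) hkk
      exact one_le_mul_of_one_le_of_one_le (one_le_mul_of_one_le_of_one_le hC₁ hκ) hC₀d
    have hH3 : 2 * Real.exp h ≤ H := by
      refine le_trans (mul_le_mul_of_nonneg_right ?_ heh.le) hhH
      rw [hC]
      linarith
    have hH1 : 1 ≤ H := by linarith
    have hH0 : 0 < H := by linarith
    have hconv : ∀ a b : ℝ, 0 ≤ a → 0 ≤ b → (0 < a → 1 / 2 * (Real.exp (-h) * a) < b) →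
        a ≤ 2 * Real.exp h * b := by
      intro a b ha hb hab
      rcases ha.eq_or_lt with h0 | h0
      · rw [← h0]
        positivity
      · have h1 := hab h0
        rw [Real.exp_neg] at h1
        have h2 : a = 2 * Real.exp h * (1 / 2 * ((Real.exp h)⁻¹ * a)) := by
          field_simp
        rw [h2]
        exact mul_le_mul_of_nonneg_left h1.le (by positivity)
    have hgp₁ := gpos_mem (hYlt v hv)
    have hltW : ∀ (TT : ℕ) (o : Option (Fin d)), ltW W (A' (lw v)) (B' (lw v))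
        ((TT : ℝ) / ((W * M : ℕ) : ℝ)) o = A' (lw v) o + (TT : ℝ) / M * B' (lw v) o := by
      intro TT o
      unfold ltW
      push_cast
      field_simp
    have hsm : ∀ TT : ℕ, TT < W * M → (TT : ℝ) / ((W * M : ℕ) : ℝ) ∈ Set.Icc (0 : ℝ) 1 := by
      intro TT hTT
      refine ⟨by positivity, ?_⟩
      rw [div_le_one hWM]
      exact_mod_cast hTT.le
    have hs₁m := hsm _ (hT₁ v hv)
    have hs₂m := hsm _ (hT₂ v hv)
    have hjt₁ := hjt C₀ κ M E (Ng (ζ v)) (G (ζ v)) (w (ζ v))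
      (F (ζ v)) hC₀ hκ hM hE (hTri v hv) (hEN v hv)
    have hval : ∀ s ∈ Set.Icc (0 : ℝ) 1, ∀ k, |MvPolynomial.eval (ltW W (A' (lw v)) (B' (lw v)) s)
        (pN k (Q (ζ v)))| ≤ aL W (A' (lw v)) (B' (lw v)) (Q (ζ v)) k := by
      intro s hs k
      have h1 := le_sp (lq (A' (lw v)) (fun o => W * B' (lw v) o) (pN k (Q (ζ v)))) hs
      rw [eval_lq] at h1
      exact h1
    have hapos : ∀ k, 0 ≤ aL W (A' (lw v)) (B' (lw v)) (Q (ζ v)) k := fun k => sp_nonneg _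
    have ha₂ : ∀ k ≤ D, aL W (A' (lw v)) (B' (lw v)) (Q (ζ v)) k ≤
        H * |MvPolynomial.eval (ltW W (A' (lw v)) (B' (lw v)) ((T₂ v : ℝ) / ((W * M : ℕ) : ℝ)))
          (pN k (Q (ζ v)))| := by
      intro k hk
      have h1 := hconv (aL W (A' (lw v)) (B' (lw v)) (Q (ζ v)) k)
        |MvPolynomial.eval (ltW W (A' (lw v)) (B' (lw v)) ((T₂ v : ℝ) / ((W * M : ℕ) : ℝ)))
          (pN k (Q (ζ v)))| (sp_nonneg _) (abs_nonneg _) (by
          intro h0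
          by_contra hcon
          refine g5 ⟨⟨k, by omega⟩, h0, ?_⟩
          rw [eval_lq]
          exact not_lt.mp hcon)
      exact h1.trans (mul_le_mul_of_nonneg_right hH3 (abs_nonneg _))
    have hvr : ∀ R : MvPolynomial (Option (Fin d)) ℝ, R.totalDegree ≤ D →
        ∀ y : Option (Fin d) → ℝ,
        (∀ o, |y o - cpt (Φ (ζ v)) (gpos (Ng (ζ v)) (Yb v)) o| ≤ κ / M) →
        |MvPolynomial.eval y R - MvPolynomial.eval (cpt (Φ (ζ v)) (gpos (Ng (ζ v)) (Yb v))) R| ≤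
          KK * nj D M (Φ (ζ v)) (1 / E) R := fun R hR y hy =>
      ((hjt₁ R hR _ hgp₁).2 y hy).trans (mul_le_mul_of_nonneg_right hkk
        (nj_nonneg D M _ (by positivity) R))
    have htyp : ∀ k ≤ D, 0 < csC (Φ (ζ v)) (pN k (Q (ζ v))) → ∃ y : Option (Fin d) → ℝ,
        (∀ o, |y o - cpt (Φ (ζ v)) (gpos (Ng (ζ v)) (Yb v)) o| ≤ κ / M) ∧
        csC (Φ (ζ v)) (pN k (Q (ζ v))) ≤ H * |MvPolynomial.eval y (pN k (Q (ζ v)))| := by
      intro k hk hpos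
      have h1 : ¬ ∀ u ∈ gcell (Ng (ζ v)) (Yb v),
          |MvPolynomial.eval u (MvPolynomial.bind₁ (Φ (ζ v)) (pN k (Q (ζ v))))| ≤
          Real.exp (-h) * cs (fun _ => 0) 1
            (MvPolynomial.bind₁ (Φ (ζ v)) (pN k (Q (ζ v)))) := fun h2 =>
        g3 ⟨⟨k, by omega⟩, hpos, h2⟩
      push Not at h1
      obtain ⟨u, hu, hu2⟩ := h1
      have hu' := gcell_sub (hYlt v hv) hu
      refine ⟨cpt (Φ (ζ v)) u, ?_, ?_⟩
      · intro o
        refine (hch v hv).step u hu' _ hgp₁ ?_ o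
        intro i
        obtain ⟨h3, h4⟩ := hu i
        have h5 : ((Yb v i : ℝ) + 1) / Ng (ζ v) i =
            (Yb v i : ℝ) / Ng (ζ v) i + 1 / Ng (ζ v) i := by ring
        have h6 : gpos (Ng (ζ v)) (Yb v) i = (Yb v i : ℝ) / Ng (ζ v) i := rfl
        rw [h6, abs_of_nonneg (by linarith)]
        linarith
      · rw [eval_bind] at hu2
        have h3 : csC (Φ (ζ v)) (pN k (Q (ζ v))) ≤
            Real.exp h * |MvPolynomial.eval (cpt (Φ (ζ v)) u) (pN k (Q (ζ v)))| := by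
          have h4 : csC (Φ (ζ v)) (pN k (Q (ζ v))) = Real.exp h *
              (Real.exp (-h) * csC (Φ (ζ v)) (pN k (Q (ζ v)))) := by
            rw [← mul_assoc, ← Real.exp_add, add_neg_cancel, Real.exp_zero, one_mul]
          rw [h4]
          exact mul_le_mul_of_nonneg_left hu2.le heh.le
        refine h3.trans (mul_le_mul_of_nonneg_right ?_ (abs_nonneg _))
        linarith
    have hl₁ : ∀ o, |ltW W (A' (lw v)) (B' (lw v)) ((T₁ v : ℝ) / ((W * M : ℕ) : ℝ)) o -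
        cpt (Φ (ζ v)) (gpos (Ng (ζ v)) (Yb v)) o| ≤ κ / M := fun o => by
      rw [hltW]
      exact hnr v hv o
    have haD : ∀ k, D < k → aL W (A' (lw v)) (B' (lw v)) (Q (ζ v)) k = 0 := fun k hk => by
      unfold aL
      rw [pN_eq_zero k D (hQ₁ v hv) hk, lq_zero, sp_zero]
    obtain ⟨h1, h2⟩ := bridge (D := D) (M := M) (Φ₁ := Φ (ζ v))
      (Φ₂ := fun o => MvPolynomial.C (cpt (Φ (ζ v)) (gpos (Ng (ζ v)) (Yb v)) o))
      (E := E) (H := H) (L := L) (Λ := Λ) (KK := KK) (κ := κ) (ρ := ρ (ζ v))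
      (a := aL W (A' (lw v)) (B' (lw v)) (Q (ζ v)))
      (lt := ltW W (A' (lw v)) (B' (lw v))) (t₁ := (T₁ v : ℝ) / ((W * M : ℕ) : ℝ))
      (t₂ := (T₂ v : ℝ) / ((W * M : ℕ) : ℝ)) (u₁ := gpos (Ng (ζ v)) (Yb v))
      (y₁ := cpt (Φ (ζ v)) (gpos (Ng (ζ v)) (Yb v)))
      (y₂ := cpt (Φ (ζ v)) (gpos (Ng (ζ v)) (Yb v)))
      hM hE hH1 hL hΛ hKK1 hκ (hρ v hv).1 (hρ v hv).2 (hQj v hv _ rfl).1 (hQ₁ v hv) hgp₁
      (fun R hR => ((hjt₁ R hR _ hgp₁).1).trans (mul_le_mul_of_nonneg_right hkk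
        (nj_nonneg D M _ zero_le_one R)))
      hvr
      (fun o => by
        rw [sub_self, abs_zero]
        positivity)
      hl₁ hapos haD
      (fun k _ => hval _ hs₁m k)
      (by
        have h1 := hconv (aL W (A' (lw v)) (B' (lw v)) (Q (ζ v)) 0)
          |MvPolynomial.eval (ltW W (A' (lw v)) (B' (lw v)) ((T₁ v : ℝ) / ((W * M : ℕ) : ℝ)))
            (Q (ζ v))| (sp_nonneg _) (abs_nonneg _) (by
            intro h0
            by_contra hcon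
            refine g4 ⟨h0, ?_⟩
            rw [eval_lq]
            exact not_lt.mp hcon)
        exact h1.trans (mul_le_mul_of_nonneg_right hH3 (abs_nonneg _)))
      ha₂ htyp
      (by
        intro m hm u hu
        have e1 : cpt (fun o => MvPolynomial.C (cpt (Φ (ζ v)) (gpos (Ng (ζ v)) (Yb v)) o)) u =
            cpt (Φ (ζ v)) (gpos (Ng (ζ v)) (Yb v)) := by
          funext o
          simp [cpt]
        rw [e1]
        exact le_mul_of_one_le_left (Psi_nonneg (pN m (Q (ζ v))) (κ / M)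
          (cpt (Φ (ζ v)) (gpos (Ng (ζ v)) (Yb v)))) hH1)
      (by
        intro m hm
        exact le_mul_of_one_le_left (Psi_nonneg (pN m (Q (ζ v))) (κ / M)
          (cpt (Φ (ζ v)) (gpos (Ng (ζ v)) (Yb v)))) hH1)
      rfl (hQj v hv _ rfl).2.1 (hQj v hv _ rfl).2.2 hKL
    obtain ⟨k, hk⟩ := h1
    obtain ⟨b1, b2, _, _⟩ := h2 k hk
    have hθ0 := bth_nonneg D hKK1 hH1 hL hΛ (hρ v hv).1
    have hB1 : 1 ≤ C₁' * C₀ ^ (2 * d) := one_le_mul_of_one_le_of_one_le hC₁' hC₀d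
    have hBK : C₁' * C₀ ^ (2 * d) ≤ KK := by
      have h3 : C₁' ≤ C := by
        rw [hC]
        linarith
      have h4 : C₁' * C₀ ^ (2 * d) ≤ C * κ * C₀ ^ (2 * d) :=
        mul_le_mul_of_nonneg_right (h3.trans (le_mul_of_one_le_right (by linarith) hκ))
          (by positivity)
      refine h4.trans (le_trans ?_ hKK)
      exact le_self_pow₀ (hB1.trans h4) (by omega)
    refine ⟨k, hk, ⟨hk.1, b1, (hval _ hs₂m k).trans b2, ?_⟩, ?_⟩
    · intro m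
      calc |MvPolynomial.eval (ltW W (A' (lw v)) (B' (lw v)) ((T₂ v : ℝ) / ((W * M : ℕ) : ℝ)))
            (pN (k + 1 + m) (Q (ζ v)))| * bth D KK H L Λ (ρ (ζ v)) (k + 1) ^ m ≤
            aL W (A' (lw v)) (B' (lw v)) (Q (ζ v)) (k + 1 + m) *
              bth D KK H L Λ (ρ (ζ v)) (k + 1) ^ m :=
            mul_le_mul_of_nonneg_right (hval _ hs₂m _) (pow_nonneg (hθ0 _) _)
        _ ≤ aL W (A' (lw v)) (B' (lw v)) (Q (ζ v)) (k + 1) := hk.2.2.2 m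
        _ ≤ _ := ha₂ (k + 1) hk.1
    · refine grad_pt hM hE hH1 hL hΛ hKK1 hκ (hρ v hv).1 (hρ v hv).2 (hQ₁ v hv)
        (fun R hR => ((hjt₁ R hR _ hgp₁).1).trans (mul_le_mul_of_nonneg_right hkk
          (nj_nonneg D M _ zero_le_one R))) hvr htyp hKL hl₁ (by linarith) hBK
        (hjst C₀ M E (Ng (ζ v)) (G (ζ v)) (w (ζ v)) (F (ζ v)) hC₀ hM (by linarith)
          (hTri v hv) (hEN v hv)) hapos (fun k => hval _ hs₁m k) hk (ha₂ (k + 1) hk.1) ?_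
      intro o i hi
      have h3 := le_sp (lq (A' (lw v)) (fun o => W * B' (lw v) o)
        (MvPolynomial.pderiv o (pN i (Q (ζ v))))) hs₂m
      rw [eval_lq] at h3
      have h4 := hconv (sp (lq (A' (lw v)) (fun o => W * B' (lw v) o)
          (MvPolynomial.pderiv o (pN i (Q (ζ v))))))
        |MvPolynomial.eval (ltW W (A' (lw v)) (B' (lw v)) ((T₁ v : ℝ) / ((W * M : ℕ) : ℝ)))
          (MvPolynomial.pderiv o (pN i (Q (ζ v))))|
        (sp_nonneg _) (abs_nonneg _) (by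
        intro h0
        by_contra hcon
        refine g6 ⟨(o, ⟨i, by omega⟩), h0, ?_⟩
        rw [eval_lq]
        exact not_lt.mp hcon)
      exact h3.trans (h4.trans (mul_le_mul_of_nonneg_right hH3 (abs_nonneg _)))
  have hfin := ms_le hr0 hsub
  refine hfin.trans ?_
  have h1 := ms_or hr0 P3 (fun v => P4 v ∨ P5 v ∨ P6 v)
  have h2 := ms_or hr0 P4 (fun v => P5 v ∨ P6 v)
  have h2' := ms_or hr0 P5 P6
  have hX0 : 0 ≤ X / h := div_nonneg (by linarith) hh.le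
  have hm0 : 0 ≤ (1 + μ) / h := div_nonneg (by linarith) hh.le
  have e0 : (Cu * X + C * (1 + μ)) / h = Cu * (X / h) + C * ((1 + μ) / h) := by ring
  rw [e0]
  have e3 : K₃ * (1 + μ) / h = K₃ * ((1 + μ) / h) := by ring
  have e4 : K₄ * X / h = K₄ * (X / h) := by ring
  have e5 : K₂ * X / h = K₂ * (X / h) := by ring
  have e6 : K₆ * X / h = K₆ * (X / h) := by ring
  rw [e3] at b3
  rw [e4] at b4
  rw [e5] at b5
  rw [e6] at b6
  have h3 : K₃ * ((1 + μ) / h) ≤ C * ((1 + μ) / h) := by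
    refine mul_le_mul_of_nonneg_right ?_ hm0
    rw [hC]
    linarith
  have h4 : (K₄ + K₂ + K₆) * (X / h) ≤ Cu * (X / h) := by
    refine mul_le_mul_of_nonneg_right ?_ hX0
    rw [hCu]
    linarith
  linarith

end Pool.GEO
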