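import Pool.Agent.H5.GEO.LineW
import Pool.Agent.H5.GEO.Lv2
import Pool.Agent.H86.GEO.Def

/-!
# The equation of the label of the second sample along the line of the first one, with the gradient

As `line_law`, `line_w` (LineW.lean), with the gradient (`GrR`) and with the constant of the times
independent of the degree of the labels.
-/

set_option autoImplicit false

namespace Pool.GEO

open Finset Real MvPolynomial
open Pool.Agent.H49.Ent Pool.Agent.H32.Dense Pool.STK Pool.KAF Pool.KAL Pool.KS3 Pool.M3F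
open Pool.KJA Pool.KA Pool.K2S Pool.KSAT Pool.PB Pool.STAT Pool.GEN Pool.IEN Pool.CLO37
open Pool.KM7 Pool.S6C Pool.JPN

variable {m J : ℕ} {F : Fam m J}

/-- The two notations of the exact point. -/
theorem xpt_xte (c : ℕ → Fin m) (k W P₀ sg : ℕ) (hWP : W ≤ P₀) (hPJ : P₀ ≤ J) (ω : F.Ω) :
    xpt F c k W sg P₀ ω = xte c k W P₀ sg F ω := by
  have h1 := ltW_xpt (F := F) c k W W P₀ sg le_rfl hWP hPJ ω
  have h2 := xte_win (F := F) c k sg (W₀ := W) le_rfl hWP hPJ ω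
  rw [← h1, ← h2]
  have e1 : ((2 ^ (W - W) * 2 ^ (P₀ - W) : ℕ) : ℝ) = ((2 ^ (P₀ - W) : ℕ) : ℝ) := by
    rw [Nat.sub_self, pow_zero, one_mul]
  rw [e1]
  rfl

/-- **The equation along the line, for a law of pairs, with the gradient.** -/
theorem line_law2 (r D : ℕ) : ∃ Cu : ℝ, 1 ≤ Cu ∧ ∀ K : ℕ, ∃ C : ℝ, 1 ≤ C ∧
    ∀ {m J : ℕ} {F : Fam m J} {c : ℕ → Fin m}
    {W0 W1 sg : ℕ} {g : ℕ → ℕ} {L : ℝ} {A : F.Ω → Prop} {V : Type} {z : PtT F → V}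
    {z' : LnT F → V} {P : V → ℕ → PN} {P₀ kap : ℕ}
    (Qh : V → MvPolynomial (Option (Fin (r + 1))) ℝ) (ρ : V → ℝ) (R : F.Ω × F.Ω → ℝ)
    (h E H KK L' Λ μ δ₁ δ₂ : ℝ),
    NLabW F c r W1 sg g K L A z z' P → 0 ≤ L → 0 < law F.p A True → W0 ≤ W1 → W1 ≤ P₀ →
    P₀ ≤ J → P₀ ≤ g r → (∀ i < r + 1, W1 ≤ wid W1 g i + kap ∧ wid W1 g i ≤ P₀) →
    (∀ ω, A ω → CsQ r D W1 P₀ g (P (z (ptr F J ω))) (Qh (z (ptr F J ω))) (ρ (z (ptr F J ω)))) →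
    (∀ ω, A ω → 1 ≤ ((2 ^ (P₀ - W1) : ℕ) : ℝ) * ρ (z (ptr F J ω))) →
    (∀ i, E ≤ ngw W1 P₀ g (r + 1) i) → 1 ≤ E → 1 ≤ L' → 1 ≤ Λ → IsLaw R →
    (∀ e, 0 < R e → 0 < Pool.Agent.H49.Ent.cond F.p A True e.2 ∧
      slam F W0 e.1 = slam F W0 e.2) →
    ∑ i, Real.log (ngw W1 P₀ g (r + 1) i) -
      CH R (fun e => ybw c r W1 P₀ g (P (z (ptr F J e.2))) (ptr F J e.2))
        (fun e => z (ptr F J e.2)) ≤ μ → 0 ≤ μ →
    Real.log ((2 ^ (P₀ - W0) : ℕ) : ℝ) - CH R (fun e => tdg W0 P₀ (ptr F J e.2))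
      (fun e => (slam F W0 e.1, z (ptr F J e.2))) ≤ δ₁ →
    Real.log ((2 ^ (P₀ - W0) : ℕ) : ℝ) - CH R (fun e => tdg W0 P₀ (ptr F J e.1))
      (fun e => (slam F W0 e.1, z (ptr F J e.2))) ≤ δ₂ →
    0 < h → C * Real.exp h ≤ ((2 ^ (P₀ - W1) : ℕ) : ℝ) → C * Real.exp h ≤ H →
    (C * (clC r kap L + 2) * ctC r kap L ^ (2 * (r + 1))) ^ (D + 1) ≤ KK →
    4 * KK * (1 / E + D / L') * H ≤ 1 →
    ms R (fun e => ¬ ∃ k, Gap D (aL (2 ^ (W1 - W0)) (avp c r W0 W1 sg (slam F W0 e.1))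
          (bvw c r sg (slam F W0 e.1)) (Qh (z (ptr F J e.2))))
        (bth D KK H L' Λ (ρ (z (ptr F J e.2)))) k ∧
      LnR D (Qh (z (ptr F J e.2))) H (bth D KK H L' Λ (ρ (z (ptr F J e.2))))
        (xpt F c r W1 sg P₀ e.1) k ∧
      GrR (2 ^ (P₀ - W1)) (Qh (z (ptr F J e.2))) (bgr D KK H L') E
        (bth D KK H L' Λ (ρ (z (ptr F J e.2)))) (xpt F c r W1 sg P₀ e.1) k) ≤
      (Cu * (1 + δ₁ + δ₂) + C * (1 + μ)) / h := by
  classical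
  obtain ⟨Cu, hCu, hev0⟩ := line_ev2 (r + 1) D
  refine ⟨Cu, hCu, fun K => ?_⟩
  obtain ⟨C, hC, hev⟩ := hev0 ((K + 1) ^ (r + 1 + 1))
  refine ⟨C, hC, ?_⟩
  intro m J F c W0 W1 sg g L A V z z' P P₀ kap Qh ρ R h E H KK L' Λ μ δ₁ δ₂ hN hL hA hW hWP hPJ
    hgP hw hQ hρM hE hE1 hL'1 hΛ hR hsup hμ hμ0 hδ₁ hδ₂ hh hhM hhH hKK hKL
  obtain ⟨M, hM⟩ : ∃ M : ℕ, M = 2 ^ (P₀ - W1) := ⟨_, rfl⟩
  have hWM : 2 ^ (P₀ - W0) = 2 ^ (W1 - W0) * M := by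
    rw [hM, ← pow_add]
    congr 1
    omega
  have hcl := cleaf_w (kap := kap) hN hL hA hPJ hWP hgP hw
  have hMpos : (0 : ℝ) < M := by
    rw [hM]
    positivity
  have hsp : ∀ ω, 0 < Pool.Agent.H49.Ent.cond F.p A True ω → A ω := fun ω hω => cond_supp hω
  have hct := ctC_ge (r := r) (kap := kap) hL
  have hcl2 := clC_ge (r := r) (kap := kap) hL
  rw [← hM] at hcl hρM hhM ⊢
  have hkey := hev (ctC r kap L) (clC r kap L + 2) (F.Ω × F.Ω) V (LnT F) R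
    (fun e => z (ptr F J e.2)) (fun e => slam F W0 e.1)
    (fun e => ybw c r W1 P₀ g (P (z (ptr F J e.2))) (ptr F J e.2))
    (fun _ => ngw W1 P₀ g (r + 1))
    (fun v i => bind₁ (nchi M (ngw W1 P₀ g (r + 1)) (gsh (r + 1) W1 P₀ g (P v)) 0)
      (gsh (r + 1) W1 P₀ g (P v) i) + MvPolynomial.C (ncor M (ngw W1 P₀ g (r + 1)) 0 i))
    (fun _ => nwid M (ngw W1 P₀ g (r + 1)))
    (fun v => bind₁ (nchi M (ngw W1 P₀ g (r + 1)) (gsh (r + 1) W1 P₀ g (P v)) 0)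
      (toF (r + 1) W1 (P v (r + 1))))
    M (2 ^ (W1 - W0)) (avp c r W0 W1 sg) (bvw c r sg)
    (fun e => tdg W0 P₀ (ptr F J e.2)) (fun e => tdg W0 P₀ (ptr F J e.1)) Qh ρ h E H KK L' Λ μ
    hct (by linarith) (by rw [hM]; exact Nat.one_le_two_pow) Nat.one_le_two_pow hE1 hL'1 hΛ hR
    ?_ ?_ ?_ ?_ ?_ hμ0 ?_ ?_ ?_ ?_ ?_ ?_ hh hhM hhH hKK hKL
  · rw [← hWM] at hkey
    simp only [fun e : F.Ω × F.Ω => ltW_xpt (F := F) c r W0 W1 P₀ sg hW hWP hPJ e.1] at hkey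
    refine hkey.trans ?_
    refine div_le_div_of_nonneg_right (add_le_add (mul_le_mul_of_nonneg_left ?_
      (by linarith)) le_rfl) hh.le
    linarith
  · intro e he
    have h1 := tri_chw hN hL hWP hw (hsp _ (hsup e he).1)
    rw [← hM] at h1
    exact h1
  · intro e he
    have h1 := tri_chw hN hL hWP hw (hsp _ (hsup e he).1)
    rw [← hM] at h1
    have h2 := h1.chartOK hct (by rw [hM]; exact Nat.one_le_two_pow)
    refine chartOK_mono h2 ?_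
    rw [clC_eq]
    have : (2 * ((r + 1 : ℕ) : ℝ) + 1) *
        (2 ^ (kap + 2) * (1 + ((r + 1 : ℕ) : ℝ) * L) ^ (r + 1 + 1)) ^ 2 =
      (2 * ((r + 1 : ℕ) : ℝ) + 1) * ctC r kap L ^ 2 := rfl
    linarith
  · intro e _ i
    exact hE i
  · intro e he i
    exact hcl.lt e.2 (hsup e he).1 i
  · rw [Ex_const hR.sum_one]
    exact hμ
  · intro e _
    rw [← hWM]
    exact Nat.mod_lt _ (by positivity)
  · intro e _
    rw [← hWM]
    exact Nat.mod_lt _ (by positivity)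
  · intro e he o
    obtain ⟨h1, h2⟩ := hsup e he
    have h3 := near_p (F := F) c r W0 W1 P₀ sg hW hWP hPJ e.2 o
    have h4 := hcl.near e.2 h1 o
    rw [← hM] at h3
    rw [h2]
    have h5 : |(avp c r W0 W1 sg (slam F W0 e.2) o + (tdg W0 P₀ (ptr F J e.2) : ℝ) / M *
        bvw c r sg (slam F W0 e.2) o) - zsw c r W1 sg (ptr F J e.2) o| ≤ 2 / M := by
      rw [abs_sub_comm]
      exact h3
    have h6 := abs_sub_le (avp c r W0 W1 sg (slam F W0 e.2) o +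
      (tdg W0 P₀ (ptr F J e.2) : ℝ) / M * bvw c r sg (slam F W0 e.2) o)
      (zsw c r W1 sg (ptr F J e.2) o) (cpt (chw (r + 1) W1 P₀ g (P (z (ptr F J e.2))))
        (gpos (ngw W1 P₀ g (r + 1)) (ybw c r W1 P₀ g (P (z (ptr F J e.2))) (ptr F J e.2))) o)
    have h7 : (clC r kap L + 2) / (M : ℝ) = 2 / M + clC r kap L / M := by ring
    rw [h7]
    have h8 : triC (fun i => bind₁ (nchi M (ngw W1 P₀ g (r + 1))
        (gsh (r + 1) W1 P₀ g (P (z (ptr F J e.2)))) 0)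
        (gsh (r + 1) W1 P₀ g (P (z (ptr F J e.2))) i) +
          MvPolynomial.C (ncor M (ngw W1 P₀ g (r + 1)) 0 i))
        (nwid M (ngw W1 P₀ g (r + 1)))
        (bind₁ (nchi M (ngw W1 P₀ g (r + 1)) (gsh (r + 1) W1 P₀ g (P (z (ptr F J e.2)))) 0)
          (toF (r + 1) W1 (P (z (ptr F J e.2)) (r + 1)))) =
        chw (r + 1) W1 P₀ g (P (z (ptr F J e.2))) := by
      rw [hM]
      rfl
    rw [h8]
    exact h6.trans (add_le_add h5 h4)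
  · intro e he
    exact (hQ _ (hsp _ (hsup e he).1)).deg
  · intro e he
    have h1 := hρM _ (hsp _ (hsup e he).1)
    refine ⟨?_, h1⟩
    by_contra h2
    have h3 : (M : ℝ) * ρ (z (ptr F J e.2)) ≤ 0 :=
      mul_nonpos_of_nonneg_of_nonpos hMpos.le (not_lt.1 h2)
    linarith
  · intro e he Φ hΦ
    have h1 := hQ _ (hsp _ (hsup e he).1)
    have h8 : Φ = chw (r + 1) W1 P₀ g (P (z (ptr F J e.2))) := by
      rw [hΦ, hM]
      rfl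
    rw [h8]
    exact ⟨h1.pos, h1.low, h1.high⟩

/-- **The equation along the line, in a class.** `A`: the event of the label at the window `w₁`;
`R`: a law of pairs of bounded density. -/
theorem line_w2 (r D : ℕ) : ∃ Cu : ℝ, 1 ≤ Cu ∧ ∀ K : ℕ, ∃ C : ℝ, 1 ≤ C ∧
    ∀ {m : ℕ} {S : PCl m},
    (∀ (τ : ℝ) (J : ℕ) (F : Fam m J) (A : F.Ω → Prop), S.St τ J F A →
      F.Tr ∧ F.Tm (τ * J) ∧ F.Rb (τ * J) ∧ Real.exp (-(τ * J)) ≤ Pe F.p A) →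
    ∀ {c : ℕ → Fin m} {w₀ w₁ : ℝ} {g : ℕ → ℝ}, 0 ≤ w₀ → w₀ ≤ w₁ → w₁ ≤ 1 →
    (∀ ρ : ℝ, 0 < ρ → ExvY S w₁ (fun J F ω (i : Fin r) => F.X J ω (c i))
      ((∑ l ∈ range r, (1 - g l)) - ρ)) →
    ∀ {C₀ : ℝ}, 1 ≤ C₀ → ∀ {δ : ℝ}, 0 < δ → ∃ φ : ℝ, 0 < φ ∧ Bas S (fun J F A =>
      ∀ (P₀ : ℕ) (g' : ℕ → ℕ) (sg kap : ℕ) (L : ℝ) (V : Type) (z : PtT F → V) (z' : LnT F → V)
        (P : V → ℕ → PN) (Qh : V → MvPolynomial (Option (Fin (r + 1))) ℝ) (ρ : V → ℝ)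
        (R : F.Ω × F.Ω → ℝ) (h E H KK L' Λ : ℝ),
        (∀ l < r, (g l - φ) * J ≤ g' l) → ⌊w₁ * J⌋₊ ≤ P₀ → P₀ ≤ J → P₀ ≤ g' r →
        (∀ i < r + 1, ⌊w₁ * J⌋₊ ≤ wid ⌊w₁ * J⌋₊ g' i + kap ∧ wid ⌊w₁ * J⌋₊ g' i ≤ P₀) →
        NLabW F c r ⌊w₁ * J⌋₊ sg g' K L A z z' P → 0 ≤ L →
        (∀ ω, A ω → CsQ r D ⌊w₁ * J⌋₊ P₀ g' (P (z (ptr F J ω))) (Qh (z (ptr F J ω)))
          (ρ (z (ptr F J ω)))) →
        (∀ ω, A ω → 1 ≤ ((2 ^ (P₀ - ⌊w₁ * J⌋₊) : ℕ) : ℝ) * ρ (z (ptr F J ω))) →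
        IsLaw R →
        (∀ e, R e ≤ C₀ * P2 (Pool.Agent.H49.Ent.cond F.p A True) (slam F ⌊w₀ * J⌋₊) e) →
        (∀ i, E ≤ ngw ⌊w₁ * J⌋₊ P₀ g' (r + 1) i) → 1 ≤ E → 1 ≤ L' → 1 ≤ Λ →
        0 < h → C * Real.exp h ≤ ((2 ^ (P₀ - ⌊w₁ * J⌋₊) : ℕ) : ℝ) → C * Real.exp h ≤ H →
        (C * (clC r kap L + 2) * ctC r kap L ^ (2 * (r + 1))) ^ (D + 1) ≤ KK →
        4 * KK * (1 / E + D / L') * H ≤ 1 →
        ms R (fun e => ¬ ∃ k, Gap D (aL (2 ^ (⌊w₁ * J⌋₊ - ⌊w₀ * J⌋₊))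
              (avp c r ⌊w₀ * J⌋₊ ⌊w₁ * J⌋₊ sg (slam F ⌊w₀ * J⌋₊ e.1))
              (bvw c r sg (slam F ⌊w₀ * J⌋₊ e.1)) (Qh (z (ptr F J e.2))))
            (bth D KK H L' Λ (ρ (z (ptr F J e.2)))) k ∧
          LnR D (Qh (z (ptr F J e.2))) H (bth D KK H L' Λ (ρ (z (ptr F J e.2))))
            (xpt F c r ⌊w₁ * J⌋₊ sg P₀ e.1) k ∧
          GrR (2 ^ (P₀ - ⌊w₁ * J⌋₊)) (Qh (z (ptr F J e.2))) (bgr D KK H L') E
            (bth D KK H L' Λ (ρ (z (ptr F J e.2)))) (xpt F c r ⌊w₁ * J⌋₊ sg P₀ e.1) k) ≤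
          (Cu * (1 + ((⌊w₁ * J⌋₊ - ⌊w₀ * J⌋₊ : ℕ) : ℝ) * Real.log 2) + δ * J) / h) := by
  classical
  obtain ⟨Cu, hCu, hlaw0⟩ := line_law2 r D
  refine ⟨Cu, hCu, fun K => ?_⟩
  obtain ⟨C, hC, hlaw⟩ := hlaw0 K
  refine ⟨C, hC, ?_⟩
  intro m S hmem c w₀ w₁ g hw0 hw01 hw1 hex C₀ hC₀ δ hδ
  have hl2 : 0 < Real.log 2 := Real.log_pos one_lt_two
  obtain ⟨δ', hδ'⟩ : ∃ δ' : ℝ, δ' = δ / (6 * (C₀ * (Cu + C))) := ⟨_, rfl⟩
  have hCC : 0 < C₀ * (Cu + C) := by positivity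
  have hδ'0 : 0 < δ' := by
    rw [hδ']
    positivity
  have hδC : C₀ * (Cu + C) * δ' = δ / 6 := by
    rw [hδ']
    field_simp
  obtain ⟨N₀, φ, hφ, hmx⟩ := mxc_w r hmem (c := c) (g := g) (hw0.trans hw01) hw1 hex hδ'0
  refine ⟨φ, hφ, ?_⟩
  obtain ⟨J₁, hJ₁⟩ := exists_nat_gt (6 * (C₀ * (Cu + C)) / δ)
  have hpos : Bas S (fun J F A => 0 < Pe F.p A) :=
    ⟨1, one_pos, 0, fun J _ F A h => lt_of_lt_of_le (Real.exp_pos _) (hmem _ J F A h).2.2.2⟩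
  refine (((tdg_w hmem w₀ hδ'0).and (tdg_w hmem w₁ hδ'0)).and (hmx.and hpos)).mono J₁ ?_
  rintro J hJ F A ⟨⟨ht0, ht1⟩, hm, hA⟩
  intro P₀ g' sg kap L V z z' P Qh ρ R h E H KK L' Λ hg hWP hPJ hgP hwd hN hL hQ hρ hR hd hE hE1
    hL'1 hΛ hh hhM hhH hKK hKL
  obtain ⟨W0, hW0⟩ : ∃ W, W = ⌊w₀ * J⌋₊ := ⟨_, rfl⟩
  obtain ⟨W1, hW1⟩ : ∃ W, W = ⌊w₁ * J⌋₊ := ⟨_, rfl⟩
  have hJ0 : (0 : ℝ) ≤ J := Nat.cast_nonneg J
  have hW : W0 ≤ W1 := by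
    rw [hW0, hW1]
    exact Nat.floor_le_floor (mul_le_mul_of_nonneg_right hw01 hJ0)
  have hl := isLaw_cond F.isLaw hA
  rw [← hW1] at hWP hwd hN hQ hρ hE hhM ⊢
  rw [← hW0] at hd ⊢
  have hJδ : 6 * (C₀ * (Cu + C)) ≤ δ * J := by
    have h1 : (J₁ : ℝ) ≤ J := by exact_mod_cast hJ
    have h2 := hJ₁.trans_le h1
    rw [div_lt_iff₀ hδ] at h2
    linarith
  -- the natural digits
  obtain ⟨N, -, hMx⟩ := hm P₀ g' sg K L V z z' P hg (by rw [← hW1]; exact fun i hi => (hwd i hi).2)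
    hPJ (by rw [← hW1]; exact hN)
  rw [← hW1] at hMx
  have hful := hMx.ful (zx := z) (zl := z') (fun ω hω => hN.cls ω (cond_supp hω))
  rw [Ex_const hl.sum_one] at hful
  have hcl := cleaf_w (kap := kap) hN hL hA hPJ hWP hgP hwd
  have hlog : Real.log (((Fintype.piFinset fun i : Fin (r + 1) =>
      Finset.range (ngw W1 P₀ g' (r + 1) i)).card : ℕ) : ℝ) =
      ∑ i, Real.log (ngw W1 P₀ g' (r + 1) i) := by
    rw [Fintype.card_piFinset]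
    push_cast
    rw [Real.log_prod (fun i _ => by
      have := ngw_pos W1 P₀ g' (r + 1) i
      rw [Finset.card_range]
      exact_mod_cast (by omega : ngw W1 P₀ g' (r + 1) i ≠ 0))]
    simp
  have hμ := dens_snd hl hR hC₀ hd
    (fun ω => ybw c r W1 P₀ g' (P (z (ptr F J ω))) (ptr F J ω)) (fun ω => z (ptr F J ω))
    (Fintype.piFinset fun i : Fin (r + 1) => Finset.range (ngw W1 P₀ g' (r + 1) i))
    (fun ω hω => by
      rw [Fintype.mem_piFinset]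
      intro i
      rw [Finset.mem_range]
      exact hcl.lt ω hω i) (θ := δ' * J) (by
      rw [hlog]
      exact hful)
  rw [hlog] at hμ
  -- the times
  have hT0 := ht0 P₀ (by rw [← hW0]; exact hW.trans hWP) hPJ
  have hT1 := ht1 P₀ (by rw [← hW1]; exact hWP) hPJ
  rw [← hW0] at hT0
  rw [← hW1] at hT1
  have hδ₂ := dens_fst hl hR hC₀ hd (fun ω => tdg W0 P₀ (ptr F J ω))
    (Finset.range (2 ^ (P₀ - W0))) (fun ω _ => Finset.mem_range.2 (Nat.mod_lt _ (by positivity)))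
    (θ := δ' * J) (by
      rw [Finset.card_range]
      exact hT0)
  have hδ₁ := dens_snd hl hR hC₀ hd (fun ω => tdg W1 P₀ (ptr F J ω)) (fun ω => slam F W1 ω)
    (Finset.range (2 ^ (P₀ - W1))) (fun ω _ => Finset.mem_range.2 (Nat.mod_lt _ (by positivity)))
    (θ := δ' * J) (by
      rw [Finset.card_range]
      exact hT1)
  rw [Finset.card_range] at hδ₁ hδ₂
  have hsup : ∀ e, 0 < R e → 0 < Pool.Agent.H49.Ent.cond F.p A True e.2 ∧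
      slam F W0 e.1 = slam F W0 e.2 := by
    intro e he
    have h1 : 0 < P2 (Pool.Agent.H49.Ent.cond F.p A True) (slam F W0) e := by
      have h2 := he.trans_le (hd e)
      exact pos_of_mul_pos_right h2 (by linarith)
    have h3 := (P2_pos hl e).1 h1
    exact ⟨h3.2.1, h3.2.2⟩
  have hδ₂' : CH R (fun e => tdg W0 P₀ (ptr F J e.1)) (fun e => e.2) ≤
      CH R (fun e => tdg W0 P₀ (ptr F J e.1)) (fun e => (slam F W0 e.1, z (ptr F J e.2))) := by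
    refine CH_mono_cond hR.nonneg ?_
    intro e e' he he' h1
    have h2 : e.2 = e'.2 := h1
    refine Prod.ext ?_ ?_
    · change slam F W0 e.1 = slam F W0 e'.1
      rw [(hsup e he).2, (hsup e' he').2, h2]
    · change z (ptr F J e.2) = z (ptr F J e'.2)
      rw [h2]
  have hδ₁' : CH R (fun e => tdg W1 P₀ (ptr F J e.2)) (fun e => slam F W1 e.2) ≤
      CH R (fun e => tdg W0 P₀ (ptr F J e.2)) (fun e => (slam F W0 e.1, z (ptr F J e.2))) := by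
    refine le_trans (b := CH R (fun e => tdg W1 P₀ (ptr F J e.2))
      (fun e => (slam F W0 e.1, z (ptr F J e.2)))) ?_ ?_
    · refine CH_mono_cond hR.nonneg ?_
      intro e e' he he' h1
      have h2 : slam F W1 e.2 = slam F W1 e'.2 := h1
      refine Prod.ext ?_ ?_
      · change slam F W0 e.1 = slam F W0 e'.1
        rw [(hsup e he).2, (hsup e' he').2]
        exact slam_of hW (hWP.trans hPJ) h2
      · change z (ptr F J e.2) = z (ptr F J e'.2)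
        rw [hN.cls _ (cond_supp (hsup e he).1), hN.cls _ (cond_supp (hsup e' he').1), h2]
    · refine CH_mono_left hR.nonneg fun e e' _ _ h1 => ?_
      have h2 : tdg W0 P₀ (ptr F J e.2) = tdg W0 P₀ (ptr F J e'.2) := (Prod.ext_iff.1 h1).1
      change tdg W1 P₀ (ptr F J e.2) = tdg W1 P₀ (ptr F J e'.2)
      rw [tdg_mod W0 W1 P₀ hW hWP, tdg_mod W0 W1 P₀ hW hWP, h2]
  have hlogW : Real.log ((2 ^ (P₀ - W0) : ℕ) : ℝ) =
      Real.log ((2 ^ (P₀ - W1) : ℕ) : ℝ) + ((W1 - W0 : ℕ) : ℝ) * Real.log 2 := by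
    push_cast
    rw [Real.log_pow, Real.log_pow, ← add_mul]
    congr 1
    have : P₀ - W0 = P₀ - W1 + (W1 - W0) := by omega
    rw [this]
    push_cast
    ring
  have hkey := hlaw (kap := kap) Qh ρ R h E H KK L' Λ (C₀ * (δ' * J + Real.log 2))
    (((W1 - W0 : ℕ) : ℝ) * Real.log 2 + C₀ * (δ' * J + Real.log 2))
    (C₀ * (δ' * J + Real.log 2)) hN hL hA hW hWP hPJ hgP hwd hQ hρ hE hE1 hL'1 hΛ hR hsup hμ
    (by positivity) (by rw [hlogW]; linarith) (by linarith) hh hhM hhH hKK hKL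
  refine hkey.trans (div_le_div_of_nonneg_right ?_ hh.le)
  obtain ⟨a, ha⟩ : ∃ a, a = C₀ * (δ' * J + Real.log 2) := ⟨_, rfl⟩
  have ha0 : 0 ≤ a := by
    rw [ha]
    positivity
  rw [← ha]
  -- the small terms
  have hl21 : Real.log 2 ≤ 1 := by
    have := Real.log_two_lt_d9
    linarith
  have e1 : (Cu + C) * a ≤ δ / 6 * J + δ * J / 6 := by
    have e2 : (Cu + C) * a = C₀ * (Cu + C) * δ' * J + C₀ * (Cu + C) * Real.log 2 := by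
      rw [ha]
      ring
    rw [e2, hδC]
    have e3 : C₀ * (Cu + C) * Real.log 2 ≤ C₀ * (Cu + C) * 1 :=
      mul_le_mul_of_nonneg_left hl21 hCC.le
    linarith
  have e4 : C ≤ δ * J / 6 := by
    have h2 : C ≤ C₀ * (Cu + C) := by nlinarith
    linarith
  have e5 : 0 ≤ Cu * a := mul_nonneg (by linarith) ha0
  have e6 : 0 ≤ C * a := mul_nonneg (by linarith) ha0
  have e7 : Cu * (1 + (((W1 - W0 : ℕ) : ℝ) * Real.log 2 + a) + a) + C * (1 + a) =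
      Cu * (1 + ((W1 - W0 : ℕ) : ℝ) * Real.log 2) + (Cu + C) * a + Cu * a + C := by ring
  rw [e7]
  have e8 : (Cu + C) * a = Cu * a + C * a := by ring
  have e9 : 0 ≤ δ * J := by positivity
  linarith

end Pool.GEO
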