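import Pool.Agent.H5.GEO.Inc2
import Pool.Agent.H5.GEO.Rb
import Pool.Agent.H5.GEO.LineW2

/-!
# Small cells of the label of the window `W0` are in the own box of the window `W1`

Two orders of the coordinates. `inc_law`: for one law. `inc_w`: in a class.
-/

set_option autoImplicit false

namespace Pool.GEO

open Finset Real MvPolynomial
open Pool.Agent.H49.Ent Pool.Agent.H32.Dense Pool.STK Pool.KAF Pool.KAL Pool.KS3 Pool.M3F
open Pool.KJA Pool.KA Pool.K2S Pool.KSAT Pool.PB Pool.STAT Pool.GEN Pool.IEN Pool.CLO37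
open Pool.KM7 Pool.S6C Pool.JPN

/-- **A polynomial which is small at typical points is small on the whole cube**, for any family
of polynomials. -/
theorem rb_gen (d E : ℕ) : ∃ C : ℝ, 1 ≤ C ∧
    ∀ (V Γ ι : Type) [Fintype V] [Fintype ι] (r : V → ℝ) (c : V → Γ) (Y : V → Fin d → ℕ)
      (Ng : Γ → Fin d → ℕ) (P : Γ → ι → MvPolynomial (Fin d) ℝ) (T : Γ → ι → ℝ) (κ h : ℝ),
      IsLaw r → 1 ≤ κ → 0 < h → (∀ v, 0 < r v → ∀ i, Y v i < Ng (c v) i) →
      (∀ v, 0 < r v → ∀ i, C * κ * Real.exp h ≤ Ng (c v) i) →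
      (∀ v, 0 < r v → ∀ i, (P (c v) i).totalDegree ≤ E) →
      (∀ v, 0 < r v → ∀ i, ∃ u ∈ ucube d,
        (∀ l, |u l - (Y v l : ℝ) / Ng (c v) l| ≤ κ / Ng (c v) l) ∧
        |eval u (P (c v) i)| ≤ T (c v) i) →
      ms r (fun v => ¬ ∀ u ∈ ucube d, ∀ i, |eval u (P (c v) i)| ≤
          2 * Real.exp h * T (c v) i) ≤
        Fintype.card ι * (C * ((Ex r (fun v => ∑ i, Real.log (Ng (c v) i)) - CH r Y c) + C)) /
          h := by
  classical
  obtain ⟨C₁, hC₁, hrev⟩ := rev d E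
  obtain ⟨C₂, hC₂, hm⟩ := mark d E
  have hd0 : (0 : ℝ) ≤ d := Nat.cast_nonneg d
  have hE0 : (0 : ℝ) ≤ E := Nat.cast_nonneg E
  obtain ⟨C, hC⟩ : ∃ C : ℝ, C = 2 * (E + 1) + C₁ + 4 * d * C₂ + 1 := ⟨_, rfl⟩
  have hdC : 0 ≤ 4 * d * C₂ := by positivity
  have hEC : 0 ≤ 2 * ((E : ℝ) + 1) := by positivity
  have hC1 : 1 ≤ C := by
    rw [hC]
    linarith
  refine ⟨C, hC1, ?_⟩
  intro V Γ ι _ _ r c Y Ng P T κ h hr hκ hh hY hNg hPd hpt
  have hr0 := hr.nonneg
  have hexh := Real.exp_pos h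
  -- the union bound
  have h1 := ms_ex hr0 (fun (i : ι) v => 0 < cs (fun _ => 0) 1 (P (c v) i) ∧
    ∀ u ∈ gcell (Ng (c v)) (Y v), |eval u (P (c v) i)| ≤
      Real.exp (-h) * cs (fun _ => 0) 1 (P (c v) i))
    (fun i => (ms_eq r _ _).le.trans (hrev V Γ r c Y Ng (fun γ => P γ i) h hr hY
      (fun v hv => hPd v hv i) hh))
  have h2 : ms r (fun v => ¬ ∀ u ∈ ucube d, ∀ i, |eval u (P (c v) i)| ≤
          2 * Real.exp h * T (c v) i) ≤
      ms r (fun v => ∃ i : ι, 0 < cs (fun _ => 0) 1 (P (c v) i) ∧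
    ∀ u ∈ gcell (Ng (c v)) (Y v), |eval u (P (c v) i)| ≤
      Real.exp (-h) * cs (fun _ => 0) 1 (P (c v) i)) := by
    refine ms_le hr0 fun v hv h3 => ?_
    by_contra hcon
    push Not at hcon
    apply h3
    intro u hu i
    obtain ⟨w, hw, hwY, hwT⟩ := hpt v hv i
    have hT0 : 0 ≤ T (c v) i := (abs_nonneg _).trans hwT
    have hcs0 : 0 ≤ cs (fun _ => (0 : ℝ)) 1 (P (c v) i) := SML.cs_nonneg _ _ _
    have hle : ∀ u ∈ ucube d, |eval u (P (c v) i)| ≤ cs (fun _ => 0) 1 (P (c v) i) :=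
      fun u hu => SML.le_cs zero_le_one _ (fun l => by
        have := hu l
        constructor <;> linarith [this.1, this.2])
    rcases hcs0.eq_or_lt with h4 | h4
    · refine (hle u hu).trans ?_
      rw [← h4]
      positivity
    · obtain ⟨u', hu', h5⟩ := hcon i h4
      have hu'c := gcell_sub (hY v hv) hu'
      have h6 := hm (P (c v) i) _ (hPd v hv i) hle w hw u' hu'c
      have h7 : ∑ l, |u' l - w l| ≤ d * (2 * κ / (C * κ * Real.exp h)) := by
        have h8 : ∀ l ∈ (univ : Finset (Fin d)), |u' l - w l| ≤ 2 * κ / (C * κ * Real.exp h) := by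
          intro l _
          have hNl := hNg v hv l
          have hCκ : 0 < C * κ * Real.exp h := by positivity
          have hN0 : (0 : ℝ) < Ng (c v) l := lt_of_lt_of_le hCκ hNl
          have h9 := hu' l
          have h10 := abs_le.1 (hwY l)
          have h11 : 1 / (Ng (c v) l : ℝ) ≤ κ / Ng (c v) l :=
            div_le_div_of_nonneg_right hκ hN0.le
          have h12 : ((Y v l : ℝ) + 1) / Ng (c v) l =
              (Y v l : ℝ) / Ng (c v) l + 1 / Ng (c v) l := by ring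
          have h13 : |u' l - w l| ≤ 2 * κ / Ng (c v) l := by
            have e1 : 2 * κ / (Ng (c v) l : ℝ) = κ / Ng (c v) l + κ / Ng (c v) l := by ring
            rw [e1, abs_le]
            have hκ0 : 0 ≤ κ / (Ng (c v) l : ℝ) := by positivity
            constructor <;> linarith [h9.1, h9.2, h10.1, h10.2]
          exact h13.trans (div_le_div_of_nonneg_left (by linarith) hCκ hNl)
        refine (Finset.sum_le_sum h8).trans (le_of_eq ?_)
        rw [Finset.sum_const, card_univ, Fintype.card_fin, nsmul_eq_mul]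
      have h8 : C₂ * cs (fun _ => 0) 1 (P (c v) i) * ∑ l, |u' l - w l| ≤
          1 / 2 * (Real.exp (-h) * cs (fun _ => 0) 1 (P (c v) i)) := by
        have h9 : C₂ * (d * (2 * κ / (C * κ * Real.exp h))) ≤ 1 / 2 * Real.exp (-h) := by
          have e1 : C₂ * (d * (2 * κ / (C * κ * Real.exp h))) =
              (4 * d * C₂) / C * (1 / 2 * Real.exp (-h)) := by
            rw [Real.exp_neg]
            field_simp
            ring
          rw [e1]
          have h10 : (4 * d * C₂) / C ≤ 1 := by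
            rw [div_le_one (by linarith)]
            rw [hC]
            linarith
          have h11 : 0 ≤ 1 / 2 * Real.exp (-h) := by positivity
          nlinarith
        calc C₂ * cs (fun _ => 0) 1 (P (c v) i) * ∑ l, |u' l - w l| ≤
              C₂ * cs (fun _ => 0) 1 (P (c v) i) * (d * (2 * κ / (C * κ * Real.exp h))) :=
              mul_le_mul_of_nonneg_left h7 (by positivity)
          _ = C₂ * (d * (2 * κ / (C * κ * Real.exp h))) * cs (fun _ => 0) 1 (P (c v) i) := by ring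
          _ ≤ 1 / 2 * Real.exp (-h) * cs (fun _ => 0) 1 (P (c v) i) :=
              mul_le_mul_of_nonneg_right h9 hcs0
          _ = _ := by ring
      have h9 : Real.exp (-h) * cs (fun _ => 0) 1 (P (c v) i) ≤
          T (c v) i + 1 / 2 * (Real.exp (-h) * cs (fun _ => 0) 1 (P (c v) i)) := by
        have h10 : |eval u' (P (c v) i)| ≤
            |eval w (P (c v) i)| + |eval u' (P (c v) i) - eval w (P (c v) i)| := by
          have := abs_add_le (eval w (P (c v) i)) (eval u' (P (c v) i) - eval w (P (c v) i))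
          rwa [add_sub_cancel] at this
        linarith [h5.le]
      have h10 : cs (fun _ => 0) 1 (P (c v) i) ≤ 2 * Real.exp h * T (c v) i := by
        have h11 : Real.exp (-h) * cs (fun _ => 0) 1 (P (c v) i) ≤ 2 * T (c v) i := by linarith
        have h12 := mul_le_mul_of_nonneg_left h11 hexh.le
        rw [← mul_assoc, ← Real.exp_add, add_neg_cancel, Real.exp_zero, one_mul] at h12
        linarith
      exact (hle u hu).trans h10
  refine h2.trans (h1.trans ?_)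
  rw [← mul_div_assoc]
  refine div_le_div_of_nonneg_right ?_ hh.le
  have hμ : 0 ≤ Ex r (fun v => ∑ i, Real.log (Ng (c v) i)) - CH r Y c := by
    have h3 := CH_le_card hr0 hr.sum_one Y c (fun γ => Fintype.piFinset (fun i => range (Ng γ i)))
      (fun v hv => by
        rw [Fintype.mem_piFinset]
        intro i
        rw [mem_range]
        exact hY v hv i)
    have h4 : Ex r (fun v => Real.log
        ((Fintype.piFinset (fun i => range (Ng (c v) i))).card : ℝ)) =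
        Ex r (fun v => ∑ i, Real.log (Ng (c v) i)) := by
      unfold Pool.Agent.H32.Dense.Ex
      refine Finset.sum_congr rfl fun v _ => ?_
      rcases (hr0 v).eq_or_lt with h6 | h6
      · rw [← h6]
        simp
      congr 1
      simp only [Fintype.card_piFinset, card_range]
      push_cast
      rw [Real.log_prod]
      intro i _
      have : 0 < Ng (c v) i := lt_of_le_of_lt (Nat.zero_le _) (hY v h6 i)
      positivity
    linarith
  obtain ⟨μ, hμe⟩ : ∃ μ, μ = Ex r (fun v => ∑ i, Real.log (Ng (c v) i)) - CH r Y c := ⟨_, rfl⟩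
  rw [← hμe] at hμ ⊢
  have h3 : 2 * ((E : ℝ) + 1) ≤ C := by
    rw [hC]
    linarith
  have h4 : C₁ ≤ C := by
    rw [hC]
    linarith
  refine mul_le_mul_of_nonneg_left ?_ (Nat.cast_nonneg _)
  calc 2 * ((E : ℝ) + 1) * (μ + C₁) ≤ C * (μ + C) :=
        mul_le_mul h3 (by linarith) (by linarith) (by linarith)

variable {m J : ℕ} {F : Fam m J}

/-- The constants of the system: the time at the beginning of the window. -/
noncomputable def acs (r W : ℕ) (P : ℕ → PN) (i : Fin (r + 1)) : ℝ :=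
  if i.val = 0 then 2 ^ W * eval (fun _ => 0) (P 0) else 0

/-- **The inclusion of the small cells in the own box**, two orders: `ρ`: the coordinate `i` of
the box is the coordinate `ρ i` of the cells. -/
structure InB (F : Fam m J) (c0 : ℕ → Fin m) (r W P : ℕ) (w0 g1 : ℕ → ℕ)
    (ρ : Equiv.Perm (Fin (r + 1))) (G0 : Fin (r + 1) → MvPolynomial (Fin (r + 1)) ℝ)
    (a : Fin (r + 1) → ℝ) (PB : ℕ → PN) (S κ η : ℝ) (ω : F.Ω) : Prop where
  rb : ∀ u ∈ ucube (r + 1), ∀ i, |cbw (r + 1) W P g1 PB u (ρ.symm i) -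
    eval (fun j => cbw (r + 1) W P g1 PB u (ρ.symm j)) (G0 i) - a i| ≤
      S * ((2 ^ (P - w0 i) : ℕ) : ℝ) / ((2 ^ (P - W) : ℕ) : ℝ)
  inc : ∀ (x : Fin (r + 1) → ℝ) (N2 : Fin (r + 1) → ℕ) (b : Fin (r + 1) → ℤ),
    (∀ i : Fin (r + 1), |x i - 2 ^ W * px c0 (ptr F J ω) i| ≤ 2 / ((2 ^ (P - W) : ℕ) : ℝ)) →
    (∀ i : Fin (r + 1), (N2 i : ℝ) ≤ η * ((2 ^ (P - w0 i) : ℕ) : ℝ)) →
    x ∈ ncell (2 ^ (P - W)) N2 G0 b → ∀ y ∈ ncell (2 ^ (P - W)) N2 G0 b, ∃ u ∈ ucube (r + 1),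
      cbw (r + 1) W P g1 PB u = (fun i => y (ρ i)) ∧ ∀ i, κ ≤ u i ∧ u i ≤ 1 - κ

/-- The natural coordinates of a point near the sample. -/
theorem pt_near {c : ℕ → Fin m} {r W sg : ℕ} {g : ℕ → ℕ} {K : ℕ} {L : ℝ} {B : F.Ω → Prop}
    {V : Type} {z : PtT F → V} {z' : LnT F → V} {P : V → ℕ → PN} {P₀ : ℕ}
    (hN : NLabW F c r W sg g K L B z z' P) (hL : 0 ≤ L) (hWP : W ≤ P₀) (hPJ : P₀ ≤ J)
    (hgL : ∀ i < r + 1, (1 + ((r + 1 : ℕ) : ℝ) * L) * 2 ^ wid W g i ≤ 2 ^ P₀) {ω : F.Ω}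
    (hω : B ω) {x : Fin (r + 1) → ℝ}
    (hx : ∀ i : Fin (r + 1), |x i - 2 ^ W * px c (ptr F J ω) i| ≤ 2 / ((2 ^ (P₀ - W) : ℕ) : ℝ))
    (i : Fin (r + 1)) :
    |(x i - 2 ^ W * eval (unF (r + 1) W x) (P (z (ptr F J ω)) i)) * ((2 ^ (P₀ - W) : ℕ) : ℝ) -
      2 ^ P₀ * (px c (ptr F J ω) i - eval (px c (ptr F J ω)) (P (z (ptr F J ω)) i))| ≤
      2 + 2 * (((r + 1 : ℕ) : ℝ) * L) := by
  have hM : ((2 ^ (P₀ - W) : ℕ) : ℝ) * 2 ^ W = 2 ^ P₀ := by
    push_cast
    rw [← pow_add, Nat.sub_add_cancel hWP]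
  have hM0 : (0 : ℝ) < ((2 ^ (P₀ - W) : ℕ) : ℝ) := by positivity
  have hW0 : (0 : ℝ) < 2 ^ W := by positivity
  have hP0 : (0 : ℝ) < 2 ^ P₀ := by positivity
  obtain ⟨v, hv⟩ : ∃ v, v = z (ptr F J ω) := ⟨_, rfl⟩
  have htri := hN.tri v
  have hgrad := hN.grad ω hω
  rw [← hv] at hgrad ⊢
  obtain ⟨a, ha⟩ : ∃ a : ℕ → ℝ, a = unF (r + 1) W (fun i : Fin (r + 1) =>
    2 ^ W * px c (ptr F J ω) i) := ⟨_, rfl⟩
  have haj : ∀ j < r + 1, a j = px c (ptr F J ω) j := fun j hj => by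
    rw [ha]
    unfold unF
    rw [dif_pos hj]
    field_simp
  have hae : ∀ i ≤ r + 1, eval a (P v i) = eval (px c (ptr F J ω)) (P v i) := fun i hi =>
    CLO.eval_cg (htri i) fun j hj => haj j (by omega)
  have hnb := near_box (Φ := P v) htri (g := wid W g) (n := r + 1) (L := L) (δ := 2 / 2 ^ P₀) hL
    (by positivity) hgrad (a := a) (fun j hj => by
      have h1 := pos_w hN (hWP.trans hPJ) hω hj
      rw [← hv] at h1
      rw [haj j hj, hae j hj.le]
      refine h1.trans ?_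
      exact div_le_div_of_nonneg_right (by norm_num) (by positivity)) (fun j hj => by
      have h1 := hgL j hj
      rw [← mul_div_assoc, div_le_div_iff₀ hP0 (by positivity)]
      nlinarith) i (by have := i.2; omega)
  have h1 := hnb.2 (unF (r + 1) W x) (fun j => by
    rw [ha]
    unfold unF
    by_cases hj : j < r + 1
    · rw [dif_pos hj, dif_pos hj]
      have h2 := hx ⟨j, hj⟩
      rw [← sub_div, abs_div, abs_of_pos hW0, div_le_div_iff₀ hW0 hP0, ← hM]
      rw [le_div_iff₀ hM0] at h2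
      calc |x ⟨j, hj⟩ - 2 ^ W * px c (ptr F J ω) j| * (((2 ^ (P₀ - W) : ℕ) : ℝ) * 2 ^ W) =
            (|x ⟨j, hj⟩ - 2 ^ W * px c (ptr F J ω) j| * ((2 ^ (P₀ - W) : ℕ) : ℝ)) * 2 ^ W := by ring
        _ ≤ 2 * 2 ^ W := mul_le_mul_of_nonneg_right h2 hW0.le
    · rw [dif_neg hj, dif_neg hj, sub_self, abs_zero]
      positivity)
  rw [hae i (by have := i.2; omega)] at h1
  have h2 := hx i
  rw [le_div_iff₀ hM0] at h2
  have e1 : (x i - 2 ^ W * eval (unF (r + 1) W x) (P v i)) * ((2 ^ (P₀ - W) : ℕ) : ℝ) -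
      2 ^ P₀ * (px c (ptr F J ω) i - eval (px c (ptr F J ω)) (P v i)) =
      (x i - 2 ^ W * px c (ptr F J ω) i) * ((2 ^ (P₀ - W) : ℕ) : ℝ) -
        2 ^ P₀ * (eval (unF (r + 1) W x) (P v i) - eval (px c (ptr F J ω)) (P v i)) := by
    rw [← hM]
    ring
  rw [e1]
  refine (abs_sub _ _).trans ?_
  rw [abs_mul, abs_mul, abs_of_pos hM0, abs_of_pos hP0]
  have h3 := mul_le_mul_of_nonneg_left h1 hP0.le
  have e2 : (2 : ℝ) ^ P₀ * (((r + 1 : ℕ) : ℝ) * L * (2 / 2 ^ P₀)) =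
      2 * (((r + 1 : ℕ) : ℝ) * L) := by
    field_simp
  rw [e2] at h3
  exact add_le_add h2 h3

/-- **The inclusion, for one law.** -/
theorem inc_law (r K : ℕ) : ∃ C : ℝ, 1 ≤ C ∧ ∀ {m J : ℕ} {F : Fam m J} {c0 c1 : ℕ → Fin m}
    {W0 W1 sg0 sg1 : ℕ} {g0 g1 : ℕ → ℕ} {L : ℝ} {A : F.Ω → Prop} {V0 V1 : Type}
    {z0 : PtT F → V0} {z0' : LnT F → V0} {PA : V0 → ℕ → PN} {z1 : PtT F → V1} {z1' : LnT F → V1}
    {PB : V1 → ℕ → PN} {P : ℕ} (ρ : Equiv.Perm (Fin (r + 1))) {E : Type} [Fintype E]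
    (R : E → ℝ) (pr : E → F.Ω) (h μ δ η : ℝ),
    NLabW F c0 r W0 sg0 g0 K L A z0 z0' PA → NLabW F c1 r W1 sg1 g1 K L A z1 z1' PB → 0 ≤ L →
    W0 ≤ J → W1 ≤ P → P ≤ J → (∀ i < r + 1, wid W0 g0 i ≤ P) → (∀ i < r + 1, wid W1 g1 i ≤ P) →
    (∀ (ξ : PtT F) (i : Fin (r + 1)), px c1 ξ i = px c0 ξ (ρ i)) →
    IsLaw R → (∀ e, 0 < R e → A (pr e)) →
    ∑ i, Real.log (ngw W1 P g1 (r + 1) i) -
      CH R (fun e => ybw c1 r W1 P g1 (PB (z1 (ptr F J (pr e)))) (ptr F J (pr e)))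
        (fun e => (z1 (ptr F J (pr e)), z0 (ptr F J (pr e)))) ≤ μ → 0 < h →
    (∀ i, C * (1 + L) * Real.exp h ≤ ngw W1 P g1 (r + 1) i) → 0 < δ → 0 ≤ η →
    δ * ∏ i : Fin (r + 1), ((2 ^ (P - wid W0 g0 i) : ℕ) : ℝ) ≤
      ∏ i, (ngw W1 P g1 (r + 1) i : ℝ) →
    C * Real.exp h ^ (r + 2) * η ≤ δ →
    ms R (fun e => ¬ InB F c0 r W1 P (wid W0 g0) g1 ρ (gsy r W1 (PA (z0 (ptr F J (pr e)))))
      (acs r W1 (PA (z0 (ptr F J (pr e))))) (PB (z1 (ptr F J (pr e)))) (2 * Real.exp h)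
      (Real.exp (-h) / C) η (pr e)) ≤ C * (μ + 1) / h := by
  classical
  obtain ⟨C₁, hC₁, hrb⟩ := rb_gen (r + 1) ((K + 1) ^ (r + 1) * (K + 1))
  obtain ⟨C₂, hC₂, hinc⟩ := inc_cell2 (r + 1) K
  have hr0 : (0 : ℝ) ≤ r := Nat.cast_nonneg r
  obtain ⟨C, hC⟩ : ∃ C : ℝ, C = 16 * (r + 1) * 2 ^ (r + 1) * C₂ + 2 * (r + 1) * C₁ ^ 2 + 2 +
    64 * (r + 1) ^ 2 := ⟨_, rfl⟩
  have hC₁2 : 1 ≤ C₁ ^ 2 := one_le_pow₀ hC₁
  have hC₁3 : C₁ ≤ C₁ ^ 2 := by nlinarith
  have ht1 : 0 ≤ 16 * ((r : ℝ) + 1) * 2 ^ (r + 1) * C₂ := by positivity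
  have ht2 : 0 ≤ 2 * ((r : ℝ) + 1) * C₁ ^ 2 := by positivity
  have ht3 : 0 ≤ 64 * ((r : ℝ) + 1) ^ 2 := by positivity
  have hC1 : 1 ≤ C := by
    rw [hC]
    linarith
  have hCr : 16 * ((r : ℝ) + 1) ≤ C := by
    have : 16 * ((r : ℝ) + 1) ≤ 64 * ((r : ℝ) + 1) ^ 2 := by nlinarith
    rw [hC]
    linarith
  have hCC₁ : 2 * ((r : ℝ) + 1) * C₁ ^ 2 ≤ C := by
    rw [hC]
    linarith
  have hCC₁' : C₁ ≤ C := by nlinarith
  have hCC₂ : 16 * ((r : ℝ) + 1) * 2 ^ (r + 1) * C₂ ≤ C := by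
    rw [hC]
    linarith
  have hC64 : 64 * ((r : ℝ) + 1) ^ 2 ≤ C := by
    rw [hC]
    linarith
  refine ⟨C, hC1, ?_⟩
  intro m J F c0 c1 W0 W1 sg0 sg1 g0 g1 L A V0 V1 z0 z0' PA z1 z1' PB P ρ E _ R pr h μ δ η hN0 hN1
    hL hW0J hW1P hPJ hw0 hw1 hρ hR hsup hμ hh hNg hδ hη hδN hsmall
  have hR0 := hR.nonneg
  have heh := Real.exp_pos h
  have heh1 : 1 ≤ Real.exp h := Real.one_le_exp hh.le
  have hexn : Real.exp (-h) * Real.exp h = 1 := by
    rw [← Real.exp_add, neg_add_cancel, Real.exp_zero]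
  have hen := Real.exp_pos (-h)
  obtain ⟨M, hM⟩ : ∃ M : ℕ, M = 2 ^ (P - W1) := ⟨_, rfl⟩
  have hM0 : (0 : ℝ) < M := by
    rw [hM]
    positivity
  have hMr : (M : ℝ) * 2 ^ W1 = 2 ^ P := by
    rw [hM]
    push_cast
    rw [← pow_add, Nat.sub_add_cancel hW1P]
  have hNg0 : ∀ i, (0 : ℝ) < ngw W1 P g1 (r + 1) i := fun i => by
    exact_mod_cast ngw_pos W1 P g1 (r + 1) i
  have hNgh : ∀ i : Fin (r + 1), (ngw W1 P g1 (r + 1) i : ℝ) = 2 * ((2 : ℝ) ^ (P - wid W1 g1 i) + 1) := by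
    intro i
    unfold ngw
    push_cast
    rw [pow_succ]
    ring
  -- the gradients
  have hgL : ∀ i < r + 1, (1 + ((r + 1 : ℕ) : ℝ) * L) * 2 ^ wid W1 g1 i ≤ 2 ^ P := by
    intro i hi
    have h1 := hNg ⟨i, hi⟩
    rw [hNgh ⟨i, hi⟩] at h1
    have h2 : (1 : ℝ) ≤ 2 ^ (P - wid W1 g1 i) := one_le_pow₀ one_le_two
    have h3 : 16 * ((r : ℝ) + 1) * (1 + L) ≤ C * (1 + L) * Real.exp h := by
      calc 16 * ((r : ℝ) + 1) * (1 + L) ≤ C * (1 + L) :=
            mul_le_mul_of_nonneg_right hCr (by linarith)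
        _ ≤ C * (1 + L) * Real.exp h := le_mul_of_one_le_right (by positivity) heh1
    have h4 : 1 + ((r + 1 : ℕ) : ℝ) * L ≤ 2 ^ (P - wid W1 g1 i) := by
      push_cast
      have h5 : 0 ≤ ((r : ℝ) + 1) * L := by positivity
      simp only at h1
      have h6 : 16 * ((r : ℝ) + 1) * (1 + L) = 16 * ((r : ℝ) + 1) + 16 * (((r : ℝ) + 1) * L) := by
        ring
      rw [h6] at h3
      linarith
    have h5 : (2 : ℝ) ^ P = 2 ^ (P - wid W1 g1 i) * 2 ^ wid W1 g1 i := by
      rw [← pow_add, Nat.sub_add_cancel (hw1 i hi)]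
    rw [h5]
    exact mul_le_mul_of_nonneg_right h4 (by positivity)
  -- the labels
  obtain ⟨c, hc⟩ : ∃ c : E → V1 × V0, c = fun e => (z1 (ptr F J (pr e)), z0 (ptr F J (pr e))) :=
    ⟨_, rfl⟩
  have hc1 : ∀ e, (c e).1 = z1 (ptr F J (pr e)) := fun e => by rw [hc]
  have hc2 : ∀ e, (c e).2 = z0 (ptr F J (pr e)) := fun e => by rw [hc]
  obtain ⟨Y, hY⟩ : ∃ Y : E → Fin (r + 1) → ℕ, Y = fun e =>
    ybw c1 r W1 P g1 (PB (z1 (ptr F J (pr e)))) (ptr F J (pr e)) := ⟨_, rfl⟩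
  rw [← hY, ← hc] at hμ
  -- the digits and the natural coordinates
  have hdig : ∀ e, 0 < R e → ∀ i : Fin (r + 1),
      (Y e i : ℝ) ≤ 2 ^ P * (px c1 (ptr F J (pr e)) i - eval (px c1 (ptr F J (pr e)))
        (PB (z1 (ptr F J (pr e))) i)) + (ngw W1 P g1 (r + 1) i : ℝ) / 2 ∧
      2 ^ P * (px c1 (ptr F J (pr e)) i - eval (px c1 (ptr F J (pr e)))
        (PB (z1 (ptr F J (pr e))) i)) + (ngw W1 P g1 (r + 1) i : ℝ) / 2 ≤ Y e i + 1 := by
    intro e he i
    have h1 := ybw_eq (P₀ := P) hN1 (hW1P.trans hPJ) hw1 (hsup e he) i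
    have h2 : Y e i = ybw c1 r W1 P g1 (PB (z1 (ptr F J (pr e)))) (ptr F J (pr e)) i := by
      rw [hY]
    rw [← h2] at h1
    have h3 : ((Y e i : ℤ) : ℝ) = (ndp c1 P (PB (z1 (ptr F J (pr e)))) (ptr F J (pr e)) i : ℝ) +
        (2 ^ (P - wid W1 g1 i) + 1) := by
      rw [h1]
      push_cast
      ring
    have h4 : (Y e i : ℝ) = ((Y e i : ℤ) : ℝ) := by push_cast; rfl
    rw [h4, h3, hNgh i]
    unfold ndp
    have h5 := Int.floor_le ((2 : ℝ) ^ P * (px c1 (ptr F J (pr e)) i -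
      eval (px c1 (ptr F J (pr e))) (PB (z1 (ptr F J (pr e))) i)))
    have h6 := Int.lt_floor_add_one ((2 : ℝ) ^ P * (px c1 (ptr F J (pr e)) i -
      eval (px c1 (ptr F J (pr e))) (PB (z1 (ptr F J (pr e))) i)))
    constructor <;> linarith
  have hYlt : ∀ e, 0 < R e → ∀ i, Y e i < ngw W1 P g1 (r + 1) i := by
    intro e he i
    have h1 := hdig e he i
    have h2 := pos_w hN1 (hW1P.trans hPJ) (hsup e he) i.2
    have h3 : (2 : ℝ) ^ P * (px c1 (ptr F J (pr e)) i - eval (px c1 (ptr F J (pr e)))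
        (PB (z1 (ptr F J (pr e))) i)) ≤ 2 ^ (P - wid W1 g1 i) := by
      have h4 := mul_le_mul_of_nonneg_left (abs_le.1 h2).2 (by positivity : (0 : ℝ) ≤ 2 ^ P)
      refine h4.trans (le_of_eq ?_)
      rw [two_pow_sub (hw1 i i.2)]
      ring
    have h4 : (Y e i : ℝ) < ngw W1 P g1 (r + 1) i := by
      have h5 := h1.1
      rw [hNgh i] at h5 ⊢
      have h6 : (1 : ℝ) ≤ 2 ^ (P - wid W1 g1 i) := one_le_pow₀ one_le_two
      linarith
    exact_mod_cast h4
  -- the position of a near point in the box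
  have hpos : ∀ e, 0 < R e → ∀ x : Fin (r + 1) → ℝ,
      (∀ i : Fin (r + 1), |x i - 2 ^ W1 * px c1 (ptr F J (pr e)) i| ≤ 2 / (M : ℝ)) →
      (∀ i : Fin (r + 1), |((x i - 2 ^ W1 * eval (unF (r + 1) W1 x)
        (PB (z1 (ptr F J (pr e))) i)) * M / ngw W1 P g1 (r + 1) i + 1 / 2) -
          (Y e i : ℝ) / ngw W1 P g1 (r + 1) i| ≤
        (3 + 2 * (((r + 1 : ℕ) : ℝ) * L)) / ngw W1 P g1 (r + 1) i) := by
    intro e he x hx i
    have h1 := pt_near hN1 hL hW1P hPJ hgL (hsup e he) (x := x) (by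
      intro i
      rw [← hM]
      exact hx i) i
    rw [← hM] at h1
    have h2 := hdig e he i
    have hN := hNg0 i
    have e1 : ((x i - 2 ^ W1 * eval (unF (r + 1) W1 x) (PB (z1 (ptr F J (pr e))) i)) * M /
        ngw W1 P g1 (r + 1) i + 1 / 2) - (Y e i : ℝ) / ngw W1 P g1 (r + 1) i =
        ((x i - 2 ^ W1 * eval (unF (r + 1) W1 x) (PB (z1 (ptr F J (pr e))) i)) * M +
          (ngw W1 P g1 (r + 1) i : ℝ) / 2 - Y e i) / ngw W1 P g1 (r + 1) i := by
      field_simp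
    rw [e1, abs_div, abs_of_pos hN]
    refine div_le_div_of_nonneg_right ?_ hN.le
    have h3 := abs_le.1 h1
    rw [abs_le]
    constructor <;> linarith [h3.1, h3.2, h2.1, h2.2]
  -- the good position
  obtain ⟨ε, hε⟩ : ∃ ε : ℝ, ε = Real.exp (-h) / (4 * (r + 1)) := ⟨_, rfl⟩
  have hε0 : 0 < ε := by
    rw [hε]
    positivity
  have hε1 : 4 * ((r : ℝ) + 1) * ε = Real.exp (-h) := by
    rw [hε]
    field_simp
  have hen1 : Real.exp (-h) ≤ 1 := Real.exp_le_one_iff.2 (by linarith)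
  have hNgi : ∀ i, C * (1 + L) / Real.exp (-h) ≤ ngw W1 P g1 (r + 1) i := by
    intro i
    refine le_trans (le_of_eq ?_) (hNg i)
    rw [div_eq_iff hen.ne']
    calc C * (1 + L) = C * (1 + L) * (Real.exp (-h) * Real.exp h) := by rw [hexn, mul_one]
      _ = _ := by ring
  have hinv : ∀ i, ∀ a : ℝ, 0 ≤ a → a / (ngw W1 P g1 (r + 1) i : ℝ) ≤
      a / (C * (1 + L)) * Real.exp (-h) := by
    intro i a ha
    have h1 : a / (ngw W1 P g1 (r + 1) i : ℝ) ≤ a / (C * (1 + L) / Real.exp (-h)) :=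
      div_le_div_of_nonneg_left ha (by positivity) (hNgi i)
    refine h1.trans (le_of_eq ?_)
    field_simp
  -- the margin
  have hb1 : ms R (fun e => ¬ ∀ i, ε ≤ (Y e i : ℝ) / ngw W1 P g1 (r + 1) i ∧
      ((Y e i : ℝ) + 1) / ngw W1 P g1 (r + 1) i ≤ 1 - ε) ≤ (μ + 1) / h := by
    have h1 := margin_ev hR c Y (fun _ => ngw W1 P g1 (r + 1)) hh hε0.le hYlt (fun e he => by
      have h2 : ∀ i ∈ (univ : Finset (Fin (r + 1))), 2 * ε + 2 / (ngw W1 P g1 (r + 1) i : ℝ) ≤
          Real.exp (-h) / (r + 1) := by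
        intro i _
        have h3 := hinv i 2 (by norm_num)
        have h4 : 2 / (C * (1 + L)) * Real.exp (-h) ≤ Real.exp (-h) / (2 * (r + 1)) := by
          rw [div_mul_eq_mul_div, div_le_div_iff₀ (by positivity) (by positivity)]
          have h5 : 4 * ((r : ℝ) + 1) ≤ C * (1 + L) := by
            calc 4 * ((r : ℝ) + 1) ≤ C := by linarith
              _ ≤ C * (1 + L) := le_mul_of_one_le_right (by linarith) (by linarith)
          calc 2 * Real.exp (-h) * (2 * ((r : ℝ) + 1)) = Real.exp (-h) * (4 * ((r : ℝ) + 1)) := by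
                ring
            _ ≤ _ := mul_le_mul_of_nonneg_left h5 hen.le
        have h5 : 2 * ε = Real.exp (-h) / (2 * (r + 1)) := by
          rw [hε]
          field_simp
          ring
        have h6 : Real.exp (-h) / ((r : ℝ) + 1) = Real.exp (-h) / (2 * (r + 1)) +
            Real.exp (-h) / (2 * (r + 1)) := by
          field_simp
          ring
        rw [h5, h6]
        linarith
      refine (Finset.sum_le_sum h2).trans (le_of_eq ?_)
      rw [Finset.sum_const, Finset.card_univ, Fintype.card_fin, nsmul_eq_mul]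
      push_cast
      field_simp)
    refine h1.trans (div_le_div_of_nonneg_right ?_ hh.le)
    rw [Ex_const hR.sum_one]
    have := Real.log_two_lt_d9
    linarith
  -- the sizes on the box
  obtain ⟨Pol, hPol⟩ : ∃ Pol : V1 × V0 → Fin (r + 1) → MvPolynomial (Fin (r + 1)) ℝ,
      Pol = fun γ i => nchi M (ngw W1 P g1 (r + 1)) (gsh (r + 1) W1 P g1 (PB γ.1)) 0 (ρ.symm i) -
        bind₁ (fun j => nchi M (ngw W1 P g1 (r + 1)) (gsh (r + 1) W1 P g1 (PB γ.1)) 0 (ρ.symm j))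
          (gsy r W1 (PA γ.2) i) - MvPolynomial.C (acs r W1 (PA γ.2) i) := ⟨_, rfl⟩
  have hPe : ∀ γ u i, eval u (Pol γ i) = cbw (r + 1) W1 P g1 (PB γ.1) u (ρ.symm i) -
      eval (fun j => cbw (r + 1) W1 P g1 (PB γ.1) u (ρ.symm j)) (gsy r W1 (PA γ.2) i) -
        acs r W1 (PA γ.2) i := by
    intro γ u i
    rw [hPol]
    simp only [map_sub, MvPolynomial.eval_C]
    rw [Pool.M3F.eval_bind, hM]
    rfl
  have hdg : ∀ v i, (gsh (r + 1) W1 P g1 (PB v) i).totalDegree ≤ K := by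
    intro v i
    unfold gsh
    refine (totalDegree_sub _ _).trans (max_le ((deg_toF _).trans (hN1.deg v _)) ?_)
    rw [totalDegree_C]
    exact Nat.zero_le _
  have hKp : (K + 1) ^ (r + 1) ≤ (K + 1) ^ (r + 1) * (K + 1) :=
    Nat.le_mul_of_pos_right _ (Nat.succ_pos _)
  have hPd : ∀ γ i, (Pol γ i).totalDegree ≤ (K + 1) ^ (r + 1) * (K + 1) := by
    intro γ i
    have h1 : ∀ j, (nchi M (ngw W1 P g1 (r + 1)) (gsh (r + 1) W1 P g1 (PB γ.1)) 0
        (ρ.symm j)).totalDegree ≤ (K + 1) ^ (r + 1) := fun j =>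
      deg_chiN _ _ _ K (hdg γ.1) (r + 1) (ρ.symm j)
    rw [hPol]
    refine (totalDegree_sub _ _).trans (max_le ((totalDegree_sub _ _).trans (max_le
      ((h1 i).trans hKp) ?_)) ?_)
    · refine (SML.totalDegree_bind_le _ ((K + 1) ^ (r + 1)) h1 _).trans (Nat.mul_le_mul_left _ ?_)
      exact (gsy_deg (hN0.deg γ.2) i).trans (Nat.le_succ _)
    · rw [totalDegree_C]
      exact Nat.zero_le _
  have hb2 := hrb E (V1 × V0) (Fin (r + 1)) R c Y (fun _ => ngw W1 P g1 (r + 1)) Pol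
    (fun _ i => ((2 ^ (P - wid W0 g0 i) : ℕ) : ℝ) / M) 1 h hR le_rfl hh hYlt (fun e he i => by
      rw [mul_one]
      refine le_trans ?_ (hNg i)
      refine mul_le_mul_of_nonneg_right ?_ heh.le
      calc C₁ ≤ C := hCC₁'
        _ ≤ C * (1 + L) := le_mul_of_one_le_right (by linarith) (by linarith)) (fun e _ i => hPd _ i)
    (fun e he i => by
      -- the sample itself
      obtain ⟨x, hx⟩ : ∃ x : Fin (r + 1) → ℝ, x = fun i : Fin (r + 1) =>
        2 ^ W1 * px c1 (ptr F J (pr e)) i.val := ⟨_, rfl⟩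
      have hxe : ∀ i ≤ r + 1, eval (unF (r + 1) W1 x) (PB (z1 (ptr F J (pr e))) i) =
          eval (px c1 (ptr F J (pr e))) (PB (z1 (ptr F J (pr e))) i) := fun i hi =>
        CLO.eval_cg (hN1.tri _ i) fun j hj => by
          unfold unF
          rw [dif_pos (by omega), hx]
          field_simp
      have hs : ∀ i : Fin (r + 1), (x i - 2 ^ W1 * eval (unF (r + 1) W1 x)
          (PB (z1 (ptr F J (pr e))) i)) * M = 2 ^ P * (px c1 (ptr F J (pr e)) i -
            eval (px c1 (ptr F J (pr e))) (PB (z1 (ptr F J (pr e))) i)) := by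
        intro i
        rw [hxe i (by have := i.2; omega), ← hMr, hx]
        ring
      obtain ⟨u, hu, hu1, hu2⟩ := cbw_onto (d := r + 1) (W := W1) (P₀ := P) (g := g1)
        (hN1.tri (z1 (ptr F J (pr e)))) (y := x) (fun i => by
          have h1 := pos_w hN1 (hW1P.trans hPJ) (hsup e he) i.2
          have h2 := mul_le_mul_of_nonneg_left h1 (by positivity : (0 : ℝ) ≤ 2 ^ P)
          rw [← abs_of_pos (by positivity : (0 : ℝ) < 2 ^ P), ← abs_mul,
            abs_of_pos (by positivity : (0 : ℝ) < 2 ^ P), ← hs i, abs_mul, abs_of_pos hM0] at h2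
          rw [← hM, le_div_iff₀ (by positivity), hNgh i]
          have h3 : (2 : ℝ) ^ P * (1 / 2 ^ wid W1 g1 i) = 2 ^ (P - wid W1 g1 i) := by
            rw [two_pow_sub (hw1 i i.2)]
            ring
          rw [h3] at h2
          linarith)
      rw [← hM] at hu2
      refine ⟨u, hu, fun l => ?_, ?_⟩
      · rw [hu2 l, hs l]
        have h1 := hdig e he l
        have hN := hNg0 l
        have e1 : 2 ^ P * (px c1 (ptr F J (pr e)) l - eval (px c1 (ptr F J (pr e)))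
            (PB (z1 (ptr F J (pr e))) l)) / (ngw W1 P g1 (r + 1) l : ℝ) + 1 / 2 -
            (Y e l : ℝ) / ngw W1 P g1 (r + 1) l = (2 ^ P * (px c1 (ptr F J (pr e)) l -
              eval (px c1 (ptr F J (pr e))) (PB (z1 (ptr F J (pr e))) l)) +
              (ngw W1 P g1 (r + 1) l : ℝ) / 2 - Y e l) / ngw W1 P g1 (r + 1) l := by
          field_simp
        rw [e1, abs_div, abs_of_pos hN]
        refine div_le_div_of_nonneg_right ?_ hN.le
        rw [abs_le]
        constructor <;> linarith [h1.1, h1.2]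
      · rw [hPe, hc1, hc2, hu1]
        have hx0 : (fun j => x (ρ.symm j)) = fun j : Fin (r + 1) =>
            2 ^ W1 * px c0 (ptr F J (pr e)) j := by
          funext j
          rw [hx]
          simp only
          rw [hρ, Equiv.apply_symm_apply]
        have hxi : x (ρ.symm i) = 2 ^ W1 * px c0 (ptr F J (pr e)) i := congrFun hx0 i
        rw [hx0, hxi]
        have hW10 : (0 : ℝ) < 2 ^ W1 := by positivity
        have e1 : ((2 ^ (P - wid W0 g0 i) : ℕ) : ℝ) / M = 2 ^ W1 * (1 / 2 ^ wid W0 g0 i) := by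
          push_cast
          rw [two_pow_sub (hw0 i i.2), ← hMr]
          field_simp
        rw [e1]
        have h1 := pos_w hN0 hW0J (hsup e he) i.2
        have h2 := mul_le_mul_of_nonneg_left h1 hW10.le
        rw [← abs_of_pos hW10, ← abs_mul, abs_of_pos hW10] at h2
        refine le_trans (le_of_eq ?_) h2
        congr 1
        refine Fin.cases ?_ (fun j => ?_) i
        · rw [gsy_zero, map_zero]
          unfold acs
          rw [if_pos (by rfl)]
          have h3 := hN0.zero (pr e) (hsup e he)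
          change _ = 2 ^ W1 * (px c0 (ptr F J (pr e)) 0 - eval (px c0 (ptr F J (pr e)))
            (PA (z0 (ptr F J (pr e))) 0))
          rw [h3, eval_C, eval_C]
          change 2 ^ W1 * px c0 (ptr F J (pr e)) 0 - 0 - _ = _
          ring
        · rw [gsy_succ, eval_toF]
          unfold acs
          rw [if_neg (by rw [Fin.val_succ]; omega), sub_zero]
          have h3 : eval (unF (r + 1) W1 (fun j : Fin (r + 1) =>
              2 ^ W1 * px c0 (ptr F J (pr e)) j)) (PA (z0 (ptr F J (pr e))) (j.val + 1)) =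
              eval (px c0 (ptr F J (pr e))) (PA (z0 (ptr F J (pr e))) (j.val + 1)) :=
            CLO.eval_cg (hN0.tri _ _) fun l hl => by
              have := j.2
              unfold unF
              rw [dif_pos (by omega)]
              field_simp
          rw [h3, Fin.val_succ]
          ring)
  rw [Ex_const hR.sum_one, Fintype.card_fin] at hb2
  -- the inclusion
  have hsub : ∀ e, 0 < R e → (¬ InB F c0 r W1 P (wid W0 g0) g1 ρ
      (gsy r W1 (PA (z0 (ptr F J (pr e))))) (acs r W1 (PA (z0 (ptr F J (pr e)))))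
      (PB (z1 (ptr F J (pr e)))) (2 * Real.exp h) (Real.exp (-h) / C) η (pr e)) →
      (¬ ∀ i, ε ≤ (Y e i : ℝ) / ngw W1 P g1 (r + 1) i ∧
        ((Y e i : ℝ) + 1) / ngw W1 P g1 (r + 1) i ≤ 1 - ε) ∨
      (¬ ∀ u ∈ ucube (r + 1), ∀ i, |eval u (Pol (c e) i)| ≤
        2 * Real.exp h * (((2 ^ (P - wid W0 g0 i) : ℕ) : ℝ) / M)) := by
    intro e he hbad
    by_contra hcon
    push Not at hcon
    obtain ⟨hmg, hbx⟩ := hcon
    apply hbad
    have hrb' : ∀ u ∈ ucube (r + 1), ∀ i,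
        |cbw (r + 1) W1 P g1 (PB (z1 (ptr F J (pr e)))) u (ρ.symm i) -
        eval (fun j => cbw (r + 1) W1 P g1 (PB (z1 (ptr F J (pr e)))) u (ρ.symm j))
          (gsy r W1 (PA (z0 (ptr F J (pr e)))) i) - acs r W1 (PA (z0 (ptr F J (pr e)))) i| ≤
        2 * Real.exp h * ((2 ^ (P - wid W0 g0 i) : ℕ) : ℝ) / M := by
      intro u hu i
      have h1 := hbx u hu i
      rw [hPe, hc1, hc2] at h1
      rw [mul_div_assoc]
      exact h1
    refine ⟨?_, ?_⟩
    · rw [← hM]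
      exact hrb'
    intro x N2 b hx hN2 hxc y hy
    rw [← hM] at hx hxc hy
    -- the point in the order of the box
    obtain ⟨x1, hx1⟩ : ∃ x1 : Fin (r + 1) → ℝ, x1 = fun i => x (ρ i) := ⟨_, rfl⟩
    have hx1n : ∀ i : Fin (r + 1), |x1 i - 2 ^ W1 * px c1 (ptr F J (pr e)) i| ≤ 2 / (M : ℝ) := by
      intro i
      rw [hx1, hρ]
      exact hx (ρ i)
    have hp := hpos e he x1 hx1n
    have hκ : ∀ i, (3 + 2 * (((r + 1 : ℕ) : ℝ) * L)) / (ngw W1 P g1 (r + 1) i : ℝ) ≤ ε / 2 := by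
      intro i
      refine (hinv i _ (by positivity)).trans ?_
      have h1 : (3 + 2 * (((r + 1 : ℕ) : ℝ) * L)) / (C * (1 + L)) ≤ 1 / (8 * (r + 1)) := by
        rw [div_le_div_iff₀ (by positivity) (by positivity)]
        push_cast
        have h2 : 64 * ((r : ℝ) + 1) ^ 2 * (1 + L) ≤ C * (1 + L) :=
          mul_le_mul_of_nonneg_right hC64 (by linarith)
        have h3 : (3 + 2 * (((r : ℝ) + 1) * L)) * (8 * (r + 1)) ≤ 64 * (r + 1) ^ 2 * (1 + L) := by
          have h4 : 0 ≤ (r : ℝ) * L := by positivity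
          have h5 : 0 ≤ (r : ℝ) ^ 2 * L := by positivity
          have h6 : 0 ≤ (r : ℝ) ^ 2 := by positivity
          have h7 : 64 * ((r : ℝ) + 1) ^ 2 * (1 + L) - (3 + 2 * (((r : ℝ) + 1) * L)) *
              (8 * (r + 1)) = 64 * (r : ℝ) ^ 2 + 104 * r + 40 + 48 * ((r : ℝ) ^ 2 * L) +
                96 * (r * L) + 48 * L := by ring
          linarith
        linarith
      calc (3 + 2 * (((r + 1 : ℕ) : ℝ) * L)) / (C * (1 + L)) * Real.exp (-h) ≤
            1 / (8 * (r + 1)) * Real.exp (-h) := mul_le_mul_of_nonneg_right h1 hen.le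
        _ = ε / 2 := by
            rw [hε]
            field_simp
            ring
    have hus : ∀ i, ε / 2 ≤ ((x1 i - 2 ^ W1 * eval (unF (r + 1) W1 x1)
        (PB (z1 (ptr F J (pr e))) i)) * M / ngw W1 P g1 (r + 1) i + 1 / 2) ∧
        ((x1 i - 2 ^ W1 * eval (unF (r + 1) W1 x1)
        (PB (z1 (ptr F J (pr e))) i)) * M / ngw W1 P g1 (r + 1) i + 1 / 2) ≤ 1 - ε / 2 := by
      intro i
      have h1 := abs_le.1 ((hp i).trans (hκ i))
      have h2 := hmg i
      have h3 : (Y e i : ℝ) / ngw W1 P g1 (r + 1) i ≤ ((Y e i : ℝ) + 1) / ngw W1 P g1 (r + 1) i :=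
        div_le_div_of_nonneg_right (by linarith) (hNg0 i).le
      constructor <;> linarith [h1.1, h1.2, h2.1, h2.2]
    obtain ⟨us, husc, hus1, hus2⟩ := cbw_onto (d := r + 1) (W := W1) (P₀ := P) (g := g1)
      (hN1.tri (z1 (ptr F J (pr e)))) (y := x1) (fun i => by
        rw [← hM]
        have h1 := hus i
        have hN := hNg0 i
        rw [abs_le]
        constructor
        · have h2 : -(1 / 2) ≤ (x1 i - 2 ^ W1 * eval (unF (r + 1) W1 x1)
              (PB (z1 (ptr F J (pr e))) i)) * M / ngw W1 P g1 (r + 1) i := by linarith [h1.1]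
          rw [le_div_iff₀ hN] at h2
          rw [neg_le_iff_add_nonneg, ← sub_nonneg]
          have h3 : x1 i - 2 ^ W1 * eval (unF (r + 1) W1 x1) (PB (z1 (ptr F J (pr e))) i) +
              (ngw W1 P g1 (r + 1) i : ℝ) / (2 * M) - 0 =
              ((x1 i - 2 ^ W1 * eval (unF (r + 1) W1 x1) (PB (z1 (ptr F J (pr e))) i)) * M +
                1 / 2 * ngw W1 P g1 (r + 1) i) / M := by
            field_simp
            ring
          rw [h3]
          exact div_nonneg (by linarith) hM0.le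
        · have h2 : (x1 i - 2 ^ W1 * eval (unF (r + 1) W1 x1)
              (PB (z1 (ptr F J (pr e))) i)) * M / ngw W1 P g1 (r + 1) i ≤ 1 / 2 := by
            linarith [h1.2]
          rw [div_le_iff₀ hN] at h2
          rw [le_div_iff₀ (by positivity)]
          linarith)
    rw [← hM] at hus2
    have hnw : ∀ i, (M : ℝ) * nwid M (ngw W1 P g1 (r + 1)) i = ngw W1 P g1 (r + 1) i := by
      intro i
      unfold nwid
      field_simp
    obtain ⟨u, hu, h1, h2⟩ := hinc M ρ.symm (gsy r W1 (PA (z0 (ptr F J (pr e)))))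
      (gsh (r + 1) W1 P g1 (PB (z1 (ptr F J (pr e))))) (ncor M (ngw W1 P g1 (r + 1)) 0)
      (nwid M (ngw W1 P g1 (r + 1))) (acs r W1 (PA (z0 (ptr F J (pr e)))))
      (fun i => 2 ^ (P - wid W0 g0 i)) N2 b us (2 * Real.exp h) δ η (ε / 2)
      (by rw [hM]; exact Nat.one_le_two_pow) (gsy_tri (hN0.tri _)) (triP_gsh (hN1.tri _))
      (fun i => gsy_deg (hN0.deg _) i) (hdg _) (fun i => by
        unfold nwid
        exact div_pos (hNg0 i) hM0) (fun i => Nat.one_le_two_pow) (by linarith) hη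
      (by
        have : ε ≤ Real.exp (-h) := by
          rw [← hε1]
          exact le_mul_of_one_le_left hε0.le (by linarith)
        linarith) (fun i => by
        rw [hus2 i]
        exact hus i) (by
        have h3 : (fun i => cpt (chi (gsh (r + 1) W1 P g1 (PB (z1 (ptr F J (pr e)))))
            (ncor M (ngw W1 P g1 (r + 1)) 0) (nwid M (ngw W1 P g1 (r + 1)))) us (ρ.symm i)) = x := by
          funext i
          have h4 := congrFun hus1 (ρ.symm i)
          unfold cbw at h4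
          rw [← hM] at h4
          have h5 : x1 (ρ.symm i) = x i := by
            rw [hx1]
            simp only [Equiv.apply_symm_apply]
          rw [h5] at h4
          exact h4
        rw [h3]
        exact hxc) (by
        intro u hu i
        have h3 := hrb' u hu i
        unfold cbw at h3
        rw [← hM] at h3
        exact h3) hN2 hδ (by
        simp only [hnw]
        exact hδN) (by
        have h3 : C₂ * (2 * Real.exp h) ^ (r + 1) / δ * η ≤ ε / 2 / 2 := by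
          rw [div_mul_eq_mul_div, div_le_iff₀ hδ, mul_pow]
          have h4 : 16 * ((r : ℝ) + 1) * 2 ^ (r + 1) * C₂ * (Real.exp h ^ (r + 2) * η) ≤ δ := by
            calc 16 * ((r : ℝ) + 1) * 2 ^ (r + 1) * C₂ * (Real.exp h ^ (r + 2) * η) ≤
                  C * (Real.exp h ^ (r + 2) * η) :=
                  mul_le_mul_of_nonneg_right hCC₂ (by positivity)
              _ = C * Real.exp h ^ (r + 2) * η := by ring
              _ ≤ δ := hsmall
          have h5 : Real.exp h ^ (r + 2) = Real.exp h ^ (r + 1) * Real.exp h := by ring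
          have h6 : ε * Real.exp h = 1 / (4 * (r + 1)) := by
            rw [hε, div_mul_eq_mul_div, hexn]
          have h7 : C₂ * (2 ^ (r + 1) * Real.exp h ^ (r + 1)) * η =
              ε / 2 / 2 * (16 * ((r : ℝ) + 1) * 2 ^ (r + 1) * C₂ *
                (Real.exp h ^ (r + 2) * η)) := by
            have e1 : ε / 2 / 2 * (16 * ((r : ℝ) + 1) * 2 ^ (r + 1) * C₂ *
                (Real.exp h ^ (r + 2) * η)) = (ε * Real.exp h) * (4 * (r + 1)) *
                  (C₂ * (2 ^ (r + 1) * Real.exp h ^ (r + 1)) * η) := by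
              rw [h5]
              ring
            rw [e1, h6]
            field_simp
          rw [h7]
          exact mul_le_mul_of_nonneg_left h4 (by positivity)
        exact h3) y hy
    have h3 : ∀ i, |u i - us i| ≤ ε / 4 := by
      intro i
      refine (h2 i).trans ?_
      have h4 : 16 * ((r : ℝ) + 1) * 2 ^ (r + 1) * C₂ * (Real.exp h ^ (r + 2) * η) ≤ δ := by
        calc 16 * ((r : ℝ) + 1) * 2 ^ (r + 1) * C₂ * (Real.exp h ^ (r + 2) * η) ≤
              C * (Real.exp h ^ (r + 2) * η) :=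
              mul_le_mul_of_nonneg_right hCC₂ (by positivity)
          _ = C * Real.exp h ^ (r + 2) * η := by ring
          _ ≤ δ := hsmall
      have h5 : Real.exp h ^ (r + 2) = Real.exp h ^ (r + 1) * Real.exp h := by ring
      have h6 : ε * Real.exp h = 1 / (4 * (r + 1)) := by
        rw [hε, div_mul_eq_mul_div, hexn]
      rw [div_mul_eq_mul_div, div_le_iff₀ hδ, mul_pow]
      have h7 : C₂ * (2 ^ (r + 1) * Real.exp h ^ (r + 1)) * η =
          ε / 4 * (16 * ((r : ℝ) + 1) * 2 ^ (r + 1) * C₂ * (Real.exp h ^ (r + 2) * η)) := by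
        have e1 : ε / 4 * (16 * ((r : ℝ) + 1) * 2 ^ (r + 1) * C₂ *
            (Real.exp h ^ (r + 2) * η)) = (ε * Real.exp h) * (4 * (r + 1)) *
              (C₂ * (2 ^ (r + 1) * Real.exp h ^ (r + 1)) * η) := by
          rw [h5]
          ring
        rw [e1, h6]
        field_simp
      rw [h7]
      exact mul_le_mul_of_nonneg_left h4 (by positivity)
    refine ⟨u, hu, ?_, fun i => ?_⟩
    · funext i
      have h4 := h1 (ρ i)
      rw [Equiv.symm_apply_apply] at h4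
      unfold cbw
      rw [← hM]
      exact h4
    · have h4 := abs_le.1 (h3 i)
      have h5 := hus i
      rw [← hus2 i] at h5
      have h6 : Real.exp (-h) / C ≤ ε / 4 := by
        rw [hε, div_div, div_le_div_iff_of_pos_left hen (by linarith) (by positivity)]
        linarith
      constructor <;> linarith [h4.1, h4.2, h5.1, h5.2]
  have h1 := ms_le hR0 hsub
  refine h1.trans ((ms_or hR0 _ _).trans ((add_le_add hb1 hb2).trans ?_))
  rw [← add_div]
  refine div_le_div_of_nonneg_right ?_ hh.le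
  push_cast
  have hμ0 : 0 ≤ ∑ i, Real.log (ngw W1 P g1 (r + 1) i) - CH R Y c := by
    have h3 := CH_le_card hR0 hR.sum_one Y c (fun _ => Fintype.piFinset
      (fun i => range (ngw W1 P g1 (r + 1) i))) (fun v hv => by
        rw [Fintype.mem_piFinset]
        intro i
        rw [mem_range]
        exact hYlt v hv i)
    rw [Ex_const hR.sum_one, Fintype.card_piFinset] at h3
    push_cast at h3
    rw [Real.log_prod (fun i _ => by
      rw [Finset.card_range]
      exact (hNg0 i).ne')] at h3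
    simp only [Finset.card_range] at h3
    linarith
  obtain ⟨μ', hμ'⟩ : ∃ μ', μ' = ∑ i, Real.log (ngw W1 P g1 (r + 1) i) - CH R Y c := ⟨_, rfl⟩
  rw [← hμ'] at hμ hμ0 ⊢
  have h2 : ((r : ℝ) + 1) * (C₁ * (μ' + C₁)) ≤ ((r : ℝ) + 1) * C₁ ^ 2 * (μ + 1) := by
    have h3 : C₁ * (μ' + C₁) ≤ C₁ ^ 2 * (μ + 1) := by
      have h4 : C₁ * μ' ≤ C₁ ^ 2 * μ := mul_le_mul hC₁3 hμ hμ0 (by positivity)
      calc C₁ * (μ' + C₁) = C₁ * μ' + C₁ ^ 2 := by ring
        _ ≤ C₁ ^ 2 * μ + C₁ ^ 2 := by linarith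
        _ = _ := by ring
    calc ((r : ℝ) + 1) * (C₁ * (μ' + C₁)) ≤ ((r : ℝ) + 1) * (C₁ ^ 2 * (μ + 1)) :=
          mul_le_mul_of_nonneg_left h3 (by positivity)
      _ = _ := by ring
  have h3 : (μ + 1) ≤ C₁ ^ 2 * ((r : ℝ) + 1) * (μ + 1) := by
    have h4 : 1 ≤ C₁ ^ 2 * ((r : ℝ) + 1) :=
      one_le_mul_of_one_le_of_one_le hC₁2 (by linarith)
    have h5 : 0 ≤ μ + 1 := by linarith
    exact le_mul_of_one_le_left h5 h4
  calc μ + 1 + ((r : ℝ) + 1) * (C₁ * (μ' + C₁)) ≤ 2 * ((r : ℝ) + 1) * C₁ ^ 2 * (μ + 1) := by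
        linarith
    _ ≤ C * (μ + 1) := mul_le_mul_of_nonneg_right hCC₁ (by linarith)

end Pool.GEO
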