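import Pool.Agent.H86.GEO.Gdt
import Pool.Agent.H37.CLO.Fr2

/-!
# The leaves which are near

`cidx_dig`: the cells do not depend on the digits. `no_a`: if the event of the different leaves does
not hold, then the leaf of the first point over its cell is near one of the leaves of the second
point.
-/

set_option autoImplicit false

namespace Pool.GEO

open Finset Real
open Pool.Agent.H49.Ent Pool.Agent.H32.Dense Pool.STK Pool.KAF Pool.KAL Pool.KS3 Pool.M3F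
open Pool.KJA Pool.KA Pool.K2S Pool.KSAT Pool.PB Pool.STAT Pool.GEN Pool.CLO37 Pool.IEN Pool.EXS
open Pool.JPN Pool.JMS

variable {m J : ℕ} {F : Fam m J}

/-- The chart of a cell does not depend on the digits. -/
lemma nchi_dig {k W₀ W₁ Pr Pp q : ℕ} {g₀ : ℕ → ℕ} (hW : W₁ ≤ Pr) (hP : Pr ≤ Pp)
    (hq : ∀ i < k + 1, wid W₀ g₀ i + q ≤ Pr) (G : Fin (k + 1) → MvPolynomial (Fin (k + 1)) ℝ)
    (b : Fin (k + 1) → ℤ) :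
    nchi (2 ^ (Pp - W₁)) (n2w k W₀ Pp q g₀) G b = nchi (2 ^ (Pr - W₁)) (nw W₀ Pr g₀ k q) G b := by
  have h1 : ∀ i : Fin (k + 1), (n2w k W₀ Pp q g₀ i : ℝ) / ((2 ^ (Pp - W₁) : ℕ) : ℝ) =
      (nw W₀ Pr g₀ k q i : ℝ) / ((2 ^ (Pr - W₁) : ℕ) : ℝ) := by
    intro i
    have h2 := hq i i.2
    rw [n2w_div (r := k) (hW.trans hP) (h2.trans hP)]
    exact (n2w_div (r := k) (i := i) hW h2).symm
  have e1 : ncor (2 ^ (Pp - W₁)) (n2w k W₀ Pp q g₀) b = ncor (2 ^ (Pr - W₁)) (nw W₀ Pr g₀ k q) b := by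
    funext i
    unfold ncor
    rw [mul_div_assoc, mul_div_assoc, h1 i]
  have e2 : nwid (2 ^ (Pp - W₁)) (n2w k W₀ Pp q g₀) = nwid (2 ^ (Pr - W₁)) (nw W₀ Pr g₀ k q) := by
    funext i
    exact h1 i
  unfold nchi
  rw [e1, e2]

/-- The cells do not depend on the digits. -/
lemma cidx_dig {k W₀ W₁ Pr Pp q : ℕ} {g₀ : ℕ → ℕ} (hW : W₁ ≤ Pr) (hP : Pr ≤ Pp)
    (hq : ∀ i < k + 1, wid W₀ g₀ i + q ≤ Pr) (G : Fin (k + 1) → MvPolynomial (Fin (k + 1)) ℝ)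
    (y : Fin (k + 1) → ℝ) :
    cidx (2 ^ (Pp - W₁)) (n2w k W₀ Pp q g₀) G y =
      nidx (nw W₀ Pr g₀ k q) (ndg (2 ^ (Pr - W₁)) G y) := by
  funext i
  have h2 := hq i i.2
  unfold cidx nidx ndg n2w nw
  obtain ⟨x, hx⟩ : ∃ x : ℝ, x = y i - MvPolynomial.eval y (G i) := ⟨_, rfl⟩
  rw [← hx]
  have e1 : Pp - wid W₀ g₀ i - q = (Pp - Pr) + (Pr - wid W₀ g₀ i - q) := by omega
  have e2 : Pp - W₁ = (Pp - Pr) + (Pr - W₁) := by omega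
  have h3 : ⌊((2 ^ (Pr - W₁) : ℕ) : ℝ) * x⌋ =
      ⌊((2 ^ (Pp - W₁) : ℕ) : ℝ) * x⌋ / ((2 ^ (Pp - Pr) : ℕ) : ℤ) := by
    rw [← Int.floor_div_natCast]
    congr 1
    rw [e2, pow_add]
    push_cast
    field_simp
  rw [h3, e1, pow_add, Int.ediv_ediv_of_nonneg (by positivity)]
  push_cast
  rfl

/-- A cell of depth `q` from a cell of depth `q + X`. -/
lemma nidx_sub {k W₀ Pr q X : ℕ} {g₀ : ℕ → ℕ} (hq : ∀ i < k + 1, wid W₀ g₀ i + q + X ≤ Pr)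
    {n n' : Fin (k + 1) → ℤ} (h : nidx (nw W₀ Pr g₀ k (q + X)) n = nidx (nw W₀ Pr g₀ k (q + X)) n') :
    nidx (nw W₀ Pr g₀ k q) n = nidx (nw W₀ Pr g₀ k q) n' := by
  funext i
  have h1 := congrFun h i
  have h2 := hq i i.2
  unfold nidx nw at h1 ⊢
  have e1 : Pr - wid W₀ g₀ i - q = (Pr - wid W₀ g₀ i - (q + X)) + X := by omega
  have e2 : ∀ a : ℤ, a / ((2 ^ (Pr - wid W₀ g₀ i - q) : ℕ) : ℤ) =
      a / ((2 ^ (Pr - wid W₀ g₀ i - (q + X)) : ℕ) : ℤ) / ((2 ^ X : ℕ) : ℤ) := by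
    intro a
    rw [Int.ediv_ediv_of_nonneg (by positivity), e1, pow_add]
    push_cast
    rfl
  rw [e2, e2, h1]

/-- The chart of the cell, in the order of the second window. -/
lemma eval_chiw {k W₀ W₁ Pr Pp q : ℕ} {g₀ : ℕ → ℕ} {ρ : Equiv.Perm (Fin (k + 1))} {V : Type}
    {P₀ : V → ℕ → PN} (hW : W₁ ≤ Pr) (hP : Pr ≤ Pp) (hq : ∀ i < k + 1, wid W₀ g₀ i + q ≤ Pr)
    (v : V) (b : Fin (k + 1) → ℤ) (u : Fin (k + 1) → ℝ) (T : MvPolynomial (Fin (k + 1)) ℝ) :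
    MvPolynomial.eval (cpt (chiw k W₀ W₁ Pp q g₀ ρ P₀ v b) u) T =
      MvPolynomial.eval u (MvPolynomial.bind₁ (nchi (2 ^ (Pr - W₁)) (nw W₀ Pr g₀ k q)
        (gsy k W₁ (P₀ v)) b) (MvPolynomial.rename ρ T)) := by
  have h1 : MvPolynomial.eval u (MvPolynomial.bind₁ (nchi (2 ^ (Pr - W₁)) (nw W₀ Pr g₀ k q)
      (gsy k W₁ (P₀ v)) b) (MvPolynomial.rename ρ T)) =
      MvPolynomial.eval (cpt (nchi (2 ^ (Pr - W₁)) (nw W₀ Pr g₀ k q) (gsy k W₁ (P₀ v)) b) u)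
        (MvPolynomial.rename ρ T) := eval_bind _ _ _
  rw [h1, MvPolynomial.eval_rename]
  congr 2
  funext i
  change MvPolynomial.eval u (nchi (2 ^ (Pp - W₁)) (n2w k W₀ Pp q g₀) (gsy k W₁ (P₀ v)) b (ρ i)) =
    MvPolynomial.eval u (nchi (2 ^ (Pr - W₁)) (nw W₀ Pr g₀ k q) (gsy k W₁ (P₀ v)) b (ρ i))
  rw [nchi_dig hW hP hq]

/-- **The leaves which are near**: the event of the different leaves does not hold. -/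
theorem no_a {A : F.Ω → Prop} {c₀ c₁ : ℕ → Fin m} {k K Dq : ℕ} {w₀ w₁ pr q X φ : ℝ}
    {β₀ β₁ : ℕ → ℝ} {ρ : Equiv.Perm (Fin (k + 1))} {Pr sg₀ sg kap : ℕ} {g₀ g₁ : ℕ → ℕ} {L : ℝ}
    {V₀ V₁ : Type} {z₀ : PtT F → V₀} {z₀' : LnT F → V₀} {P₀ : V₀ → ℕ → PN} {z₁ : PtT F → V₁}
    {z₁' : LnT F → V₁} {P₁ : V₁ → ℕ → PN} {Qh : V₁ → MvPolynomial (Option (Fin (k + 1))) ℝ}
    {ρz : V₁ → ℝ}
    (G : GD F A c₀ c₁ k K Dq w₀ w₁ pr q X φ β₀ β₁ ρ Pr sg₀ sg kap g₀ g₁ L z₀ z₀' P₀ z₁ z₁' P₁ Qh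
      ρz) {Pp s : ℕ} (hP : Pr ≤ Pp) {Ph : V₁ → ℕ → PN}
    (hPh : ∀ v, toF (k + 1) ⌊w₁ * J⌋₊ (Ph v (k + 1)) =
      MvPolynomial.C (1 / 2 ^ s) * toF (k + 1) ⌊w₁ * J⌋₊ (P₁ v (k + 1)))
    {n₀ D : ℕ} (aF : (Fin (k + 1) → MvPolynomial (Fin (k + 1)) ℝ) →
      MvPolynomial (Option (Fin (k + 1))) ℝ → (Fin (k + 1) → ℤ) → Fin D → Fin n₀ →
        MvPolynomial (Fin (k + 1)) ℝ) {ν₀ : ℝ} {e : F.Ω × F.Ω} (h1 : A e.1) (h2 : A e.2)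
    (hs : slam F ⌊w₀ * J⌋₊ e.1 = slam F ⌊w₀ * J⌋₊ e.2)
    (hNs : EvNs F c₀ k ⌊w₀ * J⌋₊ ⌊w₁ * J⌋₊ Pr sg ⌊q * J⌋₊ ⌊X * J⌋₊ g₀ z₀ P₀ e.1)
    (hNo : ¬ EvNo F c₀ k ⌊w₀ * J⌋₊ ⌊w₁ * J⌋₊ Pr sg ⌊q * J⌋₊ g₀ ρ z₀ P₀ z₁ P₁ Qh aF ν₀ e) :
    ∃ i : Fin D × Fin n₀, ∀ u ∈ ucube (k + 1),
      |MvPolynomial.eval (cpt (chiw k ⌊w₀ * J⌋₊ ⌊w₁ * J⌋₊ Pp ⌊q * J⌋₊ g₀ ρ P₀ (z₀ (ptr F J e.1))
          (ciw c₀ k ⌊w₀ * J⌋₊ ⌊w₁ * J⌋₊ Pp ⌊q * J⌋₊ g₀ P₀ z₀ (ptr F J e.1))) u)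
        (toF (k + 1) ⌊w₁ * J⌋₊ (Ph (z₁ (ptr F J e.1)) (k + 1))) -
        1 / 2 ^ s * MvPolynomial.eval u (aF (gsy k ⌊w₁ * J⌋₊ (P₀ (z₀ (ptr F J e.2))))
          (ren ρ (Qh (z₁ (ptr F J e.2))))
          (ciw c₀ k ⌊w₀ * J⌋₊ ⌊w₁ * J⌋₊ Pp ⌊q * J⌋₊ g₀ P₀ z₀ (ptr F J e.1)) i.1 i.2)| ≤
        ν₀ / 2 ^ s := by
  unfold EvNo at hNo
  push Not at hNo
  obtain ⟨kk, ii, hno⟩ := hNo
  refine ⟨(kk, ii), fun u hu => ?_⟩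
  have hz : z₀ (ptr F J e.2) = z₀ (ptr F J e.1) := by
    rw [G.n0.cls _ h1, G.n0.cls _ h2, hs]
  have hq : ∀ i < k + 1, wid ⌊w₀ * J⌋₊ g₀ i + ⌊q * J⌋₊ ≤ Pr := fun i hi => by
    have := G.wd0 i hi
    omega
  -- the cell
  have hcell : ciw c₀ k ⌊w₀ * J⌋₊ ⌊w₁ * J⌋₊ Pp ⌊q * J⌋₊ g₀ P₀ z₀ (ptr F J e.1) =
      gB F c₀ k ⌊w₀ * J⌋₊ ⌊w₁ * J⌋₊ Pr sg g₀ z₀ P₀ ⌊q * J⌋₊ e.1 := by
    unfold ciw
    rw [cidx_dig G.WP hP hq]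
    exact nidx_sub G.wd0 hNs
  rw [hcell, hz, eval_chiw G.WP hP hq, hPh, map_mul, MvPolynomial.rename_C, map_mul,
    MvPolynomial.bind₁_C_right, map_mul, MvPolynomial.eval_C, ← mul_sub, abs_mul,
    abs_of_pos (by positivity : (0 : ℝ) < 1 / 2 ^ s), div_eq_mul_one_div ν₀, mul_comm ν₀]
  refine mul_le_mul_of_nonneg_left ?_ (by positivity)
  have h3 := (hno u hu).le
  unfold gD at h3
  rw [map_sub] at h3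
  exact h3

end Pool.GEO
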