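import Pool.Agent.H5.GEO.Noa
import Pool.Agent.H96.R1.Sfw
import Pool.Agent.H15.KM7.Pair

/-!
# The family of the leaves of the second point

`no_fm`: the form of `no_a` which is used for the family form, over the shifted records.
-/

set_option autoImplicit false

namespace Pool.GEO

open Finset Real
open Pool.Agent.H49.Ent Pool.Agent.H32.Dense Pool.STK Pool.KAF Pool.KAL Pool.KS3 Pool.M3F
open Pool.KJA Pool.KA Pool.K2S Pool.KSAT Pool.PB Pool.STAT Pool.GEN Pool.CLO37 Pool.IEN Pool.EXS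
open Pool.JPN Pool.JMS Pool.KM7 Pool.R1

/-- The shifted label of the target in the scaled variables. -/
lemma toF_shP (r W s : ℕ) (P : ℕ → PN) : toF (r + 1) W (shP r s P (r + 1)) =
    MvPolynomial.C (1 / 2 ^ s) * toF (r + 1) W (P (r + 1)) := by
  rw [shP_r]
  unfold Pool.M3F.toF
  rw [map_mul, MvPolynomial.bind₁_C_right]
  ring

/-- The family of the leaves of the second point. -/
noncomputable def faN (k W₁ s : ℕ) (ρ : Equiv.Perm (Fin (k + 1))) {V₀ V₁ : Type}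
    (P₀ : V₀ → ℕ → PN) (Qh : V₁ → MvPolynomial (Option (Fin (k + 1))) ℝ) {n₀ D : ℕ}
    (aF : (Fin (k + 1) → MvPolynomial (Fin (k + 1)) ℝ) →
      MvPolynomial (Option (Fin (k + 1))) ℝ → (Fin (k + 1) → ℤ) → Fin D → Fin n₀ →
        MvPolynomial (Fin (k + 1)) ℝ) (v : V₁ × V₀) (b : Fin (k + 1) → ℤ) (i : Fin (D * n₀))
    (u : Fin (k + 1) → ℝ) : ℝ :=
  1 / 2 ^ s * MvPolynomial.eval u (aF (gsy k W₁ (P₀ v.2)) (ren ρ (Qh v.1)) b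
    (finProdFinEquiv.symm i).1 (finProdFinEquiv.symm i).2)

variable {m J : ℕ} {F : Fam m J}

/-- **The family of the leaves of the second point.** -/
theorem no_fm {A : F.Ω → Prop} {c₀ c₁ : ℕ → Fin m} {k K Dq : ℕ} {w₀ w₁ pr q X φ : ℝ}
    {β₀ β₁ : ℕ → ℝ} {ρ : Equiv.Perm (Fin (k + 1))} {Pr sg₀ sg kap : ℕ} {g₀ g₁ : ℕ → ℕ} {L : ℝ}
    {V₀ V₁ : Type} {z₀ : PtT F → V₀} {z₀' : LnT F → V₀} {P₀ : V₀ → ℕ → PN} {z₁ : PtT F → V₁}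
    {z₁' : LnT F → V₁} {P₁ : V₁ → ℕ → PN} {Qh : V₁ → MvPolynomial (Option (Fin (k + 1))) ℝ}
    {ρz : V₁ → ℝ}
    (G : GD F A c₀ c₁ k K Dq w₀ w₁ pr q X φ β₀ β₁ ρ Pr sg₀ sg kap g₀ g₁ L z₀ z₀' P₀ z₁ z₁' P₁ Qh
      ρz) (hA : 0 < Pe F.p A) {Pp : ℕ} (hP : Pr ≤ Pp) (s : ℕ)
    {n₀ D : ℕ} (aF : (Fin (k + 1) → MvPolynomial (Fin (k + 1)) ℝ) →
      MvPolynomial (Option (Fin (k + 1))) ℝ → (Fin (k + 1) → ℤ) → Fin D → Fin n₀ →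
        MvPolynomial (Fin (k + 1)) ℝ) (ν₀ : ℝ) (e : F.Ω × F.Ω)
    (he : 0 < P2 (Pool.Agent.H49.Ent.cond F.p A True) (slam F ⌊w₀ * J⌋₊) e)
    (hE : EvNs F c₀ k ⌊w₀ * J⌋₊ ⌊w₁ * J⌋₊ Pr sg ⌊q * J⌋₊ ⌊X * J⌋₊ g₀ z₀ P₀ e.1 ∧
      ¬ EvNo F c₀ k ⌊w₀ * J⌋₊ ⌊w₁ * J⌋₊ Pr sg ⌊q * J⌋₊ g₀ ρ z₀ P₀ z₁ P₁ Qh aF ν₀ e) :
    ∃ i : Fin (D * n₀), ∀ u ∈ ucube (k + 1),
      |MvPolynomial.eval (cpt (chiw k ⌊w₀ * J⌋₊ ⌊w₁ * J⌋₊ Pp ⌊q * J⌋₊ g₀ ρ P₀ (z₀ (ptr F J e.1))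
          (ciw c₀ k ⌊w₀ * J⌋₊ ⌊w₁ * J⌋₊ Pp ⌊q * J⌋₊ g₀ P₀ z₀ (ptr F J e.1))) u)
        (toF (k + 1) ⌊w₁ * J⌋₊ (shP k s (P₁ (z₁ (ptr F J e.1))) (k + 1))) -
        faN k ⌊w₁ * J⌋₊ s ρ P₀ Qh aF (z₁ (ptr F J e.2), z₀ (ptr F J e.2))
          (ciw c₀ k ⌊w₀ * J⌋₊ ⌊w₁ * J⌋₊ Pp ⌊q * J⌋₊ g₀ P₀ z₀ (ptr F J e.1)) i u| ≤
        ν₀ / 2 ^ s := by
  have hl := isLaw_cond F.isLaw hA
  obtain ⟨h1, h2, h3⟩ := (P2_pos hl e).1 he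
  obtain ⟨i, hi⟩ := no_a G hP (Ph := fun v => shP k s (P₁ v)) (fun v => toF_shP k _ s (P₁ v)) aF
    (cond_supp h1) (cond_supp h2) h3 hE.1 hE.2
  refine ⟨finProdFinEquiv i, fun u hu => ?_⟩
  have h4 := hi u hu
  unfold faN
  rw [Equiv.symm_apply_apply]
  exact h4

end Pool.GEO
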