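import Pool.Agent.H96.R1.Sfw
import Pool.Agent.H37.CLO.Fr6
import Pool.Agent.H5.GEO.Evd

/-!
# The inputs of the family form, in a class

`w_in`: the mixing of the natural digits at the two windows, the digits of the time, and the
inclusion of the cells, for the shifted records.
-/

set_option autoImplicit false

namespace Pool.GEO

open Finset Real
open Pool.Agent.H49.Ent Pool.Agent.H32.Dense Pool.STK Pool.KAF Pool.KAL Pool.KS3 Pool.M3F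
open Pool.KJA Pool.KA Pool.K2S Pool.KSAT Pool.PB Pool.STAT Pool.GEN Pool.CLO37 Pool.IEN Pool.EXS
open Pool.JPN Pool.JMS Pool.KM7 Pool.S6C Pool.R1

/-- The two notations of the mass of an event. -/
lemma pe_ms {Ω : Type} [Fintype Ω] (p : Ω → ℝ) (B : Ω → Prop) : Pe p B = ms p B := by
  classical
  rw [Pe_eq]
  unfold ms
  exact Finset.sum_congr rfl fun _ _ => by split_ifs <;> rfl

/-- **The inclusion of the cells**, for the shifted records, in a class. -/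
theorem inw_w (k K : ℕ) {m : ℕ} {S : PCl m}
    (hmem : ∀ (τ : ℝ) (J : ℕ) (F : Fam m J) (A : F.Ω → Prop), S.St τ J F A →
      F.Tr ∧ F.Tm (τ * J) ∧ F.Rb (τ * J) ∧ Real.exp (-(τ * J)) ≤ Pe F.p A)
    {c₀ c₁ : ℕ → Fin m} {w₀ w₁ pr q : ℝ} {β₀ β₁ : ℕ → ℝ} (hw0 : 0 ≤ w₀) (hw01 : w₀ ≤ w₁)
    (hw1 : w₁ ≤ 1)
    (hex : ∀ ρ : ℝ, 0 < ρ → ExvY S w₁ (fun J F ω (i : Fin k) => F.X J ω (c₁ i))
      ((∑ l ∈ range k, (1 - β₁ l)) - ρ)) {η c : ℝ} (hη : 0 < η) (hc : 0 < c)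
    (hm0 : w₁ + η ≤ pr) (hm1 : ∀ l < k, β₁ l + η ≤ pr)
    (hvol : (w₁ - w₀) + ∑ l ∈ range k, (β₁ l - β₀ l) + η ≤ q) :
    ∃ φ : ℝ, 0 < φ ∧ Bas S (fun J F A => 0 < Pe F.p A ∧
      ∀ (Dq : ℕ) (X φ' : ℝ) (ρ : Equiv.Perm (Fin (k + 1)))
        (Pr sg₀ sg kap : ℕ) (g₀ g₁ : ℕ → ℕ) (L : ℝ) (V₀ V₁ : Type) (z₀ : PtT F → V₀)
        (z₀' : LnT F → V₀) (P₀ : V₀ → ℕ → PN) (z₁ : PtT F → V₁) (z₁' : LnT F → V₁)
        (P₁ : V₁ → ℕ → PN) (Qh : V₁ → MvPolynomial (Option (Fin (k + 1))) ℝ) (ρz : V₁ → ℝ),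
        φ' ≤ φ → GD F A c₀ c₁ k K Dq w₀ w₁ pr q X φ' β₀ β₁ ρ Pr sg₀ sg kap g₀ g₁ L z₀ z₀' P₀ z₁
          z₁' P₁ Qh ρz →
        ∀ (s Pp : ℕ), Pr ≤ Pp → Pp ≤ J → ∃ Sv κv : ℝ,
        Pe (Pool.Agent.H49.Ent.cond F.p A True) (fun ω => ¬ InW F k ⌊w₀ * J⌋₊ ⌊w₁ * J⌋₊ Pp
          ⌊q * J⌋₊ c₀ ρ g₀ (shG k s g₁) z₀ P₀ z₁ (fun v => shP k s (P₁ v)) Sv κv ω) ≤ c) := by
  classical
  obtain ⟨C, hC, hinc⟩ := inc_w k K
  have hC0 : 0 < C := by linarith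
  have hl2 : 0 < Real.log 2 := Real.log_pos one_lt_two
  obtain ⟨μ, hμ⟩ : ∃ μ : ℝ, μ = η * Real.log 2 / (8 * (k + 3)) := ⟨_, rfl⟩
  have hμ0 : 0 < μ := by
    rw [hμ]
    positivity
  have hμk : (k + 3) * μ = η * Real.log 2 / 8 := by
    rw [hμ]
    field_simp
  obtain ⟨φ₁, hφ₁, hB⟩ := hinc hmem (c0 := c₀) hw0 hw01 hw1 hex
    (show (0 : ℝ) < c * μ / 2 by positivity)
  obtain ⟨φ, hφ⟩ : ∃ φ : ℝ, φ = min φ₁ (min μ (η / (8 * (k + 1)))) := ⟨_, rfl⟩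
  have hφ0 : 0 < φ := by
    rw [hφ]
    exact lt_min hφ₁ (lt_min hμ0 (by positivity))
  have f1 : φ ≤ φ₁ := by
    rw [hφ]
    exact min_le_left _ _
  have f2 : φ ≤ μ := by
    rw [hφ]
    exact (min_le_right _ _).trans (min_le_left _ _)
  have f3 : (k + 1) * φ ≤ η / 8 := by
    have h1 : φ ≤ η / (8 * (k + 1)) := by
      rw [hφ]
      exact (min_le_right _ _).trans (min_le_right _ _)
    have h2 : η / (8 * ((k : ℝ) + 1)) = η / 8 / (k + 1) := by field_simp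
    rw [h2, le_div_iff₀ (by positivity)] at h1
    linarith
  have f4 : φ ≤ η / 8 := by
    have : (0 : ℝ) ≤ k * φ := by positivity
    linarith
  obtain ⟨J₃, hJ₃⟩ := const_exp (8 * C) hμ0
  obtain ⟨J₄, hJ₄⟩ := exists_nat_gt (C / (c * μ / 2))
  have hpos : Bas S (fun J F A => 0 < Pe F.p A) :=
    ⟨1, one_pos, 0, fun J _ F A h => lt_of_lt_of_le (Real.exp_pos _) (hmem _ J F A h).2.2.2⟩
  refine ⟨φ, hφ0, (hB.and hpos).mono (max 1 (max J₃ J₄)) ?_⟩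
  rintro J hJ F A ⟨hm, hA⟩
  refine ⟨hA, ?_⟩
  intro Dq X φ' ρ Pr sg₀ sg kap g₀ g₁ L V₀ V₁ z₀ z₀' P₀ z₁ z₁' P₁ Qh ρz hφ' G s Pp hPP hPJ
  have hJ1 : (1 : ℝ) ≤ J := by exact_mod_cast (le_max_left _ _).trans hJ
  have hJ0 : (0 : ℝ) ≤ J := by linarith
  have j3 : J₃ ≤ J := ((le_max_left _ _).trans (le_max_right _ _)).trans hJ
  have j4 : (J₄ : ℝ) ≤ J := by
    exact_mod_cast ((le_max_right _ _).trans (le_max_right _ _)).trans hJ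
  have hCμ : 8 * C ≤ Real.exp (μ * J) := hJ₃ J j3
  have hCc : C ≤ c * μ / 2 * J := by
    have h2 := hJ₄.trans_le j4
    rw [div_lt_iff₀ (by positivity)] at h2
    linarith
  have hφJ : φ' * J ≤ φ * J := mul_le_mul_of_nonneg_right hφ' hJ0
  have hemu : 1 ≤ Real.exp (μ * J) := Real.one_le_exp (by positivity)
  have hPr := abs_le.1 G.Pr0
  have hφη : φ' * J ≤ η / 8 * J := hφJ.trans (mul_le_mul_of_nonneg_right f4 hJ0)
  have hηJ : 0 ≤ η * J := by positivity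
  have hw1' : 0 ≤ w₁ := hw0.trans hw01
  have fl0 := Nat.lt_floor_add_one (w₀ * (J : ℝ))
  have fl1 := Nat.floor_le (show 0 ≤ w₁ * (J : ℝ) by positivity)
  have hN1 := nlab_shift G.n1 s
  have hwd1 : ∀ i < k + 1, wid ⌊w₁ * J⌋₊ (shG k s g₁) i ≤ Pp := fun i hi => by
    rw [wid_shG hi]
    exact (G.wd1 i hi).trans hPP
  -- the permutation
  have hpx : ∀ (ξ : PtT F) (i : Fin (k + 1)), px c₁ ξ i = px c₀ ξ (ρ i) := by
    intro ξ i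
    by_cases hi : i = 0
    · rw [hi, G.r0]
      rfl
    · have hj0 : ρ i ≠ 0 := by
        intro h
        exact hi (ρ.injective (h.trans G.r0.symm))
      have h1 := G.rc i hi
      obtain ⟨l, hl⟩ := Fin.exists_succ_eq.2 hi
      obtain ⟨l', hl'⟩ := Fin.exists_succ_eq.2 hj0
      rw [← hl'] at h1 ⊢
      rw [← hl] at h1 ⊢
      rw [Fin.val_succ, Fin.val_succ, Nat.add_sub_cancel, Nat.add_sub_cancel] at h1
      rw [Fin.val_succ, Fin.val_succ, px_succ, px_succ, h1]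
  -- the boxes are large
  have hwidr : ∀ i < k + 1, 3 * η / 4 * J ≤
      ((Pp - wid ⌊w₁ * J⌋₊ (shG k s g₁) i : ℕ) : ℝ) := by
    intro i hi
    have h1 := hwd1 i hi
    have hPPr : (Pr : ℝ) ≤ Pp := by exact_mod_cast hPP
    rw [Nat.cast_sub h1, wid_shG hi]
    rcases Nat.eq_zero_or_pos i with h0 | h0
    · subst h0
      rw [wid_zero]
      have h3 := mul_le_mul_of_nonneg_right hm0 hJ0
      linarith
    · obtain ⟨l, rfl⟩ : ∃ l, i = l + 1 := ⟨i - 1, by omega⟩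
      rw [wid_succ]
      have h2 := abs_le.1 (G.be1 l (by omega))
      have h3 := mul_le_mul_of_nonneg_right (hm1 l (by omega)) hJ0
      linarith
  have hngw0 : ∀ i : Fin (k + 1), (2 : ℝ) ^ ((Pp - wid ⌊w₁ * J⌋₊ (shG k s g₁) i : ℕ) : ℝ) ≤
      ngw ⌊w₁ * J⌋₊ Pp (shG k s g₁) (k + 1) i := by
    intro i
    unfold ngw
    push_cast
    rw [Real.rpow_natCast]
    have h3 : (2 : ℝ) ^ (Pp - wid ⌊w₁ * J⌋₊ (shG k s g₁) i) ≤
        2 ^ (Pp - wid ⌊w₁ * J⌋₊ (shG k s g₁) i + 1) :=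
      pow_le_pow_right₀ one_le_two (Nat.le_succ _)
    linarith
  have h2e : ∀ x : ℝ, (2 : ℝ) ^ x = Real.exp (Real.log 2 * x) := fun x =>
    Real.rpow_def_of_pos (by norm_num) x
  have hngw : ∀ i : Fin (k + 1), C * (1 + L) * Real.exp (μ * J) ≤
      ngw ⌊w₁ * J⌋₊ Pp (shG k s g₁) (k + 1) i := by
    intro i
    refine le_trans ?_ (hngw0 i)
    have h1 : 1 + L ≤ Real.exp (μ * J) := by
      rw [← Real.log_le_iff_le_exp (by linarith [G.L0])]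
      exact (G.logL.trans hφJ).trans (mul_le_mul_of_nonneg_right f2 hJ0)
    have h2 : C ≤ Real.exp (μ * J) := by linarith
    calc C * (1 + L) * Real.exp (μ * J) ≤
          Real.exp (μ * J) * Real.exp (μ * J) * Real.exp (μ * J) := by
          refine mul_le_mul_of_nonneg_right ?_ (by positivity)
          exact mul_le_mul h2 h1 (by linarith [G.L0]) (by positivity)
      _ = Real.exp (3 * μ * J) := by
          rw [← Real.exp_add, ← Real.exp_add]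
          congr 1
          ring
      _ ≤ _ := by
          rw [h2e]
          refine Real.exp_le_exp.2 ?_
          have h3 := mul_le_mul_of_nonneg_left (hwidr i i.2) hl2.le
          have h4 : (0 : ℝ) ≤ k * μ := by positivity
          have h5 : 3 * μ ≤ η * Real.log 2 / 8 := by linarith
          have h6 : 3 * μ * J ≤ η * Real.log 2 / 8 * J := mul_le_mul_of_nonneg_right h5 hJ0
          have h7 : 0 ≤ η * Real.log 2 * J := by positivity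
          linarith
  -- the volumes
  obtain ⟨e, he⟩ : ∃ e : ℕ → ℝ, e = fun i => if i = 0 then (w₁ - w₀) * J + 1 else
    (β₁ (i - 1) - β₀ (i - 1)) * J + 2 * (φ' * J) := ⟨_, rfl⟩
  have hei : ∀ i < k + 1, (wid ⌊w₁ * J⌋₊ (shG k s g₁) i : ℝ) - wid ⌊w₀ * J⌋₊ g₀ i ≤ e i := by
    intro i hi
    rw [wid_shG hi]
    rcases Nat.eq_zero_or_pos i with h0 | h0
    · subst h0
      rw [wid_zero, wid_zero, he]
      simp only [if_true]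
      linarith
    · obtain ⟨l, rfl⟩ : ∃ l, i = l + 1 := ⟨i - 1, by omega⟩
      rw [wid_succ, wid_succ, he]
      simp only [Nat.succ_ne_zero, if_false, Nat.add_sub_cancel]
      have h2 := abs_le.1 (G.be1 l (by omega))
      have h3 := abs_le.1 (G.be0 l (by omega))
      linarith
  have hesum : ∑ i : Fin (k + 1), e i =
      ((w₁ - w₀) + ∑ l ∈ range k, (β₁ l - β₀ l)) * J + 1 + 2 * k * (φ' * J) := by
    rw [Fin.sum_univ_succ, he]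
    simp only [Fin.val_zero, if_true, Fin.val_succ, Nat.succ_ne_zero, if_false, Nat.add_sub_cancel]
    rw [Fin.sum_univ_eq_sum_range (fun l => (β₁ l - β₀ l) * (J : ℝ) + 2 * (φ' * J)) k,
      Finset.sum_add_distrib, ← Finset.sum_mul, Finset.sum_const, Finset.card_range, nsmul_eq_mul]
    ring
  obtain ⟨dl, hdl⟩ : ∃ dl : ℝ, dl = (2 : ℝ) ^ (-∑ i : Fin (k + 1), e i) := ⟨_, rfl⟩
  have hdl0 : 0 < dl := by
    rw [hdl]
    positivity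
  have hdlprod : dl = ∏ i : Fin (k + 1), (2 : ℝ) ^ (-e i) := by
    rw [hdl, ← Finset.sum_neg_distrib, Real.rpow_sum_of_pos (by norm_num)]
  have hdlN : dl * ∏ i : Fin (k + 1), ((2 ^ (Pp - wid ⌊w₀ * J⌋₊ g₀ i) : ℕ) : ℝ) ≤
      ∏ i, (ngw ⌊w₁ * J⌋₊ Pp (shG k s g₁) (k + 1) i : ℝ) := by
    rw [hdlprod, ← Finset.prod_mul_distrib]
    refine Finset.prod_le_prod (fun i _ => by positivity) fun i _ => ?_
    refine le_trans ?_ (hngw0 i)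
    push_cast
    rw [← Real.rpow_natCast, ← Real.rpow_add (by norm_num)]
    refine Real.rpow_le_rpow_of_exponent_le one_le_two ?_
    have h1 := hei i i.2
    have h2 := hwd1 i i.2
    have h3 := G.wd0 i i.2
    rw [Nat.cast_sub (by omega), Nat.cast_sub h2]
    linarith
  obtain ⟨Q, hQ⟩ : ∃ Q : ℕ, Q = ⌊q * J⌋₊ := ⟨_, rfl⟩
  have hQq : q * J ≤ Q + 1 := by
    rw [hQ]
    exact (Nat.lt_floor_add_one _).le
  have hsmall : C * Real.exp (μ * J) ^ (k + 2) * (1 / 2 ^ Q) ≤ dl := by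
    rw [mul_one_div, div_le_iff₀ (by positivity)]
    have h0 : (2 : ℝ) ^ Q = Real.exp (Real.log 2 * Q) := by
      rw [← Real.rpow_natCast, h2e]
    have h1 : C * Real.exp (μ * J) ^ (k + 2) ≤ Real.exp ((k + 3) * μ * J) / 8 := by
      have h2 : Real.exp ((k + 3) * μ * J) = Real.exp (μ * J) * Real.exp (μ * J) ^ (k + 2) := by
        rw [← Real.exp_nat_mul, ← Real.exp_add]
        congr 1
        push_cast
        ring
      rw [h2]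
      have h3 : 0 ≤ Real.exp (μ * J) ^ (k + 2) := by positivity
      have h4 := mul_le_mul_of_nonneg_right hCμ h3
      linarith
    refine h1.trans ?_
    rw [hdl, h2e, h0, ← Real.exp_add]
    have h8 : (8 : ℝ) = Real.exp (Real.log 2 * 3) := by
      rw [← h2e]
      norm_num
    rw [h8, ← Real.exp_sub]
    refine Real.exp_le_exp.2 ?_
    rw [hesum]
    have h3 : (k + 3) * μ * J = Real.log 2 * (η / 8 * J) := by
      rw [hμk]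
      ring
    rw [h3]
    have h4 := mul_le_mul_of_nonneg_right hvol hJ0
    have h5 : (k + 1) * (φ' * J) ≤ η / 8 * J := by
      have h6 : (k + 1) * (φ' * J) ≤ (k + 1) * (φ * J) :=
        mul_le_mul_of_nonneg_left hφJ (by positivity)
      have h7 := mul_le_mul_of_nonneg_right f3 hJ0
      linarith
    have h6 : 2 * k * (φ' * J) ≤ η / 2 * J := by
      rcases le_or_gt 0 φ' with h7 | h7
      · have h8 : 0 ≤ φ' * J := by positivity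
        linarith
      · have h8 : φ' * J ≤ 0 := mul_nonpos_of_nonpos_of_nonneg h7.le hJ0
        have h9 : (0 : ℝ) ≤ k := Nat.cast_nonneg k
        have h10 : 2 * k * (φ' * J) ≤ 0 := mul_nonpos_of_nonneg_of_nonpos (by linarith) h8
        have h11 : 0 ≤ η / 2 * J := by positivity
        linarith
    have h7 : η / 8 * J - 3 ≤ -(((w₁ - w₀) + ∑ l ∈ range k, (β₁ l - β₀ l)) * J + 1 +
        2 * k * (φ' * J)) + Q := by
      linarith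
    have h9 := mul_le_mul_of_nonneg_left h7 hl2.le
    linarith
  have key := hm Pp g₀ (shG k s g₁) sg₀ (sg + s) L V₀ V₁ z₀ z₀' P₀ z₁ z₁'
    (fun v => shP k s (P₁ v)) ρ (μ * J) dl (1 / 2 ^ Q)
    (fun l hl => by
      have h1 := abs_le.1 (G.be1 l hl)
      have h2 : φ' * J ≤ φ₁ * J := mul_le_mul_of_nonneg_right (hφ'.trans f1) hJ0
      rw [shG_lt hl]
      linarith) (G.WP.trans hPP) hPJ (fun i hi => by
      have h1 := G.wd0 i hi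
      omega) hwd1 hpx G.n0 hN1 G.L0 (by positivity) hngw hdl0 (by positivity) hdlN hsmall
  have h2 : (c * μ / 2 * J + C) / (μ * J) ≤ c := by
    rw [div_le_iff₀ (by positivity)]
    linarith
  rw [hQ] at key
  exact ⟨_, _, (pe_ms _ _).trans_le (key.trans h2)⟩

/-- **The inputs of the family form, in a class.** -/
theorem w_in (k K : ℕ) {m : ℕ} {S : PCl m}
    (hmem : ∀ (τ : ℝ) (J : ℕ) (F : Fam m J) (A : F.Ω → Prop), S.St τ J F A →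
      F.Tr ∧ F.Tm (τ * J) ∧ F.Rb (τ * J) ∧ Real.exp (-(τ * J)) ≤ Pe F.p A)
    {c₀ c₁ : ℕ → Fin m} {w₀ w₁ pr q : ℝ} {β₀ β₁ : ℕ → ℝ} (hw0 : 0 ≤ w₀) (hw01 : w₀ ≤ w₁)
    (hw1 : w₁ ≤ 1)
    (hex0 : ∀ ρ : ℝ, 0 < ρ → ExvY S w₀ (fun J F ω (i : Fin k) => F.X J ω (c₀ i))
      ((∑ l ∈ range k, (1 - β₀ l)) - ρ))
    (hex1 : ∀ ρ : ℝ, 0 < ρ → ExvY S w₁ (fun J F ω (i : Fin k) => F.X J ω (c₁ i))
      ((∑ l ∈ range k, (1 - β₁ l)) - ρ)) {η c δ : ℝ} (hη : 0 < η) (hc : 0 < c) (hδ : 0 < δ)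
    (hm0 : w₁ + η ≤ pr) (hm1 : ∀ l < k, β₁ l + η ≤ pr)
    (hvol : (w₁ - w₀) + ∑ l ∈ range k, (β₁ l - β₀ l) + η ≤ q) :
    ∃ (N₀ : ℕ) (φ : ℝ), 0 < φ ∧ Bas S (fun J F A => 0 < Pe F.p A ∧
      ∀ (Dq : ℕ) (X φ' : ℝ) (ρ : Equiv.Perm (Fin (k + 1)))
        (Pr sg₀ sg kap : ℕ) (g₀ g₁ : ℕ → ℕ) (L : ℝ) (V₀ V₁ : Type) (z₀ : PtT F → V₀)
        (z₀' : LnT F → V₀) (P₀ : V₀ → ℕ → PN) (z₁ : PtT F → V₁) (z₁' : LnT F → V₁)
        (P₁ : V₁ → ℕ → PN) (Qh : V₁ → MvPolynomial (Option (Fin (k + 1))) ℝ) (ρz : V₁ → ℝ),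
        φ' ≤ φ → GD F A c₀ c₁ k K Dq w₀ w₁ pr q X φ' β₀ β₁ ρ Pr sg₀ sg kap g₀ g₁ L z₀ z₀' P₀ z₁
          z₁' P₁ Qh ρz →
        ∀ (s Pp : ℕ), Pr ≤ Pp → Pp ≤ J → g₀ k ≤ J →
        (∀ i < k + 1, wid ⌊w₀ * J⌋₊ g₀ i ≤ g₀ k) →
        (∃ N ≤ N₀, MxC N (δ * J) (Pool.Agent.H49.Ent.cond F.p A True) (slam F ⌊w₁ * J⌋₊)
          (K2S.Fam.pt F) (fun _ => ∑ i, Real.log (ngw ⌊w₁ * J⌋₊ Pp (shG k s g₁) (k + 1) i))
          (fun ξ => ybw c₁ k ⌊w₁ * J⌋₊ Pp (shG k s g₁) (shP k s (P₁ (z₁ ξ))) ξ)) ∧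
        (∃ N ≤ N₀, MxC N (δ * J) (Pool.Agent.H49.Ent.cond F.p A True) (slam F ⌊w₀ * J⌋₊)
          (K2S.Fam.pt F) (fun _ => ∑ i, Real.log (ngw ⌊w₀ * J⌋₊ (g₀ k) g₀ (k + 1) i))
          (fun ξ => ybw c₀ k ⌊w₀ * J⌋₊ (g₀ k) g₀ (P₀ (z₀ ξ)) ξ)) ∧
        (Real.log ((2 ^ (Pp - ⌊w₁ * J⌋₊) : ℕ) : ℝ) - CH (Pool.Agent.H49.Ent.cond F.p A True)
          (fun ω => tdg ⌊w₁ * J⌋₊ Pp (K2S.Fam.pt F ω)) (slam F ⌊w₁ * J⌋₊) ≤ δ * J) ∧
        (Real.log ((2 ^ (Pp - ⌊w₀ * J⌋₊) : ℕ) : ℝ) - CH (Pool.Agent.H49.Ent.cond F.p A True)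
          (fun ω => tdg ⌊w₀ * J⌋₊ Pp (K2S.Fam.pt F ω)) (slam F ⌊w₀ * J⌋₊) ≤ δ * J) ∧
        (Real.log ((2 ^ (g₀ k - ⌊w₀ * J⌋₊) : ℕ) : ℝ) - CH (Pool.Agent.H49.Ent.cond F.p A True)
          (fun ω => tdg ⌊w₀ * J⌋₊ (g₀ k) (K2S.Fam.pt F ω)) (slam F ⌊w₀ * J⌋₊) ≤ δ * J) ∧
        ∃ Sv κv : ℝ,
        Pe (Pool.Agent.H49.Ent.cond F.p A True) (fun ω => ¬ InW F k ⌊w₀ * J⌋₊ ⌊w₁ * J⌋₊ Pp
          ⌊q * J⌋₊ c₀ ρ g₀ (shG k s g₁) z₀ P₀ z₁ (fun v => shP k s (P₁ v)) Sv κv ω) ≤ c) := by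
  classical
  obtain ⟨N₁, φ₁, hφ₁, hB1⟩ := mxc_w k hmem (c := c₁) (hw0.trans hw01) hw1 hex1 hδ
  obtain ⟨N₂, φ₂, hφ₂, hB2⟩ := mxc_w k hmem (c := c₀) hw0 (hw01.trans hw1) hex0 hδ
  obtain ⟨φ₃, hφ₃, hB3⟩ := inw_w k K hmem (c₀ := c₀) (pr := pr) hw0 hw01 hw1 hex1 hη hc hm0 hm1
    hvol
  obtain ⟨φ, hφ⟩ : ∃ φ : ℝ, φ = min φ₁ (min φ₂ φ₃) := ⟨_, rfl⟩
  have hφ0 : 0 < φ := by
    rw [hφ]
    exact lt_min hφ₁ (lt_min hφ₂ hφ₃)
  have f1 : φ ≤ φ₁ := by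
    rw [hφ]
    exact min_le_left _ _
  have f2 : φ ≤ φ₂ := by
    rw [hφ]
    exact (min_le_right _ _).trans (min_le_left _ _)
  have f3 : φ ≤ φ₃ := by
    rw [hφ]
    exact (min_le_right _ _).trans (min_le_right _ _)
  refine ⟨max N₁ N₂, φ, hφ0, (((tdg_w hmem w₁ hδ).and (tdg_w hmem w₀ hδ)).and
    ((hB1.and hB2).and hB3)).mono 0 ?_⟩
  rintro J - F A ⟨⟨ht1, ht0⟩, ⟨hm1, hm2⟩, hA, hm3⟩
  refine ⟨hA, ?_⟩
  intro Dq X φ' ρ Pr sg₀ sg kap g₀ g₁ L V₀ V₁ z₀ z₀' P₀ z₁ z₁' P₁ Qh ρz hφ' G s Pp hPP hPJ hgJ hgw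
  have hJ0 : (0 : ℝ) ≤ J := Nat.cast_nonneg J
  have hWg : ⌊w₀ * J⌋₊ ≤ g₀ k := hgw 0 (by omega)
  obtain ⟨n₁, hn₁, hM1⟩ := hm1 Pp (shG k s g₁) (sg + s) K L V₁ z₁ z₁' (fun v => shP k s (P₁ v))
    (fun l hl => by
      have h1 := abs_le.1 (G.be1 l hl)
      have h2 : φ' * J ≤ φ₁ * J := mul_le_mul_of_nonneg_right (hφ'.trans f1) hJ0
      rw [shG_lt hl]
      linarith) (fun i hi => by
      rw [wid_shG hi]
      exact (G.wd1 i hi).trans hPP) hPJ (nlab_shift G.n1 s)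
  obtain ⟨n₂, hn₂, hM2⟩ := hm2 (g₀ k) g₀ sg₀ K L V₀ z₀ z₀' P₀
    (fun l hl => by
      have h1 := abs_le.1 (G.be0 l hl)
      have h2 : φ' * J ≤ φ₂ * J := mul_le_mul_of_nonneg_right (hφ'.trans f2) hJ0
      linarith) hgw hgJ G.n0
  exact ⟨⟨n₁, hn₁.trans (le_max_left _ _), hM1⟩, ⟨n₂, hn₂.trans (le_max_right _ _), hM2⟩,
    ht1 Pp (G.WP.trans hPP) hPJ, ht0 Pp (G.W01.trans (G.WP.trans hPP)) hPJ, ht0 (g₀ k) hWg hgJ,
    hm3 Dq X φ' ρ Pr sg₀ sg kap g₀ g₁ L V₀ V₁ z₀ z₀' P₀ z₁ z₁' P₁ Qh ρz (hφ'.trans f3) G s Pp hPP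
      hPJ⟩

end Pool.GEO
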